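import Pool.Agent.L7h49.OF.Int5

/-!
# The integral of a closed form over the fibres does not depend on the fibre
-/

set_option autoImplicit false

open Set Filter Topology MeasureTheory
open scoped Manifold ContDiff

noncomputable section

namespace Pool.Agent.L7h49.OG

open Pool.Agent.Y501.SY
open Pool.Agent.N13.TL
open Pool.Agent.L7h49.OF (Om eb co S_L1 S_L2 S_OM1 S_OM2 S_OM3 S_ST1 S_ST2 blk blk_sq)
open Pool.Agent.R772 (ExactF)

variable {n : ℕ} {X : Type} [TopologicalSpace X] [ChartedSpace (E (n + 2)) X]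
  [IsManifold (𝓡 (n + 2)) ∞ X]

/-- `v` is vertical -/
def Vert (F : Fin n → X → ℝ) (x : X) (v : TangentSpace (𝓡 (n + 2)) x) : Prop :=
  ∀ j, dd (d := n + 2) (F j) x v = 0

omit [IsManifold (𝓡 (n + 2)) ∞ X] in
theorem exactF_smooth {ρ : Form (n + 2) X 2} (h : ExactF ρ) : IsSmooth ρ := by
  obtain ⟨_, -, h, -⟩ := h
  exact h

/-- all the linear algebra and Stokes statements -/
structure Tools : Prop where
  L1 : S_L1
  L2 : S_L2
  OM1 : S_OM1
  OM2 : S_OM2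
  OM3 : S_OM3
  ST1 : S_ST1
  ST2 : S_ST2
  TR : Pool.Agent.L7h49.OF.S_TR

theorem contra [CompactSpace X] [T2Space X] (T : Tools) {J : End (n + 2) X}
    {F : Fin n → X → ℝ} {J0' : E n →ₗ[ℝ] E n} {U₁ : Set X} {b : E n} {R₀ : ℝ}
    (hJ0' : ∀ v, J0' (J0' v) = -v) (hJ : IsAlmostComplex J) {τ : Form (n + 2) X 2}
    (hτs : IsSmooth τ) (hτ : ∀ x, TamesAt τ J x) (hR : Region J F J0' U₁ b R₀)
    {ζ κ : Form (n + 2) X 2} (hζ : IsSmooth ζ) (hζc : IsClosedForm ζ) (hκ : IsSmooth κ)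
    {R₁ : ℝ} (hR₁ : R₁ ≤ R₀)
    (hκc : ∀ (c : X), ∀ p ∈ (chartAt (E (n + 2)) c).target,
      (chartAt (E (n + 2)) c).symm p ∈ U₁ →
      Fe F ((chartAt (E (n + 2)) c).symm p) ∈ Metric.ball b R₁ →
      extDeriv (pb (chartAt (E (n + 2)) c).symm κ) p = 0)
    (hreg : ∀ δ : ℝ, 0 < δ → ∃ x₁ ∈ U₁, Fe F x₁ ∈ Metric.ball b δ ∧ Reg (d := n + 2) F x₁)
    {L : ℝ} (hL : 0 < L) {ρ1 : Form (n + 2) X 2} (hρ1 : ExactF ρ1) {δ1 : ℝ} (hδ1 : 0 < δ1)
    (h1 : ∀ x ∈ U₁, Fe F x ∈ Metric.ball b δ1 → ∀ v, Vert F x v →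
      q τ J x v ≤ q (L • κ + ρ1) J x v)
    (h2 : ∀ ε : ℝ, 0 < ε → ∃ ρ : Form (n + 2) X 2, ExactF ρ ∧ ∃ δ : ℝ, 0 < δ ∧
      ∀ x ∈ U₁, Fe F x ∈ Metric.ball b δ → ∀ v, Vert F x v →
        q (ζ + ρ) J x v ≤ ε * q τ J x v)
    {b' : E n} (hb' : b' ∈ Metric.ball b R₁) {ρ3 : Form (n + 2) X 2} (hρ3 : ExactF ρ3)
    {c₀ : ℝ} (hc₀ : 0 < c₀) {δ3 : ℝ} (hδ3 : 0 < δ3)
    (h3 : ∀ x ∈ U₁, Fe F x ∈ Metric.ball b' δ3 → ∀ v, Vert F x v →
      c₀ * q τ J x v ≤ q (ζ + ρ3) J x v) : False := by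
  obtain ⟨ι, _, c, r, s, χ, ha⟩ := exists_atl T.L1 T.L2 (blk_sq hJ0') hJ
  obtain ⟨C', hC', hκτ⟩ := bound2 hJ hκ hτs hτ
  -- the small parameter
  set ε : ℝ := c₀ / (2 * C' * L) with hε
  have hε0 : 0 < ε := by positivity
  obtain ⟨ρ2, hρ2, δ2, hδ2, h2'⟩ := h2 ε hε0
  have hdist : 0 < R₁ - dist b' b := by
    rw [Metric.mem_ball] at hb'
    linarith
  set δ : ℝ := min (min δ1 δ2) (min δ3 (R₁ - dist b' b)) with hδ
  have hδ0 : 0 < δ := lt_min (lt_min hδ1 hδ2) (lt_min hδ3 hdist)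
  have hδ1' : δ ≤ δ1 := (min_le_left _ _).trans (min_le_left _ _)
  have hδ2' : δ ≤ δ2 := (min_le_left _ _).trans (min_le_right _ _)
  have hδ3' : δ ≤ δ3 := (min_le_right _ _).trans (min_le_left _ _)
  have hδ4' : δ ≤ R₁ - dist b' b := (min_le_right _ _).trans (min_le_right _ _)
  -- the bump functions
  let f : ContDiffBump b := ⟨δ / 4, δ / 2, by positivity, by linarith⟩
  have hg : ContDiff ℝ ∞ (f : E n → ℝ) := f.contDiff
  have hgt : tsupport (f : E n → ℝ) = Metric.closedBall b (δ / 2) := f.tsupport_eq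
  have hgc : HasCompactSupport (f : E n → ℝ) := f.hasCompactSupport
  have hg0 : ∀ z, 0 ≤ f z := fun z => f.nonneg
  have hgb : 0 < f b := f.pos_of_mem_ball (Metric.mem_ball_self (by positivity))
  set a : E n := b' - b with ha'
  have hna : ‖a‖ = dist b' b := (dist_eq_norm b' b).symm
  set g' : E n → ℝ := fun z => f (z - a) with hg'
  have hgs : ContDiff ℝ ∞ g' := hg.comp (contDiff_id.sub contDiff_const)
  have hg0' : ∀ z, 0 ≤ g' z := fun z => hg0 _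
  have hgt' : tsupport g' ⊆ Metric.closedBall b' (δ / 2) := by
    refine closure_minimal ?_ Metric.isClosed_closedBall
    intro z hz
    have h4 : z - a ∈ Metric.closedBall b (δ / 2) := by
      rw [← hgt]
      exact subset_tsupport _ hz
    rw [Metric.mem_closedBall, dist_eq_norm] at h4 ⊢
    have h5 : z - a - b = z - b' := by rw [ha']; abel
    rwa [h5] at h4
  have hsub1 : tsupport (f : E n → ℝ) ⊆ Metric.ball b R₀ := by
    rw [hgt]
    intro z hz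
    rw [Metric.mem_closedBall] at hz
    rw [Metric.mem_ball]
    have := dist_nonneg (x := b') (y := b)
    linarith
  have hsub2 : tsupport g' ⊆ Metric.ball b R₀ := by
    intro z hz
    have h4 := hgt' hz
    rw [Metric.mem_closedBall] at h4
    rw [Metric.mem_ball]
    have := dist_triangle z b' b
    linarith
  have hpath : ∀ t : ℝ, 0 ≤ t → t ≤ 1 → ∀ x ∈ tsupport (f : E n → ℝ),
      x + t • a ∈ Metric.ball b R₁ := by
    intro t ht0 ht1 x hx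
    rw [hgt, Metric.mem_closedBall, dist_eq_norm] at hx
    rw [Metric.mem_ball, dist_eq_norm]
    have h4 : x + t • a - b = (x - b) + t • a := by abel
    rw [h4]
    have h5 := norm_add_le (x - b) (t • a)
    rw [norm_smul, Real.norm_of_nonneg ht0, hna] at h5
    have h6 : t * dist b' b ≤ dist b' b := by
      have := dist_nonneg (x := b') (y := b)
      nlinarith
    linarith
  have hnear : ∀ z, (f : E n → ℝ) z ≠ 0 → z ∈ Metric.ball b δ := by
    intro z hz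
    have h4 : z ∈ tsupport (f : E n → ℝ) := subset_tsupport _ hz
    rw [hgt, Metric.mem_closedBall] at h4
    rw [Metric.mem_ball]
    linarith
  have hnear' : ∀ z, g' z ≠ 0 → z ∈ Metric.ball b' δ := by
    intro z hz
    have h4 := hgt' (subset_tsupport _ hz)
    rw [Metric.mem_closedBall] at h4
    rw [Metric.mem_ball]
    linarith
  -- translations
  have e1 : TT c r s χ U₁ F g' ζ = TT c r s χ U₁ F f ζ :=
    TT_trans T.L2 T.OM1 T.OM2 T.ST2 T.TR hJ0' hJ ha hR hζ (V := univ) (fun c p hp _ => by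
      have h4 := hζc _ _ (chartAt (E (n + 2)) c).open_target contMDiffOn_chart_symm p hp
      rw [h4]
      rfl) hR₁ (fun _ _ _ => mem_univ _) hg hgc a hpath
  have e2 : TT c r s χ U₁ F g' κ = TT c r s χ U₁ F f κ :=
    TT_trans T.L2 T.OM1 T.OM2 T.ST2 T.TR hJ0' hJ ha hR hκ
      (V := {x | x ∈ U₁ ∧ Fe F x ∈ Metric.ball b R₁}) (fun c p hp h => hκc c p hp h.1 h.2) hR₁
      (fun x hxU hx => ⟨hxU, hx⟩) hg hgc a hpath
  -- linearity
  have hadd : ∀ {g : E n → ℝ}, ContDiff ℝ ∞ g → tsupport g ⊆ Metric.ball b R₀ →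
      ∀ {ρ ρ' : Form (n + 2) X 2}, IsSmooth ρ → IsSmooth ρ' →
      TT c r s χ U₁ F g (ρ + ρ') = TT c r s χ U₁ F g ρ + TT c r s χ U₁ F g ρ' :=
    fun hg hs _ _ hρ hρ' => TT_add T.OM1 ha hR hg hs hρ hρ'
  have hex : ∀ {g : E n → ℝ}, ContDiff ℝ ∞ g → tsupport g ⊆ Metric.ball b R₀ →
      ∀ {ρ : Form (n + 2) X 2}, ExactF ρ → TT c r s χ U₁ F g ρ = 0 :=
    fun hg hs _ hρ => TT_exact T.L2 T.OM1 T.ST1 hJ0' hJ ha hR hg hs hρ
  have hnn : ∀ {g : E n → ℝ}, tsupport g ⊆ Metric.ball b R₀ → (∀ z, 0 ≤ g z) →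
      ∀ {ρ : Form (n + 2) X 2}, (∀ x ∈ U₁, g (Fe F x) ≠ 0 → ∀ v : TangentSpace (𝓡 (n + 2)) x,
        Vert F x v → 0 ≤ q ρ J x v) → 0 ≤ TT c r s χ U₁ F g ρ :=
    fun hs hg0 _ hρ => TT_nonneg T.L1 T.L2 T.OM1 T.OM2 T.OM3 hJ0' hJ hτ ha hR hs hg0 hρ
  have s1 := exactF_smooth hρ1
  have s2 := exactF_smooth hρ2
  have s3 := exactF_smooth hρ3
  -- (B)
  have iB : TT c r s χ U₁ F f τ ≤ L * TT c r s χ U₁ F f κ := by
    have h4 : 0 ≤ TT c r s χ U₁ F f ((L • κ + ρ1) + (-1 : ℝ) • τ) := by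
      refine hnn hsub1 hg0 fun x hx hgx v hv => ?_
      have h5 := h1 x hx (Metric.ball_subset_ball hδ1' (hnear _ hgx)) v hv
      rw [q_add, q_smul]
      linarith
    rw [hadd hg hsub1 ((hκ.smul L).add s1) (hτs.smul (-1)), hadd hg hsub1 (hκ.smul L) s1,
      hex hg hsub1 hρ1, TT_smul, TT_smul] at h4
    linarith
  have iC : TT c r s χ U₁ F f ζ ≤ ε * TT c r s χ U₁ F f τ := by
    have h4 : 0 ≤ TT c r s χ U₁ F f (ε • τ + (-1 : ℝ) • (ζ + ρ2)) := by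
      refine hnn hsub1 hg0 fun x hx hgx v hv => ?_
      have h5 := h2' x hx (Metric.ball_subset_ball hδ2' (hnear _ hgx)) v hv
      rw [q_add, q_smul, q_smul]
      linarith
    rw [hadd hg hsub1 (hτs.smul ε) ((hζ.add s2).smul (-1)), TT_smul, TT_smul,
      hadd hg hsub1 hζ s2, hex hg hsub1 hρ2] at h4
    linarith
  have iD : c₀ * TT c r s χ U₁ F g' τ ≤ TT c r s χ U₁ F g' ζ := by
    have h4 : 0 ≤ TT c r s χ U₁ F g' ((ζ + ρ3) + (-c₀) • τ) := by
      refine hnn hsub2 hg0' fun x hx hgx v hv => ?_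
      have h5 := h3 x hx (Metric.ball_subset_ball hδ3' (hnear' _ hgx)) v hv
      rw [q_add, q_smul]
      linarith
    rw [hadd hgs hsub2 (hζ.add s3) (hτs.smul (-c₀)), TT_smul, hadd hgs hsub2 hζ s3,
      hex hgs hsub2 hρ3] at h4
    linarith
  have iE : TT c r s χ U₁ F g' κ ≤ C' * TT c r s χ U₁ F g' τ := by
    have h4 : 0 ≤ TT c r s χ U₁ F g' (C' • τ + (-1 : ℝ) • κ) := by
      refine hnn hsub2 hg0' fun x hx hgx v hv => ?_
      have h5 := (le_abs_self _).trans (hκτ x v)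
      rw [q_add, q_smul, q_smul]
      linarith
    rw [hadd hgs hsub2 (hτs.smul C') (hκ.smul (-1)), TT_smul, TT_smul] at h4
    linarith
  have iF : 0 < TT c r s χ U₁ F f κ := by
    obtain ⟨x₁, hx₁, hFx₁, hreg₁⟩ := hreg (δ / 2) (by positivity)
    have h4 : 0 < TT c r s χ U₁ F f τ := by
      refine TT_pos T.L1 T.L2 T.OM1 T.OM2 T.OM3 hJ0' hJ hτ ha hR hg hsub1 hg0 hτs
        (fun x _ _ v _ => q_nonneg (hτ x) v) hx₁ (f.pos_of_mem_ball hFx₁) hreg₁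
        (fun v hv _ => hτ x₁ v hv)
    have h5 : 0 < L * TT c r s χ U₁ F f κ := lt_of_lt_of_le h4 iB
    exact pos_of_mul_pos_right h5 hL.le
  rw [e1] at iD
  rw [e2] at iE
  set A := TT c r s χ U₁ F f κ with hA
  set B := TT c r s χ U₁ F f τ with hB
  have i1 : B ≤ L * A := iB
  have i2 : c₀ * A ≤ C' * TT c r s χ U₁ F f ζ := by
    have := mul_le_mul_of_nonneg_left iE hc₀.le
    have h5 := mul_le_mul_of_nonneg_left iD hC'.le
    nlinarith
  have i3 : C' * TT c r s χ U₁ F f ζ ≤ C' * (ε * (L * A)) :=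
    mul_le_mul_of_nonneg_left (iC.trans (mul_le_mul_of_nonneg_left i1 hε0.le)) hC'.le
  have i4 : C' * (ε * (L * A)) = c₀ * A / 2 := by
    rw [hε]
    field_simp
  have i5 : 0 < c₀ * A := mul_pos hc₀ iF
  linarith

end Pool.Agent.L7h49.OG
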