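import Pool.Agent.L7h49.TS.Main

/-!
# Project OF: pull-back of forms under smooth maps between manifolds of different dimensions
-/

set_option autoImplicit false

open Set Filter Topology MeasureTheory
open scoped Manifold ContDiff

noncomputable section

namespace Pool.Agent.L7h49.OG

open Pool.Agent.Y501.SY

/-- the pull-back of a two-form by a map -/
def pull {d n : ℕ} {X N : Type} [TopologicalSpace X] [ChartedSpace (E d) X]
    [TopologicalSpace N] [ChartedSpace (E n) N] (f : X → N) (σ : Form n N 2) : Form d X 2 :=
  fun x => (σ (f x)).compContinuousLinearMap (mfderiv (𝓡 d) (𝓡 n) f x)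

/-- the pull-back of a smooth form is smooth, and closed if the form is closed: near a point
`pb φ (pull f σ)` is the pull-back of `pb (chartAt y).symm σ` by the smooth map
`chartAt y ∘ f ∘ φ` (`extDeriv_pullback` in `Mathlib.Analysis.Calculus.DifferentialForm`) -/
def S_PBK : Prop := ∀ (d n : ℕ) (X N : Type) [TopologicalSpace X] [ChartedSpace (E d) X]
  [IsManifold (𝓡 d) ∞ X] [TopologicalSpace N] [ChartedSpace (E n) N] [IsManifold (𝓡 n) ∞ N]
  (f : X → N) (σ : Form n N 2), ContMDiff (𝓡 d) (𝓡 n) ∞ f → IsSmooth σ →
  IsSmooth (pull (d := d) f σ) ∧ (IsClosedForm σ → IsClosedForm (pull (d := d) f σ))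

end Pool.Agent.L7h49.OG
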