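import Pool.Agent.L7h49.OF.Near
import Pool.Agent.L7h49.OF.Stm3

/-!
# Coordinates near a fibre
-/

set_option autoImplicit false

open Set Filter Topology MeasureTheory
open scoped Manifold ContDiff

noncomputable section

namespace Pool.Agent.L7h49.OG

open Pool.Agent.Y501.SY
open Pool.Agent.N13.TL
open Pool.Agent.Y455.SY (A B AB BA A_surj Q_eq)
open Pool.Agent.L7h49.TS (qq qq_cont unit_compact tb_t2 HasP WS Cr exists_cr qq_add qq_smul
  exactF_zero exactF_add exactF_smul exactF_mem int_cont ne_zero_of_unit A_kap kap)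
open Pool.Agent.R772 (ExactF)

theorem quot_structure {n : ℕ} (C : E (n + 2) →ₗ[ℝ] E n) (J : E (n + 2) →ₗ[ℝ] E (n + 2))
    (hJ : ∀ v, J (J v) = -v) (hC : Function.Surjective C) (hker : ∀ v, C v = 0 → C (J v) = 0) :
    ∃ J0' : E n →ₗ[ℝ] E n, (∀ w, J0' (J0' w) = -w) ∧ ∀ v, C (J v) = J0' (C v) := by
  obtain ⟨σ₀, hσ₀⟩ := C.exists_rightInverse_of_surjective (LinearMap.range_eq_top.2 hC)
  have hσ₀' : ∀ w, C (σ₀ w) = w := fun w => LinearMap.congr_fun hσ₀ w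
  let J' : E n →ₗ[ℝ] E n := C ∘ₗ J ∘ₗ σ₀
  have hCJ : ∀ v, C (J v) = J' (C v) := by
    intro v
    have h3 : C (v - σ₀ (C v)) = 0 := by rw [map_sub, hσ₀', sub_self]
    have h4 := hker _ h3
    rw [map_sub, map_sub, sub_eq_zero] at h4
    exact h4
  refine ⟨J', fun w => ?_, hCJ⟩
  rw [← hσ₀' w, ← hCJ, ← hCJ, hJ, map_neg]

theorem open_tame {n : ℕ} {η : E n → (E n) [⋀^Fin 2]→L[ℝ] ℝ} {b : E n} (hη : ContinuousAt η b)
    {J0' : E n →ₗ[ℝ] E n} (h : ∀ w, w ≠ 0 → 0 < η b ![w, J0' w]) :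
    ∀ᶠ z in 𝓝 b, ∀ w, w ≠ 0 → 0 < η z ![w, J0' w] := by
  have hJc : Continuous J0' := J0'.continuous_of_finiteDimensional
  have h1 : ∀ᶠ z in 𝓝 b, ∀ w ∈ Metric.sphere (0 : E n) 1, 0 < η z ![w, J0' w] := by
    refine (isCompact_sphere (0 : E n) 1).eventually_forall_of_forall_eventually
      (P := fun z w => 0 < η z ![w, J0' w]) fun w hw => ?_
    have hw0 : w ≠ 0 := by
      rintro rfl
      simp at hw
    have h2 : ContinuousAt (fun z : E n × E n => η z.1 ![z.2, J0' z.2]) (b, w) := by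
      have h3 : ContinuousAt (fun z : E n × E n => η z.1) (b, w) :=
        ContinuousAt.comp (g := η) (f := Prod.fst) hη continuousAt_fst
      have h4 : ContinuousAt (fun z : E n × E n => (![z.2, J0' z.2] : Fin 2 → E n)) (b, w) := by
        refine continuousAt_pi.2 fun i => ?_
        fin_cases i
        · exact continuousAt_snd
        · exact hJc.continuousAt.comp continuousAt_snd
      have h5 : Continuous (fun z : ((E n) [⋀^Fin 2]→L[ℝ] ℝ) × (Fin 2 → E n) => z.1 z.2) :=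
        ContinuousEval.continuous_eval
      exact ContinuousAt.comp (g := fun z : ((E n) [⋀^Fin 2]→L[ℝ] ℝ) × (Fin 2 → E n) => z.1 z.2)
        h5.continuousAt (h3.prodMk h4)
    exact h2.eventually (lt_mem_nhds (h w hw0))
  filter_upwards [h1] with z hz w hw
  have hn : 0 < ‖w‖ := norm_pos_iff.2 hw
  have h2 := hz (‖w‖⁻¹ • w) (by
    rw [mem_sphere_zero_iff_norm, norm_smul, norm_inv, norm_norm, inv_mul_cancel₀ hn.ne'])
  have h3 : (![‖w‖⁻¹ • w, J0' (‖w‖⁻¹ • w)] : Fin 2 → E n) =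
      fun i => (fun _ : Fin 2 => ‖w‖⁻¹) i • (![w, J0' w] : Fin 2 → E n) i := by
    funext i
    fin_cases i
    · rfl
    · exact map_smul J0' _ w
  rw [h3, ContinuousAlternatingMap.map_smul_univ] at h2
  have h4 : 0 < ∏ _i : Fin 2, ‖w‖⁻¹ := by positivity
  rw [smul_eq_mul] at h2
  exact pos_of_mul_pos_right h2 h4.le

variable {n : ℕ} {X N : Type} [TopologicalSpace X] [ChartedSpace (E (n + 2)) X]
  [TopologicalSpace N] [ChartedSpace (E n) N]

/-- a map to a symplectic manifold whose fibres are `J`-holomorphic curves -/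
structure SympFib (J : End (n + 2) X) (f : X → N) (w : Form n N 2) : Prop where
  smooth : ContMDiff (𝓡 (n + 2)) (𝓡 n) ∞ f
  wsmooth : IsSmooth w
  wclosed : IsClosedForm w
  tame : ∀ (x : X) (v : TangentSpace (𝓡 (n + 2)) x), mfderiv (𝓡 (n + 2)) (𝓡 n) f x v ≠ 0 →
    0 < w (f x) ![mfderiv (𝓡 (n + 2)) (𝓡 n) f x v, mfderiv (𝓡 (n + 2)) (𝓡 n) f x (J x v)]

theorem SympFib.ker {J : End (n + 2) X} (hJ : IsAlmostComplex J) {f : X → N} {w : Form n N 2}
    (h : SympFib J f w) {x : X} {v : TangentSpace (𝓡 (n + 2)) x}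
    (hv : mfderiv (𝓡 (n + 2)) (𝓡 n) f x v = 0) :
    mfderiv (𝓡 (n + 2)) (𝓡 n) f x (J x v) = 0 := by
  by_contra h0
  have h1 := h.tame x (J x v) h0
  rw [hJ.sq, map_neg, hv, neg_zero] at h1
  have h2 := (w (f x)).map_coord_zero (m := ![mfderiv (𝓡 (n + 2)) (𝓡 n) f x (J x v), 0]) 1 rfl
  rw [h2] at h1
  exact lt_irrefl _ h1

theorem form_tr (σ : Form n N 2) {y y' : N} (h : y' = y) (v w : E n) :
    σ y' ![v, w] = σ y ![v, w] := by
  subst h
  rfl

variable [IsManifold (𝓡 (n + 2)) ∞ X] [IsManifold (𝓡 n) ∞ N]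

/-- the complex structure induced on the base by a regular point -/
theorem base_struct {J : End (n + 2) X}
    (hJ : IsAlmostComplex J) {f : X → N} {w : Form n N 2} (h : SympFib J f w) {y₀ : N}
    {x₀ : X} (hx₀ : f x₀ = y₀) (hreg : Function.Surjective (mfderiv (𝓡 (n + 2)) (𝓡 n) f x₀)) :
    ∃ I₀ : E n →ₗ[ℝ] E n, (∀ v, I₀ (I₀ v) = -v) ∧ ∀ u : E n, u ≠ 0 → 0 < w y₀ ![u, I₀ u] := by
  subst hx₀
  let Df : E (n + 2) →L[ℝ] E n := mfderiv (𝓡 (n + 2)) (𝓡 n) f x₀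
  let Jx : E (n + 2) →L[ℝ] E (n + 2) := J x₀
  obtain ⟨I₀, h1, h2⟩ := quot_structure (Df : E (n + 2) →ₗ[ℝ] E n)
    (Jx : E (n + 2) →ₗ[ℝ] E (n + 2)) (hJ.sq x₀) hreg (fun v hv => h.ker hJ hv)
  refine ⟨I₀, h1, fun u hu => ?_⟩
  obtain ⟨v, hv⟩ := hreg u
  have hv' : Df v = u := hv
  have h3 : I₀ u = Df (Jx v) := by
    rw [← hv']
    exact (h2 v).symm
  rw [h3, ← hv']
  refine h.tame x₀ v fun h4 => hu ?_
  rw [← hv']
  exact h4

/-- coordinates near the fibre over `y₀` -/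
theorem local_region [CompactSpace X] [T2Space X] [T2Space N] {J : End (n + 2) X}
    (hJ : IsAlmostComplex J) {f : X → N} {w : Form n N 2} (h : SympFib J f w) (y₀ : N)
    {I₀ : E n →ₗ[ℝ] E n} (hI₀ : ∀ v, I₀ (I₀ v) = -v)
    (hI₀w : ∀ u : E n, u ≠ 0 → 0 < w y₀ ![u, I₀ u]) :
    ∃ (F : Fin n → X → ℝ) (J0' : E n →ₗ[ℝ] E n) (B₁ : Set N) (R₀ : ℝ),
      (∀ v, J0' (J0' v) = -v) ∧ IsOpen B₁ ∧ y₀ ∈ B₁ ∧ B₁ ⊆ (chartAt (E n) y₀).source ∧
      Region J F J0' (f ⁻¹' B₁) (chartAt (E n) y₀ y₀) R₀ ∧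
      (∀ x, f x ∈ B₁ → Fe F x = chartAt (E n) y₀ (f x)) ∧
      (∀ x, f x ∈ B₁ → ∀ v, Vert F x v ↔ mfderiv (𝓡 (n + 2)) (𝓡 n) f x v = 0) ∧
      ∀ x, f x ∈ B₁ → (Reg (d := n + 2) F x ↔
        Function.Surjective (mfderiv (𝓡 (n + 2)) (𝓡 n) f x)) := by
  set φ := chartAt (E n) y₀ with hφ
  have hsrc : y₀ ∈ φ.source := mem_chart_source (E n) y₀
  -- the cut off coordinates
  let β : SmoothBumpFunction (𝓡 n) y₀ := Classical.arbitrary _
  obtain ⟨B₁, hB₁1, hB₁o, hB₁m⟩ : ∃ B₁ ⊆ {y | β y = 1}, IsOpen B₁ ∧ y₀ ∈ B₁ := by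
    have h1 : ∀ᶠ y in 𝓝 y₀, β y = 1 := β.eventuallyEq_one
    exact mem_nhds_iff.1 h1
  have hB₁s : B₁ ⊆ φ.source := by
    intro y hy
    have h1 : β y ≠ 0 := by
      rw [hB₁1 hy]
      exact one_ne_zero
    exact β.support_subset_source h1
  let θ : Fin n → N → ℝ := fun j y => β y • (φ y j)
  have hθ : ∀ j, ContMDiff (𝓡 n) 𝓘(ℝ, ℝ) ∞ (θ j) := by
    intro j
    refine β.contMDiff_smul (G := ℝ) ?_
    have h1 : ContMDiffOn (𝓡 n) (𝓡 n) ∞ φ φ.source := contMDiffOn_chart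
    have h2 : ContMDiff 𝓘(ℝ, E n) 𝓘(ℝ, ℝ) ∞ (EuclideanSpace.proj (𝕜 := ℝ) j : E n → ℝ) :=
      (EuclideanSpace.proj (𝕜 := ℝ) j : E n →L[ℝ] ℝ).contDiff.contMDiff
    exact h2.comp_contMDiffOn h1
  have hθ1 : ∀ j, ∀ y ∈ B₁, θ j y = φ y j := by
    intro j y hy
    show β y • (φ y j) = φ y j
    rw [hB₁1 hy, one_smul]
  let F : Fin n → X → ℝ := fun j x => θ j (f x)
  have hF : ∀ j, SmoothFun (d := n + 2) (F j) := fun j => (hθ j).comp h.smooth
  have hUo : IsOpen (f ⁻¹' B₁) := hB₁o.preimage h.smooth.continuous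
  have hFe : ∀ x, f x ∈ B₁ → Fe F x = φ (f x) := by
    intro x hx
    ext j
    exact hθ1 j _ hx
  -- the differential
  let Dφ : (x : X) → E n →L[ℝ] E n := fun x => mfderiv (𝓡 n) (𝓡 n) φ (f x)
  let Df : (x : X) → E (n + 2) →L[ℝ] E n := fun x => mfderiv (𝓡 (n + 2)) (𝓡 n) f x
  have hCF : ∀ x, f x ∈ B₁ → ∀ v, CF F x v = Dφ x (Df x v) := by
    intro x hx v
    have h1 : MDifferentiableAt (𝓡 (n + 2)) (𝓡 n) f x :=
      (h.smooth x).mdifferentiableAt (by simp)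
    have h2 : MDifferentiableAt (𝓡 n) (𝓡 n) φ (f x) :=
      ((contMDiffOn_chart (I := 𝓡 n) (n := ∞) (x := y₀)).contMDiffAt
        (φ.open_source.mem_nhds (hB₁s hx))).mdifferentiableAt (by simp)
    have h3 := h2.hasMFDerivAt.comp x h1.hasMFDerivAt
    have h4 : Fe F =ᶠ[𝓝 x] (φ ∘ f) := by
      filter_upwards [hUo.mem_nhds hx] with y hy
      exact hFe y hy
    have h5 := (h3.congr_of_eventuallyEq h4).mfderiv
    have h6 : (mfderiv (𝓡 (n + 2)) 𝓘(ℝ, E n) (Fe F) x v : E n) = CF F x v := Fe_deriv hF x v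
    exact h6.symm.trans (congrArg (fun L => L v) h5)
  have hAD : ∀ x, f x ∈ B₁ → ∀ u : E n, A y₀ (φ (f x)) (Dφ x u) = u := by
    intro x hx u
    exact A_kap y₀ (p := (⟨f x, u⟩ : TangentBundle (𝓡 n) N)) (hB₁s hx)
  have hDinj : ∀ x, f x ∈ B₁ → ∀ u : E n, Dφ x u = 0 → u = 0 := by
    intro x hx u hu
    rw [← hAD x hx u, hu, map_zero]
  have hDsurj : ∀ x, f x ∈ B₁ → Function.Surjective (Dφ x) := by
    intro x hx
    have h1 : Function.Injective (Dφ x : E n →ₗ[ℝ] E n) := by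
      intro a b hab
      have h2 : Dφ x (a - b) = 0 := by
        rw [map_sub]
        exact sub_eq_zero.2 hab
      exact sub_eq_zero.1 (hDinj x hx _ h2)
    exact LinearMap.injective_iff_surjective.1 h1
  have hCF0 : ∀ x, ∀ v, CF F x v = 0 ↔ Vert F x v := by
    intro x v
    constructor
    · intro h1 j
      exact congrArg (fun z : E n => z j) h1
    · intro h1
      ext j
      exact h1 j
  have hvert : ∀ x, f x ∈ B₁ → ∀ v, Vert F x v ↔ mfderiv (𝓡 (n + 2)) (𝓡 n) f x v = 0 := by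
    intro x hx v
    constructor
    · intro h1
      exact hDinj x hx _ ((hCF x hx v).symm.trans ((hCF0 x v).2 h1))
    · intro h1
      have h2 : Df x v = 0 := h1
      have h3 : Dφ x (Df x v) = 0 := by rw [h2, map_zero]
      exact (hCF0 x v).1 ((hCF x hx v).trans h3)
  have hregi : ∀ x, f x ∈ B₁ → (Reg (d := n + 2) F x ↔
      Function.Surjective (mfderiv (𝓡 (n + 2)) (𝓡 n) f x)) := by
    intro x hx
    constructor
    · intro h1
      intro (u : E n)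
      obtain ⟨v, hv⟩ := h1 fun j => (Dφ x u) j
      refine ⟨v, ?_⟩
      have h2 : CF F x v = Dφ x u := by
        ext j
        exact hv j
      have h2' : Dφ x (Df x v) = Dφ x u := (hCF x hx v).symm.trans h2
      have h3 : Dφ x (Df x v - u) = 0 := by
        rw [map_sub]
        exact sub_eq_zero.2 h2'
      exact sub_eq_zero.1 (hDinj x hx _ h3)
    · intro h1 u
      obtain ⟨a, ha⟩ := hDsurj x hx (WithLp.toLp 2 u)
      obtain ⟨v, hv⟩ := h1 a
      refine ⟨v, fun j => ?_⟩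
      have h2 : CF F x v = WithLp.toLp 2 u := by
        refine (hCF x hx v).trans ?_
        have h3 : Df x v = a := hv
        rw [h3, ha]
      exact congrArg (fun z : E n => z j) h2
  -- the form in coordinates
  let η : E n → (E n) [⋀^Fin 2]→L[ℝ] ℝ := pb φ.symm w
  have hη : ∀ x, f x ∈ B₁ → ∀ u v : E (n + 2), η (φ (f x)) ![CF F x u, CF F x v] =
      w (f x) ![Df x u, Df x v] := by
    intro x hx u v
    have h1 : η (φ (f x)) ![CF F x u, CF F x v] =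
        w (φ.symm (φ (f x))) ![A y₀ (φ (f x)) (CF F x u), A y₀ (φ (f x)) (CF F x v)] := by
      show (w (φ.symm (φ (f x)))) (fun i => A y₀ (φ (f x))
        ((![CF F x u, CF F x v] : Fin 2 → E n) i)) = _
      congr 1
      funext i
      fin_cases i <;> rfl
    rw [h1, hCF x hx, hCF x hx, hAD x hx, hAD x hx]
    exact form_tr w (φ.left_inv (hB₁s hx)) _ _
  have hηc : ContinuousAt η (φ y₀) := by
    have h1 := (h.wsmooth φ.target φ.symm φ.open_target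
      (contMDiffOn_chart_symm (I := 𝓡 n) (n := ∞) (x := y₀))).continuousOn
    exact h1.continuousAt (φ.open_target.mem_nhds (φ.map_source hsrc))
  -- the structure on the base
  let D₀ : E n →L[ℝ] E n := mfderiv (𝓡 n) (𝓡 n) φ y₀
  have hAD₀ : ∀ u : E n, A y₀ (φ y₀) (D₀ u) = u := fun u =>
    A_kap y₀ (p := (⟨y₀, u⟩ : TangentBundle (𝓡 n) N)) hsrc
  have hD₀i : Function.Injective (D₀ : E n →ₗ[ℝ] E n) := by
    intro a b hab
    have h1 : D₀ a = D₀ b := hab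
    rw [← hAD₀ a, ← hAD₀ b, h1]
  let e₀ : E n ≃ₗ[ℝ] E n := LinearEquiv.ofInjectiveEndo (D₀ : E n →ₗ[ℝ] E n) hD₀i
  have he₀ : ∀ u, e₀ u = D₀ u := fun u => rfl
  have hAe : ∀ u, A y₀ (φ y₀) u = e₀.symm u := by
    intro u
    rw [← e₀.apply_symm_apply u, he₀, hAD₀, ← he₀, e₀.apply_symm_apply]
  let J0' : E n →ₗ[ℝ] E n := (e₀ : E n →ₗ[ℝ] E n) ∘ₗ I₀ ∘ₗ (e₀.symm : E n →ₗ[ℝ] E n)
  have hJ0 : ∀ v, J0' v = e₀ (I₀ (e₀.symm v)) := fun v => rfl
  have hJ0' : ∀ v, J0' (J0' v) = -v := by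
    intro v
    rw [hJ0, hJ0, e₀.symm_apply_apply, hI₀, map_neg, e₀.apply_symm_apply]
  have htame0 : ∀ u, u ≠ 0 → 0 < η (φ y₀) ![u, J0' u] := by
    intro u hu
    have h1 : η (φ y₀) ![u, J0' u] =
        w (φ.symm (φ y₀)) ![A y₀ (φ y₀) u, A y₀ (φ y₀) (J0' u)] := by
      show (w (φ.symm (φ y₀))) (fun i => A y₀ (φ y₀)
        ((![u, J0' u] : Fin 2 → E n) i)) = _
      congr 1
      funext i
      fin_cases i <;> rfl
    rw [h1, hAe, hAe, hJ0, e₀.symm_apply_apply]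
    have h2 := form_tr w (φ.left_inv hsrc) (e₀.symm u) (I₀ (e₀.symm u))
    refine lt_of_lt_of_eq (hI₀w _ fun h3 => hu ?_) h2.symm
    exact (LinearEquiv.map_eq_zero_iff e₀.symm).1 h3
  have hev := open_tame hηc htame0
  have hBimg : φ '' B₁ ∈ 𝓝 (φ y₀) :=
    (φ.isOpen_image_of_subset_source hB₁o hB₁s).mem_nhds ⟨y₀, hB₁m, rfl⟩
  obtain ⟨R₀, hR₀, hsub⟩ := Metric.nhds_basis_closedBall.mem_iff.1 (Filter.inter_mem hev hBimg)
  have hset : {x | x ∈ f ⁻¹' B₁ ∧ Fe F x ∈ Metric.closedBall (φ y₀) R₀} =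
      f ⁻¹' (φ.symm '' Metric.closedBall (φ y₀) R₀) := by
    ext x
    constructor
    · rintro ⟨hx, hxb⟩
      refine ⟨Fe F x, hxb, ?_⟩
      rw [hFe x hx, φ.left_inv (hB₁s hx)]
    · rintro ⟨z, hz, hzx⟩
      obtain ⟨y, hy, rfl⟩ := (hsub hz).2
      rw [φ.left_inv (hB₁s hy)] at hzx
      have hx : f x ∈ B₁ := by
        rw [← hzx]
        exact hy
      refine ⟨hx, ?_⟩
      rw [hFe x hx, ← hzx]
      exact hz
  refine ⟨F, J0', B₁, R₀, hJ0', hB₁o, hB₁m, hB₁s, ⟨hF, hUo, hR₀, ?_, fun x hx hxb => ?_⟩,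
    hFe, hvert, hregi⟩
  · rw [hset]
    have h1 : IsCompact (φ.symm '' Metric.closedBall (φ y₀) R₀) := by
      refine (isCompact_closedBall _ _).image_of_continuousOn (φ.continuousOn_symm.mono ?_)
      intro z hz
      obtain ⟨y, hy, rfl⟩ := (hsub hz).2
      exact φ.map_source (hB₁s hy)
    exact h1.isClosed.preimage h.smooth.continuous
  · have hx' : f x ∈ B₁ := hx
    have hz : Fe F x ∈ Metric.closedBall (φ y₀) R₀ := Metric.ball_subset_closedBall hxb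
    refine ⟨fun v hv => ?_, ⟨η (Fe F x), (hsub hz).1, fun v hv => ?_⟩⟩
    · exact (hvert x hx' _).2 (h.ker hJ ((hvert x hx' v).1 hv))
    · rw [hFe x hx']
      refine lt_of_lt_of_eq ?_ (hη x hx' v (J x v)).symm
      refine h.tame x v fun h0 => hv ?_
      refine (hCF x hx' v).trans ?_
      have h4 : Df x v = 0 := h0
      rw [h4, map_zero]

end Pool.Agent.L7h49.OG
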