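import Pool.Agent.L7h49.OF.Glob1

/-!
# One good fibre suffices
-/

set_option autoImplicit false

open Set Filter Topology MeasureTheory
open scoped Manifold ContDiff

noncomputable section

namespace Pool.Agent.L7h49.OG

open Pool.Agent.Y501.SY
open Pool.Agent.N13.TL
open Pool.Agent.L7h49.TS (qq qq_cont unit_compact tb_t2 HasP WS Cr exists_cr qq_add qq_smul qq_zero
  exactF_zero exactF_add exactF_smul exactF_mem int_cont ne_zero_of_unit Flat exists_min indec)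
open Pool.Agent.R772 (ExactF)

variable {n : ℕ} {X N : Type} [TopologicalSpace X] [ChartedSpace (E (n + 2)) X]
  [TopologicalSpace N] [ChartedSpace (E n) N]

/-- positivity of a form on the vertical vectors over `y`, up to exact forms -/
def GoodF (J : End (n + 2) X) (f : X → N) (ζ : Form (n + 2) X 2) (y : N) : Prop :=
  ∃ ρ : Form (n + 2) X 2, ExactF ρ ∧ ∀ x, f x = y → ∀ v : TangentSpace (𝓡 (n + 2)) x, v ≠ 0 →
    mfderiv (𝓡 (n + 2)) (𝓡 n) f x v = 0 → 0 < q (ζ + ρ) J x v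

/-- irreducible fibres -/
structure IrrF (f : X → N) (y : N) : Prop where
  count : {x | f x = y ∧ ¬ Function.Surjective (mfderiv (𝓡 (n + 2)) (𝓡 n) f x)}.Countable
  conn : IsPreconnected {x | f x = y ∧ Function.Surjective (mfderiv (𝓡 (n + 2)) (𝓡 n) f x)}

/-- a two-form which is closed on the open set `S` -/
def ClosedOn (κ : Form (n + 2) X 2) (S : Set X) : Prop :=
  ∀ (U : Set (E (n + 2))) (φ : E (n + 2) → X), IsOpen U →
    ContMDiffOn (𝓡 (n + 2)) (𝓡 (n + 2)) ∞ φ U → (∀ p ∈ U, φ p ∈ S) →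
    ∀ p ∈ U, extDeriv (pb φ κ) p = 0

/-- the fibre over `y` has a tame neighbourhood -/
structure TameF (J : End (n + 2) X) (f : X → N) (w : Form n N 2) (y : N) : Prop where
  base : ∃ I₀ : E n →ₗ[ℝ] E n, (∀ v, I₀ (I₀ v) = -v) ∧ ∀ u : E n, u ≠ 0 → 0 < w y ![u, I₀ u]
  reg : ∀ V ∈ 𝓝 y, ∃ x, f x ∈ V ∧ Function.Surjective (mfderiv (𝓡 (n + 2)) (𝓡 n) f x)
  form : ∃ κ : Form (n + 2) X 2, IsSmooth κ ∧ (∃ V ∈ 𝓝 y, ClosedOn κ (f ⁻¹' V)) ∧
    ∀ x, f x = y → ∀ v : TangentSpace (𝓡 (n + 2)) x, v ≠ 0 →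
      mfderiv (𝓡 (n + 2)) (𝓡 n) f x v = 0 → 0 < q κ J x v

/-- `ζ` is nonpositive on the vertical vectors over `y` up to exact forms and small errors -/
def NonposF (J : End (n + 2) X) (τ : Form (n + 2) X 2) (f : X → N) (ζ : Form (n + 2) X 2)
    (y : N) : Prop :=
  ∀ ε : ℝ, 0 < ε → ∃ ρ : Form (n + 2) X 2, ExactF ρ ∧ ∀ x, f x = y →
    ∀ v : TangentSpace (𝓡 (n + 2)) x, mfderiv (𝓡 (n + 2)) (𝓡 n) f x v = 0 →
      q (ζ + ρ) J x v ≤ ε * q τ J x v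

/-- unit vertical vectors -/
def KA (J : End (n + 2) X) (τ : Form (n + 2) X 2) (f : X → N) :
    Set (TangentBundle (𝓡 (n + 2)) X) :=
  {p | qq τ J p = 1 ∧ mfderiv (𝓡 (n + 2)) (𝓡 n) f p.proj p.snd = 0}

section

variable {J : End (n + 2) X} {f : X → N} {w : Form n N 2}

theorem pull_qq (p : TangentBundle (𝓡 (n + 2)) X) : qq (pull f w) J p =
    w (f p.proj) ![mfderiv (𝓡 (n + 2)) (𝓡 n) f p.proj p.snd,
      mfderiv (𝓡 (n + 2)) (𝓡 n) f p.proj (J p.proj p.snd)] := by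
  show (w (f p.proj)) (fun i => mfderiv (𝓡 (n + 2)) (𝓡 n) f p.proj
    ((![p.snd, J p.proj p.snd] : Fin 2 → TangentSpace (𝓡 (n + 2)) p.proj) i)) = _
  congr 1
  funext i
  fin_cases i <;> rfl

theorem pull_zero {p : TangentBundle (𝓡 (n + 2)) X}
    (hp : mfderiv (𝓡 (n + 2)) (𝓡 n) f p.proj p.snd = 0) : qq (pull f w) J p = 0 := by
  rw [pull_qq, hp]
  exact (w (f p.proj)).map_coord_zero
    (m := ![0, mfderiv (𝓡 (n + 2)) (𝓡 n) f p.proj (J p.proj p.snd)]) 0 rfl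

theorem pull_nonneg (h : SympFib J f w) (p : TangentBundle (𝓡 (n + 2)) X) :
    0 ≤ qq (pull f w) J p := by
  by_cases hp : mfderiv (𝓡 (n + 2)) (𝓡 n) f p.proj p.snd = 0
  · exact (pull_zero hp).ge
  · rw [pull_qq]
    exact (h.tame p.proj p.snd hp).le

theorem pull_eq_zero (h : SympFib J f w) {p : TangentBundle (𝓡 (n + 2)) X} :
    qq (pull f w) J p = 0 ↔ mfderiv (𝓡 (n + 2)) (𝓡 n) f p.proj p.snd = 0 := by
  refine ⟨fun h0 => ?_, pull_zero⟩
  by_contra hp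
  have h1 := h.tame p.proj p.snd hp
  rw [pull_qq] at h0
  exact absurd h0 h1.ne'

end

variable [IsManifold (𝓡 (n + 2)) ∞ X] [IsManifold (𝓡 n) ∞ N]

section

variable {J : End (n + 2) X} {f : X → N} {w : Form n N 2} {τ : Form (n + 2) X 2}

theorem KA_compact [CompactSpace X] [T2Space X] (hPBK : S_PBK) (hJ : IsAlmostComplex J)
    (hτs : IsSmooth τ) (hτ : ∀ x, TamesAt τ J x) (h : SympFib J f w) :
    IsCompact (KA J τ f) := by
  have h1 := unit_compact hJ hτs hτ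
  have h2 : IsSmooth (pull (d := n + 2) f w) :=
    (hPBK (n + 2) n X N f w h.smooth h.wsmooth).1
  have h3 : IsClosed {p : TangentBundle (𝓡 (n + 2)) X | qq (pull f w) J p = 0} :=
    isClosed_eq (qq_cont h2 hJ) continuous_const
  have h4 : KA J τ f = {p | qq τ J p = 1} ∩ {p | qq (pull f w) J p = 0} := by
    ext p
    exact and_congr Iff.rfl (pull_eq_zero h).symm
  rw [h4]
  exact h1.inter_right h3

theorem fproj_cont (h : SympFib J f w) :
    Continuous (fun p : TangentBundle (𝓡 (n + 2)) X => f p.proj) :=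
  h.smooth.continuous.comp (FiberBundle.continuous_proj (E (n + 2)) (TangentSpace (𝓡 (n + 2))))

/-- goodness over `y` and unit vectors -/
theorem good_of_unit (hτ : ∀ x, TamesAt τ J x) {η : Form (n + 2) X 2} {S : Set X}
    (h : ∀ p ∈ KA J τ f, p.proj ∈ S → 0 < qq η J p) {x : X} (hx : x ∈ S)
    (v : TangentSpace (𝓡 (n + 2)) x) (hv : v ≠ 0)
    (hvv : mfderiv (𝓡 (n + 2)) (𝓡 n) f x v = 0) : 0 < q η J x v := by
  have pv : 0 < q τ J x v := hτ x v hv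
  have sv := Real.sqrt_pos.2 pv
  have h1 := h ⟨x, (√(q τ J x v))⁻¹ • v⟩ ⟨by
    show q τ J x ((√(q τ J x v))⁻¹ • v) = 1
    rw [q_hom, inv_pow, Real.sq_sqrt pv.le]
    exact inv_mul_cancel₀ pv.ne', by
    show mfderiv (𝓡 (n + 2)) (𝓡 n) f x ((√(q τ J x v))⁻¹ • v) = 0
    rw [map_smul, hvv, smul_zero]⟩ hx
  have h2 : 0 < q η J x ((√(q τ J x v))⁻¹ • v) := h1
  rw [q_hom] at h2
  exact pos_of_mul_pos_right h2 (sq_nonneg _)

/-- the good set is open -/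
theorem good_nhds [CompactSpace X] [T2Space X] [T2Space N] (hPBK : S_PBK)
    (hJ : IsAlmostComplex J) (hτs : IsSmooth τ) (hτ : ∀ x, TamesAt τ J x) (h : SympFib J f w)
    {ζ : Form (n + 2) X 2} (hζ : IsSmooth ζ) {y₀ : N} (hg : GoodF J f ζ y₀) :
    ∀ᶠ y in 𝓝 y₀, GoodF J f ζ y := by
  obtain ⟨ρ, hρ, h1⟩ := hg
  have hK := KA_compact hPBK hJ hτs hτ h
  have hc := qq_cont (hζ.add (exactF_smooth hρ)) hJ
  have hB : IsCompact (KA J τ f ∩ {p | qq (ζ + ρ) J p ≤ 0}) :=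
    hK.inter_right (isClosed_le hc continuous_const)
  have hI := (hB.image (fproj_cont h)).isClosed
  have hy₀ : y₀ ∉ (fun p : TangentBundle (𝓡 (n + 2)) X => f p.proj) ''
      (KA J τ f ∩ {p | qq (ζ + ρ) J p ≤ 0}) := by
    rintro ⟨p, ⟨hp1, hp2⟩, hp3⟩
    have h2 := h1 p.proj hp3 p.snd (ne_zero_of_unit hp1.1) hp1.2
    exact absurd hp2 (not_le.2 h2)
  filter_upwards [hI.isOpen_compl.mem_nhds hy₀] with y hy
  refine ⟨ρ, hρ, fun x hx v hv hvv => ?_⟩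
  refine good_of_unit (S := {x}) hτ (fun p hp hpx => ?_) (mem_singleton x) v hv hvv
  by_contra hcon
  push Not at hcon
  refine hy ⟨p, ⟨hp, hcon⟩, ?_⟩
  show f p.proj = y
  rw [hpx]
  exact hx

/-- a bad fibre carries a closed positive current -/
theorem bad_cc [CompactSpace X] [T2Space X] [T2Space N]
    [MeasurableSpace (TangentBundle (𝓡 (n + 2)) X)] [BorelSpace (TangentBundle (𝓡 (n + 2)) X)]
    (hPBK : S_PBK) (hJ : IsAlmostComplex J) (hτs : IsSmooth τ) (hτ : ∀ x, TamesAt τ J x)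
    (h : SympFib J f w) {ζ : Form (n + 2) X 2} (hζ : IsSmooth ζ) {y₀ : N}
    (hg : ¬ GoodF J f ζ y₀) :
    IsCompact (KA J τ f ∩ {p | f p.proj = y₀}) ∧
    ∃ μ : Measure (TangentBundle (𝓡 (n + 2)) X),
      CC J (KA J τ f ∩ {p | f p.proj = y₀}) μ ∧ μ ≠ 0 := by
  have hK : IsCompact (KA J τ f ∩ {p | f p.proj = y₀}) :=
    (KA_compact hPBK hJ hτs hτ h).inter_right (isClosed_eq (fproj_cont h) continuous_const)
  refine ⟨hK, ?_⟩
  have hno : ¬ HasP J (∅ : Set (Form (n + 2) X 2)) ζ (KA J τ f ∩ {p | f p.proj = y₀}) := by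
    rintro ⟨ρ, hρ, h1⟩
    refine hg ⟨ρ, ws_exact hρ, fun x hx v hv hvv => ?_⟩
    exact good_of_unit (S := {x | f x = y₀}) hτ (fun p hp hpx => h1 p ⟨hp, hpx⟩) hx v hv hvv
  obtain ⟨μ, hμ⟩ := exists_cr hJ (fun σ hσ => absurd hσ (notMem_empty σ)) hζ hK hno
  exact ⟨μ, ⟨hμ.fin, hμ.car, fun ρ hρ => hμ.orth ρ (exactF_mem hρ)⟩, hμ.ne⟩

omit [IsManifold (𝓡 (n + 2)) ∞ X] [IsManifold (𝓡 n) ∞ N] in
/-- the fibres in coordinates -/
theorem fib_key {y₀ : N} {B₁ : Set N} (hB₁s : B₁ ⊆ (chartAt (E n) y₀).source)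
    {F : Fin n → X → ℝ} (hFe : ∀ x, f x ∈ B₁ → Fe F x = chartAt (E n) y₀ (f x)) {y : N}
    (hy : y ∈ B₁) (x : X) :
    (x ∈ f ⁻¹' B₁ ∧ Fe F x = chartAt (E n) y₀ y) ↔ f x = y := by
  constructor
  · rintro ⟨h1, h2⟩
    rw [hFe x h1] at h2
    exact (chartAt (E n) y₀).injOn (hB₁s h1) (hB₁s hy) h2
  · rintro rfl
    exact ⟨hy, hFe x hy⟩

/-- near a bad irreducible fibre all fibres are bad -/
theorem bad_nhds [CompactSpace X] [T2Space X] [T2Space N] (T : Tools) (hLOC : S_LOC)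
    (hUNI : S_UNI) (hPT : S_PT) (hPBK : S_PBK)
    (hJ : IsAlmostComplex J) (hτs : IsSmooth τ) (hτ : ∀ x, TamesAt τ J x) (h : SympFib J f w)
    {ζ : Form (n + 2) X 2} (hζ : IsSmooth ζ) (hζc : IsClosedForm ζ) {y₀ : N}
    (hirr : IrrF (n := n) f y₀) (hg : ¬ GoodF J f ζ y₀) :
    ∀ᶠ y in 𝓝 y₀, ¬ GoodF J f ζ y := by
  let _ : MeasurableSpace (TangentBundle (𝓡 (n + 2)) X) := borel _
  have _ : BorelSpace (TangentBundle (𝓡 (n + 2)) X) := ⟨rfl⟩
  by_cases hreg : ∃ x₀, f x₀ = y₀ ∧ Function.Surjective (mfderiv (𝓡 (n + 2)) (𝓡 n) f x₀)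
  · obtain ⟨x₀, hx₀, hs₀⟩ := hreg
    obtain ⟨I₀, hI₀, hI₀w⟩ := base_struct hJ h hx₀ hs₀
    obtain ⟨F, J0', B₁, R₀, hJ0', hB₁o, hy₀, hB₁s, hR, hFe, hvert, hregi⟩ :=
      local_region hJ h y₀ hI₀ hI₀w
    have key := fun {y : N} (hy : y ∈ B₁) (x : X) => fib_key hB₁s hFe hy x
    set φ := chartAt (E n) y₀ with hφ
    have hgood : ∀ y ∈ B₁, GoodF J f ζ y →
        GoodOn J F ζ {x | x ∈ f ⁻¹' B₁ ∧ Fe F x = φ y} := by
      rintro y hy ⟨ρ, hρ, h1⟩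
      refine ⟨ρ, hρ, fun x hx v hv hvv => ?_⟩
      exact h1 x ((key hy x).1 hx) v hv ((hvert x hx.1 v).1 hvv)
    have hgood' : ∀ y ∈ B₁, GoodOn J F ζ {x | x ∈ f ⁻¹' B₁ ∧ Fe F x = φ y} →
        GoodF J f ζ y := by
      rintro y hy ⟨ρ, hρ, h1⟩
      refine ⟨ρ, hρ, fun x hx v hv hvv => ?_⟩
      have hx' := (key hy x).2 hx
      exact h1 x hx' v hv ((hvert x hx'.1 v).2 hvv)
    obtain ⟨R, hR0, hbad⟩ := near_bad T hLOC hUNI hJ0' hJ hτs hτ hR hζ hζc (by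
      refine hirr.count.mono ?_
      rintro x ⟨hx, hxr⟩
      exact ⟨(key hy₀ x).1 hx, fun h1 => hxr ((hregi x hx.1).2 h1)⟩) (by
      have h1 : {x | (x ∈ f ⁻¹' B₁ ∧ Fe F x = φ y₀) ∧ Reg (d := n + 2) F x} =
          {x | f x = y₀ ∧ Function.Surjective (mfderiv (𝓡 (n + 2)) (𝓡 n) f x)} := by
        ext x
        constructor
        · rintro ⟨hx, hxr⟩
          exact ⟨(key hy₀ x).1 hx, (hregi x hx.1).1 hxr⟩
        · rintro ⟨hx, hxr⟩
          have hx' := (key hy₀ x).2 hx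
          exact ⟨hx', (hregi x hx'.1).2 hxr⟩
      rw [h1]
      exact hirr.conn) (fun h1 => hg (hgood' y₀ hy₀ h1))
    have hφc : ContinuousAt φ y₀ := φ.continuousAt (hB₁s hy₀)
    filter_upwards [hB₁o.mem_nhds hy₀, hφc.eventually (Metric.ball_mem_nhds _ hR0)] with y hy hyR
    exact fun h1 => hbad _ hyR (hgood y hy h1)
  · exfalso
    obtain ⟨hK, μ, hμ, hne⟩ := bad_cc hPBK hJ hτs hτ h hζ hg
    have hcount : {x | f x = y₀}.Countable := by
      refine hirr.count.mono fun x hx => ?_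
      exact ⟨hx, fun h1 => hreg ⟨x, hx, h1⟩⟩
    refine hne ?_
    rw [← Measure.measure_univ_eq_zero]
    have h1 : μ (⋃ x ∈ {x | f x = y₀}, Bundle.TotalSpace.proj ⁻¹' {x}) = 0 :=
      (measure_biUnion_null_iff hcount).2 fun x _ =>
        hPT (n + 2) X J τ _ μ hJ hτs hK (fun p hp => hp.1.1) hμ x
    refine measure_mono_null (t := (KA J τ f ∩ {p | f p.proj = y₀})ᶜ ∪
      ⋃ x ∈ {x | f x = y₀}, Bundle.TotalSpace.proj ⁻¹' {x}) ?_ (measure_union_null hμ.car h1)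
    intro p _
    by_cases hp : p ∈ KA J τ f ∩ {p | f p.proj = y₀}
    · exact Or.inr (mem_iUnion₂.2 ⟨p.proj, hp.2, rfl⟩)
    · exact Or.inl hp

/-- near a fibre with a tame neighbourhood, on which `ζ` is nonpositive, all fibres are bad -/
theorem sign_nhds [CompactSpace X] [T2Space X] [T2Space N] (T : Tools)
    (hJ : IsAlmostComplex J) (hτs : IsSmooth τ) (hτ : ∀ x, TamesAt τ J x) (h : SympFib J f w)
    {ζ : Form (n + 2) X 2} (hζ : IsSmooth ζ) (hζc : IsClosedForm ζ) {y₀ : N}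
    (htame : TameF J f w y₀) (hneg : NonposF J τ f ζ y₀) :
    ∀ᶠ y in 𝓝 y₀, ¬ GoodF J f ζ y := by
  obtain ⟨I₀, hI₀, hI₀w⟩ := htame.base
  obtain ⟨κ, hκ, ⟨V, hV, hκc⟩, hκpos⟩ := htame.form
  obtain ⟨F, J0', B₁, R₀, hJ0', hB₁o, hy₀, hB₁s, hR, hFe, hvert, hregi⟩ :=
    local_region hJ h y₀ hI₀ hI₀w
  have key := fun {y : N} (hy : y ∈ B₁) (x : X) => fib_key hB₁s hFe hy x
  set φ := chartAt (E n) y₀ with hφ
  have hfc := h.smooth.continuous
  have hφc : ContinuousAt φ y₀ := φ.continuousAt (hB₁s hy₀)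
  have hV' : IsOpen (interior V ∩ B₁) := isOpen_interior.inter hB₁o
  have hyV : y₀ ∈ interior V ∩ B₁ := ⟨mem_interior_iff_mem_nhds.2 hV, hy₀⟩
  have himg : φ '' (interior V ∩ B₁) ∈ 𝓝 (φ y₀) :=
    (φ.isOpen_image_of_subset_source hV' (inter_subset_right.trans hB₁s)).mem_nhds
      ⟨y₀, hyV, rfl⟩
  obtain ⟨R₂, hR₂, hsub⟩ := Metric.mem_nhds_iff.1 himg
  have hin : ∀ x, f x ∈ B₁ → Fe F x ∈ Metric.ball (φ y₀) R₂ → f x ∈ interior V := by
    intro x hx hxb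
    obtain ⟨y, hy, hyx⟩ := hsub hxb
    rw [hFe x hx] at hyx
    rw [← φ.injOn (hB₁s hy.2) (hB₁s hx) hyx]
    exact hy.1
  obtain ⟨R, hR0, hbad⟩ := near_sign T hJ0' hJ hτs hτ hR hζ hζc hκ (R₁ := min R₀ R₂)
    (lt_min hR.pos hR₂) (min_le_left _ _) (by
      intro c p hp hpU hpF
      have ho : IsOpen ((chartAt (E (n + 2)) c).target ∩
          (chartAt (E (n + 2)) c).symm ⁻¹' (f ⁻¹' interior V)) :=
        (chartAt (E (n + 2)) c).continuousOn_symm.isOpen_inter_preimage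
          (chartAt (E (n + 2)) c).open_target (isOpen_interior.preimage hfc)
      refine hκc _ _ ho (contMDiffOn_chart_symm.mono inter_subset_left)
        (fun p' hp' => interior_subset (s := V) hp'.2) p ⟨hp, ?_⟩
      exact hin _ hpU (Metric.ball_subset_ball (min_le_right _ _) hpF)) (by
      intro δ hδ
      obtain ⟨x, hx, hxs⟩ := htame.reg (B₁ ∩ φ ⁻¹' Metric.ball (φ y₀) δ)
        (Filter.inter_mem (hB₁o.mem_nhds hy₀) (hφc (Metric.ball_mem_nhds _ hδ)))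
      refine ⟨x, hx.1, ?_, (hregi x hx.1).2 hxs⟩
      rw [hFe x hx.1]
      exact hx.2) (by
      intro x hx v hv hvv
      exact hκpos x ((key hy₀ x).1 hx) v hv ((hvert x hx.1 v).1 hvv)) (by
      intro ε hε
      obtain ⟨ρ, hρ, h1⟩ := hneg ε hε
      exact ⟨ρ, hρ, fun x hx v hvv => h1 x ((key hy₀ x).1 hx) v ((hvert x hx.1 v).1 hvv)⟩)
  filter_upwards [hB₁o.mem_nhds hy₀, hφc.eventually (Metric.ball_mem_nhds _ hR0)] with y hy hyR
  rintro ⟨ρ, hρ, h1⟩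
  refine hbad _ hyR ⟨ρ, hρ, fun x hx v hv hvv => ?_⟩
  exact h1 x ((key hy x).1 hx) v hv ((hvert x hx.1 v).1 hvv)

/-- all fibres are good -/
theorem all_good [CompactSpace X] [T2Space X] [T2Space N] [PreconnectedSpace N] (T : Tools)
    (hLOC : S_LOC) (hUNI : S_UNI) (hPT : S_PT) (hPBK : S_PBK)
    (hJ : IsAlmostComplex J) (hτs : IsSmooth τ) (hτ : ∀ x, TamesAt τ J x) (h : SympFib J f w)
    {ζ : Form (n + 2) X 2} (hζ : IsSmooth ζ) (hζc : IsClosedForm ζ)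
    (hirr : ∀ y, IrrF (n := n) f y ∨ GoodF J f ζ y ∨ (TameF J f w y ∧ NonposF J τ f ζ y))
    {y₀ : N} (hg : GoodF J f ζ y₀) (y : N) :
    GoodF J f ζ y := by
  have h1 : IsClopen {y | GoodF J f ζ y} := by
    constructor
    · rw [← isOpen_compl_iff, isOpen_iff_mem_nhds]
      intro z hz
      rcases hirr z with h2 | h2 | h2
      · exact bad_nhds T hLOC hUNI hPT hPBK hJ hτs hτ h hζ hζc h2 hz
      · exact absurd h2 hz
      · exact sign_nhds T hJ hτs hτ h hζ hζc h2.1 h2.2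
    · rw [isOpen_iff_mem_nhds]
      intro z hz
      exact good_nhds hPBK hJ hτs hτ h hζ hz
  have h2 := h1.eq_univ ⟨y₀, hg⟩
  have h3 : y ∈ {y | GoodF J f ζ y} := by
    rw [h2]
    exact mem_univ y
  exact h3

omit [IsManifold (𝓡 n) ∞ N] in
/-- the differential of `g ∘ f` on vertical vectors -/
theorem dd_gf (hf : ContMDiff (𝓡 (n + 2)) (𝓡 n) ∞ f) {g : N → ℝ}
    (hg : ContMDiff (𝓡 n) 𝓘(ℝ, ℝ) ∞ g) {x : X} {v : TangentSpace (𝓡 (n + 2)) x}
    (hv : mfderiv (𝓡 (n + 2)) (𝓡 n) f x v = 0) : dd (d := n + 2) (fun x => g (f x)) x v = 0 := by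
  have h1 : MDifferentiableAt (𝓡 (n + 2)) (𝓡 n) f x := (hf x).mdifferentiableAt (by simp)
  have h2 : MDifferentiableAt (𝓡 n) 𝓘(ℝ, ℝ) g (f x) := (hg (f x)).mdifferentiableAt (by simp)
  have h3 := (h2.hasMFDerivAt.comp x h1.hasMFDerivAt).mfderiv
  have h4 : dd (d := n + 2) (fun x => g (f x)) x v =
      mfderiv (𝓡 n) 𝓘(ℝ, ℝ) g (f x) (mfderiv (𝓡 (n + 2)) (𝓡 n) f x v) :=
    congrArg (fun L => L v) h3
  rw [h4, hv, map_zero]
  rfl

/-- from the fibres to all vertical vectors -/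
theorem hasP_all [CompactSpace X] [T2Space X] [T2Space N] (hPBK : S_PBK)
    (hJ : IsAlmostComplex J) (hτs : IsSmooth τ) (hτ : ∀ x, TamesAt τ J x) (h : SympFib J f w)
    {ζ : Form (n + 2) X 2} (hζ : IsSmooth ζ) (hall : ∀ y, GoodF J f ζ y) :
    ∃ ρ, ExactF ρ ∧ ∀ p ∈ KA J τ f, 0 < qq (ζ + ρ) J p := by
  by_contra hcon
  let _ : MeasurableSpace (TangentBundle (𝓡 (n + 2)) X) := borel _
  have _ : BorelSpace (TangentBundle (𝓡 (n + 2)) X) := ⟨rfl⟩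
  have hT2 := tb_t2 (d := n + 2) (X := X)
  have hno : ¬ HasP J (∅ : Set (Form (n + 2) X 2)) ζ (KA J τ f) := by
    rintro ⟨ρ, hρ, h1⟩
    exact hcon ⟨ρ, ws_exact hρ, h1⟩
  have hN : ∀ σ ∈ (∅ : Set (Form (n + 2) X 2)), IsSmooth σ :=
    fun σ hσ => absurd hσ (notMem_empty σ)
  obtain ⟨D, hDK, hD, hDn, hmin⟩ := exists_min hJ hN hζ (KA_compact hPBK hJ hτs hτ h) hno
  obtain ⟨μ, hμ⟩ := exists_cr hJ hN hζ hD hDn
  have hne : D.Nonempty := by
    rw [nonempty_iff_ne_empty]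
    rintro rfl
    exact hDn ⟨0, Submodule.zero_mem _, fun x hx => absurd hx (notMem_empty x)⟩
  obtain ⟨p₀, hp₀⟩ := hne
  have hcst : ∀ p ∈ D, f p.proj = f p₀.proj := by
    intro p hp
    by_contra hfp
    obtain ⟨U, hU, hU1, hU2⟩ : ∃ U : Set N, IsOpen U ∧ f p₀.proj ∈ U ∧ f p.proj ∉ U :=
      ⟨{f p.proj}ᶜ, isOpen_compl_singleton, fun h1 => hfp h1.symm, fun h1 => h1 rfl⟩
    obtain ⟨β, -, hβ⟩ := (SmoothBumpFunction.nhds_basis_support (I := 𝓡 n)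
      (hU.mem_nhds hU1)).mem_iff.1 (hU.mem_nhds hU1)
    have h1 : β (f p₀.proj) = 1 := β.eq_one
    have h2 : β (f p.proj) = 0 := by
      by_contra h3
      exact hU2 (hβ h3)
    have hflat : Flat J D (fun x => β (f x)) := by
      refine ⟨β.contMDiff.comp h.smooth, fun r hr => ?_⟩
      have h3 := (hDK hr).2
      exact ⟨dd_gf h.smooth β.contMDiff h3, dd_gf h.smooth β.contMDiff (h.ker hJ h3)⟩
    refine indec hJ hN (fun σ hσ => absurd hσ (notMem_empty σ)) hζ hD hmin hμ hflat hp hp₀ ?_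
    show β (f p.proj) < β (f p₀.proj)
    rw [h1, h2]
    exact one_pos
  obtain ⟨ρ, hρ, h1⟩ := hall (f p₀.proj)
  refine hDn ⟨ρ, exactF_mem hρ, fun p hp => ?_⟩
  exact h1 p.proj (hcst p hp) p.snd (ne_zero_of_unit (hDK hp).1) (hDK hp).2

/-- the forms `f^* w + t (ζ + ρ)` -/
theorem tame_small [CompactSpace X] [T2Space X] [T2Space N] (hPBK : S_PBK)
    (hJ : IsAlmostComplex J) (hτs : IsSmooth τ) (hτ : ∀ x, TamesAt τ J x) (h : SympFib J f w)
    {η : Form (n + 2) X 2} (hη : IsSmooth η) (hpos : ∀ p ∈ KA J τ f, 0 < qq η J p) :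
    ∃ t₀ : ℝ, 0 < t₀ ∧ ∀ t : ℝ, 0 < t → t ≤ t₀ →
      ∀ x, TamesAt (pull (d := n + 2) f w + t • η) J x := by
  have h1 := unit_compact hJ hτs hτ
  have hσ : IsSmooth (pull (d := n + 2) f w) := (hPBK (n + 2) n X N f w h.smooth h.wsmooth).1
  have hσc := qq_cont hσ hJ
  have hηc := qq_cont hη hJ
  obtain ⟨M, hM⟩ := h1.exists_bound_of_continuousOn hηc.continuousOn
  have hB : IsCompact ({p : TangentBundle (𝓡 (n + 2)) X | qq τ J p = 1} ∩
      {p | qq η J p ≤ 0}) := h1.inter_right (isClosed_le hηc continuous_const)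
  obtain ⟨c, hc, hc2⟩ : ∃ c : ℝ, 0 < c ∧ ∀ p : TangentBundle (𝓡 (n + 2)) X, qq τ J p = 1 →
      qq η J p ≤ 0 → c ≤ qq (pull f w) J p := by
    rcases ({p : TangentBundle (𝓡 (n + 2)) X | qq τ J p = 1} ∩
      {p | qq η J p ≤ 0}).eq_empty_or_nonempty with he | hne
    · refine ⟨1, one_pos, fun p hp1 hp2 => ?_⟩
      have h2 : p ∈ {p : TangentBundle (𝓡 (n + 2)) X | qq τ J p = 1} ∩
        {p | qq η J p ≤ 0} := ⟨hp1, hp2⟩
      rw [he] at h2
      exact absurd h2 (notMem_empty p)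
    · obtain ⟨p₀, hp₀, hmin⟩ := hB.exists_isMinOn hne hσc.continuousOn
      refine ⟨qq (pull f w) J p₀, ?_, fun p hp1 hp2 => hmin ⟨hp1, hp2⟩⟩
      refine lt_of_le_of_ne (pull_nonneg h p₀) fun h0 => ?_
      have h2 := hpos p₀ ⟨hp₀.1, (pull_eq_zero h).1 h0.symm⟩
      exact absurd hp₀.2 (not_le.2 h2)
  have hM0 : 0 < |M| + 1 := by positivity
  refine ⟨c / (|M| + 1) / 2, by positivity, fun t ht ht' x v hv => ?_⟩
  have pv : 0 < q τ J x v := hτ x v hv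
  have sv := Real.sqrt_pos.2 pv
  set u := (√(q τ J x v))⁻¹ • v with hu
  set p : TangentBundle (𝓡 (n + 2)) X := ⟨x, u⟩ with hp
  have hpu : qq τ J p = 1 := by
    show q τ J x ((√(q τ J x v))⁻¹ • v) = 1
    rw [q_hom, inv_pow, Real.sq_sqrt pv.le]
    exact inv_mul_cancel₀ pv.ne'
  have hkey : 0 < qq (pull f w + t • η) J p := by
    rw [qq_add, qq_smul]
    have h3 := pull_nonneg h p
    by_cases h4 : qq η J p ≤ 0
    · have h5 := hc2 p hpu h4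
      have h6 : |qq η J p| ≤ |M| := (hM p hpu).trans (le_abs_self M)
      have h7 : -|M| ≤ qq η J p := (abs_le.1 h6).1
      have h8 : t * (|M| + 1) ≤ c / 2 := by
        calc t * (|M| + 1) ≤ c / (|M| + 1) / 2 * (|M| + 1) :=
              mul_le_mul_of_nonneg_right ht' hM0.le
          _ = c / 2 := by field_simp
      have h9 : t * (-|M|) ≤ t * qq η J p := mul_le_mul_of_nonneg_left h7 ht.le
      nlinarith
    · push Not at h4
      have := mul_pos ht h4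
      linarith
  have h5 : 0 < q (pull f w + t • η) J x u := hkey
  rw [hu, q_hom] at h5
  exact pos_of_mul_pos_right h5 (sq_nonneg _)

/-- **one good fibre suffices** -/
theorem one_good [CompactSpace X] [T2Space X] [T2Space N] [PreconnectedSpace N] (T : Tools)
    (hLOC : S_LOC) (hUNI : S_UNI) (hPT : S_PT) (hPBK : S_PBK)
    (hJ : IsAlmostComplex J) (hτs : IsSmooth τ) (hτ : ∀ x, TamesAt τ J x) (h : SympFib J f w)
    {ζ : Form (n + 2) X 2} (hζ : IsSmooth ζ) (hζc : IsClosedForm ζ)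
    (hirr : ∀ y, IrrF (n := n) f y ∨ GoodF J f ζ y ∨ (TameF J f w y ∧ NonposF J τ f ζ y))
    {y₀ : N} (hg : GoodF J f ζ y₀) :
    (∀ y, GoodF J f ζ y) ∧ ∃ ρ, ExactF ρ ∧ ∃ t₀ : ℝ, 0 < t₀ ∧ ∀ t : ℝ, 0 < t → t ≤ t₀ →
      ∀ x, TamesAt (pull (d := n + 2) f w + t • (ζ + ρ)) J x := by
  have h1 := all_good T hLOC hUNI hPT hPBK hJ hτs hτ h hζ hζc hirr hg
  obtain ⟨ρ, hρ, h2⟩ := hasP_all hPBK hJ hτs hτ h hζ h1
  exact ⟨h1, ρ, hρ, tame_small hPBK hJ hτs hτ h (hζ.add (exactF_smooth hρ)) h2⟩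

end

end Pool.Agent.L7h49.OG
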