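import Pool.Agent.L7h49.OF.Lin
import Pool.Agent.L7h49.TS.Main

/-!
# Integration of top degree densities on a closed almost complex manifold: change of charts
-/

set_option autoImplicit false

open Set Filter Topology MeasureTheory
open scoped Manifold ContDiff

noncomputable section

namespace Pool.Agent.L7h49.OG

open Pool.Agent.Y501.SY
open Pool.Agent.N13.TL
open Pool.Agent.Y455.SY (A B AB BA)
open Pool.Agent.L7h49.OF (Om eb co S_L1 S_L2 Itw exists_itw loc_sign)

variable {d : ℕ} {X : Type} [TopologicalSpace X] [ChartedSpace (E d) X]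

/-- an open box in a chart -/
def UB (c : X) (r : ℝ) : Set X :=
  (chartAt (E d) c).source ∩ chartAt (E d) c ⁻¹' Metric.ball (chartAt (E d) c c) r

/-- a box in which the complex structure has constant sign -/
structure Box (J0 : E d →ₗ[ℝ] E d) (J : End d X) (c : X) (r s : ℝ) : Prop where
  pos : 0 < r
  sub : Metric.closedBall (chartAt (E d) c c) r ⊆ (chartAt (E d) c).target
  sgn : s = 1 ∨ s = -1
  ori : ∀ x ∈ Metric.ball (chartAt (E d) c c) r, ∀ T : E d →ₗ[ℝ] E d,
    Itw J0 (inChart J c x : E d →ₗ[ℝ] E d) T → 0 ≤ s * LinearMap.det T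

/-- the value of a density on the coordinate basis -/
def inc (Φ : X → (Fin d → E d) → ℝ) (c : X) (x : E d) : ℝ :=
  Φ ((chartAt (E d) c).symm x) (fun j => A c x (eb j))

/-- top degree densities -/
structure Top (Φ : X → (Fin d → E d) → ℝ) : Prop where
  nat : ∀ (y : X) (L M : E d →L[ℝ] E d), Φ y (fun j => L (M (eb j))) =
    LinearMap.det (M : E d →ₗ[ℝ] E d) * Φ y (fun j => L (eb j))
  cont : ∀ c : X, ContinuousOn (inc Φ c) (chartAt (E d) c).target

theorem UB_open (c : X) (r : ℝ) : IsOpen (UB (d := d) c r) :=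
  (chartAt (E d) c).isOpen_inter_preimage Metric.isOpen_ball

theorem mem_UB {c : X} {r : ℝ} (hr : 0 < r) : c ∈ UB (d := d) c r :=
  ⟨mem_chart_source _ _, Metric.mem_ball_self hr⟩

theorem symm_mem_UB {c : X} {r : ℝ}
    (hs : Metric.closedBall (chartAt (E d) c c) r ⊆ (chartAt (E d) c).target) {x : E d}
    (hx : x ∈ Metric.ball (chartAt (E d) c c) r) : (chartAt (E d) c).symm x ∈ UB (d := d) c r := by
  have h1 := hs (Metric.ball_subset_closedBall hx)
  refine ⟨(chartAt (E d) c).map_target h1, ?_⟩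
  rw [mem_preimage, (chartAt (E d) c).right_inv h1]
  exact hx

variable [IsManifold (𝓡 d) ∞ X]

theorem inChart_sq {J : End d X} (hJ : IsAlmostComplex J) (c : X) {x : E d}
    (hx : x ∈ (chartAt (E d) c).target) (v : E d) : inChart J c x (inChart J c x v) = -v := by
  have h1 : ∀ w, inChart J c x w = B c x (J ((chartAt (E d) c).symm x) (A c x w)) := fun w => rfl
  rw [h1, h1]
  have h2 : A c x (B c x (J ((chartAt (E d) c).symm x) (A c x v))) =
    J ((chartAt (E d) c).symm x) (A c x v) := AB c hx _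
  rw [h2]
  have h3 := hJ.sq ((chartAt (E d) c).symm x) (A c x v)
  have h4 : B c x (J ((chartAt (E d) c).symm x) (J ((chartAt (E d) c).symm x) (A c x v))) =
    B c x (-(A c x v)) := congrArg (B c x) h3
  rw [h4, map_neg, BA c hx]

theorem exists_box (h1 : S_L1) (h2 : S_L2) {J0 : E d →ₗ[ℝ] E d} (hJ0 : ∀ v, J0 (J0 v) = -v)
    {J : End d X} (hJ : IsAlmostComplex J) (c : X) : ∃ r s, Box J0 J c r s := by
  have ht : (chartAt (E d) c).target ∈ 𝓝 (chartAt (E d) c c) :=
    (chartAt (E d) c).open_target.mem_nhds (mem_chart_target (E d) c)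
  obtain ⟨s, hs, hev⟩ := loc_sign h1 h2 hJ0 ((hJ.cont c).continuousAt ht) (by
    filter_upwards [ht] with x hx v
    exact inChart_sq hJ c hx v)
  obtain ⟨r, hr, hsub⟩ := Metric.nhds_basis_closedBall.mem_iff.1 (Filter.inter_mem ht hev)
  exact ⟨r, s, hr, fun x hx => (hsub hx).1, hs, fun x hx =>
    (hsub (Metric.ball_subset_closedBall hx)).2⟩

/-- the transition map -/
def tr (c c' : X) (x : E d) : E d := chartAt (E d) c' ((chartAt (E d) c).symm x)

/-- its derivative -/
def dtr (c c' : X) (x : E d) : E d →L[ℝ] E d := (B c' (tr c c' x)).comp (A c x)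

omit [IsManifold (𝓡 d) ∞ X] in
theorem symm_tr {c c' : X} {x : E d}
    (hx' : (chartAt (E d) c).symm x ∈ (chartAt (E d) c').source) :
    (chartAt (E d) c').symm (tr c c' x) = (chartAt (E d) c).symm x :=
  (chartAt (E d) c').left_inv hx'

theorem tr_deriv {c c' : X} {x : E d} (hx : x ∈ (chartAt (E d) c).target)
    (hx' : (chartAt (E d) c).symm x ∈ (chartAt (E d) c').source) :
    HasFDerivAt (tr (d := d) c c') (dtr c c' x) x := by
  have h1 : HasMFDerivAt (𝓡 d) (𝓡 d) (chartAt (E d) c).symm x (A c x) :=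
    ((contMDiffOn_chart_symm (I := 𝓡 d) (n := ∞) (x := c)).contMDiffAt
      ((chartAt (E d) c).open_target.mem_nhds hx)).mdifferentiableAt (by simp) |>.hasMFDerivAt
  have h2 : HasMFDerivAt (𝓡 d) (𝓡 d) (chartAt (E d) c') ((chartAt (E d) c).symm x)
      (mfderiv (𝓡 d) (𝓡 d) (chartAt (E d) c') ((chartAt (E d) c).symm x)) :=
    ((contMDiffOn_chart (I := 𝓡 d) (n := ∞) (x := c')).contMDiffAt
      ((chartAt (E d) c').open_source.mem_nhds hx')).mdifferentiableAt (by simp) |>.hasMFDerivAt
  have h3 := h2.comp x h1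
  have h4 : dtr c c' x = (mfderiv (𝓡 d) (𝓡 d) (chartAt (E d) c')
      ((chartAt (E d) c).symm x)).comp (A c x) := by
    unfold dtr B
    rw [symm_tr hx']
    rfl
  rw [h4]
  exact h3.hasFDerivAt

theorem A_tr {c c' : X} {x : E d}
    (hx' : (chartAt (E d) c).symm x ∈ (chartAt (E d) c').source) (v : E d) :
    A c' (tr c c' x) (dtr c c' x v) = A c x v :=
  AB c' ((chartAt (E d) c').map_source hx') _

theorem inc_tr {Φ : X → (Fin d → E d) → ℝ} (hΦ : Top Φ) {c c' : X} {x : E d}
    (hx' : (chartAt (E d) c).symm x ∈ (chartAt (E d) c').source) :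
    inc Φ c x = LinearMap.det (dtr c c' x : E d →ₗ[ℝ] E d) * inc Φ c' (tr c c' x) := by
  unfold inc
  rw [← hΦ.nat, symm_tr hx']
  congr 1
  funext j
  exact (A_tr hx' _).symm

theorem det_tr (h2 : S_L2) {J0 : E d →ₗ[ℝ] E d} (hJ0 : ∀ v, J0 (J0 v) = -v)
    {J : End d X} (hJ : IsAlmostComplex J) {c c' : X} {r r' s s' : ℝ} (hb : Box J0 J c r s)
    (hb' : Box J0 J c' r' s') {x : E d} (hx : x ∈ Metric.ball (chartAt (E d) c c) r)
    (hx' : (chartAt (E d) c).symm x ∈ UB (d := d) c' r') :
    |LinearMap.det (dtr c c' x : E d →ₗ[ℝ] E d)| =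
      s * s' * LinearMap.det (dtr c c' x : E d →ₗ[ℝ] E d) := by
  have hxt := hb.sub (Metric.ball_subset_closedBall hx)
  obtain ⟨T, hT, hTd⟩ := exists_itw h2 (J := (inChart J c x : E d →ₗ[ℝ] E d)) hJ0
    (inChart_sq hJ c hxt)
  have h3 := hb.ori x hx T hT
  have hss : s * s = 1 := by rcases hb.sgn with rfl | rfl <;> norm_num
  have hss' : s' * s' = 1 := by rcases hb'.sgn with rfl | rfl <;> norm_num
  have hs0 : s ≠ 0 := by rintro rfl; norm_num at hss
  have h4 : 0 < s * LinearMap.det T := lt_of_le_of_ne h3 (mul_ne_zero hs0 hTd).symm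
  have hint : Itw J0 (inChart J c' (tr c c' x) : E d →ₗ[ℝ] E d)
      ((dtr c c' x : E d →ₗ[ℝ] E d) ∘ₗ T) := by
    intro a
    show dtr c c' x (T (J0 a)) = inChart J c' (tr c c' x) (dtr c c' x (T a))
    rw [hT a]
    have e1 : inChart J c' (tr c c' x) (dtr c c' x (T a)) =
        B c' (tr c c' x) (J ((chartAt (E d) c').symm (tr c c' x))
          (A c' (tr c c' x) (dtr c c' x (T a)))) := rfl
    rw [e1, A_tr hx'.1]
    have e2 : dtr c c' x (inChart J c x (T a)) = B c' (tr c c' x)
        (A c x (B c x (J ((chartAt (E d) c).symm x) (A c x (T a))))) := rfl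
    have e3 : A c x (B c x (J ((chartAt (E d) c).symm x) (A c x (T a)))) =
      J ((chartAt (E d) c).symm x) (A c x (T a)) := AB c hxt _
    show dtr c c' x (inChart J c x (T a)) = _
    rw [e2, e3]
    have key : ∀ y y' : X, y' = y → ∀ v : E d, B c' (tr c c' x) (J y v) =
        B c' (tr c c' x) (J y' v) := by
      rintro y y' rfl v
      rfl
    exact key _ _ (symm_tr hx'.1) _
  have h5 := hb'.ori (tr c c' x) hx'.2 _ hint
  rw [LinearMap.det_comp] at h5
  set D := LinearMap.det (dtr c c' x : E d →ₗ[ℝ] E d) with hD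
  have h6 : 0 ≤ (s * s' * D) * (s * LinearMap.det T) := by
    have : (s * s' * D) * (s * LinearMap.det T) = (s * s) * (s' * (D * LinearMap.det T)) := by ring
    rw [this, hss, one_mul]
    exact h5
  have h7 : 0 ≤ s * s' * D := nonneg_of_mul_nonneg_left h6 h4
  calc |D| = |s * s' * D| := by
        rw [abs_mul, abs_mul]
        have e1 : |s| = 1 := by rcases hb.sgn with rfl | rfl <;> norm_num
        have e2 : |s'| = 1 := by rcases hb'.sgn with rfl | rfl <;> norm_num
        rw [e1, e2]; ring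
    _ = _ := abs_of_nonneg h7

/-- change of charts -/
theorem cov (h2 : S_L2) {J0 : E d →ₗ[ℝ] E d} (hJ0 : ∀ v, J0 (J0 v) = -v)
    {J : End d X} (hJ : IsAlmostComplex J) {c c' : X} {r r' s s' : ℝ} (hb : Box J0 J c r s)
    (hb' : Box J0 J c' r' s') {Φ : X → (Fin d → E d) → ℝ} (hΦ : Top Φ) (h : X → ℝ)
    (ha : ∀ x ∈ Metric.ball (chartAt (E d) c c) r, (chartAt (E d) c).symm x ∉ UB (d := d) c' r' →
      h ((chartAt (E d) c).symm x) * inc Φ c x = 0)
    (hc : ∀ x ∈ Metric.ball (chartAt (E d) c' c') r', (chartAt (E d) c').symm x ∉ UB (d := d) c r →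
      h ((chartAt (E d) c').symm x) * inc Φ c' x = 0) :
    s * ∫ x in Metric.ball (chartAt (E d) c c) r, h ((chartAt (E d) c).symm x) * inc Φ c x =
      s' * ∫ x in Metric.ball (chartAt (E d) c' c') r',
        h ((chartAt (E d) c').symm x) * inc Φ c' x := by
  let W : Set (E d) := Metric.ball (chartAt (E d) c c) r ∩ (chartAt (E d) c).symm ⁻¹' (UB (d := d) c' r')
  let W' : Set (E d) := Metric.ball (chartAt (E d) c' c') r' ∩ (chartAt (E d) c').symm ⁻¹' (UB (d := d) c r)
  have hballt : Metric.ball (chartAt (E d) c c) r ⊆ (chartAt (E d) c).target :=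
    Metric.ball_subset_closedBall.trans hb.sub
  have hballt' : Metric.ball (chartAt (E d) c' c') r' ⊆ (chartAt (E d) c').target :=
    Metric.ball_subset_closedBall.trans hb'.sub
  have hWo : IsOpen W :=
    ((chartAt (E d) c).continuousOn_symm.mono hballt).isOpen_inter_preimage Metric.isOpen_ball
      (UB_open c' r')
  have himg : W' = tr c c' '' W := by
    ext y
    constructor
    · rintro ⟨hy1, hy2⟩
      have hyt := hballt' hy1
      refine ⟨chartAt (E d) c ((chartAt (E d) c').symm y), ⟨hy2.2, ?_⟩, ?_⟩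
      · show (chartAt (E d) c).symm (chartAt (E d) c ((chartAt (E d) c').symm y)) ∈ UB (d := d) c' r'
        rw [(chartAt (E d) c).left_inv hy2.1]
        exact symm_mem_UB hb'.sub hy1
      · show chartAt (E d) c' ((chartAt (E d) c).symm (chartAt (E d) c
          ((chartAt (E d) c').symm y))) = y
        rw [(chartAt (E d) c).left_inv hy2.1, (chartAt (E d) c').right_inv hyt]
    · rintro ⟨x, ⟨hx1, hx2⟩, rfl⟩
      refine ⟨hx2.2, ?_⟩
      show (chartAt (E d) c').symm (tr c c' x) ∈ UB (d := d) c r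
      rw [symm_tr hx2.1]
      exact symm_mem_UB hb.sub hx1
  have hinj : InjOn (tr (d := d) c c') W := by
    intro x hx y hy hxy
    have h3 : (chartAt (E d) c).symm x = (chartAt (E d) c).symm y := by
      rw [← symm_tr (c' := c') hx.2.1, ← symm_tr (c' := c') hy.2.1, hxy]
    exact (chartAt (E d) c).symm.injOn (hballt hx.1) (hballt hy.1) h3
  have e1 : ∫ x in Metric.ball (chartAt (E d) c c) r,
      h ((chartAt (E d) c).symm x) * inc Φ c x =
      ∫ x in W, h ((chartAt (E d) c).symm x) * inc Φ c x :=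
    setIntegral_eq_of_subset_of_forall_sdiff_eq_zero Metric.isOpen_ball.measurableSet
      inter_subset_left fun x hx => ha x hx.1 fun h => hx.2 ⟨hx.1, h⟩
  have e2 : ∫ x in Metric.ball (chartAt (E d) c' c') r',
      h ((chartAt (E d) c').symm x) * inc Φ c' x =
      ∫ x in W', h ((chartAt (E d) c').symm x) * inc Φ c' x :=
    setIntegral_eq_of_subset_of_forall_sdiff_eq_zero Metric.isOpen_ball.measurableSet
      inter_subset_left fun x hx => hc x hx.1 fun h => hx.2 ⟨hx.1, h⟩
  rw [e1, e2, himg, integral_image_eq_integral_abs_det_fderiv_smul volume hWo.measurableSet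
    (fun x hx => (tr_deriv (hballt hx.1) hx.2.1).hasFDerivWithinAt) hinj, ← integral_const_mul,
    ← integral_const_mul]
  refine setIntegral_congr_fun hWo.measurableSet fun x hx => ?_
  have hss' : s' * s' = 1 := by rcases hb'.sgn with rfl | rfl <;> norm_num
  have e3 := det_tr h2 hJ0 hJ hb hb' hx.1 hx.2
  have e4 := inc_tr hΦ (c := c) (c' := c') hx.2.1
  have e5 : (chartAt (E d) c').symm (tr c c' x) = (chartAt (E d) c).symm x := symm_tr hx.2.1
  show s * (h ((chartAt (E d) c).symm x) * inc Φ c x) =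
    s' * (|LinearMap.det (dtr c c' x : E d →ₗ[ℝ] E d)| •
      (h ((chartAt (E d) c').symm (tr c c' x)) * inc Φ c' (tr c c' x)))
  rw [e3, e4, e5, smul_eq_mul]
  have e6 : s' * (s * s' * LinearMap.det (dtr c c' x : E d →ₗ[ℝ] E d) *
      (h ((chartAt (E d) c).symm x) * inc Φ c' (tr c c' x))) =
      (s' * s') * (s * (h ((chartAt (E d) c).symm x) *
        (LinearMap.det (dtr c c' x : E d →ₗ[ℝ] E d) * inc Φ c' (tr c c' x)))) := by ring
  rw [e6, hss', one_mul]

end Pool.Agent.L7h49.OG
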