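import Pool.Agent.L7h49.OF.Int1

/-!
# Integration of top degree densities on a closed almost complex manifold
-/

set_option autoImplicit false

open Set Filter Topology MeasureTheory
open scoped Manifold ContDiff

noncomputable section

namespace Pool.Agent.L7h49.OG

open Pool.Agent.Y501.SY
open Pool.Agent.N13.TL
open Pool.Agent.Y455.SY (A B AB BA)
open Pool.Agent.L7h49.OF (Om eb co S_L1 S_L2 Itw exists_itw loc_sign)

variable {d : ℕ} {X : Type} [TopologicalSpace X] [ChartedSpace (E d) X]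

/-- boxes with a partition of unity -/
structure Atl (J0 : E d →ₗ[ℝ] E d) (J : End d X) {ι : Type} [Fintype ι] (c : ι → X)
    (r s : ι → ℝ) (χ : ι → X → ℝ) : Prop where
  box : ∀ i, Box J0 J (c i) (r i) (s i)
  smooth : ∀ i, SmoothFun (d := d) (χ i)
  nonneg : ∀ i y, 0 ≤ χ i y
  sum : ∀ y, ∑ i, χ i y = 1
  supp : ∀ i, tsupport (χ i) ⊆ UB (d := d) (c i) (r i)

theorem exists_atl [IsManifold (𝓡 d) ∞ X] [CompactSpace X] [T2Space X] (h1 : S_L1) (h2 : S_L2)
    {J0 : E d →ₗ[ℝ] E d} (hJ0 : ∀ v, J0 (J0 v) = -v) {J : End d X} (hJ : IsAlmostComplex J) :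
    ∃ (ι : Type) (_ : Fintype ι) (c : ι → X) (r s : ι → ℝ) (χ : ι → X → ℝ),
      Atl J0 J c r s χ := by
  choose r s hb using fun c : X => exists_box h1 h2 hJ0 hJ c
  obtain ⟨t, ht⟩ := (isCompact_univ (X := X)).elim_finite_subcover
    (fun c : X => UB (d := d) c (r c)) (fun c => UB_open c (r c))
    (fun x _ => mem_iUnion.2 ⟨x, mem_UB (hb x).pos⟩)
  obtain ⟨f, hf⟩ := SmoothPartitionOfUnity.exists_isSubordinate (𝓡 d) (s := (univ : Set X))
    isClosed_univ (fun i : t => UB (d := d) (i : X) (r i)) (fun i => UB_open _ _) (by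
      intro x hx
      obtain ⟨c, hc⟩ := mem_iUnion.1 (ht hx)
      obtain ⟨hct, hc2⟩ := mem_iUnion.1 hc
      exact mem_iUnion.2 ⟨⟨c, hct⟩, hc2⟩)
  refine ⟨t, inferInstance, fun i => i, fun i => r i, fun i => s i, fun i => f i, ⟨fun i => hb i,
    fun i => (f i).contMDiff, fun i y => f.nonneg i y, fun y => ?_, hf⟩⟩
  have := f.sum_eq_one (mem_univ y)
  rwa [finsum_eq_sum_of_fintype] at this

/-- the integral of a density -/
def II {ι : Type} [Fintype ι] (c : ι → X) (r s : ι → ℝ) (χ : ι → X → ℝ)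
    (Φ : X → (Fin d → E d) → ℝ) : ℝ :=
  ∑ i, s i * ∫ x in Metric.ball (chartAt (E d) (c i) (c i)) (r i),
    χ i ((chartAt (E d) (c i)).symm x) * inc Φ (c i) x

variable {J0 : E d →ₗ[ℝ] E d} {J : End d X}

theorem Box.intOn {c : X} {r s : ℝ} (hb : Box J0 J c r s) {g : E d → ℝ}
    (hg : ContinuousOn g (chartAt (E d) c).target) :
    IntegrableOn g (Metric.ball (chartAt (E d) c c) r) := by
  have h1 : IntegrableOn g (Metric.closedBall (chartAt (E d) c c) r) :=
    (hg.mono hb.sub).integrableOn_compact (isCompact_closedBall _ _)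
  exact h1.mono_set Metric.ball_subset_closedBall

theorem comp_symm_cont (c : X) {h : X → ℝ} (hh : Continuous h) :
    ContinuousOn (fun x => h ((chartAt (E d) c).symm x)) (chartAt (E d) c).target :=
  hh.comp_continuousOn (chartAt (E d) c).continuousOn_symm

section

variable {ι : Type} [Fintype ι] {c : ι → X} {r s : ι → ℝ} {χ : ι → X → ℝ}

theorem Top.add {Φ Ψ : X → (Fin d → E d) → ℝ} (h : Top Φ) (h' : Top Ψ) :
    Top (fun y v => Φ y v + Ψ y v) :=
  ⟨fun y L M => by rw [h.nat, h'.nat]; ring, fun c => (h.cont c).add (h'.cont c)⟩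

theorem Top.mul {Φ : X → (Fin d → E d) → ℝ} (h : Top Φ) {G : X → ℝ} (hG : Continuous G) :
    Top (fun y v => G y * Φ y v) :=
  ⟨fun y L M => by rw [h.nat]; ring, fun c => (comp_symm_cont c hG).mul (h.cont c)⟩

theorem Top.smul {Φ : X → (Fin d → E d) → ℝ} (h : Top Φ) (a : ℝ) :
    Top (fun y v => a * Φ y v) := h.mul (G := fun _ => a) continuous_const

theorem Top.zero : Top (fun (_ : X) (_ : Fin d → E d) => (0 : ℝ)) :=
  ⟨fun _ _ _ => (mul_zero _).symm, fun _ => continuousOn_const⟩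

theorem II_add (ha : Atl J0 J c r s χ) {Φ Ψ : X → (Fin d → E d) → ℝ} (h : Top Φ) (h' : Top Ψ) :
    II c r s χ (fun y v => Φ y v + Ψ y v) = II c r s χ Φ + II c r s χ Ψ := by
  unfold II
  rw [← Finset.sum_add_distrib]
  refine Finset.sum_congr rfl fun i _ => ?_
  rw [← mul_add, ← integral_add]
  · congr 1
    refine integral_congr_ae (Eventually.of_forall fun x => ?_)
    show χ i _ * (inc Φ (c i) x + inc Ψ (c i) x) = _
    ring
  · exact (ha.box i).intOn ((comp_symm_cont _ (ha.smooth i).continuous).mul (h.cont _))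
  · exact (ha.box i).intOn ((comp_symm_cont _ (ha.smooth i).continuous).mul (h'.cont _))

theorem II_smul (Φ : X → (Fin d → E d) → ℝ) (a : ℝ) :
    II c r s χ (fun y v => a * Φ y v) = a * II c r s χ Φ := by
  unfold II
  rw [Finset.mul_sum]
  refine Finset.sum_congr rfl fun i _ => ?_
  rw [mul_left_comm]
  congr 1
  rw [← integral_const_mul]
  refine integral_congr_ae (Eventually.of_forall fun x => ?_)
  show χ i _ * (a * inc Φ (c i) x) = a * (χ i _ * inc Φ (c i) x)
  ring

theorem II_sum (ha : Atl J0 J c r s χ) {κ : Type} (t : Finset κ)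
    {Φ : κ → X → (Fin d → E d) → ℝ} (h : ∀ k, Top (Φ k)) :
    Top (fun y v => ∑ k ∈ t, Φ k y v) ∧
    II c r s χ (fun y v => ∑ k ∈ t, Φ k y v) = ∑ k ∈ t, II c r s χ (Φ k) := by
  classical
  induction t using Finset.induction_on with
  | empty =>
    simp only [Finset.sum_empty]
    refine ⟨Top.zero, ?_⟩
    have := II_smul (c := c) (r := r) (s := s) (χ := χ) (fun (_ : X) (_ : Fin d → E d) => (0 : ℝ)) 0
    simpa using this
  | insert a t ha' ih =>
    simp only [Finset.sum_insert ha']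
    refine ⟨(h a).add ih.1, ?_⟩
    rw [II_add ha (h a) ih.1, ih.2]

theorem II_congr {Φ Ψ : X → (Fin d → E d) → ℝ} (h : ∀ y v, Φ y v = Ψ y v) :
    II c r s χ Φ = II c r s χ Ψ := by
  have : Φ = Ψ := by
    funext y v
    exact h y v
  rw [this]

/-- densities supported in a box -/
theorem II_box [IsManifold (𝓡 d) ∞ X] (h2 : S_L2) (hJ0 : ∀ v, J0 (J0 v) = -v)
    (hJ : IsAlmostComplex J) (ha : Atl J0 J c r s χ) {Φ : X → (Fin d → E d) → ℝ} (hΦ : Top Φ)
    (k : ι) (hsupp : ∀ y, y ∉ UB (d := d) (c k) (r k) → ∀ v, Φ y v = 0) :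
    II c r s χ Φ = s k * ∫ x in Metric.ball (chartAt (E d) (c k) (c k)) (r k), inc Φ (c k) x := by
  unfold II
  have h3 : ∀ i, s i * ∫ x in Metric.ball (chartAt (E d) (c i) (c i)) (r i),
      χ i ((chartAt (E d) (c i)).symm x) * inc Φ (c i) x =
      s k * ∫ x in Metric.ball (chartAt (E d) (c k) (c k)) (r k),
        χ i ((chartAt (E d) (c k)).symm x) * inc Φ (c k) x := by
    intro i
    refine cov h2 hJ0 hJ (ha.box i) (ha.box k) hΦ (χ i) (fun x _ hx => ?_) (fun x _ hx => ?_)
    · unfold inc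
      rw [hsupp _ hx, mul_zero]
    · have : χ i ((chartAt (E d) (c k)).symm x) = 0 := by
        by_contra h0
        exact hx (ha.supp i (subset_tsupport _ h0))
      rw [this, zero_mul]
  rw [Finset.sum_congr rfl fun i _ => h3 i, ← Finset.mul_sum, ← integral_finsetSum]
  · congr 1
    refine integral_congr_ae (Eventually.of_forall fun x => ?_)
    show ∑ i, χ i ((chartAt (E d) (c k)).symm x) * inc Φ (c k) x = inc Φ (c k) x
    rw [← Finset.sum_mul, ha.sum, one_mul]
  · intro i _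
    exact (ha.box k).intOn ((comp_symm_cont _ (ha.smooth i).continuous).mul (hΦ.cont _))

theorem II_nonneg (ha : Atl J0 J c r s χ) {Φ : X → (Fin d → E d) → ℝ}
    (h : ∀ i, ∀ x ∈ Metric.ball (chartAt (E d) (c i) (c i)) (r i), 0 ≤ s i * inc Φ (c i) x) :
    0 ≤ II c r s χ Φ := by
  unfold II
  refine Finset.sum_nonneg fun i _ => ?_
  rw [← integral_const_mul]
  refine setIntegral_nonneg Metric.isOpen_ball.measurableSet fun x hx => ?_
  have h3 := mul_nonneg (ha.nonneg i ((chartAt (E d) (c i)).symm x)) (h i x hx)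
  calc (0 : ℝ) ≤ _ := h3
    _ = _ := by ring

theorem II_pos (ha : Atl J0 J c r s χ) {Φ : X → (Fin d → E d) → ℝ} (hΦ : Top Φ)
    (h : ∀ i, ∀ x ∈ Metric.ball (chartAt (E d) (c i) (c i)) (r i), 0 ≤ s i * inc Φ (c i) x)
    {y : X} (hy : ∀ i, y ∈ UB (d := d) (c i) (r i) →
      0 < s i * inc Φ (c i) (chartAt (E d) (c i) y)) : 0 < II c r s χ Φ := by
  obtain ⟨i, -, hi⟩ : ∃ i ∈ (Finset.univ : Finset ι), χ i y ≠ 0 := by
    refine Finset.exists_ne_zero_of_sum_ne_zero ?_
    rw [ha.sum]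
    exact one_ne_zero
  have hyU : y ∈ UB (d := d) (c i) (r i) := ha.supp i (subset_tsupport _ hi)
  unfold II
  refine Finset.sum_pos' (fun i _ => ?_) ⟨i, Finset.mem_univ i, ?_⟩
  · rw [← integral_const_mul]
    refine setIntegral_nonneg Metric.isOpen_ball.measurableSet fun x hx => ?_
    have h3 := mul_nonneg (ha.nonneg i ((chartAt (E d) (c i)).symm x)) (h i x hx)
    calc (0 : ℝ) ≤ _ := h3
      _ = _ := by ring
  · rw [← integral_const_mul]
    have hnn : ∀ x ∈ Metric.ball (chartAt (E d) (c i) (c i)) (r i), 0 ≤ s i *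
        (χ i ((chartAt (E d) (c i)).symm x) * inc Φ (c i) x) := fun x hx => by
      have h3 := mul_nonneg (ha.nonneg i ((chartAt (E d) (c i)).symm x)) (h i x hx)
      calc (0 : ℝ) ≤ _ := h3
        _ = _ := by ring
    have hcont : ContinuousOn (fun x => s i *
        (χ i ((chartAt (E d) (c i)).symm x) * inc Φ (c i) x)) (chartAt (E d) (c i)).target :=
      continuousOn_const.mul
        ((comp_symm_cont _ (ha.smooth i).continuous).mul (hΦ.cont _))
    rw [setIntegral_pos_iff_support_of_nonneg_ae]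
    · set x₀ := chartAt (E d) (c i) y with hx₀
      have hx₀b : x₀ ∈ Metric.ball (chartAt (E d) (c i) (c i)) (r i) := hyU.2
      have hpos : 0 < s i * (χ i ((chartAt (E d) (c i)).symm x₀) * inc Φ (c i) x₀) := by
        rw [hx₀, (chartAt (E d) (c i)).left_inv hyU.1]
        have h3 : 0 < χ i y := lt_of_le_of_ne (ha.nonneg i y) (Ne.symm hi)
        have h4 := mul_pos h3 (hy i hyU)
        calc (0 : ℝ) < _ := h4
          _ = _ := by ring
      have hopen : IsOpen (Metric.ball (chartAt (E d) (c i) (c i)) (r i) ∩ {x | 0 < s i *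
          (χ i ((chartAt (E d) (c i)).symm x) * inc Φ (c i) x)}) :=
        (hcont.mono (Metric.ball_subset_closedBall.trans (ha.box i).sub)).isOpen_inter_preimage
          Metric.isOpen_ball isOpen_Ioi
      refine lt_of_lt_of_le (hopen.measure_pos volume ⟨x₀, hx₀b, hpos⟩) (measure_mono ?_)
      intro x hx
      exact ⟨ne_of_gt hx.2, hx.1⟩
    · exact (ae_restrict_iff' Metric.isOpen_ball.measurableSet).2
        (Eventually.of_forall fun x hx => hnn x hx)
    · exact (ha.box i).intOn hcont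

end

end Pool.Agent.L7h49.OG
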