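import Pool.Agent.L7h49.OF.Int2

/-!
# The densities `ρ ∧ dF_1 ∧ ... ∧ dF_n` and Stokes' formula
-/

set_option autoImplicit false

open Set Filter Topology MeasureTheory
open scoped Manifold ContDiff

noncomputable section

namespace Pool.Agent.L7h49.OG

open Pool.Agent.Y501.SY
open Pool.Agent.N13.TL
open Pool.Agent.Y455.SY (A B AB BA)
open Pool.Agent.Y484.SY (comp_smooth dd_comp)
open Pool.Agent.L7h49.OF (Om eb co S_L1 S_L2 S_OM1 S_ST1 S_ST2 Itw exists_itw loc_sign)

section lin

variable {V W : Type} [AddCommGroup V] [Module ℝ V] [TopologicalSpace V]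
  [AddCommGroup W] [Module ℝ W] [TopologicalSpace W] {n : ℕ}

theorem om_sum {κ : Type} (s : Finset κ) {b : V [⋀^Fin 2]→L[ℝ] ℝ} {bs : κ → V [⋀^Fin 2]→L[ℝ] ℝ}
    (h : ∀ v w, b ![v, w] = ∑ k ∈ s, bs k ![v, w]) (c : Fin n → V →L[ℝ] ℝ)
    (v : Fin (n + 2) → V) : Om b c v = ∑ k ∈ s, Om (bs k) c v := by
  unfold Om
  rw [Finset.sum_comm]
  refine Finset.sum_congr rfl fun π _ => ?_
  rw [h, Finset.sum_mul, Finset.mul_sum]

theorem om_smul (a : ℝ) (b : V [⋀^Fin 2]→L[ℝ] ℝ) (c : Fin n → V →L[ℝ] ℝ)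
    (v : Fin (n + 2) → V) : Om (a • b) c v = a * Om b c v := by
  unfold Om
  rw [Finset.mul_sum]
  refine Finset.sum_congr rfl fun π _ => ?_
  have : (a • b) ![v (π 0), v (π 1)] = a * b ![v (π 0), v (π 1)] := rfl
  rw [this]
  ring

theorem om_zero_left (c : Fin n → V →L[ℝ] ℝ) (v : Fin (n + 2) → V) :
    Om (0 : V [⋀^Fin 2]→L[ℝ] ℝ) c v = 0 := by
  unfold Om
  refine Finset.sum_eq_zero fun π _ => ?_
  have : (0 : V [⋀^Fin 2]→L[ℝ] ℝ) ![v (π 0), v (π 1)] = 0 := rfl
  rw [this, zero_mul, mul_zero]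

theorem om_upd (b : V [⋀^Fin 2]→L[ℝ] ℝ) (c : Fin n → V →L[ℝ] ℝ) (i : Fin n) (a : V →L[ℝ] ℝ)
    (v : Fin (n + 2) → V) : Om b (Function.update c i a) v =
      ∑ π : Equiv.Perm (Fin (n + 2)), ((Equiv.Perm.sign π : ℤ) : ℝ) *
        (b ![v (π 0), v (π 1)] * (a (v (π i.succ.succ)) *
          ∏ j ∈ Finset.univ.erase i, c j (v (π j.succ.succ)))) := by
  unfold Om
  refine Finset.sum_congr rfl fun π _ => ?_
  rw [← Finset.mul_prod_erase Finset.univ _ (Finset.mem_univ i), Function.update_self]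
  congr 3
  refine Finset.prod_congr rfl fun j hj => ?_
  rw [Function.update_of_ne (Finset.ne_of_mem_erase hj)]

theorem om_upd_sum {κ : Type} (s : Finset κ) (b : V [⋀^Fin 2]→L[ℝ] ℝ) (c : Fin n → V →L[ℝ] ℝ)
    (i : Fin n) {a : V →L[ℝ] ℝ} {as : κ → V →L[ℝ] ℝ} (h : ∀ v, a v = ∑ k ∈ s, as k v)
    (v : Fin (n + 2) → V) : Om b (Function.update c i a) v =
      ∑ k ∈ s, Om b (Function.update c i (as k)) v := by
  simp only [om_upd]
  rw [Finset.sum_comm]
  refine Finset.sum_congr rfl fun π _ => ?_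
  rw [h, Finset.sum_mul, Finset.mul_sum, Finset.mul_sum]

theorem om_upd_zero (b : V [⋀^Fin 2]→L[ℝ] ℝ) (c : Fin n → V →L[ℝ] ℝ) (i : Fin n)
    {a : V →L[ℝ] ℝ} (ha : ∀ v, a v = 0) (v : Fin (n + 2) → V) :
    Om b (Function.update c i a) v = 0 := by
  rw [om_upd]
  refine Finset.sum_eq_zero fun π _ => ?_
  rw [ha]
  ring

theorem om_comp (b : W [⋀^Fin 2]→L[ℝ] ℝ) (c : Fin n → W →L[ℝ] ℝ) (L : V →L[ℝ] W)
    (v : Fin (n + 2) → V) : Om (b.compContinuousLinearMap L) (fun j => (c j).comp L) v =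
      Om b c (fun i => L (v i)) := by
  unfold Om
  refine Finset.sum_congr rfl fun π _ => ?_
  congr 2
  rw [ContinuousAlternatingMap.compContinuousLinearMap_apply]
  congr 1
  funext i
  fin_cases i <;> rfl

end lin

variable {n : ℕ} {X : Type} [TopologicalSpace X] [ChartedSpace (E (n + 2)) X]

/-- the density `2 ρ ∧ dF 0 ∧ ... ∧ dF (n - 1)` -/
def omX (ρ : Form (n + 2) X 2) (F : Fin n → X → ℝ) : X → (Fin (n + 2) → E (n + 2)) → ℝ :=
  fun y v => Om (V := E (n + 2)) (ρ y) (fun j => dd (d := n + 2) (F j) y) v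

variable [IsManifold (𝓡 (n + 2)) ∞ X]

theorem inc_om (ρ : Form (n + 2) X 2) {F : Fin n → X → ℝ}
    (hF : ∀ j, SmoothFun (d := n + 2) (F j)) (c : X) {x : E (n + 2)}
    (hx : x ∈ (chartAt (E (n + 2)) c).target) :
    inc (omX ρ F) c x = Om (pb (chartAt (E (n + 2)) c).symm ρ x)
      (fun j => fderiv ℝ (F j ∘ (chartAt (E (n + 2)) c).symm) x) eb := by
  have h1 := om_comp (V := E (n + 2)) (W := E (n + 2)) (ρ ((chartAt (E (n + 2)) c).symm x))
    (fun j => dd (d := n + 2) (F j) ((chartAt (E (n + 2)) c).symm x)) (A c x) eb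
  refine Eq.trans h1.symm ?_
  congr 1
  funext j
  ext v
  exact dd_comp (chartAt (E (n + 2)) c).open_target contMDiffOn_chart_symm (hF j) hx v

theorem om_cont {S : Set (E (n + 2))} {b : E (n + 2) → (E (n + 2)) [⋀^Fin 2]→L[ℝ] ℝ}
    {c : Fin n → E (n + 2) → E (n + 2) →L[ℝ] ℝ} (hb : ContinuousOn b S)
    (hc : ∀ j, ContinuousOn (c j) S) :
    ContinuousOn (fun x => Om (b x) (fun j => c j x) eb) S := by
  unfold Om
  refine continuousOn_finsetSum _ fun π _ => ?_
  refine continuousOn_const.mul (ContinuousOn.mul ?_ ?_)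
  · exact (ContinuousAlternatingMap.apply ℝ (E (n + 2)) ℝ ![eb (π 0), eb (π 1)]).continuous.comp_continuousOn hb
  · refine continuousOn_finsetProd _ fun j _ => ?_
    exact (hc j).clm_apply continuousOn_const

theorem top_om (hO1 : S_OM1) {ρ : Form (n + 2) X 2} (hρ : IsSmooth ρ) {F : Fin n → X → ℝ}
    (hF : ∀ j, SmoothFun (d := n + 2) (F j)) : Top (omX ρ F) := by
  refine ⟨fun y L M => ?_, fun c => ?_⟩
  · have h1 := om_comp (V := E (n + 2)) (W := E (n + 2)) (ρ y)
      (fun j => dd (d := n + 2) (F j) y) L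
    have h2 := hO1 n ((ρ y : (E (n + 2)) [⋀^Fin 2]→L[ℝ] ℝ).compContinuousLinearMap L)
      (fun j => (dd (d := n + 2) (F j) y : E (n + 2) →L[ℝ] ℝ).comp L) M eb
    exact (h1 (fun i => M (eb i))).symm.trans (h2.trans
      (congrArg (fun t => LinearMap.det (M : E (n + 2) →ₗ[ℝ] E (n + 2)) * t) (h1 eb)))
  · have h1 : ContinuousOn (fun x => Om (pb (chartAt (E (n + 2)) c).symm ρ x)
        (fun j => fderiv ℝ (F j ∘ (chartAt (E (n + 2)) c).symm) x) eb)
        (chartAt (E (n + 2)) c).target := by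
      refine om_cont ?_ fun j => ?_
      · exact (hρ _ _ (chartAt (E (n + 2)) c).open_target contMDiffOn_chart_symm).continuousOn
      · exact (comp_smooth contMDiffOn_chart_symm (hF j)).continuousOn_fderiv_of_isOpen
          (chartAt (E (n + 2)) c).open_target (by simp)
    exact h1.congr fun x hx => inc_om ρ hF c hx

section zero

variable {Y : Type} [NormedAddCommGroup Y] [NormedSpace ℝ Y]

theorem ind_zero {d : ℕ} {T K : Set (E d)} (hK : IsCompact K) {g : E d → Y}
    (hg : ∀ x ∈ T, x ∉ K → g x = 0) {x : E d} (hx : x ∉ K) :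
    T.indicator g =ᶠ[𝓝 x] fun _ => 0 := by
  filter_upwards [hK.isClosed.isOpen_compl.mem_nhds hx] with y hy
  by_cases hyT : y ∈ T
  · rw [indicator_of_mem hyT, hg y hyT hy]
  · rw [indicator_of_notMem hyT]

theorem ind_supp {d : ℕ} {T K : Set (E d)} (hK : IsCompact K) {g : E d → Y}
    (hg : ∀ x ∈ T, x ∉ K → g x = 0) : tsupport (T.indicator g) ⊆ K := by
  refine closure_minimal ?_ hK.isClosed
  intro x hx
  by_contra hxK
  exact hx (ind_zero hK hg hxK).self_of_nhds

theorem ind_comp {d : ℕ} {T K : Set (E d)} (hK : IsCompact K) {g : E d → Y}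
    (hg : ∀ x ∈ T, x ∉ K → g x = 0) : HasCompactSupport (T.indicator g) :=
  hK.of_isClosed_subset (isClosed_tsupport _) (ind_supp hK hg)

end zero

variable {J0 : E (n + 2) →ₗ[ℝ] E (n + 2)} {J : End (n + 2) X} {ι : Type} [Fintype ι] {c : ι → X}
  {r s : ι → ℝ} {χ : ι → X → ℝ}

omit [IsManifold (𝓡 (n + 2)) ∞ X] in
theorem dd_sum {κ : Type} (t : Finset κ) {f : κ → X → ℝ}
    (hf : ∀ k, SmoothFun (d := n + 2) (f k)) (y : X) (v : TangentSpace (𝓡 (n + 2)) y) :
    SmoothFun (d := n + 2) (fun y => ∑ k ∈ t, f k y) ∧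
    dd (d := n + 2) (fun y => ∑ k ∈ t, f k y) y v = ∑ k ∈ t, dd (f k) y v := by
  classical
  induction t using Finset.induction_on with
  | empty =>
    simp only [Finset.sum_empty]
    refine ⟨contMDiff_const, ?_⟩
    unfold dd
    rw [mfderiv_const]
    rfl
  | insert a t ha ih =>
    simp only [Finset.sum_insert ha]
    exact ⟨(hf a).add ih.1, by rw [dd_add (hf a) ih.1, ih.2]⟩

omit [IsManifold (𝓡 (n + 2)) ∞ X] in
theorem dd_zero_of {f : X → ℝ} {y : X} (h : f =ᶠ[𝓝 y] fun _ => 0) :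
    dd (d := n + 2) f y = 0 := by
  unfold dd
  rw [h.mfderiv_eq, mfderiv_const]
  rfl

omit [IsManifold (𝓡 (n + 2)) ∞ X] in
theorem atl_zero (ha : Atl J0 J c r s χ) {k : ι} {y : X}
    (hy : y ∉ UB (d := n + 2) (c k) (r k)) : χ k =ᶠ[𝓝 y] fun _ => 0 :=
  notMem_tsupport_iff_eventuallyEq.1 fun h => hy (ha.supp k h)

/-- Stokes' formula for exact forms -/
theorem stokes1 [CompactSpace X] (h2 : S_L2) (hO1 : S_OM1) (hST : S_ST1)
    (hJ0 : ∀ v, J0 (J0 v) = -v) (hJ : IsAlmostComplex J) (ha : Atl J0 J c r s χ)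
    {α : Form (n + 2) X 1} {ρ : Form (n + 2) X 2} (hα : IsSmooth α) (hρ : IsSmooth ρ)
    (hD : IsD α ρ) {F : Fin n → X → ℝ} (hF : ∀ j, SmoothFun (d := n + 2) (F j)) {G : X → ℝ}
    (hG : SmoothFun (d := n + 2) G)
    (hGF : ∀ y : X, ∃ t : Fin n → ℝ, ∀ v, dd (d := n + 2) G y v = ∑ j, t j * dd (F j) y v) :
    II c r s χ (fun y v => G y * omX ρ F y v) = 0 := by
  have hP := fun k => Pool.Agent.Y658.SY.t_PROD (n + 2) X (χ k) α ρ (ha.smooth k) hα hρ hD
  have htop : ∀ k, Top (fun y v => G y * omX (prodD (χ k) α ρ) F y v) := fun k =>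
    (top_om hO1 (hP k).2.1 hF).mul hG.continuous
  have hone : ∀ (y : X) (v : TangentSpace (𝓡 (n + 2)) y),
      ∑ k, dd (d := n + 2) (χ k) y v = 0 := by
    intro y v
    rw [← (dd_sum Finset.univ ha.smooth y v).2]
    have h1 : (fun y => ∑ k, χ k y) = fun _ => (1 : ℝ) := funext ha.sum
    rw [h1]
    unfold dd
    rw [mfderiv_const]
    rfl
  have hsum : ∀ y v, G y * omX ρ F y v = ∑ k, G y * omX (prodD (χ k) α ρ) F y v := by
    intro y v
    rw [← Finset.mul_sum]
    congr 1
    refine om_sum (V := E (n + 2)) Finset.univ (bs := fun k => prodD (χ k) α ρ y)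
      (fun a b => ?_) _ v
    have h3 : ∀ a b : TangentSpace (𝓡 (n + 2)) y,
        ∑ k, prodD (χ k) α ρ y ![a, b] = ρ y ![a, b] := by
      intro a b
      rw [Finset.sum_congr rfl fun k _ => (hP k).2.2.2.2 y a b, Finset.sum_add_distrib,
        Finset.sum_sub_distrib, ← Finset.sum_mul, ← Finset.sum_mul, ← Finset.sum_mul, hone, hone,
        ha.sum]
      ring
    exact (h3 a b).symm
  rw [II_congr hsum, (II_sum ha Finset.univ htop).2]
  refine Finset.sum_eq_zero fun k _ => ?_
  rw [II_box h2 hJ0 hJ ha (htop k) k (fun y hy v => ?_)]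
  swap
  · have h1 := atl_zero ha hy
    have h5 := dd_zero_of (n := n) h1
    have h3 : ∀ a b : TangentSpace (𝓡 (n + 2)) y, prodD (χ k) α ρ y ![a, b] = 0 := by
      intro a b
      rw [(hP k).2.2.2.2 y a b, h5, h1.self_of_nhds]
      show (0 : ℝ) * _ - 0 * _ + 0 * _ = 0
      ring
    have h4 : omX (prodD (χ k) α ρ) F y v = 0 :=
      om_sum (V := E (n + 2)) (κ := Empty) ∅ (bs := fun _ => 0) (fun a b => h3 a b) _ v
    rw [h4, mul_zero]
  refine mul_eq_zero_of_right _ ?_
  set T := (chartAt (E (n + 2)) (c k)).target with hT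
  have hTo : IsOpen T := (chartAt (E (n + 2)) (c k)).open_target
  have hcm : ContMDiffOn (𝓡 (n + 2)) (𝓡 (n + 2)) ∞ (chartAt (E (n + 2)) (c k)).symm T :=
    contMDiffOn_chart_symm
  set K := chartAt (E (n + 2)) (c k) '' tsupport (χ k) with hKd
  have hsub : tsupport (χ k) ⊆ (chartAt (E (n + 2)) (c k)).source :=
    (ha.supp k).trans inter_subset_left
  have hK : IsCompact K := (isClosed_tsupport _).isCompact.image_of_continuousOn
    ((chartAt (E (n + 2)) (c k)).continuousOn.mono hsub)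
  have hKb : K ⊆ Metric.ball (chartAt (E (n + 2)) (c k) (c k)) (r k) := by
    rintro _ ⟨y, hy, rfl⟩
    exact (ha.supp k hy).2
  have hbT : Metric.ball (chartAt (E (n + 2)) (c k) (c k)) (r k) ⊆ T :=
    Metric.ball_subset_closedBall.trans (ha.box k).sub
  set gβ := pb (chartAt (E (n + 2)) (c k)).symm (fun x => χ k x • α x : Form (n + 2) X 1)
    with hgβ
  have hg0 : ∀ x ∈ T, x ∉ K → gβ x = 0 := by
    intro x hx hxK
    have h1 : χ k ((chartAt (E (n + 2)) (c k)).symm x) = 0 := by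
      by_contra h0
      refine hxK ⟨_, subset_tsupport _ h0, (chartAt (E (n + 2)) (c k)).right_inv hx⟩
    ext w
    show χ k ((chartAt (E (n + 2)) (c k)).symm x) * _ = 0
    rw [h1, zero_mul]
  have h3 := hST n T (T.indicator gβ) (fun j => F j ∘ (chartAt (E (n + 2)) (c k)).symm)
    (G ∘ (chartAt (E (n + 2)) (c k)).symm) hTo
    (((hP k).1 T _ hTo hcm).congr fun x hx => indicator_of_mem hx _)
    (ind_comp hK hg0) ((ind_supp hK hg0).trans (hKb.trans hbT))
    (fun j => comp_smooth hcm (hF j)) (comp_smooth hcm hG) (by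
      intro x hx
      obtain ⟨t, ht⟩ := hGF ((chartAt (E (n + 2)) (c k)).symm x)
      refine ⟨t, ?_⟩
      ext v
      have h4 := ht (mfderiv (𝓡 (n + 2)) (𝓡 (n + 2)) (chartAt (E (n + 2)) (c k)).symm x v)
      rw [dd_comp hTo hcm hG hx] at h4
      rw [h4, sum_apply]
      refine Finset.sum_congr rfl fun j _ => ?_
      rw [dd_comp hTo hcm (hF j) hx]
      rfl)
  rw [← setIntegral_eq_integral_of_forall_compl_eq_zero
    (s := Metric.ball (chartAt (E (n + 2)) (c k) (c k)) (r k)) (fun x hx => ?_)] at h3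
  · rw [← h3]
    refine setIntegral_congr_fun Metric.isOpen_ball.measurableSet fun x hx => ?_
    have hxT := hbT hx
    have h4 : extDeriv (T.indicator gβ) x = pb (chartAt (E (n + 2)) (c k)).symm
        (prodD (χ k) α ρ) x := by
      rw [← (hP k).2.2.1 T _ hTo hcm x hxT]
      have h5 : T.indicator gβ =ᶠ[𝓝 x] gβ := by
        filter_upwards [hTo.mem_nhds hxT] with y hy
        exact indicator_of_mem hy _
      exact h5.extDeriv_eq
    show G _ * inc (omX (prodD (χ k) α ρ) F) (c k) x = _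
    rw [inc_om _ hF _ hxT, h4]
    rfl
  · have h4 : extDeriv (T.indicator gβ) x = 0 := by
      have h5 := ind_zero hK hg0 (fun h => hx (hKb h))
      rw [h5.extDeriv_eq]
      unfold extDeriv
      rw [fderiv_fun_const]
      ext w
      simp [ContinuousAlternatingMap.alternatizeUncurryFin_apply]
    rw [h4, om_zero_left, mul_zero]

/-- Stokes' formula for closed forms -/
theorem stokes3 [CompactSpace X] (h2 : S_L2) (hO1 : S_OM1) (hST : S_ST2)
    (hJ0 : ∀ v, J0 (J0 v) = -v) (hJ : IsAlmostComplex J) (ha : Atl J0 J c r s χ)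
    {ζ : Form (n + 2) X 2} (hζ : IsSmooth ζ) {F : Fin n → X → ℝ}
    (hF : ∀ j, SmoothFun (d := n + 2) (F j)) {V : Set X}
    (hcl : ∀ (c : X), ∀ p ∈ (chartAt (E (n + 2)) c).target, (chartAt (E (n + 2)) c).symm p ∈ V →
      extDeriv (pb (chartAt (E (n + 2)) c).symm ζ) p = 0) {H : X → ℝ}
    (hH : SmoothFun (d := n + 2) H) (hHV : tsupport H ⊆ V) (i : Fin n) :
    II c r s χ (omX ζ (Function.update F i H)) = 0 := by
  have hkH : ∀ k, SmoothFun (d := n + 2) (fun y => χ k y * H y) := fun k =>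
    (ha.smooth k).mul hH
  have hFu : ∀ {H' : X → ℝ}, SmoothFun (d := n + 2) H' → ∀ j,
      SmoothFun (d := n + 2) (Function.update F i H' j) := by
    intro H' hH' j
    rcases eq_or_ne j i with rfl | hj
    · rw [Function.update_self]
      exact hH'
    · rw [Function.update_of_ne hj]
      exact hF j
  have hupd : ∀ (H' : X → ℝ) (y : X), (fun j => dd (d := n + 2) (Function.update F i H' j) y) =
      Function.update (fun j => dd (d := n + 2) (F j) y) i (dd H' y) := by
    intro H' y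
    funext j
    rcases eq_or_ne j i with rfl | hj
    · rw [Function.update_self, Function.update_self]
    · rw [Function.update_of_ne hj, Function.update_of_ne hj]
  have htop : ∀ k, Top (omX ζ (Function.update F i (fun y => χ k y * H y))) := fun k =>
    top_om hO1 hζ (hFu (hkH k))
  have hsum : ∀ y v, omX ζ (Function.update F i H) y v =
      ∑ k, omX ζ (Function.update F i (fun y => χ k y * H y)) y v := by
    intro y v
    unfold omX
    simp only [hupd]
    refine om_upd_sum (V := E (n + 2)) Finset.univ (ζ y) _ i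
      (as := fun k => dd (fun y => χ k y * H y) y) (fun w => ?_) v
    have h1 : (fun y => ∑ k, χ k y * H y) = H := by
      funext y
      rw [← Finset.sum_mul, ha.sum, one_mul]
    have h3 := (dd_sum Finset.univ hkH y w).2
    rw [h1] at h3
    exact h3
  rw [II_congr hsum, (II_sum ha Finset.univ htop).2]
  refine Finset.sum_eq_zero fun k _ => ?_
  rw [II_box h2 hJ0 hJ ha (htop k) k (fun y hy v => ?_)]
  swap
  · have h1 : (fun y => χ k y * H y) =ᶠ[𝓝 y] fun _ => 0 := by
      filter_upwards [atl_zero ha hy] with z hz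
      rw [hz, zero_mul]
    unfold omX
    rw [hupd]
    refine om_upd_zero (V := E (n + 2)) _ _ i (fun w => ?_) v
    have h3 := dd_zero_of (n := n) h1
    exact congrArg (fun L => L w) h3
  refine mul_eq_zero_of_right _ ?_
  set T := (chartAt (E (n + 2)) (c k)).target with hT
  have hTo : IsOpen T := (chartAt (E (n + 2)) (c k)).open_target
  have hcm : ContMDiffOn (𝓡 (n + 2)) (𝓡 (n + 2)) ∞ (chartAt (E (n + 2)) (c k)).symm T :=
    contMDiffOn_chart_symm
  have hss : tsupport (fun y => χ k y * H y) ⊆ tsupport (χ k) := tsupport_mul_subset_left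
  have hss' : tsupport (fun y => χ k y * H y) ⊆ tsupport H := tsupport_mul_subset_right
  set K := chartAt (E (n + 2)) (c k) '' tsupport (fun y => χ k y * H y) with hKd
  have hsub : tsupport (fun y => χ k y * H y) ⊆ (chartAt (E (n + 2)) (c k)).source :=
    hss.trans ((ha.supp k).trans inter_subset_left)
  have hK : IsCompact K := (isClosed_tsupport _).isCompact.image_of_continuousOn
    ((chartAt (E (n + 2)) (c k)).continuousOn.mono hsub)
  have hKb : K ⊆ Metric.ball (chartAt (E (n + 2)) (c k) (c k)) (r k) := by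
    rintro _ ⟨y, hy, rfl⟩
    exact (ha.supp k (hss hy)).2
  have hbT : Metric.ball (chartAt (E (n + 2)) (c k) (c k)) (r k) ⊆ T :=
    Metric.ball_subset_closedBall.trans (ha.box k).sub
  set g : E (n + 2) → ℝ := (fun y => χ k y * H y) ∘ (chartAt (E (n + 2)) (c k)).symm with hg
  have hg0 : ∀ x ∈ T, x ∉ K → g x = 0 := by
    intro x hx hxK
    by_contra h0
    exact hxK ⟨_, subset_tsupport _ h0, (chartAt (E (n + 2)) (c k)).right_inv hx⟩
  have hind : ∀ x ∈ T, T.indicator g =ᶠ[𝓝 x] g := by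
    intro x hxT
    filter_upwards [hTo.mem_nhds hxT] with y hy
    exact indicator_of_mem hy _
  let a : Fin n → E (n + 2) → ℝ :=
    Function.update (fun j => F j ∘ (chartAt (E (n + 2)) (c k)).symm) i (T.indicator g)
  have hai : a i = T.indicator g := Function.update_self _ _ _
  have haj : ∀ j, j ≠ i → a j = F j ∘ (chartAt (E (n + 2)) (c k)).symm := fun j hj =>
    Function.update_of_ne hj _ _
  have ha' : ∀ j, ContDiffOn ℝ ∞ (a j) T := by
    intro j
    by_cases hj : j = i
    · rw [hj, hai]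
      exact (comp_smooth hcm (hkH k)).congr fun x hx => indicator_of_mem hx _
    · rw [haj j hj]
      exact comp_smooth hcm (hF j)
  have h3 := hST n T (pb (chartAt (E (n + 2)) (c k)).symm ζ) a i hTo
    (hζ T _ hTo hcm) ha' (by rw [hai]; exact ind_comp hK hg0)
    (by rw [hai]; exact (ind_supp hK hg0).trans (hKb.trans hbT)) (by
      intro x hx
      rw [hai] at hx
      obtain ⟨y, hy, rfl⟩ := ind_supp hK hg0 hx
      refine hcl (c k) _ ((chartAt (E (n + 2)) (c k)).map_source (hsub hy)) ?_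
      rw [(chartAt (E (n + 2)) (c k)).left_inv (hsub hy)]
      exact hHV (hss' hy))
  rw [← setIntegral_eq_integral_of_forall_compl_eq_zero
    (s := Metric.ball (chartAt (E (n + 2)) (c k) (c k)) (r k)) (fun x hx => ?_)] at h3
  · rw [← h3]
    refine setIntegral_congr_fun Metric.isOpen_ball.measurableSet fun x hx => ?_
    have hxT := hbT hx
    show inc (omX ζ (Function.update F i (fun y => χ k y * H y))) (c k) x = _
    rw [inc_om _ (hFu (hkH k)) _ hxT]
    congr 1
    funext j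
    rcases eq_or_ne j i with rfl | hj
    · rw [Function.update_self, hai, (hind x hxT).fderiv_eq]
    · rw [Function.update_of_ne hj, haj j hj]
  · have h4 : (fun j => fderiv ℝ (a j) x) =
        Function.update (fun j => fderiv ℝ (a j) x) i 0 := by
      funext j
      rcases eq_or_ne j i with rfl | hj
      · rw [Function.update_self, hai]
        have h5 := ind_zero hK hg0 (fun h => hx (hKb h))
        rw [h5.fderiv_eq, fderiv_fun_const]
        rfl
      · rw [Function.update_of_ne hj]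
    rw [h4]
    exact om_upd_zero _ _ i (fun _ => rfl) _

end Pool.Agent.L7h49.OG
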