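import Pool.Agent.L7h49.OF.Stm
import Pool.Agent.L7h49.TS.Main

/-!
# Project OF: statements about closed positive currents on the fibres
-/

set_option autoImplicit false

open Set Filter Topology MeasureTheory
open scoped Manifold ContDiff

noncomputable section

namespace Pool.Agent.L7h49.OG

open Pool.Agent.Y501.SY
open Pool.Agent.N13.TL
open Pool.Agent.L7h49.TS (qq)
open Pool.Agent.R772 (ExactF)

section

variable {d : ℕ} {X : Type} [TopologicalSpace X] [ChartedSpace (E d) X]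

/-- a closed positive current carried by `K` -/
structure CC [MeasurableSpace (TangentBundle (𝓡 d) X)] (J : End d X)
    (K : Set (TangentBundle (𝓡 d) X)) (μ : Measure (TangentBundle (𝓡 d) X)) : Prop where
  fin : IsFiniteMeasure μ
  car : μ Kᶜ = 0
  orth : ∀ ρ : Form d X 2, ExactF ρ → ∫ p, qq ρ J p ∂μ = 0

/-- a form vanishing off a closed subset of `N` -/
def SuppIn {k : ℕ} (ρ : Form d X k) (N : Set X) : Prop :=
  ∃ C : Set X, IsClosed C ∧ C ⊆ N ∧ ∀ x, x ∉ C → ρ x = 0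

/-- the differential of `(F 0, ..., F (n - 1))` is surjective at `x` -/
def Reg {n : ℕ} (F : Fin n → X → ℝ) (x : X) : Prop :=
  ∀ w : Fin n → ℝ, ∃ v : TangentSpace (𝓡 d) x, ∀ j, dd (d := d) (F j) x v = w j

end

/-- closed positive currents do not charge points. Route: in the chart at `x`, for a test function
`θ` near the centre `c`, the functions `θ_k (y) = θ (c + k (y - c)) / k` give functions `u_k` on
`X`; the forms `du_k ∧ dx_b` (`dfdg`, with `x_b` cut off coordinates) are exact, uniformly bounded,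
and converge pointwise to `Dθ(c) ∧ dx_b` at `x` and to zero elsewhere; dominated convergence, and
`τ` at `x` is a combination of the `dx_a ∧ dx_b`. -/
def S_PT : Prop := ∀ (d : ℕ) (X : Type) [TopologicalSpace X] [ChartedSpace (E d) X]
  [IsManifold (𝓡 d) ∞ X] [CompactSpace X] [T2Space X]
  [MeasurableSpace (TangentBundle (𝓡 d) X)] [BorelSpace (TangentBundle (𝓡 d) X)]
  (J : End d X) (τ : Form d X 2) (K : Set (TangentBundle (𝓡 d) X))
  (μ : Measure (TangentBundle (𝓡 d) X)), IsAlmostComplex J → IsSmooth τ → IsCompact K →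
  (∀ p ∈ K, qq τ J p = 1) → CC J K μ →
  ∀ x : X, μ (Bundle.TotalSpace.proj ⁻¹' {x}) = 0

/-- straightening a submersion at a point -/
def S_STR : Prop := ∀ (n : ℕ) (X : Type) [TopologicalSpace X] [ChartedSpace (E (n + 2)) X]
  [IsManifold (𝓡 (n + 2)) ∞ X] [T2Space X] (F : Fin n → X → ℝ),
  (∀ j, SmoothFun (d := n + 2) (F j)) → ∀ (x₁ : X) (N₁ : Set X), N₁ ∈ 𝓝 x₁ →
  Reg (d := n + 2) F x₁ →
  ∃ (Ω : Set (E (n + 2))) (p₁ : E (n + 2)) (θ : E (n + 2) → X) (ψ : X → E (n + 2)),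
    IsOpen Ω ∧ p₁ ∈ Ω ∧ θ p₁ = x₁ ∧ ContMDiffOn (𝓡 (n + 2)) (𝓡 (n + 2)) ∞ θ Ω ∧
    IsOpen (θ '' Ω) ∧ θ '' Ω ⊆ N₁ ∧ ContMDiffOn (𝓡 (n + 2)) (𝓡 (n + 2)) ∞ ψ (θ '' Ω) ∧
    (∀ p ∈ Ω, ψ (θ p) = p) ∧ ∀ p ∈ Ω, ∀ j, F j (θ p) = p j.succ.succ

/-- local data at a regular point `x₁` of the fibre over `b`: the form `κ` is the pull-back of a
bump form `g(z_0, z_1) η(y) dz_0 ∧ dz_1` in a straightening chart, and
`I ρ = ∫ ρ(∂_0, ∂_1) dz_0 dz_1` over the local fibre, with the orientation by `J` -/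
structure LocD {n : ℕ} {X : Type} [TopologicalSpace X] [ChartedSpace (E (n + 2)) X]
    [IsManifold (𝓡 (n + 2)) ∞ X] [MeasurableSpace (TangentBundle (𝓡 (n + 2)) X)]
    (J : End (n + 2) X) (τ : Form (n + 2) X 2) (F : Fin n → X → ℝ) (b : Fin n → ℝ)
    (K : Set (TangentBundle (𝓡 (n + 2)) X)) (x₁ : X) (N : Set X) (κ : Form (n + 2) X 2)
    (I : Form (n + 2) X 2 → ℝ) : Prop where
  isOpen : IsOpen N
  mem : x₁ ∈ N
  smooth : IsSmooth κ
  supp : SuppIn κ N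
  nonneg : ∀ (x : X) (v : TangentSpace (𝓡 (n + 2)) x), (∀ j, dd (d := n + 2) (F j) x v = 0) →
    0 ≤ q κ J x v
  pos : ∀ v : TangentSpace (𝓡 (n + 2)) x₁, v ≠ 0 → (∀ j, dd (d := n + 2) (F j) x₁ v = 0) →
    0 < q κ J x₁ v
  closed : ∃ R : ℝ, 0 < R ∧ ∀ (c : X), ∀ p ∈ (chartAt (E (n + 2)) c).target,
    (∀ j, |F j ((chartAt (E (n + 2)) c).symm p) - b j| < R) →
      extDeriv (pb (chartAt (E (n + 2)) c).symm κ) p = 0
  ipos : ∀ u : X → ℝ, SmoothFun (d := n + 2) u → (∀ x, 0 ≤ u x) → tsupport u ⊆ N →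
    (∃ x, (∀ j, F j x = b j) ∧ 0 < u x) → 0 < I (fun x => u x • τ x)
  formula : ∀ μ : Measure (TangentBundle (𝓡 (n + 2)) X), CC J K μ → ∀ ρ : Form (n + 2) X 2,
    IsSmooth ρ → SuppIn ρ N → ∫ p, qq ρ J p ∂μ = I ρ * ∫ p, qq κ J p ∂μ

/-- existence of local data (uses `S_STR` and `S_TI` with `k = 2`: for test functions `φ` near
`(p₁ 0, p₁ 1)` and `u = φ(z_0, z_1) η(F)` the forms `du ∧ dz_i` are exact, so the functional
`φ ↦ ∫ φ(z_0, z_1) 1_N (dz_0 ∧ dz_1)(v, Jv) dμ` vanishes on derivatives) -/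
def S_LOC : Prop := ∀ (n : ℕ) (X : Type) [TopologicalSpace X] [ChartedSpace (E (n + 2)) X]
  [IsManifold (𝓡 (n + 2)) ∞ X] [CompactSpace X] [T2Space X]
  [MeasurableSpace (TangentBundle (𝓡 (n + 2)) X)] [BorelSpace (TangentBundle (𝓡 (n + 2)) X)]
  (J : End (n + 2) X) (τ : Form (n + 2) X 2) (F : Fin n → X → ℝ) (b : Fin n → ℝ)
  (K : Set (TangentBundle (𝓡 (n + 2)) X)) (x₁ : X) (N₁ : Set X),
  IsAlmostComplex J → IsSmooth τ → (∀ x, TamesAt τ J x) →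
  (∀ j, SmoothFun (d := n + 2) (F j)) → IsCompact K → (∀ p ∈ K, qq τ J p = 1) →
  N₁ ∈ 𝓝 x₁ → (∀ j, F j x₁ = b j) → Reg (d := n + 2) F x₁ →
  (∀ x ∈ N₁, ∀ v : TangentSpace (𝓡 (n + 2)) x, (∀ j, dd (d := n + 2) (F j) x v = 0) →
    ∀ j, dd (d := n + 2) (F j) x (J x v) = 0) →
  (∀ p ∈ K, p.proj ∈ N₁ → ∀ j, F j p.proj = b j ∧ dd (d := n + 2) (F j) p.proj p.snd = 0) →
  ∃ (N : Set X) (κ : Form (n + 2) X 2) (I : Form (n + 2) X 2 → ℝ),
    N ⊆ N₁ ∧ LocD J τ F b K x₁ N κ I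

/-- uniqueness of the closed positive current on an irreducible fibre `Z`. Route: the relation
(there is `a > 0` with `∫ κ_y = a ∫ κ_x` for all currents) is locally true on `Z \ Crit` (bump
forms `u τ`, `LocD.ipos`, `LocD.formula`), hence true for all `x, y`
(`IsPreconnected.induction₂`); partition of unity on `Z` with the sets `N_x` at the regular points
and small neighbourhoods of the countably many critical points, which have small mass (`S_PT`). -/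
def S_UNI : Prop := ∀ (n : ℕ) (X : Type) [TopologicalSpace X] [ChartedSpace (E (n + 2)) X]
  [IsManifold (𝓡 (n + 2)) ∞ X] [CompactSpace X] [T2Space X]
  [MeasurableSpace (TangentBundle (𝓡 (n + 2)) X)] [BorelSpace (TangentBundle (𝓡 (n + 2)) X)]
  (J : End (n + 2) X) (τ : Form (n + 2) X 2) (F : Fin n → X → ℝ) (b : Fin n → ℝ)
  (K : Set (TangentBundle (𝓡 (n + 2)) X)) (Z : Set X),
  IsAlmostComplex J → IsSmooth τ → (∀ x, TamesAt τ J x) →
  (∀ j, SmoothFun (d := n + 2) (F j)) → IsCompact K → (∀ p ∈ K, qq τ J p = 1) →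
  IsClosed Z → (∀ p ∈ K, p.proj ∈ Z) → (∀ x ∈ Z, ∀ j, F j x = b j) →
  (∀ x ∈ Z, Reg (d := n + 2) F x → ∃ (N : Set X) (κ : Form (n + 2) X 2)
    (I : Form (n + 2) X 2 → ℝ), LocD J τ F b K x N κ I) →
  {x | x ∈ Z ∧ ¬ Reg (d := n + 2) F x}.Countable →
  IsPreconnected {x | x ∈ Z ∧ Reg (d := n + 2) F x} →
  ∀ μ₀ : Measure (TangentBundle (𝓡 (n + 2)) X), CC J K μ₀ → μ₀ ≠ 0 →
  ∃ (x₁ : X) (N : Set X) (κ : Form (n + 2) X 2) (I : Form (n + 2) X 2 → ℝ),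
    x₁ ∈ Z ∧ Reg (d := n + 2) F x₁ ∧ LocD J τ F b K x₁ N κ I ∧ 0 < ∫ p, qq κ J p ∂μ₀ ∧
    ∀ μ, CC J K μ → (μ ≠ 0 → 0 < ∫ p, qq κ J p ∂μ) ∧
      ∀ ρ : Form (n + 2) X 2, IsSmooth ρ →
      (∫ p, qq κ J p ∂μ₀) * ∫ p, qq ρ J p ∂μ = (∫ p, qq κ J p ∂μ) * ∫ p, qq ρ J p ∂μ₀

end Pool.Agent.L7h49.OG
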