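import Pool.Agent.L7h49.OF.Int3
import Pool.Agent.L7h49.OF.Stm2

/-!
# Positivity of the densities over a fibred open set
-/

set_option autoImplicit false

open Set Filter Topology MeasureTheory
open scoped Manifold ContDiff

noncomputable section

namespace Pool.Agent.L7h49.OG

open Pool.Agent.Y501.SY
open Pool.Agent.N13.TL
open Pool.Agent.Y455.SY (A B AB BA A_surj Q_eq)
open Pool.Agent.Y484.SY (comp_smooth dd_comp)
open Pool.Agent.L7h49.OF (Om eb co S_L1 S_L2 S_OM1 S_OM2 S_OM3 S_ST1 S_ST2 Itw exists_itw loc_sign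
  blk blk_sq pos_om om_zero om_update)

variable {n : ℕ} {X : Type} [TopologicalSpace X] [ChartedSpace (E (n + 2)) X]

/-- the differential of `(F 0, ..., F (n - 1))` -/
def CF (F : Fin n → X → ℝ) (x : X) (v : E (n + 2)) : E n :=
  WithLp.toLp 2 fun j => dd (d := n + 2) (F j) x v

/-- the fibration is compatible with the complex structure: over the base points near `b` the
kernels of `dF` are invariant and a two-form tames both `J0'` and the structures on the
quotients -/
structure Fib2 (J : End (n + 2) X) (F : Fin n → X → ℝ) (J0' : E n →ₗ[ℝ] E n) (x : X) :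
    Prop where
  ker : ∀ v : TangentSpace (𝓡 (n + 2)) x, (∀ j, dd (d := n + 2) (F j) x v = 0) →
    ∀ j, dd (d := n + 2) (F j) x (J x v) = 0
  tame : ∃ η : (E n) [⋀^Fin 2]→L[ℝ] ℝ, (∀ w, w ≠ 0 → 0 < η ![w, J0' w]) ∧
    ∀ v : TangentSpace (𝓡 (n + 2)) x, CF F x v ≠ 0 → 0 < η ![CF F x v, CF F x (J x v)]

variable [IsManifold (𝓡 (n + 2)) ∞ X]

/-- a form on a coordinate pair -/
theorem pb_pair (c : X) (ρ : Form (n + 2) X 2) (J : End (n + 2) X) {p : E (n + 2)}
    (hp : p ∈ (chartAt (E (n + 2)) c).target) (v : E (n + 2)) :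
    pb (chartAt (E (n + 2)) c).symm ρ p ![v, inChart J c p v] =
      q ρ J ((chartAt (E (n + 2)) c).symm p) (A c p v) := Q_eq ρ J c hp v

theorem pos_inc (h1 : S_L1) (h2 : S_L2) (hO1 : S_OM1) (hO2 : S_OM2) (hO3 : S_OM3)
    {J0' : E n →ₗ[ℝ] E n} (hJ0' : ∀ v, J0' (J0' v) = -v) {J : End (n + 2) X}
    (hJ : IsAlmostComplex J) {τ : Form (n + 2) X 2} (hτ : ∀ x, TamesAt τ J x)
    {c : X} {r s : ℝ} (hb : Box (blk J0') J c r s) {F : Fin n → X → ℝ}
    (hF : ∀ j, SmoothFun (d := n + 2) (F j)) {p : E (n + 2)}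
    (hp : p ∈ Metric.ball (chartAt (E (n + 2)) c c) r)
    (hfib : Fib2 J F J0' ((chartAt (E (n + 2)) c).symm p)) :
    (¬ Reg (d := n + 2) F ((chartAt (E (n + 2)) c).symm p) → ∀ ρ : Form (n + 2) X 2,
      inc (omX ρ F) c p = 0) ∧
    (Reg (d := n + 2) F ((chartAt (E (n + 2)) c).symm p) →
      ∃ v₀ : TangentSpace (𝓡 (n + 2)) ((chartAt (E (n + 2)) c).symm p), v₀ ≠ 0 ∧
        (∀ j, dd (d := n + 2) (F j) ((chartAt (E (n + 2)) c).symm p) v₀ = 0) ∧
        ∃ κ : ℝ, 0 < κ ∧ ∀ ρ : Form (n + 2) X 2, s * inc (omX ρ F) c p =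
          κ * q ρ J ((chartAt (E (n + 2)) c).symm p) v₀) := by
  have hpt := hb.sub (Metric.ball_subset_closedBall hp)
  have hTo : IsOpen (chartAt (E (n + 2)) c).target := (chartAt (E (n + 2)) c).open_target
  have hcm : ContMDiffOn (𝓡 (n + 2)) (𝓡 (n + 2)) ∞ (chartAt (E (n + 2)) c).symm
    (chartAt (E (n + 2)) c).target := contMDiffOn_chart_symm
  set x := (chartAt (E (n + 2)) c).symm p with hx
  let C₀ : E (n + 2) →ₗ[ℝ] E n :=
    { toFun := fun v => WithLp.toLp 2 fun j =>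
        fderiv ℝ (F j ∘ (chartAt (E (n + 2)) c).symm) p v
      map_add' := fun v w => by
        ext j
        show fderiv ℝ (F j ∘ (chartAt (E (n + 2)) c).symm) p (v + w) = _
        rw [map_add]
        rfl
      map_smul' := fun a v => by
        ext j
        show fderiv ℝ (F j ∘ (chartAt (E (n + 2)) c).symm) p (a • v) = _
        rw [map_smul]
        rfl }
  let C : E (n + 2) →L[ℝ] E n := LinearMap.toContinuousLinearMap C₀
  have hCj : ∀ v j, C v j = fderiv ℝ (F j ∘ (chartAt (E (n + 2)) c).symm) p v := fun v j => rfl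
  have hCA : ∀ v, C v = CF F x (A c p v) := by
    intro v
    ext j
    rw [hCj]
    exact (dd_comp hTo hcm (hF j) hpt v).symm
  have hAJ : ∀ v, A c p (inChart J c p v) = J x (A c p v) := fun v => AB c hpt _
  have hinc : ∀ ρ : Form (n + 2) X 2, inc (omX ρ F) c p =
      Om (pb (chartAt (E (n + 2)) c).symm ρ p) (fun j => (co j).comp C) eb := by
    intro ρ
    rw [inc_om ρ hF c hpt]
    rfl
  have hreg : Reg (d := n + 2) F x ↔ Function.Surjective C := by
    constructor
    · intro h w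
      obtain ⟨v, hv⟩ := h fun j => w j
      obtain ⟨u, hu⟩ := A_surj c hpt v
      refine ⟨u, ?_⟩
      rw [hCA]
      ext j
      show dd (d := n + 2) (F j) x (A c p u) = w j
      rw [hu]
      exact hv j
    · intro h w
      obtain ⟨u, hu⟩ := h (WithLp.toLp 2 w)
      refine ⟨A c p u, fun j => ?_⟩
      have h3 := hCA u
      rw [hu] at h3
      exact (congrArg (fun z : E n => z j) h3).symm
  refine ⟨fun hnr ρ => ?_, fun hr => ?_⟩
  · rw [hinc]
    exact om_zero hO2 C (fun h => hnr (hreg.2 h)) _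
  · have hsurj := hreg.1 hr
    obtain ⟨v₁, hv₁, hv₁0⟩ : ∃ v₁ : E (n + 2), C v₁ = 0 ∧ v₁ ≠ 0 := by
      have h3 : LinearMap.ker (C : E (n + 2) →ₗ[ℝ] E n) ≠ ⊥ := by
        intro hbot
        have h4 := LinearMap.finrank_range_add_finrank_ker (C : E (n + 2) →ₗ[ℝ] E n)
        rw [hbot, finrank_bot, LinearMap.range_eq_top.2 hsurj, finrank_top] at h4
        simp at h4
      obtain ⟨v, hv, hv0⟩ := (Submodule.ne_bot_iff _).1 h3
      exact ⟨v, hv, hv0⟩
    have hA0 : A c p v₁ ≠ 0 := by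
      intro h0
      apply hv₁0
      rw [← BA c hpt v₁, h0, map_zero]
    obtain ⟨η, hη1, hη2⟩ := hfib.tame
    have hCF0 : ∀ u : TangentSpace (𝓡 (n + 2)) x, CF F x u = 0 ↔
        ∀ j, dd (d := n + 2) (F j) x u = 0 := by
      intro u
      constructor
      · intro h j
        exact congrArg (fun z : E n => z j) h
      · intro h
        ext j
        exact h j
    obtain ⟨κ, hκ, hκ2⟩ := pos_om h1 h2 hO1 hO3 hJ0' (J := inChart J c p)
      (inChart_sq hJ c hpt) hb.sgn (hb.ori p hp) C hsurj (fun v hv => by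
        rw [hCA] at hv ⊢
        rw [hAJ]
        exact (hCF0 _).2 (hfib.ker _ ((hCF0 _).1 hv))) η hη1 (fun v hv => by
        rw [hCA] at hv
        have h3 := hη2 (A c p v) hv
        rw [hCA, hCA, hAJ]
        exact h3) (pb (chartAt (E (n + 2)) c).symm τ p) hv₁ (by
        rw [pb_pair c τ J hpt]
        exact hτ x _ hA0)
    refine ⟨A c p v₁, hA0, ?_, κ, hκ, fun ρ => ?_⟩
    · refine (hCF0 _).1 ?_
      rw [← hCA, hv₁]
    · rw [hinc, hκ2, pb_pair c ρ J hpt]

end Pool.Agent.L7h49.OG
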