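import Pool.Agent.L7h49.OF.Int4

/-!
# Integration along the fibres over small sets of base points
-/

set_option autoImplicit false

open Set Filter Topology MeasureTheory
open scoped Manifold ContDiff

noncomputable section

namespace Pool.Agent.L7h49.OG

open Pool.Agent.Y501.SY
open Pool.Agent.N13.TL
open Pool.Agent.Y455.SY (A B AB BA A_surj Q_eq)
open Pool.Agent.Y484.SY (comp_smooth dd_comp)
open Pool.Agent.L7h49.OF (Om eb co S_L1 S_L2 S_OM1 S_OM2 S_OM3 S_ST1 S_ST2 Itw exists_itw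
  loc_sign blk blk_sq pos_om om_zero om_update)

theorem om_update' (hO1 : S_OM1) (hO2 : S_OM2) {n : ℕ} (b : (E (n + 2)) [⋀^Fin 2]→L[ℝ] ℝ)
    (c : Fin n → E (n + 2) →L[ℝ] ℝ) (i : Fin n) (t : Fin n → ℝ) (v : Fin (n + 2) → E (n + 2)) :
    Om b (Function.update c i (∑ j, t j • c j)) v = t i * Om b c v := by
  let M : E (n + 2) →L[ℝ] E (n + 2) := ∑ j, (co j).smulRight (v j)
  have hM : ∀ i, M (eb i) = v i := by
    intro i
    simp only [M, sum_apply, ContinuousLinearMap.smulRight_apply]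
    rw [Finset.sum_eq_single i]
    · simp
    · intro j _ hj
      simp [hj]
    · intro h
      exact absurd (Finset.mem_univ i) h
  have hv : v = fun i => M (eb i) := funext fun i => (hM i).symm
  rw [hv, hO1, hO1, om_update hO2]
  ring

variable {n : ℕ} {X : Type} [TopologicalSpace X] [ChartedSpace (E (n + 2)) X]

/-- the map `(F 0, ..., F (n - 1))` -/
def Fe (F : Fin n → X → ℝ) (x : X) : E n := WithLp.toLp 2 fun j => F j x

/-- the function `g ∘ F` on `U₁` -/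
def GU (U₁ : Set X) (F : Fin n → X → ℝ) (g : E n → ℝ) : X → ℝ :=
  U₁.indicator fun x => g (Fe F x)

/-- a fibred region -/
structure Region (J : End (n + 2) X) (F : Fin n → X → ℝ) (J0' : E n →ₗ[ℝ] E n) (U₁ : Set X)
    (b : E n) (R₀ : ℝ) : Prop where
  smooth : ∀ j, SmoothFun (d := n + 2) (F j)
  isOpen : IsOpen U₁
  pos : 0 < R₀
  closed : IsClosed {x | x ∈ U₁ ∧ Fe F x ∈ Metric.closedBall b R₀}
  fib : ∀ x ∈ U₁, Fe F x ∈ Metric.ball b R₀ → Fib2 J F J0' x

theorem Fe_smooth {F : Fin n → X → ℝ} (hF : ∀ j, SmoothFun (d := n + 2) (F j)) :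
    ContMDiff (𝓡 (n + 2)) 𝓘(ℝ, E n) ∞ (Fe F) := by
  have h1 : ContMDiff (𝓡 (n + 2)) 𝓘(ℝ, Fin n → ℝ) ∞ (fun x j => F j x) :=
    contMDiff_pi_space.2 hF
  exact ((EuclideanSpace.equiv (Fin n) ℝ).symm.contDiff.contMDiff).comp h1

theorem Fe_deriv {F : Fin n → X → ℝ} (hF : ∀ j, SmoothFun (d := n + 2) (F j)) (x : X)
    (v : TangentSpace (𝓡 (n + 2)) x) :
    (mfderiv (𝓡 (n + 2)) 𝓘(ℝ, E n) (Fe F) x v : E n) = CF F x v := by
  refine PiLp.ext fun j => ?_
  have h1 : MDifferentiableAt (𝓡 (n + 2)) 𝓘(ℝ, E n) (Fe F) x :=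
    (Fe_smooth hF x).mdifferentiableAt (by simp)
  have h2 : HasMFDerivAt 𝓘(ℝ, E n) 𝓘(ℝ, ℝ) (co j) (Fe F x) (co j) :=
    (co j).hasFDerivAt.hasMFDerivAt
  have h3 := (h2.comp x h1.hasMFDerivAt).mfderiv
  have h4 : (co j : E n → ℝ) ∘ Fe F = F j := rfl
  rw [h4] at h3
  exact (congrArg (fun L => L v) h3).symm

theorem gFe_deriv {F : Fin n → X → ℝ} (hF : ∀ j, SmoothFun (d := n + 2) (F j)) {g : E n → ℝ}
    (hg : ContDiff ℝ ∞ g) (x : X) (v : TangentSpace (𝓡 (n + 2)) x) :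
    dd (d := n + 2) (fun x => g (Fe F x)) x v =
      ∑ j, fderiv ℝ g (Fe F x) (eb j) * dd (F j) x v := by
  have h1 : MDifferentiableAt (𝓡 (n + 2)) 𝓘(ℝ, E n) (Fe F) x :=
    (Fe_smooth hF x).mdifferentiableAt (by simp)
  have h2 : HasMFDerivAt 𝓘(ℝ, E n) 𝓘(ℝ, ℝ) g (Fe F x) (fderiv ℝ g (Fe F x)) :=
    ((hg.differentiable (by simp)) _).hasFDerivAt.hasMFDerivAt
  have h3 := (h2.comp x h1.hasMFDerivAt).mfderiv
  have h4 : dd (d := n + 2) (fun x => g (Fe F x)) x v = fderiv ℝ g (Fe F x) (CF F x v) := by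
    rw [← Fe_deriv hF]
    exact congrArg (fun L => L v) h3
  rw [h4]
  have h5 : CF F x v = ∑ j, dd (d := n + 2) (F j) x v • eb j := by
    ext k
    simp [CF, Finset.sum_apply, Pi.single_apply]
  rw [h5, map_sum]
  refine Finset.sum_congr rfl fun j _ => ?_
  rw [map_smul, smul_eq_mul, mul_comm]

section region

variable {J : End (n + 2) X} {F : Fin n → X → ℝ} {J0' : E n →ₗ[ℝ] E n} {U₁ : Set X}
  {b : E n} {R₀ : ℝ}

theorem GU_near_in (hR : Region J F J0' U₁ b R₀) (g : E n → ℝ) {x : X} (hx : x ∈ U₁) :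
    GU U₁ F g =ᶠ[𝓝 x] fun x => g (Fe F x) := by
  filter_upwards [hR.isOpen.mem_nhds hx] with y hy
  exact indicator_of_mem hy _

theorem GU_near_out (hR : Region J F J0' U₁ b R₀) {g : E n → ℝ}
    (hg : ∀ z, z ∉ Metric.closedBall b R₀ → g z = 0) {x : X} (hx : x ∉ U₁) :
    GU U₁ F g =ᶠ[𝓝 x] fun _ => 0 := by
  filter_upwards [hR.closed.isOpen_compl.mem_nhds (fun h => hx h.1)] with y hy
  by_cases hyU : y ∈ U₁
  · unfold GU
    rw [indicator_of_mem hyU]
    exact hg _ fun h => hy ⟨hyU, h⟩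
  · exact indicator_of_notMem hyU _

theorem zero_of_supp {g : E n → ℝ} (hs : tsupport g ⊆ Metric.ball b R₀) (z : E n)
    (hz : z ∉ Metric.closedBall b R₀) : g z = 0 := by
  by_contra h0
  exact hz (Metric.ball_subset_closedBall (hs (subset_tsupport _ h0)))

theorem GU_smooth (hR : Region J F J0' U₁ b R₀) {g : E n → ℝ} (hg : ContDiff ℝ ∞ g)
    (hs : tsupport g ⊆ Metric.ball b R₀) : SmoothFun (d := n + 2) (GU U₁ F g) := by
  intro x
  by_cases hx : x ∈ U₁
  · exact (hg.contMDiff.comp (Fe_smooth hR.smooth) x).congr_of_eventuallyEq (GU_near_in hR g hx)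
  · exact contMDiffAt_const.congr_of_eventuallyEq (GU_near_out hR (zero_of_supp hs) hx)

theorem GU_deriv (hR : Region J F J0' U₁ b R₀) {g : E n → ℝ} (hg : ContDiff ℝ ∞ g)
    (hs : tsupport g ⊆ Metric.ball b R₀) (x : X) (v : TangentSpace (𝓡 (n + 2)) x) :
    dd (d := n + 2) (GU U₁ F g) x v =
      ∑ j, GU U₁ F (fun z => fderiv ℝ g z (eb j)) x * dd (F j) x v := by
  by_cases hx : x ∈ U₁
  · have h1 : dd (d := n + 2) (GU U₁ F g) x = dd (fun x => g (Fe F x)) x := by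
      unfold dd
      exact (GU_near_in hR g hx).mfderiv_eq
    rw [h1, gFe_deriv hR.smooth hg]
    refine Finset.sum_congr rfl fun j _ => ?_
    unfold GU
    rw [indicator_of_mem hx]
  · rw [dd_zero_of (GU_near_out hR (zero_of_supp hs) hx)]
    symm
    refine Finset.sum_eq_zero fun j _ => ?_
    unfold GU
    rw [indicator_of_notMem hx, zero_mul]

theorem GU_tsupport (hR : Region J F J0' U₁ b R₀) {g : E n → ℝ}
    (hs : tsupport g ⊆ Metric.ball b R₀) :
    tsupport (GU U₁ F g) ⊆ {x | x ∈ U₁ ∧ Fe F x ∈ tsupport g} := by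
  have h1 : {x | x ∈ U₁ ∧ Fe F x ∈ tsupport g} =
      {x | x ∈ U₁ ∧ Fe F x ∈ Metric.closedBall b R₀} ∩ Fe F ⁻¹' tsupport g := by
    ext x
    constructor
    · rintro ⟨h2, h3⟩
      exact ⟨⟨h2, Metric.ball_subset_closedBall (hs h3)⟩, h3⟩
    · rintro ⟨⟨h2, -⟩, h3⟩
      exact ⟨h2, h3⟩
  refine closure_minimal ?_ ?_
  · intro x hx
    have hxU : x ∈ U₁ := by
      by_contra h
      exact hx (indicator_of_notMem h _)
    refine ⟨hxU, subset_tsupport _ fun h0 => hx ?_⟩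
    unfold GU
    rw [indicator_of_mem hxU]
    exact h0
  · rw [h1]
    exact hR.closed.inter ((isClosed_tsupport g).preimage (Fe_smooth hR.smooth).continuous)

end region

variable [IsManifold (𝓡 (n + 2)) ∞ X]

section TT

variable {ι : Type} [Fintype ι] {c : ι → X} {r s : ι → ℝ} {χ : ι → X → ℝ}

/-- the integral of `g(F) ρ ∧ dF_1 ∧ ... ∧ dF_n` over `U₁` -/
def TT (c : ι → X) (r s : ι → ℝ) (χ : ι → X → ℝ) (U₁ : Set X) (F : Fin n → X → ℝ)
    (g : E n → ℝ) (ρ : Form (n + 2) X 2) : ℝ :=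
  II c r s χ (fun y v => GU U₁ F g y * omX ρ F y v)

variable {J : End (n + 2) X} {F : Fin n → X → ℝ} {J0' : E n →ₗ[ℝ] E n} {U₁ : Set X}
  {b : E n} {R₀ : ℝ}

theorem TT_top (hO1 : S_OM1) (hR : Region J F J0' U₁ b R₀) {g : E n → ℝ} (hg : ContDiff ℝ ∞ g)
    (hs : tsupport g ⊆ Metric.ball b R₀) {ρ : Form (n + 2) X 2} (hρ : IsSmooth ρ) :
    Top (fun y v => GU U₁ F g y * omX ρ F y v) :=
  (top_om hO1 hρ hR.smooth).mul (GU_smooth hR hg hs).continuous

theorem TT_add (hO1 : S_OM1) (ha : Atl (blk J0') J c r s χ) (hR : Region J F J0' U₁ b R₀)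
    {g : E n → ℝ} (hg : ContDiff ℝ ∞ g) (hs : tsupport g ⊆ Metric.ball b R₀)
    {ρ ρ' : Form (n + 2) X 2} (hρ : IsSmooth ρ) (hρ' : IsSmooth ρ') :
    TT c r s χ U₁ F g (ρ + ρ') = TT c r s χ U₁ F g ρ + TT c r s χ U₁ F g ρ' := by
  unfold TT
  rw [← II_add ha (TT_top hO1 hR hg hs hρ) (TT_top hO1 hR hg hs hρ')]
  refine II_congr fun y v => ?_
  rw [← mul_add]
  congr 1
  have h := om_sum (V := E (n + 2)) (Finset.univ : Finset (Fin 2))
    (b := (ρ + ρ') y) (bs := ![ρ y, ρ' y]) (fun a b => by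
      rw [Fin.sum_univ_two]
      rfl) (fun j => dd (d := n + 2) (F j) y) v
  rw [Fin.sum_univ_two] at h
  exact h

theorem TT_smul {g : E n → ℝ} (a : ℝ) (ρ : Form (n + 2) X 2) :
    TT c r s χ U₁ F g (a • ρ) = a * TT c r s χ U₁ F g ρ := by
  unfold TT
  rw [← II_smul]
  refine II_congr fun y v => ?_
  have h : omX (a • ρ) F y v = a * omX ρ F y v :=
    om_smul (V := E (n + 2)) a (ρ y) (fun j => dd (d := n + 2) (F j) y) v
  rw [h]
  ring

/-- exact forms have integral zero -/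
theorem TT_exact [CompactSpace X] (h2 : S_L2) (hO1 : S_OM1) (hST : S_ST1)
    (hJ0' : ∀ v, J0' (J0' v) = -v) (hJ : IsAlmostComplex J) (ha : Atl (blk J0') J c r s χ)
    (hR : Region J F J0' U₁ b R₀) {g : E n → ℝ} (hg : ContDiff ℝ ∞ g)
    (hs : tsupport g ⊆ Metric.ball b R₀) {ρ : Form (n + 2) X 2}
    (hρ : Pool.Agent.R772.ExactF ρ) : TT c r s χ U₁ F g ρ = 0 := by
  obtain ⟨α, hα, hρs, hD⟩ := hρ
  exact stokes1 h2 hO1 hST (blk_sq hJ0') hJ ha hα hρs hD hR.smooth (GU_smooth hR hg hs)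
    fun y => ⟨_, fun v => GU_deriv hR hg hs y v⟩

theorem nonneg_aux (h1 : S_L1) (h2 : S_L2) (hO1 : S_OM1) (hO2 : S_OM2) (hO3 : S_OM3)
    (hJ0' : ∀ v, J0' (J0' v) = -v) (hJ : IsAlmostComplex J) {τ : Form (n + 2) X 2}
    (hτ : ∀ x, TamesAt τ J x) (ha : Atl (blk J0') J c r s χ) (hR : Region J F J0' U₁ b R₀)
    {g : E n → ℝ} (hs : tsupport g ⊆ Metric.ball b R₀)
    (hg0 : ∀ z, 0 ≤ g z) {ρ : Form (n + 2) X 2}
    (hρ : ∀ x ∈ U₁, g (Fe F x) ≠ 0 → ∀ v : TangentSpace (𝓡 (n + 2)) x,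
      (∀ j, dd (d := n + 2) (F j) x v = 0) → 0 ≤ q ρ J x v) (i : ι) {p : E (n + 2)}
    (hp : p ∈ Metric.ball (chartAt (E (n + 2)) (c i) (c i)) (r i)) :
    0 ≤ s i * inc (fun y v => GU U₁ F g y * omX ρ F y v) (c i) p := by
  set x := (chartAt (E (n + 2)) (c i)).symm p with hx
  have h3 : inc (fun y v => GU U₁ F g y * omX ρ F y v) (c i) p =
      GU U₁ F g x * inc (omX ρ F) (c i) p := rfl
  rw [h3]
  by_cases hxU : x ∈ U₁
  · have h4 : GU U₁ F g x = g (Fe F x) := indicator_of_mem hxU _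
    rw [h4]
    by_cases hgx : g (Fe F x) = 0
    · rw [hgx, zero_mul, mul_zero]
    · have hfib := hR.fib x hxU (hs (subset_tsupport _ hgx))
      have h5 := pos_inc h1 h2 hO1 hO2 hO3 hJ0' hJ hτ (ha.box i) hR.smooth hp hfib
      by_cases hreg : Reg (d := n + 2) F x
      · obtain ⟨v₀, -, hv, κ, hκ, h6⟩ := h5.2 hreg
        rw [mul_left_comm, h6]
        exact mul_nonneg (hg0 _) (mul_nonneg hκ.le (hρ x hxU hgx v₀ hv))
      · rw [h5.1 hreg, mul_zero, mul_zero]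
  · have h4 : GU U₁ F g x = 0 := indicator_of_notMem hxU _
    rw [h4, zero_mul, mul_zero]

/-- positivity -/
theorem TT_nonneg (h1 : S_L1) (h2 : S_L2) (hO1 : S_OM1) (hO2 : S_OM2) (hO3 : S_OM3)
    (hJ0' : ∀ v, J0' (J0' v) = -v) (hJ : IsAlmostComplex J) {τ : Form (n + 2) X 2}
    (hτ : ∀ x, TamesAt τ J x) (ha : Atl (blk J0') J c r s χ) (hR : Region J F J0' U₁ b R₀)
    {g : E n → ℝ} (hs : tsupport g ⊆ Metric.ball b R₀)
    (hg0 : ∀ z, 0 ≤ g z) {ρ : Form (n + 2) X 2}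
    (hρ : ∀ x ∈ U₁, g (Fe F x) ≠ 0 → ∀ v : TangentSpace (𝓡 (n + 2)) x,
      (∀ j, dd (d := n + 2) (F j) x v = 0) → 0 ≤ q ρ J x v) : 0 ≤ TT c r s χ U₁ F g ρ :=
  II_nonneg ha fun i _ hp => nonneg_aux h1 h2 hO1 hO2 hO3 hJ0' hJ hτ ha hR hs hg0 hρ i hp

/-- strict positivity -/
theorem TT_pos (h1 : S_L1) (h2 : S_L2) (hO1 : S_OM1) (hO2 : S_OM2) (hO3 : S_OM3)
    (hJ0' : ∀ v, J0' (J0' v) = -v) (hJ : IsAlmostComplex J) {τ : Form (n + 2) X 2}
    (hτ : ∀ x, TamesAt τ J x) (ha : Atl (blk J0') J c r s χ) (hR : Region J F J0' U₁ b R₀)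
    {g : E n → ℝ} (hg : ContDiff ℝ ∞ g) (hs : tsupport g ⊆ Metric.ball b R₀)
    (hg0 : ∀ z, 0 ≤ g z) {ρ : Form (n + 2) X 2} (hρs : IsSmooth ρ)
    (hρ : ∀ x ∈ U₁, g (Fe F x) ≠ 0 → ∀ v : TangentSpace (𝓡 (n + 2)) x,
      (∀ j, dd (d := n + 2) (F j) x v = 0) → 0 ≤ q ρ J x v) {x₁ : X} (hx₁ : x₁ ∈ U₁)
    (hgx : 0 < g (Fe F x₁)) (hreg : Reg (d := n + 2) F x₁)
    (hpos : ∀ v : TangentSpace (𝓡 (n + 2)) x₁, v ≠ 0 → (∀ j, dd (d := n + 2) (F j) x₁ v = 0) →
      0 < q ρ J x₁ v) : 0 < TT c r s χ U₁ F g ρ := by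
  refine II_pos ha (TT_top hO1 hR hg hs hρs)
    (fun i _ hp => nonneg_aux h1 h2 hO1 hO2 hO3 hJ0' hJ hτ ha hR hs hg0 hρ i hp)
    (y := x₁) fun i hi => ?_
  set p := chartAt (E (n + 2)) (c i) x₁ with hp
  have hpb : p ∈ Metric.ball (chartAt (E (n + 2)) (c i) (c i)) (r i) := hi.2
  have hxp : (chartAt (E (n + 2)) (c i)).symm p = x₁ := (chartAt (E (n + 2)) (c i)).left_inv hi.1
  have h3 : inc (fun y v => GU U₁ F g y * omX ρ F y v) (c i) p =
      GU U₁ F g ((chartAt (E (n + 2)) (c i)).symm p) * inc (omX ρ F) (c i) p := rfl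
  have h4 : GU U₁ F g x₁ = g (Fe F x₁) := indicator_of_mem hx₁ _
  rw [h3, hxp, h4]
  have hfib := hR.fib x₁ hx₁ (hs (subset_tsupport _ hgx.ne'))
  have h5 := pos_inc h1 h2 hO1 hO2 hO3 hJ0' hJ hτ (ha.box i) hR.smooth hpb (by
    rw [hxp]
    exact hfib)
  rw [hxp] at h5
  obtain ⟨v₀, hv0, hv, κ, hκ, h6⟩ := h5.2 hreg
  rw [mul_left_comm, h6]
  exact mul_pos hgx (mul_pos hκ (hpos v₀ hv0 hv))

/-- closed forms: derivatives of test functions -/
theorem TT_deriv [CompactSpace X] (h2 : S_L2) (hO1 : S_OM1) (hO2 : S_OM2) (hST : S_ST2)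
    (hJ0' : ∀ v, J0' (J0' v) = -v) (hJ : IsAlmostComplex J) (ha : Atl (blk J0') J c r s χ)
    (hR : Region J F J0' U₁ b R₀) {ζ : Form (n + 2) X 2} (hζ : IsSmooth ζ) {V : Set X}
    (hcl : ∀ (c : X), ∀ p ∈ (chartAt (E (n + 2)) c).target, (chartAt (E (n + 2)) c).symm p ∈ V →
      extDeriv (pb (chartAt (E (n + 2)) c).symm ζ) p = 0) {g : E n → ℝ} (hg : ContDiff ℝ ∞ g)
    (hs : tsupport g ⊆ Metric.ball b R₀) (hV : ∀ x ∈ U₁, Fe F x ∈ tsupport g → x ∈ V)
    (v : E n) : TT c r s χ U₁ F (fun z => fderiv ℝ g z v) ζ = 0 := by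
  have hG := GU_smooth hR hg hs
  have hGV : tsupport (GU U₁ F g) ⊆ V := fun x hx =>
    hV x (GU_tsupport hR hs hx).1 (GU_tsupport hR hs hx).2
  have hFu : ∀ i j, SmoothFun (d := n + 2) (Function.update F i (GU U₁ F g) j) := by
    intro i j
    rcases eq_or_ne j i with rfl | hj
    · rw [Function.update_self]
      exact hG
    · rw [Function.update_of_ne hj]
      exact hR.smooth j
  have htop : ∀ i, Top (fun y w => v i * omX ζ (Function.update F i (GU U₁ F g)) y w) :=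
    fun i => (top_om hO1 hζ (hFu i)).smul (v i)
  have h3 : ∀ y w, GU U₁ F (fun z => fderiv ℝ g z v) y * omX ζ F y w =
      ∑ i, v i * omX ζ (Function.update F i (GU U₁ F g)) y w := by
    intro y w
    have h4 : ∀ i, omX ζ (Function.update F i (GU U₁ F g)) y w =
        GU U₁ F (fun z => fderiv ℝ g z (eb i)) y * omX ζ F y w := by
      intro i
      let cc : Fin n → E (n + 2) →L[ℝ] ℝ := fun j => dd (d := n + 2) (F j) y
      have h5 := om_update' hO1 hO2 (ζ y) cc i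
        (fun j => GU U₁ F (fun z => fderiv ℝ g z (eb j)) y) w
      refine Eq.trans ?_ h5
      have h7 : (fun j => (dd (d := n + 2) (Function.update F i (GU U₁ F g) j) y :
          E (n + 2) →L[ℝ] ℝ)) = Function.update cc i
            (∑ j, GU U₁ F (fun z => fderiv ℝ g z (eb j)) y • cc j) := by
        funext j
        by_cases hj : j = i
        · rw [hj, Function.update_self, Function.update_self]
          refine ContinuousLinearMap.ext fun u : E (n + 2) => ?_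
          have h8 : (∑ j, GU U₁ F (fun z => fderiv ℝ g z (eb j)) y • cc j) u =
              ∑ j, GU U₁ F (fun z => fderiv ℝ g z (eb j)) y * cc j u := by
            rw [sum_apply]
            rfl
          exact (GU_deriv hR hg hs y u).trans h8.symm
        · rw [Function.update_of_ne hj, Function.update_of_ne hj]
      exact congrArg (fun e => Om (V := E (n + 2)) (ζ y) e w) h7
    have h6 : GU U₁ F (fun z => fderiv ℝ g z v) y =
        ∑ i, v i * GU U₁ F (fun z => fderiv ℝ g z (eb i)) y := by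
      by_cases hy : y ∈ U₁
      · unfold GU
        simp only [indicator_of_mem hy]
        have h7 : v = ∑ j, v j • eb j := by
          ext k
          simp [Finset.sum_apply, Pi.single_apply]
        conv_lhs => rw [h7]
        rw [map_sum]
        refine Finset.sum_congr rfl fun j _ => ?_
        rw [map_smul, smul_eq_mul]
      · unfold GU
        simp only [indicator_of_notMem hy, mul_zero, Finset.sum_const_zero]
    rw [h6, Finset.sum_mul]
    refine Finset.sum_congr rfl fun i _ => ?_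
    rw [h4]
    ring
  unfold TT
  rw [II_congr h3, (II_sum ha Finset.univ htop).2]
  refine Finset.sum_eq_zero fun i _ => ?_
  rw [II_smul, stokes3 h2 hO1 hST (blk_sq hJ0') hJ ha hζ hR.smooth hcl hG hGV i, mul_zero]

/-- closed forms: translations -/
theorem TT_trans [CompactSpace X] (h2 : S_L2) (hO1 : S_OM1) (hO2 : S_OM2) (hST : S_ST2)
    (hTR : Pool.Agent.L7h49.OF.S_TR) (hJ0' : ∀ v, J0' (J0' v) = -v) (hJ : IsAlmostComplex J)
    (ha : Atl (blk J0') J c r s χ) (hR : Region J F J0' U₁ b R₀) {ζ : Form (n + 2) X 2}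
    (hζ : IsSmooth ζ) {V : Set X}
    (hcl : ∀ (c : X), ∀ p ∈ (chartAt (E (n + 2)) c).target, (chartAt (E (n + 2)) c).symm p ∈ V →
      extDeriv (pb (chartAt (E (n + 2)) c).symm ζ) p = 0) {R₁ : ℝ} (hR₁ : R₁ ≤ R₀)
    (hV : ∀ x ∈ U₁, Fe F x ∈ Metric.ball b R₁ → x ∈ V) {g : E n → ℝ} (hg : ContDiff ℝ ∞ g)
    (hgc : HasCompactSupport g) (a : E n)
    (hs : ∀ t : ℝ, 0 ≤ t → t ≤ 1 → ∀ x ∈ tsupport g, x + t • a ∈ Metric.ball b R₁) :
    TT c r s χ U₁ F (fun z => g (z - a)) ζ = TT c r s χ U₁ F g ζ := by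
  let W : ι → Set (E (n + 2)) := fun i =>
    Metric.ball (chartAt (E (n + 2)) (c i) (c i)) (r i) ∩ (chartAt (E (n + 2)) (c i)).symm ⁻¹' U₁
  have hbt : ∀ i, Metric.ball (chartAt (E (n + 2)) (c i) (c i)) (r i) ⊆
      (chartAt (E (n + 2)) (c i)).target := fun i =>
    Metric.ball_subset_closedBall.trans (ha.box i).sub
  have hWo : ∀ i, IsOpen (W i) := fun i =>
    ((chartAt (E (n + 2)) (c i)).continuousOn_symm.mono (hbt i)).isOpen_inter_preimage
      Metric.isOpen_ball hR.isOpen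
  let w : ι → E (n + 2) → ℝ := fun i => (W i).indicator fun x =>
    s i * (χ i ((chartAt (E (n + 2)) (c i)).symm x) * inc (omX ζ F) (c i) x)
  let Fi : ι → E (n + 2) → E n := fun i x => Fe F ((chartAt (E (n + 2)) (c i)).symm x)
  have heq : ∀ g' : E n → ℝ, TT c r s χ U₁ F g' ζ = ∑ i, ∫ x, g' (Fi i x) * w i x
      ∂(volume.restrict (Metric.ball (chartAt (E (n + 2)) (c i) (c i)) (r i))) := by
    intro g'
    unfold TT II
    refine Finset.sum_congr rfl fun i _ => ?_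
    rw [← integral_const_mul]
    refine setIntegral_congr_fun Metric.isOpen_ball.measurableSet fun x hx => ?_
    show s i * (χ i ((chartAt (E (n + 2)) (c i)).symm x) *
      (GU U₁ F g' ((chartAt (E (n + 2)) (c i)).symm x) * inc (omX ζ F) (c i) x)) =
      g' (Fi i x) * w i x
    by_cases hxU : (chartAt (E (n + 2)) (c i)).symm x ∈ U₁
    · have e1 : GU U₁ F g' ((chartAt (E (n + 2)) (c i)).symm x) = g' (Fi i x) :=
        indicator_of_mem hxU _
      have e2 : w i x = s i * (χ i ((chartAt (E (n + 2)) (c i)).symm x) *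
        inc (omX ζ F) (c i) x) := indicator_of_mem (s := W i) ⟨hx, hxU⟩ _
      rw [e1, e2]
      ring
    · have e1 : GU U₁ F g' ((chartAt (E (n + 2)) (c i)).symm x) = 0 :=
        indicator_of_notMem hxU _
      have e2 : w i x = 0 := indicator_of_notMem (s := W i) (fun h => hxU h.2) _
      rw [e1, e2]
      ring
  rw [heq, heq]
  refine hTR n ι (E (n + 2)) (fun i => volume.restrict (Metric.ball
    (chartAt (E (n + 2)) (c i) (c i)) (r i))) Fi w (fun i => ?_) (fun i => ?_)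
    (Metric.ball b R₁) Metric.isOpen_ball (fun g' hg' _ hs' v => ?_) g a hg hgc hs
  · exact (((Fe_smooth hR.smooth).continuous.comp_continuousOn
      ((chartAt (E (n + 2)) (c i)).continuousOn_symm.mono (hbt i))).aemeasurable
        Metric.isOpen_ball.measurableSet)
  · have h3 : IntegrableOn (fun x => s i * (χ i ((chartAt (E (n + 2)) (c i)).symm x) *
        inc (omX ζ F) (c i) x)) (Metric.ball (chartAt (E (n + 2)) (c i) (c i)) (r i)) :=
      (ha.box i).intOn (continuousOn_const.mul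
        ((comp_symm_cont _ (ha.smooth i).continuous).mul
          ((top_om hO1 hζ hR.smooth).cont _)))
    exact ((integrable_indicator_iff (hWo i).measurableSet).2
      (h3.mono_set inter_subset_left)).restrict
  · refine (heq (fun z => fderiv ℝ g' z v)).symm.trans ?_
    exact TT_deriv h2 hO1 hO2 hST hJ0' hJ ha hR hζ hcl hg'
      (hs'.trans (Metric.ball_subset_ball hR₁)) (fun x hx h => hV x hx (hs' h)) v

end TT

end Pool.Agent.L7h49.OG
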