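import Pool.Agent.L7h49.OF.Stm

/-!
# Orientations by complex structures
-/

set_option autoImplicit false

open Set Filter Topology MeasureTheory
open scoped ContDiff

noncomputable section

namespace Pool.Agent.L7h49.OF

/-- the maps intertwining `J0` and `J` -/
def Itw {d : ℕ} (J0 J T : E d →ₗ[ℝ] E d) : Prop := ∀ a, T (J0 a) = J (T a)

theorem itw_det (h1 : S_L1) {d : ℕ} {J0 J T T' : E d →ₗ[ℝ] E d} (hJ0 : ∀ v, J0 (J0 v) = -v)
    (hT : Itw J0 J T) (hT' : Itw J0 J T') : 0 ≤ LinearMap.det T * LinearMap.det T' := by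
  by_cases h : LinearMap.det T = 0
  · rw [h, zero_mul]
  · let e := LinearMap.equivOfDetNeZero T h
    have he : ∀ v, e v = T v := fun v => rfl
    let S : E d →ₗ[ℝ] E d := e.symm.toLinearMap ∘ₗ T'
    have hS : ∀ v, T (S v) = T' v := fun v => e.apply_symm_apply (T' v)
    have hcomm : ∀ v, S (J0 v) = J0 (S v) := by
      intro v
      apply e.injective
      show T (S (J0 v)) = T (J0 (S v))
      rw [hS, hT', hT, hS]
    have h3 : LinearMap.det T' = LinearMap.det T * LinearMap.det S := by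
      rw [← LinearMap.det_comp]
      congr 1
      ext v : 1
      exact (hS v).symm
    have h4 := h1 (E d) J0 S hJ0 hcomm
    rw [h3, ← mul_assoc]
    exact mul_nonneg (mul_self_nonneg _) h4

theorem exists_itw (h2 : S_L2) {d : ℕ} {J0 J : E d →ₗ[ℝ] E d} (hJ0 : ∀ v, J0 (J0 v) = -v)
    (hJ : ∀ v, J (J v) = -v) : ∃ T, Itw J0 J T ∧ LinearMap.det T ≠ 0 := by
  obtain ⟨T, hT⟩ := h2 (E d) (E d) J0 J hJ0 hJ rfl
  refine ⟨T.toLinearMap, hT, ?_⟩
  exact (LinearEquiv.isUnit_det' T).ne_zero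

/-- the sign of the intertwining maps is locally constant -/
theorem loc_sign (h1 : S_L1) (h2 : S_L2) {d : ℕ} {J0 : E d →ₗ[ℝ] E d}
    (hJ0 : ∀ v, J0 (J0 v) = -v) {JJ : E d → E d →L[ℝ] E d} {p : E d} (hc : ContinuousAt JJ p)
    (hJJ : ∀ᶠ x in 𝓝 p, ∀ v, JJ x (JJ x v) = -v) :
    ∃ s : ℝ, (s = 1 ∨ s = -1) ∧ ∀ᶠ x in 𝓝 p, ∀ T : E d →ₗ[ℝ] E d,
      Itw J0 (JJ x : E d →ₗ[ℝ] E d) T → 0 ≤ s * LinearMap.det T := by
  have hJp := hJJ.self_of_nhds
  obtain ⟨T₀, hT₀, hdet⟩ := exists_itw h2 (J := (JJ p : E d →ₗ[ℝ] E d)) hJ0 hJp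
  obtain ⟨s, hs, hs0⟩ : ∃ s : ℝ, (s = 1 ∨ s = -1) ∧ 0 < s * LinearMap.det T₀ := by
    rcases lt_or_gt_of_ne hdet with h | h
    · exact ⟨-1, Or.inr rfl, by linarith⟩
    · exact ⟨1, Or.inl rfl, by linarith⟩
  refine ⟨s, hs, ?_⟩
  let R : E d → E d →L[ℝ] E d := fun x => ContinuousLinearMap.id ℝ (E d) - (JJ x).comp (JJ p)
  have hR : ContinuousAt (fun x => (R x).det) p := by
    have : ContinuousAt R p := continuousAt_const.sub (hc.clm_comp continuousAt_const)
    exact ContinuousLinearMap.continuous_det.continuousAt.comp this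
  have hRp : 0 < (R p).det := by
    have h3 : R p = (2 : ℝ) • ContinuousLinearMap.id ℝ (E d) := by
      ext1 v
      show v - JJ p (JJ p v) = (2 : ℝ) • v
      rw [hJp]
      module
    rw [h3]
    show 0 < LinearMap.det ((2 : ℝ) • (LinearMap.id : E d →ₗ[ℝ] E d))
    rw [LinearMap.det_smul, LinearMap.det_id, mul_one]
    positivity
  filter_upwards [hJJ, hR.eventually (lt_mem_nhds hRp)] with x hx hdx T hT
  have hint : Itw J0 (JJ x : E d →ₗ[ℝ] E d) ((R x : E d →ₗ[ℝ] E d) ∘ₗ T₀) := by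
    intro a
    show T₀ (J0 a) - JJ x (JJ p (T₀ (J0 a))) = JJ x (T₀ a - JJ x (JJ p (T₀ a)))
    rw [hT₀ a]
    show JJ p (T₀ a) - JJ x (JJ p (JJ p (T₀ a))) = _
    rw [hJp, map_neg, map_sub, hx]
    abel
  have h3 := itw_det h1 hJ0 hint hT
  rw [LinearMap.det_comp] at h3
  have h4 : 0 < LinearMap.det (R x : E d →ₗ[ℝ] E d) := hdx
  have h5 : 0 ≤ LinearMap.det T₀ * LinearMap.det T := by
    rw [mul_assoc] at h3
    exact nonneg_of_mul_nonneg_right h3 h4
  have h6 : 0 ≤ (s * LinearMap.det T₀) * (LinearMap.det T₀ * LinearMap.det T) :=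
    mul_nonneg hs0.le h5
  have h7 : (s * LinearMap.det T₀) * (LinearMap.det T₀ * LinearMap.det T) =
      (LinearMap.det T₀ ^ 2) * (s * LinearMap.det T) := by ring
  rw [h7] at h6
  exact nonneg_of_mul_nonneg_right h6 (by positivity)

/-- complex structures tamed by the same form induce the same orientation -/
theorem same_side (h1 : S_L1) {n : ℕ} (η : (E n) [⋀^Fin 2]→L[ℝ] ℝ) {J0 J T : E n →ₗ[ℝ] E n}
    (hJ0 : ∀ v, J0 (J0 v) = -v) (hJ : ∀ v, J (J v) = -v)
    (ht0 : ∀ v, v ≠ 0 → 0 < η ![v, J0 v]) (ht : ∀ v, v ≠ 0 → 0 < η ![v, J v])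
    (hT : Itw J0 J T) : 0 ≤ LinearMap.det T := by
  have hadd : ∀ (v w w' : E n), η ![v, w + w'] = η ![v, w] + η ![v, w'] := by
    intro v w w'
    have h := η.toAlternatingMap.map_update_add ![v, w] 1 w w'
    have hupd1 : ∀ (v w y : E n), Function.update ![v, w] 1 y = ![v, y] := by
      intro v w y; funext i; fin_cases i <;> simp
    rw [hupd1, hupd1, hupd1] at h
    exact h
  have hsm : ∀ (v w : E n) (c : ℝ), η ![v, c • w] = c * η ![v, w] := by
    intro v w c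
    have h := η.toAlternatingMap.map_update_smul ![v, w] 1 c w
    have hupd1 : ∀ (v w y : E n), Function.update ![v, w] 1 y = ![v, y] := by
      intro v w y; funext i; fin_cases i <;> simp
    rw [hupd1, hupd1] at h
    exact h
  let P : ℝ → E n →ₗ[ℝ] E n := fun t => J + t • J0
  have hne : ∀ t : ℝ, 0 ≤ t → LinearMap.det (P t) ≠ 0 := by
    intro t ht' h0
    have h3 : LinearMap.ker (P t) ≠ ⊥ := by
      intro hbot
      exact ((LinearMap.isUnit_iff_isUnit_det (P t)).1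
        ((LinearMap.isUnit_iff_ker_eq_bot (P t)).2 hbot)).ne_zero h0
    obtain ⟨v, hv, hv0⟩ := (Submodule.ne_bot_iff _).1 h3
    have h4 : J v + t • J0 v = 0 := hv
    have h5 : η ![v, J v + t • J0 v] = 0 := by
      rw [h4]
      exact η.toAlternatingMap.map_coord_zero 1 rfl
    rw [hadd, hsm] at h5
    have h6 := ht v hv0
    have h7 := ht0 v hv0
    have h8 := mul_nonneg ht' h7.le
    linarith
  have hcont : Continuous (fun t => LinearMap.det (P t)) := by
    have h3 : (fun t => LinearMap.det (P t)) = fun t : ℝ =>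
        ((LinearMap.toContinuousLinearMap J) + t • (LinearMap.toContinuousLinearMap J0)).det := rfl
    rw [h3]
    exact ContinuousLinearMap.continuous_det.comp (by fun_prop)
  have hpos0 : 0 < LinearMap.det (P 0) := by
    refine lt_of_le_of_ne ?_ (hne 0 le_rfl).symm
    have h3 : P 0 = J := by simp [P]
    rw [h3]
    exact h1 (E n) J J hJ fun v => rfl
  have hpos1 : 0 < LinearMap.det (P 1) := by
    by_contra hcon
    push Not at hcon
    have h3 : (0 : ℝ) ∈ Icc (LinearMap.det (P 1)) (LinearMap.det (P 0)) := ⟨hcon, hpos0.le⟩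
    obtain ⟨t, ht', h4⟩ := intermediate_value_Icc' (zero_le_one' ℝ) hcont.continuousOn h3
    exact hne t ht'.1 h4
  have hcomm : ∀ v, (P 1 ∘ₗ T) (J0 v) = J0 ((P 1 ∘ₗ T) v) := by
    intro v
    show J (T (J0 v)) + (1 : ℝ) • J0 (T (J0 v)) = J0 (J (T v) + (1 : ℝ) • J0 (T v))
    rw [hT v, one_smul, one_smul, hJ, map_add, hJ0]
    abel
  have h5 := h1 (E n) J0 (P 1 ∘ₗ T) hJ0 hcomm
  rw [LinearMap.det_comp] at h5
  exact nonneg_of_mul_nonneg_right h5 hpos1

/-- the last coordinates -/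
def tl {n : ℕ} : E (n + 2) →ₗ[ℝ] E n where
  toFun v := WithLp.toLp 2 fun j => v j.succ.succ
  map_add' _ _ := rfl
  map_smul' _ _ := rfl

/-- a vector with given coordinates -/
def inc {n : ℕ} (a b : ℝ) (w : E n) : E (n + 2) :=
  WithLp.toLp 2 (Fin.cons a (Fin.cons b (fun j => w j) : Fin (n + 1) → ℝ) : Fin (n + 2) → ℝ)

@[simp] theorem inc_0 {n : ℕ} (a b : ℝ) (w : E n) : inc a b w 0 = a := rfl
@[simp] theorem inc_1 {n : ℕ} (a b : ℝ) (w : E n) : inc a b w 1 = b := rfl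
@[simp] theorem inc_ss {n : ℕ} (a b : ℝ) (w : E n) (j : Fin n) : inc a b w j.succ.succ = w j := rfl
@[simp] theorem tl_inc {n : ℕ} (a b : ℝ) (w : E n) : tl (inc a b w) = w := rfl
@[simp] theorem tl_apply {n : ℕ} (v : E (n + 2)) (j : Fin n) : tl v j = v j.succ.succ := rfl

theorem ext2 {n : ℕ} {v w : E (n + 2)} (h0 : v 0 = w 0) (h1 : v 1 = w 1) (h2 : tl v = tl w) :
    v = w := by
  ext i
  refine Fin.cases h0 (fun i => Fin.cases h1 (fun i => ?_) i) i
  exact congrArg (fun u : E n => u i) h2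

/-- the sum of the rotation of the plane and of `J0'` -/
def blk {n : ℕ} (J0' : E n →ₗ[ℝ] E n) : E (n + 2) →ₗ[ℝ] E (n + 2) where
  toFun v := inc (- v 1) (v 0) (J0' (tl v))
  map_add' v w := by
    refine ext2 ?_ ?_ ?_
    · show - (v 1 + w 1) = - v 1 + - w 1
      ring
    · rfl
    · show J0' (tl (v + w)) = J0' (tl v) + J0' (tl w)
      rw [map_add, map_add]
  map_smul' c v := by
    refine ext2 ?_ ?_ ?_
    · show - (c * v 1) = c * - v 1
      ring
    · rfl
    · show J0' (tl (c • v)) = c • J0' (tl v)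
      rw [map_smul, map_smul]

theorem blk_sq {n : ℕ} {J0' : E n →ₗ[ℝ] E n} (h : ∀ v, J0' (J0' v) = -v) (v : E (n + 2)) :
    blk J0' (blk J0' v) = -v := by
  refine ext2 rfl rfl ?_
  show J0' (J0' (tl v)) = tl (-v)
  rw [h, map_neg]

/-- positivity of `Om` -/
theorem pos_om (h1 : S_L1) (h2 : S_L2) (hO1 : S_OM1) (hO3 : S_OM3) {n : ℕ}
    {J0' : E n →ₗ[ℝ] E n} (hJ0' : ∀ v, J0' (J0' v) = -v)
    {J : E (n + 2) →L[ℝ] E (n + 2)} (hJ : ∀ v, J (J v) = -v) {s : ℝ} (hs : s = 1 ∨ s = -1)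
    (hsT : ∀ T, Itw (blk J0') (J : E (n + 2) →ₗ[ℝ] E (n + 2)) T → 0 ≤ s * LinearMap.det T)
    (C : E (n + 2) →L[ℝ] E n) (hC : Function.Surjective C) (hker : ∀ v, C v = 0 → C (J v) = 0)
    (η : (E n) [⋀^Fin 2]→L[ℝ] ℝ) (hη0 : ∀ v, v ≠ 0 → 0 < η ![v, J0' v])
    (hη : ∀ v, C v ≠ 0 → 0 < η ![C v, C (J v)])
    (τ : (E (n + 2)) [⋀^Fin 2]→L[ℝ] ℝ) {v₀ : E (n + 2)} (hv : C v₀ = 0)
    (hτ : 0 < τ ![v₀, J v₀]) :
    ∃ κ : ℝ, 0 < κ ∧ ∀ B : (E (n + 2)) [⋀^Fin 2]→L[ℝ] ℝ,
      s * Om B (fun j => (co j).comp C) eb = κ * B ![v₀, J v₀] := by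
  obtain ⟨σ₀, hσ₀⟩ := (C : E (n + 2) →ₗ[ℝ] E n).exists_rightInverse_of_surjective
    (LinearMap.range_eq_top.2 hC)
  have hσ₀' : ∀ w, C (σ₀ w) = w := fun w => LinearMap.congr_fun hσ₀ w
  -- the induced structure
  let J' : E n →ₗ[ℝ] E n := (C : E (n + 2) →ₗ[ℝ] E n) ∘ₗ (J : E (n + 2) →ₗ[ℝ] E (n + 2)) ∘ₗ σ₀
  have hJ'd : ∀ w, J' w = C (J (σ₀ w)) := fun w => rfl
  have hCJ : ∀ v, C (J v) = J' (C v) := by
    intro v
    have h3 : C (v - σ₀ (C v)) = 0 := by rw [map_sub, hσ₀', sub_self]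
    have h4 := hker _ h3
    rw [map_sub, map_sub, sub_eq_zero] at h4
    exact h4
  have hJ'2 : ∀ w, J' (J' w) = -w := by
    intro w
    rw [← hσ₀' w, ← hCJ, ← hCJ, hJ, map_neg]
  have hη' : ∀ v, v ≠ 0 → 0 < η ![v, J' v] := by
    intro v hv'
    have h3 := hη (σ₀ v) (by rw [hσ₀']; exact hv')
    rwa [hCJ, hσ₀'] at h3
  obtain ⟨T', hT', hT'd⟩ := exists_itw h2 hJ0' hJ'2
  have hT'p : 0 < LinearMap.det T' :=
    lt_of_le_of_ne (same_side h1 η hJ0' hJ'2 hη0 hη' hT') hT'd.symm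
  let σ : E n →ₗ[ℝ] E (n + 2) :=
    (2⁻¹ : ℝ) • (σ₀ - (J : E (n + 2) →ₗ[ℝ] E (n + 2)) ∘ₗ σ₀ ∘ₗ J')
  have hσd : ∀ w, σ w = (2⁻¹ : ℝ) • (σ₀ w - J (σ₀ (J' w))) := fun w => rfl
  have hσC : ∀ w, C (σ w) = w := by
    intro w
    rw [hσd, map_smul, map_sub, hσ₀', hCJ, hσ₀', hJ'2]
    module
  have hσJ : ∀ w, J (σ w) = σ (J' w) := by
    intro w
    rw [hσd, hσd, map_smul, map_sub, hJ, hJ'2, map_neg, map_neg]
    congr 1
    abel
  let T : E (n + 2) →ₗ[ℝ] E (n + 2) :=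
    { toFun := fun a => a 0 • v₀ + a 1 • J v₀ + σ (T' (tl a))
      map_add' := fun a b => by
        show (a 0 + b 0) • v₀ + (a 1 + b 1) • J v₀ + σ (T' (tl (a + b))) = _
        rw [map_add, map_add, map_add]
        module
      map_smul' := fun c a => by
        show (c * a 0) • v₀ + (c * a 1) • J v₀ + σ (T' (tl (c • a))) =
          c • (a 0 • v₀ + a 1 • J v₀ + σ (T' (tl a)))
        rw [map_smul, map_smul, map_smul]
        module }
  have hTd : ∀ a, T a = a 0 • v₀ + a 1 • J v₀ + σ (T' (tl a)) := fun a => rfl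
  have hTi : Itw (blk J0') (J : E (n + 2) →ₗ[ℝ] E (n + 2)) T := by
    intro a
    show T (inc (- a 1) (a 0) (J0' (tl a))) = J (T a)
    rw [hTd, hTd, inc_0, inc_1, tl_inc, hT', map_add, map_add, map_smul, map_smul, hσJ, hJ]
    module
  have hsd := hsT T hTi
  have hkey : ∀ B : (E (n + 2)) [⋀^Fin 2]→L[ℝ] ℝ,
      LinearMap.det T * Om B (fun j => (co j).comp C) eb =
        2 * (B ![v₀, J v₀] * LinearMap.det T') := by
    intro B
    have h3 := hO1 n B (fun j => (co j).comp C) (LinearMap.toContinuousLinearMap T) eb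
    have h4 : ∀ i, (LinearMap.toContinuousLinearMap T) (eb i) = T (eb i) := fun i => rfl
    have hT0 : T (eb 0) = v₀ := by
      rw [hTd]
      have e1 : (eb (d := n + 2) 0) 0 = 1 := by simp
      have e2 : (eb (d := n + 2) 0) 1 = 0 := by simp
      have e3 : tl (eb (d := n + 2) 0) = 0 := by
        ext j
        simp
      rw [e1, e2, e3, map_zero, map_zero]
      simp
    have hT1 : T (eb 1) = J v₀ := by
      rw [hTd]
      have e1 : (eb (d := n + 2) 1) 0 = 0 := by simp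
      have e2 : (eb (d := n + 2) 1) 1 = 1 := by simp
      have e3 : tl (eb (d := n + 2) 1) = 0 := by
        ext j
        simp [Fin.ext_iff]
      rw [e1, e2, e3, map_zero, map_zero]
      simp
    have hTk : ∀ k : Fin n, T (eb k.succ.succ) = σ (T' (eb k)) := by
      intro k
      rw [hTd]
      have e1 : (eb (d := n + 2) k.succ.succ) 0 = 0 := by
        simp
      have e2 : (eb (d := n + 2) k.succ.succ) 1 = 0 := by
        simp [Fin.ext_iff]
      have e3 : tl (eb (d := n + 2) k.succ.succ) = eb k := by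
        ext j
        simp
      rw [e1, e2, e3]
      simp
    have h5 := hO3 n (E (n + 2)) B (fun j => (co j).comp C) (fun i => T (eb i)) (fun j => by
      show (C (T (eb 0))) j = 0
      rw [hT0, hv]; rfl) (fun j => by
      show (C (T (eb 1))) j = 0
      rw [hT1, hker v₀ hv]; rfl)
    have h6 : Matrix.det (fun j k : Fin n => ((co j).comp C) (T (eb k.succ.succ))) =
        LinearMap.det T' := by
      rw [← LinearMap.det_toMatrix (EuclideanSpace.basisFun (Fin n) ℝ).toBasis T']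
      congr 1
      ext j k
      rw [LinearMap.toMatrix_apply]
      show (C (T (eb k.succ.succ))) j = _
      rw [hTk, hσC]
      simp
    rw [h6] at h5
    have h7 : (fun i => (LinearMap.toContinuousLinearMap T) (eb i)) = fun i => T (eb i) := rfl
    rw [h7, h5, hT0, hT1] at h3
    exact h3.symm
  have hdT : LinearMap.det T ≠ 0 := by
    intro h0
    have h3 := hkey τ
    rw [h0, zero_mul] at h3
    have h4 : 0 < 2 * (τ ![v₀, J v₀] * LinearMap.det T') := by positivity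
    linarith
  have hs2 : s * s = 1 := by rcases hs with rfl | rfl <;> norm_num
  have hsne : s ≠ 0 := by rcases hs with rfl | rfl <;> norm_num
  have hD : 0 < s * LinearMap.det T := lt_of_le_of_ne hsd (mul_ne_zero hsne hdT).symm
  refine ⟨2 * LinearMap.det T' / (s * LinearMap.det T), by positivity, fun B => ?_⟩
  have h3 := hkey B
  rw [div_mul_eq_mul_div, eq_div_iff hD.ne']
  calc s * Om B (fun j => (co j).comp C) eb * (s * LinearMap.det T)
      = (s * s) * (LinearMap.det T * Om B (fun j => (co j).comp C) eb) := by ring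
    _ = _ := by rw [hs2, h3]; ring

/-- the rows of the matrices for `Om` -/
def rw2 {n : ℕ} (a b : Fin (n + 2)) (c : Fin n → E (n + 2) →L[ℝ] ℝ) :
    Fin (n + 2) → E (n + 2) →L[ℝ] ℝ :=
  Fin.cons (co a) (Fin.cons (co b) c : Fin (n + 1) → E (n + 2) →L[ℝ] ℝ)

/-- `Om` vanishes if the linear forms are dependent -/
theorem om_zero (hO2 : S_OM2) {n : ℕ} (C : E (n + 2) →L[ℝ] E n)
    (hC : ¬ Function.Surjective C) (B : (E (n + 2)) [⋀^Fin 2]→L[ℝ] ℝ) :
    Om B (fun j => (co j).comp C) eb = 0 := by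
  have hr : LinearMap.range (C : E (n + 2) →ₗ[ℝ] E n) ≠ ⊤ := fun h =>
    hC (LinearMap.range_eq_top.1 h)
  obtain ⟨f, hf0, hf⟩ := Submodule.exists_le_ker_of_lt_top _ (lt_top_iff_ne_top.2 hr)
  rw [hO2]
  refine Finset.sum_eq_zero fun a _ => Finset.sum_eq_zero fun b _ => ?_
  refine mul_eq_zero_of_right _ ?_
  refine Matrix.exists_vecMul_eq_zero_iff.1 ?_
  let t : Fin n → ℝ := fun j => f (eb j)
  have hft : ∀ w : E n, f w = ∑ j, t j * w j := by
    intro w
    have h3 : w = ∑ j, w j • eb j := by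
      ext k
      simp [Finset.sum_apply, Pi.single_apply]
    conv_lhs => rw [h3]
    rw [map_sum]
    refine Finset.sum_congr rfl fun j _ => ?_
    rw [map_smul, smul_eq_mul, mul_comm]
  refine ⟨Fin.cons 0 (Fin.cons 0 t : Fin (n + 1) → ℝ), ?_, ?_⟩
  · intro h0
    apply hf0
    ext w
    rw [hft]
    refine Finset.sum_eq_zero fun j _ => ?_
    have h3 := congrFun h0 j.succ.succ
    have h4 : t j = 0 := h3
    rw [h4, zero_mul]
  · funext k
    show ∑ i : Fin (n + 2), (Fin.cons 0 (Fin.cons 0 t : Fin (n + 1) → ℝ) : Fin (n + 2) → ℝ) i *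
      (Fin.cons (co a) (Fin.cons (co b) (fun j => (co j).comp C) :
        Fin (n + 1) → E (n + 2) →L[ℝ] ℝ) : Fin (n + 2) → E (n + 2) →L[ℝ] ℝ) i (eb k) = 0
    rw [Fin.sum_univ_succ, Fin.sum_univ_succ]
    simp only [Fin.cons_zero, Fin.cons_succ, zero_mul, zero_add]
    have h3 : C (eb k) ∈ LinearMap.ker f := hf ⟨eb k, rfl⟩
    have h4 := hft (C (eb k))
    rw [LinearMap.mem_ker] at h3
    rw [h3] at h4
    exact h4.symm

/-- replacing one linear form by a combination -/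
theorem om_update (hO2 : S_OM2) {n : ℕ} (B : (E (n + 2)) [⋀^Fin 2]→L[ℝ] ℝ)
    (c : Fin n → E (n + 2) →L[ℝ] ℝ) (i : Fin n) (t : Fin n → ℝ) :
    Om B (Function.update c i (∑ j, t j • c j)) eb = t i * Om B c eb := by
  rw [hO2, hO2, Finset.mul_sum]
  refine Finset.sum_congr rfl fun a _ => ?_
  rw [Finset.mul_sum]
  refine Finset.sum_congr rfl fun b _ => ?_
  rw [mul_left_comm]
  congr 1
  set M : Matrix (Fin (n + 2)) (Fin (n + 2)) ℝ := fun i j => (Fin.cons (co a)
    (Fin.cons (co b) c : Fin (n + 1) → E (n + 2) →L[ℝ] ℝ) : Fin (n + 2) → E (n + 2) →L[ℝ] ℝ) i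
      (eb j) with hM
  have h3 := Matrix.det_updateRow_sum M i.succ.succ
    (Fin.cons 0 (Fin.cons 0 t : Fin (n + 1) → ℝ) : Fin (n + 2) → ℝ)
  simp only [Fin.cons_succ, smul_eq_mul] at h3
  rw [← h3]
  congr 1
  ext k l
  rcases eq_or_ne k i.succ.succ with rfl | hk
  · rw [Matrix.updateRow_self, Fin.sum_univ_succ, Fin.sum_univ_succ]
    simp only [Fin.cons_zero, Fin.cons_succ, zero_smul, zero_add, Function.update_self]
    rw [Finset.sum_apply]
    rw [sum_apply]
    refine Finset.sum_congr rfl fun j _ => ?_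
    rfl
  · rw [Matrix.updateRow_ne hk]
    refine Fin.cases (fun _ => rfl) (fun k => Fin.cases (fun _ => rfl) (fun k hk => ?_) k) k hk
    have h4 : k ≠ i := fun h => hk (by rw [h])
    show (Function.update c i (∑ j, t j • c j) k) (eb l) = c k (eb l)
    rw [Function.update_of_ne h4]

end Pool.Agent.L7h49.OF
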