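import Mathlib

/-!
# Project OF: complex structures tamed by a nondegenerate form (linear algebra)
-/

set_option autoImplicit false

noncomputable section

namespace Pool.Agent.L7h49.OG

/-- a nondegenerate alternating two-form on a finite dimensional real vector space tames a complex
structure. Route (for instance): induction on the dimension, splitting off a hyperbolic plane
spanned by `v, u` with `B(v, u) = 1`, `I v = u`, `I u = -v`. -/
def S_CS : Prop := ∀ (n : ℕ)
  (B : (EuclideanSpace ℝ (Fin n)) [⋀^Fin 2]→L[ℝ] ℝ), (∀ v, (∀ u, B ![v, u] = 0) → v = 0) →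
  ∃ I₀ : EuclideanSpace ℝ (Fin n) →ₗ[ℝ] EuclideanSpace ℝ (Fin n),
    (∀ v, I₀ (I₀ v) = -v) ∧ ∀ v, v ≠ 0 → 0 < B ![v, I₀ v]

end Pool.Agent.L7h49.OG
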