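import Mathlib

/-!
# Project OF: self-contained statements (linear algebra, Stokes in `ℝ^d`, translations)
-/

set_option autoImplicit false

open Set Filter Topology MeasureTheory
open scoped ContDiff

noncomputable section

namespace Pool.Agent.L7h49.OF

/-- the Euclidean space -/
abbrev E (d : ℕ) := EuclideanSpace ℝ (Fin d)

/-- the standard basis -/
abbrev eb {d : ℕ} (j : Fin d) : E d := EuclideanSpace.single j (1 : ℝ)

/-- the coordinates -/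
abbrev co {d : ℕ} (j : Fin d) : E d →L[ℝ] ℝ := EuclideanSpace.proj j

section lin

variable {V : Type} [AddCommGroup V] [Module ℝ V] [TopologicalSpace V]

/-- twice the value of `B ∧ c 0 ∧ ... ∧ c (n - 1)` on the `n + 2` vectors `v` -/
def Om {n : ℕ} (B : V [⋀^Fin 2]→L[ℝ] ℝ) (c : Fin n → V →L[ℝ] ℝ) (v : Fin (n + 2) → V) : ℝ :=
  ∑ π : Equiv.Perm (Fin (n + 2)), ((Equiv.Perm.sign π : ℤ) : ℝ) *
    (B ![v (π 0), v (π 1)] * ∏ j : Fin n, c j (v (π j.succ.succ)))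

end lin

/-- endomorphisms commuting with a complex structure have nonnegative real determinant
(`LinearMap.det_restrictScalars`) -/
def S_L1 : Prop := ∀ (V : Type) [AddCommGroup V] [Module ℝ V] [FiniteDimensional ℝ V]
  (J S : V →ₗ[ℝ] V), (∀ v, J (J v) = -v) → (∀ v, S (J v) = J (S v)) → 0 ≤ LinearMap.det S

/-- two complex structures on spaces of the same dimension are isomorphic -/
def S_L2 : Prop := ∀ (V W : Type) [AddCommGroup V] [Module ℝ V] [FiniteDimensional ℝ V]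
  [AddCommGroup W] [Module ℝ W] [FiniteDimensional ℝ W] (J : V →ₗ[ℝ] V) (K : W →ₗ[ℝ] W),
  (∀ v, J (J v) = -v) → (∀ w, K (K w) = -w) → Module.finrank ℝ V = Module.finrank ℝ W →
  ∃ T : V ≃ₗ[ℝ] W, ∀ v, T (J v) = K (T v)

/-- translations: if the functional `g ↦ ∑ i, ∫ g(F i) w i` vanishes on derivatives of test
functions in `U` then it is invariant under translations in `U` -/
def S_TR : Prop := ∀ (k : ℕ) (ι Y : Type) [Fintype ι] [MeasurableSpace Y] (μ : ι → Measure Y)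
  (F : ι → Y → E k) (w : ι → Y → ℝ), (∀ i, AEMeasurable (F i) (μ i)) →
  (∀ i, Integrable (w i) (μ i)) → ∀ U : Set (E k), IsOpen U →
  (∀ g : E k → ℝ, ContDiff ℝ ∞ g → HasCompactSupport g → tsupport g ⊆ U → ∀ v : E k,
    ∑ i, ∫ y, fderiv ℝ g (F i y) v * w i y ∂(μ i) = 0) →
  ∀ (g : E k → ℝ) (a : E k), ContDiff ℝ ∞ g → HasCompactSupport g →
    (∀ s : ℝ, 0 ≤ s → s ≤ 1 → ∀ x ∈ tsupport g, x + s • a ∈ U) →
    ∑ i, ∫ y, g (F i y - a) * w i y ∂(μ i) = ∑ i, ∫ y, g (F i y) * w i y ∂(μ i)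

/-- then the functional is a multiple of the Lebesgue measure on a smaller ball (convolution,
using `S_TR` with one index) -/
def S_TI : Prop := ∀ (k : ℕ) (Y : Type) [MeasurableSpace Y] (μ : Measure Y) [IsFiniteMeasure μ]
  (F : Y → E k) (w : Y → ℝ), AEMeasurable F μ → Integrable w μ →
  ∀ (c : E k) (r : ℝ), 0 < r →
  (∀ g : E k → ℝ, ContDiff ℝ ∞ g → HasCompactSupport g → tsupport g ⊆ Metric.ball c (3 * r) →
    ∀ v : E k, ∫ y, fderiv ℝ g (F y) v * w y ∂μ = 0) →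
  ∀ g h : E k → ℝ, ContDiff ℝ ∞ g → ContDiff ℝ ∞ h → tsupport g ⊆ Metric.ball c r →
    tsupport h ⊆ Metric.ball c r →
    (∫ y, g (F y) * w y ∂μ) * ∫ x, h x = (∫ y, h (F y) * w y ∂μ) * ∫ x, g x

/-- `Om` is a top degree form: naturality -/
def S_OM1 : Prop := ∀ (n : ℕ) (B : (E (n + 2)) [⋀^Fin 2]→L[ℝ] ℝ)
  (c : Fin n → E (n + 2) →L[ℝ] ℝ) (A : E (n + 2) →L[ℝ] E (n + 2)) (v : Fin (n + 2) → E (n + 2)),
  Om B c (fun i => A (v i)) = LinearMap.det (A : E (n + 2) →ₗ[ℝ] E (n + 2)) * Om B c v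

/-- `Om` on families whose first two vectors are in the kernel of all `c j` -/
def S_OM3 : Prop := ∀ (n : ℕ) (V : Type) [AddCommGroup V] [Module ℝ V] [TopologicalSpace V]
  (B : V [⋀^Fin 2]→L[ℝ] ℝ) (c : Fin n → V →L[ℝ] ℝ) (v : Fin (n + 2) → V),
  (∀ j, c j (v 0) = 0) → (∀ j, c j (v 1) = 0) →
  Om B c v = 2 * (B ![v 0, v 1] * Matrix.det (fun j k : Fin n => c j (v k.succ.succ)))

/-- `Om` through determinants in coordinates -/
def S_OM2 : Prop := ∀ (n : ℕ) (B : (E (n + 2)) [⋀^Fin 2]→L[ℝ] ℝ)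
  (c : Fin n → E (n + 2) →L[ℝ] ℝ), Om B c eb = ∑ a : Fin (n + 2), ∑ b : Fin (n + 2),
    B ![eb a, eb b] * Matrix.det (fun i j : Fin (n + 2) =>
      (Fin.cons (co a) (Fin.cons (co b) c : Fin (n + 1) → E (n + 2) →L[ℝ] ℝ) :
        Fin (n + 2) → E (n + 2) →L[ℝ] ℝ) i (eb j))

/-- null Lagrangian on an open set (from `H248.ID.J01.null_lagrangian` in
`Pool/Agent/H248/ID/J01.lean`, with cut-offs) -/
def S_NL : Prop := ∀ (d : ℕ) (U : Set (E d)) (a : Fin d → E d → ℝ) (i : Fin d), IsOpen U →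
  (∀ j, ContDiffOn ℝ ∞ (a j) U) → HasCompactSupport (a i) → tsupport (a i) ⊆ U →
  ∫ x, Matrix.det (fun k j : Fin d => fderiv ℝ (a k) x (eb j)) = 0

/-- Stokes for exact forms -/
def S_ST1 : Prop := ∀ (n : ℕ) (U : Set (E (n + 2)))
  (β : E (n + 2) → (E (n + 2)) [⋀^Fin 1]→L[ℝ] ℝ) (a : Fin n → E (n + 2) → ℝ)
  (G : E (n + 2) → ℝ), IsOpen U → ContDiffOn ℝ ∞ β U → HasCompactSupport β → tsupport β ⊆ U →
  (∀ j, ContDiffOn ℝ ∞ (a j) U) → ContDiffOn ℝ ∞ G U →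
  (∀ x ∈ U, ∃ t : Fin n → ℝ, fderiv ℝ G x = ∑ j, t j • fderiv ℝ (a j) x) →
  ∫ x, G x * Om (extDeriv β x) (fun j => fderiv ℝ (a j) x) eb = 0

/-- Stokes for closed forms -/
def S_ST2 : Prop := ∀ (n : ℕ) (U : Set (E (n + 2)))
  (ζ : E (n + 2) → (E (n + 2)) [⋀^Fin 2]→L[ℝ] ℝ) (a : Fin n → E (n + 2) → ℝ) (i : Fin n),
  IsOpen U → ContDiffOn ℝ ∞ ζ U → (∀ j, ContDiffOn ℝ ∞ (a j) U) → HasCompactSupport (a i) →
  tsupport (a i) ⊆ U → (∀ x ∈ tsupport (a i), extDeriv ζ x = 0) →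
  ∫ x, Om (ζ x) (fun j => fderiv ℝ (a j) x) eb = 0

end Pool.Agent.L7h49.OF
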