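import Pool.Agent.L7h49.OF.Semi
import Pool.Agent.L7h49.OF.Stm4
import Pool.Agent.L7h32.OF.Uni
import Pool.Agent.L7h76.OG.Loc2
import Pool.Agent.L7h76.OG.Pbk
import Pool.Agent.L7h76.OF.Om
import Pool.Agent.L7h76.OF.NL
import Pool.Agent.L7h76.OF.ST
import Pool.Agent.L7h89.OF.P_L
import Pool.Agent.L7h89.OF.P_TR
import Pool.Agent.L7h89.OF.P_TI
import Pool.Agent.L7h89.OF.P_STR
import Pool.Agent.L7h89.OF.P_PT

/-!
# One good fibre suffices: all parts put together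
-/

set_option autoImplicit false

open Set Filter Topology MeasureTheory
open scoped Manifold ContDiff

noncomputable section

namespace Pool.Agent.L7h49.OG

open Pool.Agent.Y501.SY
open Pool.Agent.N13.TL
open Pool.Agent.R772 (ExactF)
open Pool.Agent.L7h49.TS (exactF_zero exactF_add exactF_smul)

theorem tools : Tools where
  L1 := Pool.Agent.L7h89.OF.st_L1
  L2 := Pool.Agent.L7h89.OF.st_L2
  OM1 := Pool.Agent.L7h76.OF.st_OM1
  OM2 := Pool.Agent.L7h76.OF.st_OM2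
  OM3 := Pool.Agent.L7h76.OF.st_OM3
  ST1 := Pool.Agent.L7h76.OF.st_ST1
  ST2 := Pool.Agent.L7h76.OF.st_ST2
  TR := Pool.Agent.L7h89.OF.st_TR

theorem h_LOC : S_LOC :=
  Pool.Agent.L7h76.OG.st_LOC Pool.Agent.L7h89.OF.st_STR Pool.Agent.L7h89.OF.st_TI

theorem h_PT : S_PT := Pool.Agent.L7h89.OF.st_PT

theorem h_UNI : S_UNI := Pool.Agent.L7h32.OF.st_UNI h_PT

theorem h_PBK : S_PBK := Pool.Agent.L7h76.OG.st_PBK

variable {n : ℕ} {X N : Type} [TopologicalSpace X] [ChartedSpace (E (n + 2)) X]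
  [TopologicalSpace N] [ChartedSpace (E n) N]

/-- `ζ` is nonnegative on the vertical vectors over `y`, up to an exact form, and positive on one of
them at a regular point -/
def SemiF (J : End (n + 2) X) (f : X → N) (ζ : Form (n + 2) X 2) (y : N) : Prop :=
  ∃ ρ : Form (n + 2) X 2, ExactF ρ ∧
    (∀ x, f x = y → ∀ v : TangentSpace (𝓡 (n + 2)) x, mfderiv (𝓡 (n + 2)) (𝓡 n) f x v = 0 →
      0 ≤ q (ζ + ρ) J x v) ∧
    ∃ (x : X) (v : TangentSpace (𝓡 (n + 2)) x), f x = y ∧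
      Function.Surjective (mfderiv (𝓡 (n + 2)) (𝓡 n) f x) ∧
      mfderiv (𝓡 (n + 2)) (𝓡 n) f x v = 0 ∧ 0 < q (ζ + ρ) J x v

/-- `ζ` is bounded above on the vertical vectors over `y`, up to exact forms, by all forms which
tame `J` -/
def NonposT (J : End (n + 2) X) (f : X → N) (ζ : Form (n + 2) X 2) (y : N) : Prop :=
  ∀ τ : Form (n + 2) X 2, IsSmooth τ → (∀ x, TamesAt τ J x) →
    ∃ ρ : Form (n + 2) X 2, ExactF ρ ∧ ∀ x, f x = y →
      ∀ v : TangentSpace (𝓡 (n + 2)) x, mfderiv (𝓡 (n + 2)) (𝓡 n) f x v = 0 →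
        q (ζ + ρ) J x v ≤ q τ J x v

theorem NonposT.nonpos {J : End (n + 2) X} {f : X → N} {ζ : Form (n + 2) X 2} {y : N}
    (h : NonposT J f ζ y) {τ : Form (n + 2) X 2} (hτs : IsSmooth τ)
    (hτ : ∀ x, TamesAt τ J x) : NonposF J τ f ζ y := by
  intro ε hε
  obtain ⟨ρ, hρ, h1⟩ := h (ε • τ) (hτs.smul ε) fun x v hv => by
    show 0 < q (ε • τ) J x v
    rw [q_smul]
    exact mul_pos hε (hτ x v hv)
  exact ⟨ρ, hρ, fun x hx v hv => by
    have h2 := h1 x hx v hv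
    rwa [q_smul] at h2⟩

/-- a tame fibre near which every closed form is a multiple of one form up to exact forms -/
structure RankF (J : End (n + 2) X) (f : X → N) (w : Form n N 2) (y : N) : Prop where
  base : ∃ I₀ : E n →ₗ[ℝ] E n, (∀ v, I₀ (I₀ v) = -v) ∧ ∀ u : E n, u ≠ 0 → 0 < w y ![u, I₀ u]
  reg : ∀ V ∈ 𝓝 y, ∃ x, f x ∈ V ∧ Function.Surjective (mfderiv (𝓡 (n + 2)) (𝓡 n) f x)
  form : ∃ κ : Form (n + 2) X 2, IsSmooth κ ∧ (∃ V ∈ 𝓝 y, ClosedOn κ (f ⁻¹' V)) ∧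
    (∀ x, f x = y → ∀ v : TangentSpace (𝓡 (n + 2)) x, v ≠ 0 →
      mfderiv (𝓡 (n + 2)) (𝓡 n) f x v = 0 → 0 < q κ J x v) ∧
    ∀ ζ : Form (n + 2) X 2, IsSmooth ζ → IsClosedForm ζ → ∃ (t : ℝ) (ρ : Form (n + 2) X 2),
      ExactF ρ ∧ ∃ V ∈ 𝓝 y, ∀ x, f x ∈ V → (ζ + ρ) x = t • κ x

theorem RankF.tame {J : End (n + 2) X} {f : X → N} {w : Form n N 2} {y : N}
    (h : RankF J f w y) : TameF J f w y := by
  obtain ⟨κ, h1, h2, h3, -⟩ := h.form
  exact ⟨h.base, h.reg, κ, h1, h2, h3⟩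

/-- closed forms have a sign on tame fibres of rank one -/
theorem RankF.sign {J : End (n + 2) X} {f : X → N} {w : Form n N 2} {y : N}
    (h : RankF J f w y) {ζ : Form (n + 2) X 2} (hζ : IsSmooth ζ) (hζc : IsClosedForm ζ) :
    GoodF J f ζ y ∨ NonposT J f ζ y := by
  obtain ⟨κ, h1, h2, h3, h4⟩ := h.form
  obtain ⟨t, ρ, hρ, V, hV, h5⟩ := h4 ζ hζ hζc
  have h6 : ∀ x, f x = y → ∀ v : TangentSpace (𝓡 (n + 2)) x,
      q (ζ + ρ) J x v = t * q κ J x v := by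
    intro x hx v
    have h7 := h5 x (by rw [hx]; exact mem_of_mem_nhds hV)
    show (ζ + ρ) x ![v, J x v] = t * κ x ![v, J x v]
    rw [h7]
    rfl
  rcases lt_or_ge 0 t with ht | ht
  · refine Or.inl ⟨ρ, hρ, fun x hx v hv hvv => ?_⟩
    rw [h6 x hx]
    exact mul_pos ht (h3 x hx v hv hvv)
  · refine Or.inr fun τ _ hτ => ⟨ρ, hρ, fun x hx v hvv => ?_⟩
    rw [h6 x hx]
    have h7 : 0 ≤ q κ J x v := by
      by_cases hv : v = 0
      · rw [hv, q_zero]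
      · exact (h3 x hx v hv hvv).le
    exact (mul_nonpos_of_nonpos_of_nonneg ht h7).trans (q_nonneg (hτ x) v)

variable [IsManifold (𝓡 (n + 2)) ∞ X] [IsManifold (𝓡 n) ∞ N]

/-- the final theorem -/
theorem final [CompactSpace X] [T2Space X] [T2Space N] [PreconnectedSpace N]
    {J : End (n + 2) X} {f : X → N} {w : Form n N 2} {τ : Form (n + 2) X 2}
    (hJ : IsAlmostComplex J) (hτs : IsSmooth τ) (hτ : ∀ x, TamesAt τ J x) (h : SympFib J f w)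
    {ζ : Form (n + 2) X 2} (hζ : IsSmooth ζ) (hζc : IsClosedForm ζ)
    (hirr : ∀ y, IrrF (n := n) f y ∨ GoodF J f ζ y ∨ (TameF J f w y ∧ NonposT J f ζ y))
    (hg : ∃ y, GoodF J f ζ y ∨ (IrrF (n := n) f y ∧ SemiF J f ζ y)) :
    (∀ y, GoodF J f ζ y) ∧ ∃ ρ, ExactF ρ ∧ ∃ t₀ : ℝ, 0 < t₀ ∧ ∀ t : ℝ, 0 < t → t ≤ t₀ →
      ∀ x, TamesAt (pull (d := n + 2) f w + t • (ζ + ρ)) J x := by
  obtain ⟨y₀, hy₀⟩ := hg
  have hgood : GoodF J f ζ y₀ := by
    rcases hy₀ with h1 | ⟨h1, ρ, hρ, h2, x, v, h3, h4, h5, h6⟩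
    · exact h1
    · exact semi_good h_LOC h_PT hJ hτs hτ h hζ h1 hρ h2 h3 h4 h5 h6
  refine one_good tools h_LOC h_UNI h_PT h_PBK hJ hτs hτ h hζ hζc (fun y => ?_) hgood
  rcases hirr y with h1 | h1 | ⟨h1, h2⟩
  · exact Or.inl h1
  · exact Or.inr (Or.inl h1)
  · exact Or.inr (Or.inr ⟨h1, h2.nonpos hτs hτ⟩)

/-- closed forms which are smooth -/
theorem pull_closed {f : X → N} (hf : ContMDiff (𝓡 (n + 2)) (𝓡 n) ∞ f) {w : Form n N 2}
    (hw : IsSmooth w) (hwc : IsClosedForm w) :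
    IsSmooth (pull (d := n + 2) f w) ∧ IsClosedForm (pull (d := n + 2) f w) := by
  have h1 := h_PBK (n + 2) n X N f w hf hw
  exact ⟨h1.1, h1.2 hwc⟩

/-- exact forms are closed -/
theorem exactF_closed {ρ : Form (n + 2) X 2} (h : ExactF ρ) : IsClosedForm ρ := by
  obtain ⟨α, hα, hρ, hD⟩ := h
  intro U φ hU hφ p hp
  have h1 : pb φ ρ =ᶠ[𝓝 p] extDeriv (pb φ α) := by
    filter_upwards [hU.mem_nhds hp] with p' hp'
    exact (hD U φ hU hφ p' hp').symm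
  rw [h1.extDeriv_eq, extDeriv_extDeriv_apply (r := ∞)
    ((hα U φ hU hφ).contDiffAt (hU.mem_nhds hp)) Pool.Agent.Y515.SY.smooth2]
  rfl

/-- the forms `f^* w + t (ζ + ρ)` are smooth and closed -/
theorem comb_closed {f : X → N} (hf : ContMDiff (𝓡 (n + 2)) (𝓡 n) ∞ f) {w : Form n N 2}
    (hw : IsSmooth w) (hwc : IsClosedForm w) {ζ ρ : Form (n + 2) X 2} (hζ : IsSmooth ζ)
    (hζc : IsClosedForm ζ) (hρ : ExactF ρ) (t : ℝ) :
    IsSmooth (pull (d := n + 2) f w + t • (ζ + ρ)) ∧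
      IsClosedForm (pull (d := n + 2) f w + t • (ζ + ρ)) := by
  obtain ⟨h1, h2⟩ := pull_closed hf hw hwc
  have h3 := exactF_smooth hρ
  refine ⟨h1.add ((hζ.add h3).smul t), ?_⟩
  have h4 := IsD.add h2 (IsD.smul (IsD.add hζc (exactF_closed hρ) hζ h3) t) h1
    ((hζ.add h3).smul t)
  have h5 : (0 : Form (n + 2) X 3) + t • (0 + 0) = 0 := by
    rw [add_zero, smul_zero, add_zero]
  rw [h5] at h4
  exact h4

end Pool.Agent.L7h49.OG
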