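import Pool.Agent.L7h49.OF.Contra

/-!
# Near a bad irreducible fibre all fibres are bad
-/

set_option autoImplicit false

open Set Filter Topology MeasureTheory
open scoped Manifold ContDiff

noncomputable section

namespace Pool.Agent.L7h49.OG

open Pool.Agent.Y501.SY
open Pool.Agent.N13.TL
open Pool.Agent.L7h49.TS (qq qq_cont unit_compact tb_t2 HasP WS Cr exists_cr qq_add qq_smul
  exactF_zero exactF_add exactF_smul exactF_mem int_cont ne_zero_of_unit)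
open Pool.Agent.R772 (ExactF)

variable {n : ℕ} {X : Type} [TopologicalSpace X] [ChartedSpace (E (n + 2)) X]

/-- the unit vertical vectors over `S` -/
def KV (J : End (n + 2) X) (τ : Form (n + 2) X 2) (F : Fin n → X → ℝ) (S : Set X) :
    Set (TangentBundle (𝓡 (n + 2)) X) :=
  {p | qq τ J p = 1 ∧ p.proj ∈ S ∧ Vert F p.proj p.snd}

/-- positivity of a form on the vertical vectors over `S`, up to exact forms -/
def GoodOn (J : End (n + 2) X) (F : Fin n → X → ℝ) (ζ : Form (n + 2) X 2) (S : Set X) : Prop :=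
  ∃ ρ : Form (n + 2) X 2, ExactF ρ ∧ ∀ x ∈ S, ∀ v : TangentSpace (𝓡 (n + 2)) x, v ≠ 0 →
    Vert F x v → 0 < q (ζ + ρ) J x v

theorem ws_exact {w : Form (n + 2) X 2} (hw : w ∈ WS (∅ : Set (Form (n + 2) X 2))) :
    ExactF w := by
  induction hw using Submodule.span_induction with
  | mem x hx =>
    rcases hx with hx | hx
    · exact absurd hx (notMem_empty _)
    · exact hx
  | zero => exact exactF_zero
  | add x y _ _ h1 h2 => exact exactF_add h1 h2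
  | smul a x _ h => exact exactF_smul a h

variable [IsManifold (𝓡 (n + 2)) ∞ X]

theorem dd_cont {f : X → ℝ} (hf : SmoothFun (d := n + 2) f) :
    Continuous (fun p : TangentBundle (𝓡 (n + 2)) X => dd (d := n + 2) f p.proj p.snd) := by
  have h1 : Continuous (tangentMap (𝓡 (n + 2)) 𝓘(ℝ, ℝ) f) :=
    hf.continuous_tangentMap (by simp)
  have h2 := (tangentBundleModelSpaceHomeomorph 𝓘(ℝ, ℝ)).continuous.comp h1
  exact continuous_snd.comp h2

theorem KV_compact [CompactSpace X] [T2Space X] {J : End (n + 2) X} (hJ : IsAlmostComplex J)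
    {τ : Form (n + 2) X 2} (hτs : IsSmooth τ) (hτ : ∀ x, TamesAt τ J x) {F : Fin n → X → ℝ}
    (hF : ∀ j, SmoothFun (d := n + 2) (F j)) {S : Set X} (hS : IsClosed S) :
    IsCompact (KV J τ F S) := by
  have h1 := unit_compact hJ hτs hτ
  have hpr : Continuous (Bundle.TotalSpace.proj : TangentBundle (𝓡 (n + 2)) X → X) :=
    FiberBundle.continuous_proj (E (n + 2)) (TangentSpace (𝓡 (n + 2)))
  have h2 : IsClosed {p : TangentBundle (𝓡 (n + 2)) X | p.proj ∈ S ∧ Vert F p.proj p.snd} := by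
    refine (hS.preimage hpr).inter ?_
    have h3 : {p : TangentBundle (𝓡 (n + 2)) X | Vert F p.proj p.snd} =
        ⋂ j, {p | dd (d := n + 2) (F j) p.proj p.snd = 0} := by
      ext p
      rw [mem_iInter]
      rfl
    show IsClosed {p : TangentBundle (𝓡 (n + 2)) X | Vert F p.proj p.snd}
    rw [h3]
    exact isClosed_iInter fun j => isClosed_eq (dd_cont (hF j)) continuous_const
  exact h1.inter_right h2

omit [IsManifold (𝓡 (n + 2)) ∞ X] in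
theorem vert_smul {F : Fin n → X → ℝ} {x : X} {v : TangentSpace (𝓡 (n + 2)) x}
    (hv : Vert F x v) (a : ℝ) : Vert F x (a • v) := by
  intro j
  rw [map_smul, hv j, smul_zero]

omit [IsManifold (𝓡 (n + 2)) ∞ X] in
/-- from unit vectors to all vectors -/
theorem scale_up {J : End (n + 2) X} {τ η : Form (n + 2) X 2} (hτ : ∀ x, TamesAt τ J x)
    {F : Fin n → X → ℝ} {S : Set X} {c₀ : ℝ}
    (h : ∀ p ∈ KV J τ F S, c₀ ≤ qq η J p) {x : X} (hx : x ∈ S)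
    (v : TangentSpace (𝓡 (n + 2)) x) (hv : Vert F x v) : c₀ * q τ J x v ≤ q η J x v := by
  by_cases hv0 : v = 0
  · rw [hv0, q_zero, q_zero, mul_zero]
  have pv : 0 < q τ J x v := hτ x v hv0
  have sv := Real.sqrt_pos.2 pv
  have h1 := h ⟨x, (√(q τ J x v))⁻¹ • v⟩ ⟨by
    show q τ J x ((√(q τ J x v))⁻¹ • v) = 1
    rw [q_hom, inv_pow, Real.sq_sqrt pv.le]
    exact inv_mul_cancel₀ pv.ne', hx, vert_smul hv _⟩
  have h2 : c₀ ≤ q η J x ((√(q τ J x v))⁻¹ • v) := h1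
  rw [q_hom, inv_pow, Real.sq_sqrt pv.le, inv_mul_eq_div, le_div_iff₀ pv] at h2
  exact h2

section

variable {J : End (n + 2) X} {F : Fin n → X → ℝ} {J0' : E n →ₗ[ℝ] E n} {U₁ : Set X}
  {b : E n} {R₀ : ℝ}

/-- positivity persists over nearby points -/
theorem near_pos [CompactSpace X] [T2Space X] (hJ : IsAlmostComplex J)
    {τ : Form (n + 2) X 2} (hτs : IsSmooth τ) (hτ : ∀ x, TamesAt τ J x)
    (hR : Region J F J0' U₁ b R₀) {η : Form (n + 2) X 2} (hη : IsSmooth η) {b' : E n}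
    (hb' : b' ∈ Metric.ball b R₀)
    (h : ∀ p ∈ KV J τ F {x | x ∈ U₁ ∧ Fe F x = b'}, 0 < qq η J p) :
    ∃ c₀ : ℝ, 0 < c₀ ∧ ∃ δ : ℝ, 0 < δ ∧ ∀ x ∈ U₁, Fe F x ∈ Metric.ball b' δ →
      ∀ v, Vert F x v → c₀ * q τ J x v ≤ q η J x v := by
  set S := {x | x ∈ U₁ ∧ Fe F x ∈ Metric.closedBall b R₀} with hS
  have hSc : IsClosed S := hR.closed
  have hFc : Continuous (Fe F) := (Fe_smooth hR.smooth).continuous
  have hpr : Continuous (Bundle.TotalSpace.proj : TangentBundle (𝓡 (n + 2)) X → X) :=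
    FiberBundle.continuous_proj (E (n + 2)) (TangentSpace (𝓡 (n + 2)))
  have hK := KV_compact hJ hτs hτ hR.smooth hSc
  have hK' := KV_compact hJ hτs hτ hR.smooth (S := {x | x ∈ U₁ ∧ Fe F x = b'}) (by
    have h1 : {x | x ∈ U₁ ∧ Fe F x = b'} = S ∩ Fe F ⁻¹' {b'} := by
      ext x
      constructor
      · rintro ⟨h2, h3⟩
        refine ⟨⟨h2, ?_⟩, h3⟩
        rw [h3]
        exact Metric.ball_subset_closedBall hb'
      · rintro ⟨h2, h3⟩
        exact ⟨h2.1, h3⟩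
    rw [h1]
    exact hSc.inter (isClosed_singleton.preimage hFc))
  have hηc := qq_cont hη hJ
  obtain ⟨c₀, hc₀, hc⟩ : ∃ c₀ : ℝ, 0 < c₀ ∧
      ∀ p ∈ KV J τ F {x | x ∈ U₁ ∧ Fe F x = b'}, c₀ < qq η J p := by
    rcases (KV J τ F {x | x ∈ U₁ ∧ Fe F x = b'}).eq_empty_or_nonempty with he | hne
    · exact ⟨1, one_pos, fun p hp => by rw [he] at hp; exact absurd hp (notMem_empty p)⟩
    · obtain ⟨p₀, hp₀, hmin⟩ := hK'.exists_isMinOn hne hηc.continuousOn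
      have h1 := h p₀ hp₀
      exact ⟨qq η J p₀ / 2, by positivity, fun p hp => by
        have h2 : qq η J p₀ ≤ qq η J p := hmin hp
        linarith⟩
  have hB : IsCompact (KV J τ F S ∩ {p | qq η J p ≤ c₀}) :=
    hK.inter_right (isClosed_le hηc continuous_const)
  have hI := hB.image (hFc.comp hpr)
  have hb'I : b' ∉ (Fe F ∘ Bundle.TotalSpace.proj) '' (KV J τ F S ∩ {p | qq η J p ≤ c₀}) := by
    rintro ⟨p, ⟨hp1, hp2⟩, hp3⟩
    have h1 := hc p ⟨hp1.1, ⟨hp1.2.1.1, hp3⟩, hp1.2.2⟩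
    exact absurd hp2 (not_le.2 h1)
  obtain ⟨δ, hδ, hδ2⟩ := Metric.isOpen_iff.1 hI.isClosed.isOpen_compl b' hb'I
  have hd : 0 < R₀ - dist b' b := by
    rw [Metric.mem_ball] at hb'
    linarith
  refine ⟨c₀, hc₀, min δ (R₀ - dist b' b), lt_min hδ hd, fun x hx hxb v hv => ?_⟩
  refine scale_up (S := {x}) hτ (fun p hp => ?_) (mem_singleton x) v hv
  by_contra hcon
  push Not at hcon
  have hpx : p.proj = x := hp.2.1
  have h3 : Fe F p.proj ∈ Metric.ball b' δ := by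
    rw [hpx]
    exact Metric.ball_subset_ball (min_le_left _ _) hxb
  refine hδ2 h3 ⟨p, ⟨⟨hp.1, ⟨by rw [hpx]; exact hx, ?_⟩, hp.2.2⟩, hcon.le⟩, rfl⟩
  rw [hpx, Metric.mem_closedBall]
  rw [Metric.mem_ball] at hxb
  have h4 := dist_triangle (Fe F x) b' b
  have h5 := min_le_right δ (R₀ - dist b' b)
  linarith

end

/-- near a bad irreducible fibre all fibres are bad -/
theorem near_bad [CompactSpace X] [T2Space X] [MeasurableSpace (TangentBundle (𝓡 (n + 2)) X)]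
    [BorelSpace (TangentBundle (𝓡 (n + 2)) X)] (T : Tools) (hLOC : S_LOC) (hUNI : S_UNI)
    {J : End (n + 2) X} {F : Fin n → X → ℝ} {J0' : E n →ₗ[ℝ] E n} {U₁ : Set X} {b : E n}
    {R₀ : ℝ} (hJ0' : ∀ v, J0' (J0' v) = -v) (hJ : IsAlmostComplex J) {τ : Form (n + 2) X 2}
    (hτs : IsSmooth τ) (hτ : ∀ x, TamesAt τ J x) (hR : Region J F J0' U₁ b R₀)
    {ζ : Form (n + 2) X 2} (hζ : IsSmooth ζ) (hζc : IsClosedForm ζ)
    (hcount : {x | (x ∈ U₁ ∧ Fe F x = b) ∧ ¬ Reg (d := n + 2) F x}.Countable)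
    (hconn : IsPreconnected {x | (x ∈ U₁ ∧ Fe F x = b) ∧ Reg (d := n + 2) F x})
    (hbad : ¬ GoodOn J F ζ {x | x ∈ U₁ ∧ Fe F x = b}) :
    ∃ R : ℝ, 0 < R ∧ ∀ b' ∈ Metric.ball b R, ¬ GoodOn J F ζ {x | x ∈ U₁ ∧ Fe F x = b'} := by
  set Z := {x | x ∈ U₁ ∧ Fe F x = b} with hZ
  have hFc : Continuous (Fe F) := (Fe_smooth hR.smooth).continuous
  have hZc : IsClosed Z := by
    have h1 : Z = {x | x ∈ U₁ ∧ Fe F x ∈ Metric.closedBall b R₀} ∩ Fe F ⁻¹' {b} := by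
      ext x
      constructor
      · rintro ⟨h2, h3⟩
        refine ⟨⟨h2, ?_⟩, h3⟩
        rw [h3]
        exact Metric.mem_closedBall_self hR.pos.le
      · rintro ⟨h2, h3⟩
        exact ⟨h2.1, h3⟩
    rw [h1]
    exact hR.closed.inter (isClosed_singleton.preimage hFc)
  set K := KV J τ F Z with hK
  have hKc : IsCompact K := KV_compact hJ hτs hτ hR.smooth hZc
  have hFb : ∀ x ∈ Z, ∀ j, F j x = b j := fun x hx j => by
    have h1 := hx.2
    exact congrArg (fun z : E n => z j) h1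
  -- from positivity on `K` to goodness
  have hgood : ∀ {η : Form (n + 2) X 2}, HasP J (∅ : Set (Form (n + 2) X 2)) η K →
      ∃ ρ, ExactF ρ ∧ ∀ p ∈ K, 0 < qq (η + ρ) J p := by
    rintro η ⟨w, hw, h⟩
    exact ⟨w, ws_exact hw, h⟩
  have hnb : ¬ HasP J (∅ : Set (Form (n + 2) X 2)) ζ K := by
    intro h
    obtain ⟨ρ, hρ, h1⟩ := hgood h
    obtain ⟨c₀, hc₀, δ, hδ, h2⟩ := near_pos hJ hτs hτ hR (hζ.add (exactF_smooth hρ))
      (Metric.mem_ball_self hR.pos) h1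
    refine hbad ⟨ρ, hρ, fun x hx v hv hvv => ?_⟩
    have h3 := h2 x hx.1 (by rw [hx.2]; exact Metric.mem_ball_self hδ) v hvv
    exact lt_of_lt_of_le (mul_pos hc₀ (hτ x v hv)) h3
  have hcr : ∀ {η : Form (n + 2) X 2}, IsSmooth η →
      ¬ HasP J (∅ : Set (Form (n + 2) X 2)) η K → ∃ μ, CC J K μ ∧ μ ≠ 0 ∧
        ∫ p, qq η J p ∂μ ≤ 0 := by
    intro η hη h
    obtain ⟨μ, hμ⟩ := exists_cr hJ (fun σ hσ => absurd hσ (notMem_empty σ)) hη hKc h
    exact ⟨μ, ⟨hμ.fin, hμ.car, fun ρ hρ => hμ.orth ρ (exactF_mem hρ)⟩, hμ.ne, hμ.le⟩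
  obtain ⟨μ₀, hμ₀, hμ₀n, hμ₀ζ⟩ := hcr hζ hnb
  obtain ⟨x₁, N, κ, I, hx₁, hreg₁, hD, hpos, huni⟩ := hUNI n X J τ F (fun j => b j) K Z hJ hτs hτ
    hR.smooth hKc (fun p hp => hp.1) hZc (fun p hp => hp.2.1) hFb (fun x hx hreg => by
      have hN : U₁ ∩ Fe F ⁻¹' Metric.ball b R₀ ∈ 𝓝 x := by
        refine Filter.inter_mem (hR.isOpen.mem_nhds hx.1)
          ((Metric.isOpen_ball.preimage hFc).mem_nhds ?_)
        show Fe F x ∈ Metric.ball b R₀
        rw [hx.2]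
        exact Metric.mem_ball_self hR.pos
      obtain ⟨N, κ, I, -, h⟩ := hLOC n X J τ F (fun j => b j) K x _ hJ hτs hτ hR.smooth hKc
        (fun p hp => hp.1) hN (hFb x hx) hreg
        (fun y hy v hv => (hR.fib y hy.1 hy.2).ker v hv)
        (fun p hp _ j => ⟨hFb _ hp.2.1 j, hp.2.2 j⟩)
      exact ⟨N, κ, I, h⟩) hcount hconn μ₀ hμ₀ hμ₀n
  obtain ⟨R₂, hR₂, hcl⟩ := hD.closed
  set c₁ := ∫ p, qq κ J p ∂μ₀ with hc₁
  have hint : ∀ {μ : Measure (TangentBundle (𝓡 (n + 2)) X)}, CC J K μ →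
      ∀ {η : Form (n + 2) X 2}, IsSmooth η → Integrable (qq η J) μ := by
    intro μ hμ η hη
    have := hμ.fin
    have hae : ∀ᵐ p ∂μ, p ∈ K := by
      have : ∀ᵐ p ∂μ, p ∉ Kᶜ := measure_eq_zero_iff_ae_notMem.1 hμ.car
      exact this.mono fun x hx => not_not.1 hx
    exact int_cont hKc hae (qq_cont hη hJ)
  have hτpos : ∀ {μ : Measure (TangentBundle (𝓡 (n + 2)) X)}, CC J K μ → μ ≠ 0 →
      0 < ∫ p, qq τ J p ∂μ := by
    intro μ hμ hne
    have := hμ.fin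
    have hae : ∀ᵐ p ∂μ, p ∈ K := by
      have : ∀ᵐ p ∂μ, p ∉ Kᶜ := measure_eq_zero_iff_ae_notMem.1 hμ.car
      exact this.mono fun x hx => not_not.1 hx
    have h1 : ∫ p, qq τ J p ∂μ = ∫ _p, (1 : ℝ) ∂μ :=
      integral_congr_ae (hae.mono fun p hp => hp.1)
    rw [h1, integral_const, smul_eq_mul, mul_one]
    have h2 : μ univ ≠ 0 := fun h => hne (Measure.measure_univ_eq_zero.1 h)
    exact ENNReal.toReal_pos h2 (measure_ne_top μ univ)
  refine ⟨min R₂ R₀, lt_min hR₂ hR.pos, fun b' hb' hg3 => ?_⟩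
  obtain ⟨ρ3, hρ3, h3⟩ := hg3
  have hb'0 : b' ∈ Metric.ball b R₀ := Metric.ball_subset_ball (min_le_right _ _) hb'
  obtain ⟨c₀, hc₀, δ3, hδ3, h3'⟩ := near_pos hJ hτs hτ hR (hζ.add (exactF_smooth hρ3)) hb'0
    (fun p hp => h3 p.proj hp.2.1 p.snd (ne_zero_of_unit hp.1) hp.2.2)
  -- the comparison with `κ`
  obtain ⟨L, hL0, ρ1, hρ1, δ1, hδ1, h1⟩ : ∃ L : ℝ, 0 < L ∧ ∃ ρ1 : Form (n + 2) X 2, ExactF ρ1 ∧
      ∃ δ1 : ℝ, 0 < δ1 ∧ ∀ x ∈ U₁, Fe F x ∈ Metric.ball b δ1 → ∀ v, Vert F x v →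
        q τ J x v ≤ q (L • κ + ρ1) J x v := by
    set L := (∫ p, qq τ J p ∂μ₀ + 1) / c₁ with hL
    have hL0 : 0 < L := by
      have h4 := hτpos hμ₀ hμ₀n
      rw [hL]
      exact div_pos (by linarith) hpos
    have hs : IsSmooth (L • κ + (-1 : ℝ) • τ) := (hD.smooth.smul L).add (hτs.smul (-1))
    have hP : HasP J (∅ : Set (Form (n + 2) X 2)) (L • κ + (-1 : ℝ) • τ) K := by
      by_contra hno
      obtain ⟨μ, hμ, hμn, hle⟩ := hcr hs hno
      obtain ⟨h4, h5⟩ := huni μ hμ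
      have h6 := h5 τ hτs
      have h7 : ∫ p, qq (L • κ + (-1 : ℝ) • τ) J p ∂μ =
          L * ∫ p, qq κ J p ∂μ - ∫ p, qq τ J p ∂μ := by
        have e1 : ∀ p, qq (L • κ + (-1 : ℝ) • τ) J p = L * qq κ J p - qq τ J p := fun p => by
          rw [qq_add, qq_smul, qq_smul]
          ring
        simp_rw [e1]
        rw [integral_sub ((hint hμ hD.smooth).const_mul L) (hint hμ hτs), integral_const_mul]
      rw [h7] at hle
      have h8 := h4 hμn
      have h9 : c₁ * (L * ∫ p, qq κ J p ∂μ) ≤ c₁ * ∫ p, qq τ J p ∂μ :=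
        mul_le_mul_of_nonneg_left (by linarith) hpos.le
      rw [h6] at h9
      have h10 : c₁ * L = ∫ p, qq τ J p ∂μ₀ + 1 := by
        rw [hL]
        field_simp
      have h11 : c₁ * (L * ∫ p, qq κ J p ∂μ) =
          (∫ p, qq τ J p ∂μ₀ + 1) * ∫ p, qq κ J p ∂μ := by
        rw [← h10]
        ring
      rw [h11] at h9
      nlinarith
    obtain ⟨ρ1, hρ1, h4⟩ := hgood hP
    obtain ⟨c', hc', δ, hδ, h5⟩ := near_pos hJ hτs hτ hR (hs.add (exactF_smooth hρ1))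
      (Metric.mem_ball_self hR.pos) h4
    refine ⟨L, hL0, ρ1, hρ1, δ, hδ, fun x hx hxb v hv => ?_⟩
    have h6 := h5 x hx hxb v hv
    have h7 : q (L • κ + (-1 : ℝ) • τ + ρ1) J x v =
        q (L • κ + ρ1) J x v - q τ J x v := by
      rw [q_add, q_add, q_add, q_smul, q_smul]
      ring
    rw [h7] at h6
    have h8 := mul_nonneg hc'.le (q_nonneg (hτ x) v)
    linarith
  refine contra T hJ0' hJ hτs hτ hR hζ hζc hD.smooth (R₁ := min R₂ R₀) (min_le_right _ _)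
    (fun c p hp hU h => hcl c p hp fun j => by
      rw [Metric.mem_ball, dist_eq_norm] at h
      exact (lt_of_le_of_lt (PiLp.norm_apply_le (Fe F _ - b) j) h).trans_le (min_le_left _ _))
    (fun δ hδ => ⟨x₁, hx₁.1, by rw [hx₁.2]; exact Metric.mem_ball_self hδ, hreg₁⟩)
    hL0 hρ1 hδ1 h1 (fun ε hε => ?_) hb' hρ3 hc₀ hδ3 h3'
  have hs : IsSmooth (ε • τ + (-1 : ℝ) • ζ) := (hτs.smul ε).add (hζ.smul (-1))
  have hP : HasP J (∅ : Set (Form (n + 2) X 2)) (ε • τ + (-1 : ℝ) • ζ) K := by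
    by_contra hno
    obtain ⟨μ, hμ, hμn, hle⟩ := hcr hs hno
    obtain ⟨h4, h5⟩ := huni μ hμ
    have h6 := h5 ζ hζ
    have h7 : ∫ p, qq (ε • τ + (-1 : ℝ) • ζ) J p ∂μ =
        ε * ∫ p, qq τ J p ∂μ - ∫ p, qq ζ J p ∂μ := by
      have e1 : ∀ p, qq (ε • τ + (-1 : ℝ) • ζ) J p = ε * qq τ J p - qq ζ J p := fun p => by
        rw [qq_add, qq_smul, qq_smul]
        ring
      simp_rw [e1]
      rw [integral_sub ((hint hμ hτs).const_mul ε) (hint hμ hζ), integral_const_mul]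
    rw [h7] at hle
    have h8 := h4 hμn
    have h9 := hτpos hμ hμn
    have h10 : ∫ p, qq ζ J p ∂μ ≤ 0 := by
      have h11 : c₁ * ∫ p, qq ζ J p ∂μ ≤ 0 := by
        rw [h6]
        exact mul_nonpos_of_nonneg_of_nonpos h8.le hμ₀ζ
      by_contra h12
      push Not at h12
      have := mul_pos hpos h12
      linarith
    have h11 := mul_pos hε h9
    linarith
  obtain ⟨ρ2, hρ2, h4⟩ := hgood hP
  obtain ⟨c', hc', δ, hδ, h5⟩ := near_pos hJ hτs hτ hR (hs.add (exactF_smooth hρ2))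
    (Metric.mem_ball_self hR.pos) h4
  refine ⟨(-1 : ℝ) • ρ2, exactF_smul _ hρ2, δ, hδ, fun x hx hxb v hv => ?_⟩
  have h6 := h5 x hx hxb v hv
  have h7 : q (ε • τ + (-1 : ℝ) • ζ + ρ2) J x v =
      ε * q τ J x v - q (ζ + (-1 : ℝ) • ρ2) J x v := by
    rw [q_add, q_add, q_add, q_smul, q_smul, q_smul]
    ring
  rw [h7] at h6
  have h8 := mul_nonneg hc'.le (q_nonneg (hτ x) v)
  linarith

/-- near a fibre with a tame neighbourhood, on which the form `ζ` is nonpositive up to exact forms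
and small errors, all fibres are bad -/
theorem near_sign [CompactSpace X] [T2Space X] (T : Tools)
    {J : End (n + 2) X} {F : Fin n → X → ℝ} {J0' : E n →ₗ[ℝ] E n} {U₁ : Set X} {b : E n}
    {R₀ : ℝ} (hJ0' : ∀ v, J0' (J0' v) = -v) (hJ : IsAlmostComplex J) {τ : Form (n + 2) X 2}
    (hτs : IsSmooth τ) (hτ : ∀ x, TamesAt τ J x) (hR : Region J F J0' U₁ b R₀)
    {ζ κ : Form (n + 2) X 2} (hζ : IsSmooth ζ) (hζc : IsClosedForm ζ) (hκ : IsSmooth κ)
    {R₁ : ℝ} (hR₁0 : 0 < R₁) (hR₁ : R₁ ≤ R₀)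
    (hκc : ∀ (c : X), ∀ p ∈ (chartAt (E (n + 2)) c).target,
      (chartAt (E (n + 2)) c).symm p ∈ U₁ →
      Fe F ((chartAt (E (n + 2)) c).symm p) ∈ Metric.ball b R₁ →
      extDeriv (pb (chartAt (E (n + 2)) c).symm κ) p = 0)
    (hreg : ∀ δ : ℝ, 0 < δ → ∃ x₁ ∈ U₁, Fe F x₁ ∈ Metric.ball b δ ∧ Reg (d := n + 2) F x₁)
    (hpos : ∀ x ∈ {x | x ∈ U₁ ∧ Fe F x = b}, ∀ v : TangentSpace (𝓡 (n + 2)) x, v ≠ 0 →
      Vert F x v → 0 < q κ J x v)
    (hsign : ∀ ε : ℝ, 0 < ε → ∃ ρ : Form (n + 2) X 2, ExactF ρ ∧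
      ∀ x ∈ {x | x ∈ U₁ ∧ Fe F x = b}, ∀ v : TangentSpace (𝓡 (n + 2)) x, Vert F x v →
        q (ζ + ρ) J x v ≤ ε * q τ J x v) :
    ∃ R : ℝ, 0 < R ∧ ∀ b' ∈ Metric.ball b R, ¬ GoodOn J F ζ {x | x ∈ U₁ ∧ Fe F x = b'} := by
  obtain ⟨c, hc, δ, hδ, h1⟩ := near_pos hJ hτs hτ hR hκ (Metric.mem_ball_self hR.pos)
    (fun p hp => hpos p.proj hp.2.1 p.snd (ne_zero_of_unit hp.1) hp.2.2)
  refine ⟨R₁, hR₁0, fun b' hb' hg3 => ?_⟩
  obtain ⟨ρ3, hρ3, h3⟩ := hg3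
  obtain ⟨c₀, hc₀, δ3, hδ3, h3'⟩ := near_pos hJ hτs hτ hR (hζ.add (exactF_smooth hρ3))
    (Metric.ball_subset_ball hR₁ hb')
    (fun p hp => h3 p.proj hp.2.1 p.snd (ne_zero_of_unit hp.1) hp.2.2)
  refine contra T hJ0' hJ hτs hτ hR hζ hζc hκ hR₁ hκc hreg (L := c⁻¹) (inv_pos.2 hc)
    exactF_zero hδ (fun x hx hxb v hv => ?_) (fun ε hε => ?_) hb' hρ3 hc₀ hδ3 h3'
  · have h4 := h1 x hx hxb v hv
    have h5 : q (c⁻¹ • κ + 0) J x v = c⁻¹ * q κ J x v := by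
      rw [q_add, q_smul]
      exact add_zero _
    rw [h5, ← div_eq_inv_mul, le_div_iff₀ hc]
    linarith
  · obtain ⟨ρ, hρ, h4⟩ := hsign (ε / 2) (by positivity)
    have hs : IsSmooth (ε • τ + (-1 : ℝ) • (ζ + ρ)) :=
      (hτs.smul ε).add ((hζ.add (exactF_smooth hρ)).smul (-1))
    obtain ⟨c', hc', δ', hδ', h5⟩ := near_pos hJ hτs hτ hR hs (Metric.mem_ball_self hR.pos)
      (fun p hp => by
        have h6 := h4 p.proj hp.2.1 p.snd hp.2.2
        have h7 : q τ J p.proj p.snd = 1 := hp.1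
        show 0 < q (ε • τ + (-1 : ℝ) • (ζ + ρ)) J p.proj p.snd
        rw [q_add, q_smul, q_smul, h7]
        rw [h7] at h6
        linarith)
    refine ⟨ρ, hρ, δ', hδ', fun x hx hxb v hv => ?_⟩
    have h6 := h5 x hx hxb v hv
    have h7 := mul_nonneg hc'.le (q_nonneg (hτ x) v)
    rw [q_add, q_smul, q_smul] at h6
    linarith

end Pool.Agent.L7h49.OG
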