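import Pool.Agent.L7h49.OF.Glob2
import Pool.Agent.L7h32.OF.Uni
import Pool.Agent.L7h76.OF.Om

/-!
# Forms which are semipositive on one irreducible fibre
-/

set_option autoImplicit false

open Set Filter Topology MeasureTheory
open scoped Manifold ContDiff

noncomputable section

namespace Pool.Agent.L7h49.OG

open Pool.Agent.Y501.SY
open Pool.Agent.N13.TL
open Pool.Agent.L7h49.TS (qq qq_cont unit_compact tb_t2 HasP WS Cr exists_cr qq_add qq_smul qq_zero
  exactF_zero exactF_add exactF_smul exactF_mem int_cont ne_zero_of_unit Flat exists_min indec)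
open Pool.Agent.R772 (ExactF)
open Pool.Agent.L7h32.OF (compare exists_bump smooth_mul qq_mul cc_ae)
open Pool.Agent.L7h76.OF (B_left B_left_smul B_swap B_right B_right_smul)

/-- closed positive currents on an irreducible fibre charge all its regular points (the proof is
part of the proof of `Pool.Agent.L7h32.OF.st_UNI`, by helper32) -/
theorem charge (hPT : S_PT) {n : ℕ} {X : Type} [TopologicalSpace X] [ChartedSpace (E (n + 2)) X]
    [IsManifold (𝓡 (n + 2)) ∞ X] [CompactSpace X] [T2Space X]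
    [MeasurableSpace (TangentBundle (𝓡 (n + 2)) X)] [BorelSpace (TangentBundle (𝓡 (n + 2)) X)]
    {J : End (n + 2) X} {τ : Form (n + 2) X 2} {F : Fin n → X → ℝ} {b : Fin n → ℝ}
    {K : Set (TangentBundle (𝓡 (n + 2)) X)} {Z : Set X} (hJ : IsAlmostComplex J)
    (hτ : IsSmooth τ) (hK : IsCompact K) (hKq : ∀ p ∈ K, qq τ J p = 1)
    (hZc : IsClosed Z) (hKZ : ∀ p ∈ K, p.proj ∈ Z) (hZb : ∀ x ∈ Z, ∀ j, F j x = b j)
    (hloc : ∀ x ∈ Z, Reg (d := n + 2) F x → ∃ (N : Set X) (κ : Form (n + 2) X 2)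
      (I : Form (n + 2) X 2 → ℝ), LocD J τ F b K x N κ I)
    (hcr : {x | x ∈ Z ∧ ¬ Reg (d := n + 2) F x}.Countable)
    (hpre : IsPreconnected {x | x ∈ Z ∧ Reg (d := n + 2) F x})
    {x₁ : X} (hx₁ : x₁ ∈ Z) (hr₁ : Reg (d := n + 2) F x₁)
    {μ : Measure (TangentBundle (𝓡 (n + 2)) X)} (hμ : CC J K μ) (hμne : μ ≠ 0)
    {u : X → ℝ} (hu : SmoothFun (d := n + 2) u) (hu0 : ∀ x, 0 ≤ u x) (hux : 0 < u x₁) :
    0 < ∫ p, u p.proj ∂μ := by
  choose! N κ I hD using hloc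
  have hpt : ∀ μ : Measure (TangentBundle (𝓡 (n + 2)) X), CC J K μ →
      ∀ x : X, μ (Bundle.TotalSpace.proj ⁻¹' {x}) = 0 := fun μ hμ x =>
    hPT (n + 2) X J τ K μ hJ hτ hK hKq hμ x
  have hvan : ∀ μ : Measure (TangentBundle (𝓡 (n + 2)) X), CC J K μ →
      (∀ x ∈ Z, Reg (d := n + 2) F x → ∫ p, qq (κ x) J p ∂μ = 0) → μ = 0 := by
    intro μ hμ h0
    have := hμ.fin
    have h1 := compare (s₀ := 1) (s := 0) hJ hK hZc hKZ hD hcr hμ hμ (hpt μ hμ) (hpt μ hμ)
      (fun x hx hr => by rw [h0 x hx hr]; ring) hτ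
    rw [one_mul, zero_mul] at h1
    have h2 : ∫ p, qq τ J p ∂μ = ∫ _p, (1 : ℝ) ∂μ := by
      apply integral_congr_ae
      filter_upwards [cc_ae hμ] with p hp
      exact hKq p hp
    rw [h2, integral_const, smul_eq_mul, mul_one] at h1
    rw [← Measure.measure_univ_eq_zero]
    have h3 := (ENNReal.toReal_eq_zero_iff _).1 h1
    exact h3.resolve_right (measure_ne_top _ _)
  let R : X → X → Prop := fun x y => ∃ a : ℝ, 0 < a ∧
    ∀ μ : Measure (TangentBundle (𝓡 (n + 2)) X), CC J K μ →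
      ∫ p, qq (κ y) J p ∂μ = a * ∫ p, qq (κ x) J p ∂μ
  have hsm : ∀ {u : X → ℝ}, SmoothFun (d := n + 2) u →
      IsSmooth (fun x => u x • τ x : Form (n + 2) X 2) := fun hu => smooth_mul hu hτ
  have hsup : ∀ {u : X → ℝ} {W : Set X}, tsupport u ⊆ W →
      SuppIn (fun x => u x • τ x : Form (n + 2) X 2) W := by
    intro u W hW
    refine ⟨tsupport u, isClosed_tsupport _, hW, ?_⟩
    intro z hz
    show u z • τ z = 0
    rw [image_eq_zero_of_notMem_tsupport hz, zero_smul]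
  have hR : ∀ x ∈ {x | x ∈ Z ∧ Reg (d := n + 2) F x}, ∀ y ∈ {x | x ∈ Z ∧ Reg (d := n + 2) F x},
      R x y := by
    intro x hx y hy
    refine hpre.induction₂ R ?_ ?_ ?_ hx hy
    · intro x hx
      have hLx := hD x hx.1 hx.2
      filter_upwards [mem_nhdsWithin_of_mem_nhds (hLx.isOpen.mem_nhds hLx.mem),
        self_mem_nhdsWithin] with y hyN hy
      have hLy := hD y hy.1 hy.2
      obtain ⟨u, hu, hu0, hut, huy⟩ := exists_bump (d := n + 2)
        (Filter.inter_mem (hLx.isOpen.mem_nhds hyN) (hLy.isOpen.mem_nhds hLy.mem))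
      have hex : ∃ z, (∀ j, F j z = b j) ∧ 0 < u z := ⟨y, hZb y hy.1, huy⟩
      have hIx := hLx.ipos u hu hu0 (hut.trans inter_subset_left) hex
      have hIy := hLy.ipos u hu hu0 (hut.trans inter_subset_right) hex
      refine ⟨I x (fun x => u x • τ x) / I y (fun x => u x • τ x), div_pos hIx hIy, ?_⟩
      intro μ hμ
      have h1 := hLx.formula μ hμ _ (hsm hu) (hsup (hut.trans inter_subset_left))
      have h2 := hLy.formula μ hμ _ (hsm hu) (hsup (hut.trans inter_subset_right))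
      rw [h1] at h2
      rw [div_mul_eq_mul_div, eq_div_iff hIy.ne', mul_comm, ← h2]
    · rintro x y z - - - ⟨a, ha, h1⟩ ⟨a', ha', h2⟩
      refine ⟨a' * a, mul_pos ha' ha, fun μ hμ => ?_⟩
      rw [h2 μ hμ, h1 μ hμ]
      ring
    · rintro x y - - ⟨a, ha, h1⟩
      refine ⟨a⁻¹, inv_pos.2 ha, fun μ hμ => ?_⟩
      rw [h1 μ hμ, inv_mul_cancel_left₀ ha.ne']
  have hL := hD x₁ hx₁ hr₁
  have := hμ.fin
  have hne0 : ∫ p, qq (κ x₁) J p ∂μ ≠ 0 := by
    intro h0
    apply hμne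
    apply hvan μ hμ
    intro x hx hr
    obtain ⟨a, -, ha⟩ := hR x₁ ⟨hx₁, hr₁⟩ x ⟨hx, hr⟩
    rw [ha μ hμ, h0, mul_zero]
  obtain ⟨g, hg, hg0, hgt, hgx⟩ := exists_bump (d := n + 2) (hL.isOpen.mem_nhds hL.mem)
  -- the function `u g`
  have hug : SmoothFun (d := n + 2) (fun x => u x * g x) := ContMDiff.mul hu hg
  have hugt : tsupport (fun x => u x * g x) ⊆ N x₁ := (tsupport_mul_subset_right).trans hgt
  have hI := hL.ipos _ hug (fun x => mul_nonneg (hu0 x) (hg0 x)) hugt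
    ⟨x₁, hZb x₁ hx₁, mul_pos hux hgx⟩
  have hf := hL.formula μ hμ _ (hsm hug) (hsup hugt)
  have e1 : ∫ p, qq (fun x => (u x * g x) • τ x : Form (n + 2) X 2) J p ∂μ =
      ∫ p, u p.proj * g p.proj ∂μ := by
    apply integral_congr_ae
    filter_upwards [cc_ae hμ] with p hp
    show (u p.proj * g p.proj) * qq τ J p = _
    rw [hKq p hp, mul_one]
  rw [e1] at hf
  have hpr : Continuous (Bundle.TotalSpace.proj : TangentBundle (𝓡 (n + 2)) X → X) :=
    FiberBundle.continuous_proj (E (n + 2)) (TangentSpace (𝓡 (n + 2)))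
  have huc : Continuous (fun p : TangentBundle (𝓡 (n + 2)) X => u p.proj) :=
    hu.continuous.comp hpr
  have hgc : Continuous (fun p : TangentBundle (𝓡 (n + 2)) X => g p.proj) :=
    hg.continuous.comp hpr
  have h1 : 0 < ∫ p, u p.proj * g p.proj ∂μ := by
    refine lt_of_le_of_ne (integral_nonneg fun p => mul_nonneg (hu0 _) (hg0 _)) fun h2 => ?_
    rw [← h2] at hf
    rcases mul_eq_zero.1 hf.symm with h3 | h3
    · exact hI.ne' h3
    · exact hne0 h3
  -- `g` is bounded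
  obtain ⟨C, hC⟩ := (isCompact_univ (X := X)).exists_bound_of_continuousOn hg.continuous.continuousOn
  have hC1 : ∀ x, g x ≤ |C| := fun x => (le_abs_self _).trans ((hC x (mem_univ x)).trans
    (le_abs_self _))
  have h2 : ∫ p, u p.proj * g p.proj ∂μ ≤ ∫ p, u p.proj * |C| ∂μ := by
    refine integral_mono (int_cont hK (cc_ae hμ) (huc.mul hgc))
      (int_cont hK (cc_ae hμ) (huc.mul continuous_const)) fun p => ?_
    exact mul_le_mul_of_nonneg_left (hC1 _) (hu0 _)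
  rw [integral_mul_const] at h2
  have h3 : 0 < (∫ p, u p.proj ∂μ) * |C| := lt_of_lt_of_le h1 h2
  exact pos_of_mul_pos_left h3 (abs_nonneg C)

section

variable {n : ℕ} {X : Type} [TopologicalSpace X] [ChartedSpace (E (n + 2)) X]

/-- the vertical vectors at a regular point form a complex line -/
theorem vert_line {J : End (n + 2) X} (hJ : IsAlmostComplex J) {F : Fin n → X → ℝ} {x : X}
    (hreg : Reg (d := n + 2) F x)
    (hker : ∀ v : TangentSpace (𝓡 (n + 2)) x, Vert F x v → Vert F x (J x v))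
    {v₀ v : TangentSpace (𝓡 (n + 2)) x} (hv₀ : v₀ ≠ 0) (h₀ : Vert F x v₀) (h : Vert F x v) :
    ∃ a c : ℝ, v = a • v₀ + c • J x v₀ := by
  let Dj : Fin n → (E (n + 2) →L[ℝ] ℝ) := fun j => dd (d := n + 2) (F j) x
  let L : E (n + 2) →ₗ[ℝ] (Fin n → ℝ) :=
    LinearMap.pi fun j => (Dj j : E (n + 2) →ₗ[ℝ] ℝ)
  have hL : ∀ v : E (n + 2), L v = 0 ↔ Vert F x v := by
    intro v
    constructor
    · intro h1 j
      exact congrFun h1 j
    · intro h1
      funext j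
      exact h1 j
  have hsurj : LinearMap.range L = ⊤ := by
    rw [LinearMap.range_eq_top]
    intro w
    obtain ⟨v, hv⟩ := hreg w
    exact ⟨v, funext hv⟩
  have hdim : Module.finrank ℝ (LinearMap.ker L) = 2 := by
    have h1 := L.finrank_range_add_finrank_ker
    rw [hsurj, finrank_top] at h1
    simp at h1
    omega
  -- `v₀`, `J v₀` is a basis of the kernel
  let v₀' : E (n + 2) := v₀
  let Jv₀ : E (n + 2) := J x v₀
  have hv₀' : v₀' ∈ LinearMap.ker L := (hL _).2 h₀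
  have hJv₀ : Jv₀ ∈ LinearMap.ker L := (hL _).2 (hker v₀ h₀)
  have hli : LinearIndependent ℝ ![(⟨v₀', hv₀'⟩ : LinearMap.ker L), ⟨Jv₀, hJv₀⟩] := by
    rw [LinearIndependent.pair_iff]
    intro s t hst
    have h1 : s • v₀' + t • Jv₀ = 0 := congrArg Subtype.val hst
    have h2 : s • v₀ + t • J x v₀ = 0 := h1
    have h3 : s • J x v₀ + t • (-v₀) = 0 := by
      have h4 := congrArg (J x) h2
      rw [map_add, map_smul, map_smul, map_zero, hJ.sq] at h4
      exact h4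
    have h5 : (s ^ 2 + t ^ 2) • v₀ = 0 := by
      have h6 : (s ^ 2 + t ^ 2) • v₀ = s • (s • v₀ + t • J x v₀) - t • (s • J x v₀ + t • (-v₀)) := by
        module
      rw [h6, h2, h3, smul_zero, smul_zero, sub_zero]
    have h6 : s ^ 2 + t ^ 2 = 0 := (smul_eq_zero.1 h5).resolve_right hv₀
    constructor
    · nlinarith [sq_nonneg s, sq_nonneg t]
    · nlinarith [sq_nonneg s, sq_nonneg t]
  let B := basisOfLinearIndependentOfCardEqFinrank hli (by rw [hdim]; rfl)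
  have hv' : (v : E (n + 2)) ∈ LinearMap.ker L := (hL _).2 h
  have h7 := B.sum_repr ⟨v, hv'⟩
  rw [Fin.sum_univ_two] at h7
  have hB0 : B 0 = ⟨v₀', hv₀'⟩ := by
    simp [B]
  have hB1 : B 1 = ⟨Jv₀, hJv₀⟩ := by
    simp [B]
  rw [hB0, hB1] at h7
  exact ⟨_, _, (congrArg Subtype.val h7).symm⟩

theorem q_line {J : End (n + 2) X} (hJ : IsAlmostComplex J) (η : Form (n + 2) X 2) {x : X}
    (v : TangentSpace (𝓡 (n + 2)) x) (a c : ℝ) :
    q η J x (a • v + c • J x v) = (a ^ 2 + c ^ 2) * q η J x v := by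
  have h1 : J x (a • v + c • J x v) = a • J x v + c • (-v) := by
    rw [map_add, map_smul, map_smul, hJ.sq]
  show η x ![a • v + c • J x v, J x (a • v + c • J x v)] = (a ^ 2 + c ^ 2) * η x ![v, J x v]
  rw [h1]
  have key : ∀ (B : (E (n + 2)) [⋀^Fin 2]→L[ℝ] ℝ) (v u : E (n + 2)),
      B ![a • v + c • u, a • u + c • (-v)] = (a ^ 2 + c ^ 2) * B ![v, u] := by
    intro B v u
    have h2 : B ![v, v] = 0 := by
      have := B_swap B v v
      linarith
    have h3 : B ![u, u] = 0 := by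
      have := B_swap B u u
      linarith
    have h4 : -v = (-1 : ℝ) • v := by simp
    rw [B_left, B_right, B_right, B_left_smul, B_left_smul, B_left_smul, B_left_smul,
      B_right_smul, B_right_smul, B_right_smul, B_right_smul, h4, B_right_smul, B_right_smul,
      h2, h3, B_swap B v u]
    ring
  exact key (η x) v (J x v)

/-- a form which is nonnegative on the vertical vectors over an irreducible fibre, and positive on
one vertical vector at a regular point -/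
theorem semi_hasP [IsManifold (𝓡 (n + 2)) ∞ X] [CompactSpace X] [T2Space X]
    [MeasurableSpace (TangentBundle (𝓡 (n + 2)) X)] [BorelSpace (TangentBundle (𝓡 (n + 2)) X)]
    (hLOC : S_LOC) (hPT : S_PT) {J : End (n + 2) X} {F : Fin n → X → ℝ}
    {J0' : E n →ₗ[ℝ] E n} {U₁ : Set X} {b : E n} {R₀ : ℝ} (hJ : IsAlmostComplex J)
    {τ : Form (n + 2) X 2} (hτs : IsSmooth τ) (hτ : ∀ x, TamesAt τ J x)
    (hR : Region J F J0' U₁ b R₀) {η : Form (n + 2) X 2} (hη : IsSmooth η)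
    (hcount : {x | (x ∈ U₁ ∧ Fe F x = b) ∧ ¬ Reg (d := n + 2) F x}.Countable)
    (hconn : IsPreconnected {x | (x ∈ U₁ ∧ Fe F x = b) ∧ Reg (d := n + 2) F x})
    (hnn : ∀ x ∈ U₁, Fe F x = b → ∀ v : TangentSpace (𝓡 (n + 2)) x, Vert F x v →
      0 ≤ q η J x v) {x₀ : X} (hx₀ : x₀ ∈ U₁) (hx₀b : Fe F x₀ = b)
    (hreg : Reg (d := n + 2) F x₀) {v₀ : TangentSpace (𝓡 (n + 2)) x₀} (hv₀ : Vert F x₀ v₀)
    (hpos : 0 < q η J x₀ v₀) :
    HasP J (∅ : Set (Form (n + 2) X 2)) η (KV J τ F {x | x ∈ U₁ ∧ Fe F x = b}) := by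
  set Z := {x | x ∈ U₁ ∧ Fe F x = b} with hZ
  have hFc : Continuous (Fe F) := (Fe_smooth hR.smooth).continuous
  have hZc : IsClosed Z := by
    have h1 : Z = {x | x ∈ U₁ ∧ Fe F x ∈ Metric.closedBall b R₀} ∩ Fe F ⁻¹' {b} := by
      ext x
      constructor
      · rintro ⟨h2, h3⟩
        refine ⟨⟨h2, ?_⟩, h3⟩
        rw [h3]
        exact Metric.mem_closedBall_self hR.pos.le
      · rintro ⟨h2, h3⟩
        exact ⟨h2.1, h3⟩
    rw [h1]
    exact hR.closed.inter (isClosed_singleton.preimage hFc)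
  set K := KV J τ F Z with hK
  have hKc : IsCompact K := KV_compact hJ hτs hτ hR.smooth hZc
  have hFb : ∀ x ∈ Z, ∀ j, F j x = b j := fun x hx j => by
    have h1 := hx.2
    exact congrArg (fun z : E n => z j) h1
  have hηc := qq_cont hη hJ
  have hpr : Continuous (Bundle.TotalSpace.proj : TangentBundle (𝓡 (n + 2)) X → X) :=
    FiberBundle.continuous_proj (E (n + 2)) (TangentSpace (𝓡 (n + 2)))
  by_contra hno
  obtain ⟨μ, hμ⟩ := exists_cr hJ (fun σ hσ => absurd hσ (notMem_empty σ)) hη hKc hno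
  have hμc : CC J K μ := ⟨hμ.fin, hμ.car, fun ρ hρ => hμ.orth ρ (exactF_mem hρ)⟩
  have := hμ.fin
  have hv₀0 : v₀ ≠ 0 := by
    rintro rfl
    rw [q_zero] at hpos
    exact lt_irrefl _ hpos
  have hx₀N : U₁ ∩ Fe F ⁻¹' Metric.ball b R₀ ∈ 𝓝 x₀ := by
    refine Filter.inter_mem (hR.isOpen.mem_nhds hx₀)
      ((Metric.isOpen_ball.preimage hFc).mem_nhds ?_)
    show Fe F x₀ ∈ Metric.ball b R₀
    rw [hx₀b]
    exact Metric.mem_ball_self hR.pos
  -- positivity over `x₀`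
  have hx₀p : ∀ p ∈ K, p.proj = x₀ → 0 < qq η J p := by
    rintro ⟨x, v⟩ ⟨hp1, hp2, hp3⟩ hpx
    have hpx' : x = x₀ := hpx
    subst hpx'
    have hvv : Vert F x v := hp3
    have hv0 : v ≠ 0 := ne_zero_of_unit hp1
    obtain ⟨a, c, hac⟩ := vert_line hJ hreg
      (fun u hu => (hR.fib x hx₀ (mem_of_mem_nhds hx₀N).2).ker u hu) hv₀0 hv₀ hvv
    show 0 < q η J x v
    rw [hac, q_line hJ]
    refine mul_pos ?_ hpos
    by_contra h1
    push Not at h1
    have ha : a = 0 := by nlinarith [sq_nonneg a, sq_nonneg c]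
    have hc : c = 0 := by nlinarith [sq_nonneg a, sq_nonneg c]
    apply hv0
    rw [hac, ha, hc, zero_smul, zero_smul, add_zero]
  obtain ⟨c₀, hc₀, hc⟩ : ∃ c₀ : ℝ, 0 < c₀ ∧ ∀ p ∈ K, p.proj = x₀ → c₀ < qq η J p := by
    rcases (K ∩ {p | p.proj = x₀}).eq_empty_or_nonempty with he | hne
    · refine ⟨1, one_pos, fun p hp hpx => ?_⟩
      have h2 : p ∈ K ∩ {p | p.proj = x₀} := ⟨hp, hpx⟩
      rw [he] at h2
      exact absurd h2 (notMem_empty p)
    · obtain ⟨p₀, hp₀, hmin⟩ := (hKc.inter_right (isClosed_eq hpr continuous_const)).exists_isMinOn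
        hne hηc.continuousOn
      have h1 := hx₀p p₀ hp₀.1 hp₀.2
      exact ⟨qq η J p₀ / 2, by positivity, fun p hp hpx => by
        have h2 : qq η J p₀ ≤ qq η J p := hmin ⟨hp, hpx⟩
        linarith⟩
  have hB : IsCompact (K ∩ {p | qq η J p ≤ c₀}) :=
    hKc.inter_right (isClosed_le hηc continuous_const)
  have hI := (hB.image hpr).isClosed
  have hx₀I : x₀ ∉ Bundle.TotalSpace.proj '' (K ∩ {p | qq η J p ≤ c₀}) := by
    rintro ⟨p, ⟨hp1, hp2⟩, hp3⟩
    exact absurd hp2 (not_le.2 (hc p hp1 hp3))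
  obtain ⟨u, hu, hu0, hut, hux⟩ := exists_bump (d := n + 2) (hI.isOpen_compl.mem_nhds hx₀I)
  have hch : 0 < ∫ p, u p.proj ∂μ := charge hPT hJ hτs hKc (fun p hp => hp.1) hZc
    (fun p hp => hp.2.1) hFb (fun x hx hreg => by
      have hN : U₁ ∩ Fe F ⁻¹' Metric.ball b R₀ ∈ 𝓝 x := by
        refine Filter.inter_mem (hR.isOpen.mem_nhds hx.1)
          ((Metric.isOpen_ball.preimage hFc).mem_nhds ?_)
        show Fe F x ∈ Metric.ball b R₀
        rw [hx.2]
        exact Metric.mem_ball_self hR.pos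
      obtain ⟨N, κ, I, -, h⟩ := hLOC n X J τ F (fun j => b j) K x _ hJ hτs hτ hR.smooth hKc
        (fun p hp => hp.1) hN (hFb x hx) hreg
        (fun y hy v hv => (hR.fib y hy.1 hy.2).ker v hv)
        (fun p hp _ j => ⟨hFb _ hp.2.1 j, hp.2.2 j⟩)
      exact ⟨N, κ, I, h⟩) hcount hconn ⟨hx₀, hx₀b⟩ hreg hμc hμ.ne hu hu0 hux
  obtain ⟨C, hC⟩ := (isCompact_univ (X := X)).exists_bound_of_continuousOn
    hu.continuous.continuousOn
  have hC1 : ∀ x, u x ≤ |C| + 1 := fun x => by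
    have h1 := (le_abs_self _).trans ((hC x (mem_univ x)).trans (le_abs_self _))
    linarith
  have hCp : 0 < |C| + 1 := by positivity
  have hle : ∀ p ∈ K, c₀ / (|C| + 1) * u p.proj ≤ qq η J p := by
    intro p hp
    have h0 : 0 ≤ qq η J p := hnn p.proj hp.2.1.1 hp.2.1.2 p.snd hp.2.2
    by_cases hpu : u p.proj = 0
    · rw [hpu, mul_zero]
      exact h0
    · have h1 : p.proj ∉ Bundle.TotalSpace.proj '' (K ∩ {p | qq η J p ≤ c₀}) :=
        hut (subset_tsupport _ hpu)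
      have h2 : c₀ < qq η J p := by
        by_contra h3
        exact h1 ⟨p, ⟨hp, not_lt.1 h3⟩, rfl⟩
      calc c₀ / (|C| + 1) * u p.proj ≤ c₀ / (|C| + 1) * (|C| + 1) :=
            mul_le_mul_of_nonneg_left (hC1 _) (by positivity)
        _ = c₀ := by field_simp
        _ ≤ qq η J p := h2.le
  have huc : Continuous (fun p : TangentBundle (𝓡 (n + 2)) X => u p.proj) :=
    hu.continuous.comp hpr
  have h1 : ∫ p, c₀ / (|C| + 1) * u p.proj ∂μ ≤ ∫ p, qq η J p ∂μ := by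
    refine integral_mono_ae (int_cont hKc hμ.ae (continuous_const.mul huc))
      (int_cont hKc hμ.ae hηc) (hμ.ae.mono fun p hp => hle p hp)
  rw [integral_const_mul] at h1
  have h2 : 0 < c₀ / (|C| + 1) * ∫ p, u p.proj ∂μ := mul_pos (by positivity) hch
  have h3 := hμ.le
  linarith

end

section

variable {n : ℕ} {X N : Type} [TopologicalSpace X] [ChartedSpace (E (n + 2)) X]
  [TopologicalSpace N] [ChartedSpace (E n) N] [IsManifold (𝓡 (n + 2)) ∞ X]
  [IsManifold (𝓡 n) ∞ N]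

/-- semipositivity on one irreducible fibre suffices -/
theorem semi_good [CompactSpace X] [T2Space X] [T2Space N] (hLOC : S_LOC) (hPT : S_PT)
    {J : End (n + 2) X} {f : X → N} {w : Form n N 2} {τ : Form (n + 2) X 2}
    (hJ : IsAlmostComplex J) (hτs : IsSmooth τ) (hτ : ∀ x, TamesAt τ J x) (h : SympFib J f w)
    {ζ : Form (n + 2) X 2} (hζ : IsSmooth ζ) {y₀ : N} (hirr : IrrF (n := n) f y₀)
    {ρ : Form (n + 2) X 2} (hρ : ExactF ρ)
    (hnn : ∀ x, f x = y₀ → ∀ v : TangentSpace (𝓡 (n + 2)) x,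
      mfderiv (𝓡 (n + 2)) (𝓡 n) f x v = 0 → 0 ≤ q (ζ + ρ) J x v)
    {x₀ : X} (hx₀ : f x₀ = y₀) (hs₀ : Function.Surjective (mfderiv (𝓡 (n + 2)) (𝓡 n) f x₀))
    {v₀ : TangentSpace (𝓡 (n + 2)) x₀} (hv₀ : mfderiv (𝓡 (n + 2)) (𝓡 n) f x₀ v₀ = 0)
    (hpos : 0 < q (ζ + ρ) J x₀ v₀) : GoodF J f ζ y₀ := by
  let _ : MeasurableSpace (TangentBundle (𝓡 (n + 2)) X) := borel _
  have _ : BorelSpace (TangentBundle (𝓡 (n + 2)) X) := ⟨rfl⟩
  obtain ⟨I₀, hI₀, hI₀w⟩ := base_struct hJ h hx₀ hs₀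
  obtain ⟨F, J0', B₁, R₀, hJ0', hB₁o, hy₀, hB₁s, hR, hFe, hvert, hregi⟩ :=
    local_region hJ h y₀ hI₀ hI₀w
  set φ := chartAt (E n) y₀ with hφ
  have key : ∀ x, (x ∈ f ⁻¹' B₁ ∧ Fe F x = φ y₀) ↔ f x = y₀ := by
    intro x
    constructor
    · rintro ⟨h1, h2⟩
      rw [hFe x h1] at h2
      exact φ.injOn (hB₁s h1) (hB₁s hy₀) h2
    · intro hx
      have h1 : f x ∈ B₁ := by
        rw [hx]
        exact hy₀
      exact ⟨h1, by rw [hFe x h1, hx]⟩
  have hx₀' := (key x₀).2 hx₀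
  obtain ⟨ρ', hρ', h1⟩ := semi_hasP hLOC hPT hJ hτs hτ hR (hζ.add (exactF_smooth hρ)) (by
      refine hirr.count.mono ?_
      rintro x ⟨hx, hxr⟩
      exact ⟨(key x).1 hx, fun h1 => hxr ((hregi x hx.1).2 h1)⟩) (by
      have h1 : {x | (x ∈ f ⁻¹' B₁ ∧ Fe F x = φ y₀) ∧ Reg (d := n + 2) F x} =
          {x | f x = y₀ ∧ Function.Surjective (mfderiv (𝓡 (n + 2)) (𝓡 n) f x)} := by
        ext x
        constructor
        · rintro ⟨hx, hxr⟩
          exact ⟨(key x).1 hx, (hregi x hx.1).1 hxr⟩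
        · rintro ⟨hx, hxr⟩
          have hx' := (key x).2 hx
          exact ⟨hx', (hregi x hx'.1).2 hxr⟩
      rw [h1]
      exact hirr.conn) (fun x hx hxb v hv => hnn x ((key x).1 ⟨hx, hxb⟩) v ((hvert x hx v).1 hv))
    hx₀'.1 hx₀'.2 ((hregi x₀ hx₀'.1).2 hs₀) ((hvert x₀ hx₀'.1 v₀).2 hv₀) hpos
  refine ⟨ρ + ρ', exactF_add hρ (ws_exact hρ'), fun x hx v hv hvv => ?_⟩
  have h2 : q (ζ + (ρ + ρ')) J x v = q (ζ + ρ + ρ') J x v := by
    rw [q_add, q_add, q_add, q_add]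
    ring
  rw [h2]
  refine good_of_unit (S := {x | f x = y₀}) hτ (fun p hp hpx => ?_) hx v hv hvv
  have hpx' := (key p.proj).2 hpx
  exact h1 p ⟨hp.1, hpx', (hvert p.proj hpx'.1 p.snd).2 hp.2⟩

end

end Pool.Agent.L7h49.OG
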