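import Pool.Agent.L7h49.OF.Near
import Pool.Agent.L7h49.OF.Glob2
import Pool.Agent.L7h32.OF.Uni
import Pool.Agent.L7h76.OF.Om

/-!
# Maps with a base locus: coordinates near a proper fibre
-/

set_option autoImplicit false

open Set Filter Topology MeasureTheory
open scoped Manifold ContDiff

noncomputable section

namespace Pool.Agent.L7h49.OG

open Pool.Agent.Y501.SY
open Pool.Agent.N13.TL
open Pool.Agent.Y455.SY (A B AB BA A_surj Q_eq)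
open Pool.Agent.L7h49.TS (qq qq_cont unit_compact tb_t2 HasP WS Cr exists_cr qq_add qq_smul qq_zero
  exactF_zero exactF_add exactF_smul exactF_mem int_cont ne_zero_of_unit Flat exists_min indec
  A_kap kap full_support)
open Pool.Agent.R772 (ExactF)

variable {n : ℕ} {X N : Type} [TopologicalSpace X] [ChartedSpace (E (n + 2)) X]
  [TopologicalSpace N] [ChartedSpace (E n) N]

/-- a map `f` off the base locus `K₀`, with a closed semipositive form `s` -/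
structure Sys (J : End (n + 2) X) (K₀ : Set X) (s : Form (n + 2) X 2) (f : X → N)
    (w : Form n N 2) : Prop where
  closed : IsClosed K₀
  smooth : ContMDiffOn (𝓡 (n + 2)) (𝓡 n) ∞ f K₀ᶜ
  wsmooth : IsSmooth w
  tame : ∀ x ∉ K₀, ∀ v : TangentSpace (𝓡 (n + 2)) x, mfderiv (𝓡 (n + 2)) (𝓡 n) f x v ≠ 0 →
    0 < w (f x) ![mfderiv (𝓡 (n + 2)) (𝓡 n) f x v, mfderiv (𝓡 (n + 2)) (𝓡 n) f x (J x v)]
  ssmooth : IsSmooth s
  nonneg : ∀ (x : X) (v : TangentSpace (𝓡 (n + 2)) x), 0 ≤ q s J x v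
  pos : ∀ x ∈ K₀, ∀ v : TangentSpace (𝓡 (n + 2)) x, v ≠ 0 → 0 < q s J x v
  null : ∀ x ∉ K₀, ∀ v : TangentSpace (𝓡 (n + 2)) x, q s J x v = 0 →
    mfderiv (𝓡 (n + 2)) (𝓡 n) f x v = 0

theorem Sys.ker {J : End (n + 2) X} (hJ : IsAlmostComplex J) {K₀ : Set X}
    {s : Form (n + 2) X 2} {f : X → N} {w : Form n N 2}
    (h : Sys J K₀ s f w) {x : X} (hx : x ∉ K₀) {v : TangentSpace (𝓡 (n + 2)) x}
    (hv : mfderiv (𝓡 (n + 2)) (𝓡 n) f x v = 0) :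
    mfderiv (𝓡 (n + 2)) (𝓡 n) f x (J x v) = 0 := by
  by_contra h0
  have h1 := h.tame x hx (J x v) h0
  rw [hJ.sq, map_neg, hv, neg_zero] at h1
  have h2 := (w (f x)).map_coord_zero (m := ![mfderiv (𝓡 (n + 2)) (𝓡 n) f x (J x v), 0]) 1 rfl
  rw [h2] at h1
  exact lt_irrefl _ h1

/-- the fibre over `y` is proper: the nearby fibres stay away from the base locus, and `s` vanishes
on their vertical vectors -/
def ProperY (J : End (n + 2) X) (K₀ : Set X) (s : Form (n + 2) X 2) (f : X → N) (y : N) : Prop :=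
  ∃ V ∈ 𝓝 y, Disjoint (closure (f ⁻¹' V ∩ K₀ᶜ)) K₀ ∧ ∀ x ∉ K₀, f x ∈ V →
    ∀ v : TangentSpace (𝓡 (n + 2)) x, mfderiv (𝓡 (n + 2)) (𝓡 n) f x v = 0 → q s J x v = 0

/-- positivity of a form on the null vectors over `y`, up to exact forms -/
def GoodN (J : End (n + 2) X) (K₀ : Set X) (s : Form (n + 2) X 2) (f : X → N)
    (ζ : Form (n + 2) X 2) (y : N) : Prop :=
  ∃ ρ : Form (n + 2) X 2, ExactF ρ ∧ ∀ x ∉ K₀, f x = y → ∀ v : TangentSpace (𝓡 (n + 2)) x,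
    v ≠ 0 → q s J x v = 0 → 0 < q (ζ + ρ) J x v

/-- irreducible fibres -/
structure IrrN (K₀ : Set X) (f : X → N) (y : N) : Prop where
  count : {x | (x ∉ K₀ ∧ f x = y) ∧
    ¬ Function.Surjective (mfderiv (𝓡 (n + 2)) (𝓡 n) f x)}.Countable
  conn : IsPreconnected {x | (x ∉ K₀ ∧ f x = y) ∧
    Function.Surjective (mfderiv (𝓡 (n + 2)) (𝓡 n) f x)}

/-- the fibre over `y` has a tame neighbourhood -/
structure TameN (J : End (n + 2) X) (K₀ : Set X) (f : X → N) (w : Form n N 2) (y : N) :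
    Prop where
  base : ∃ I₀ : E n →ₗ[ℝ] E n, (∀ v, I₀ (I₀ v) = -v) ∧ ∀ u : E n, u ≠ 0 → 0 < w y ![u, I₀ u]
  reg : ∀ V ∈ 𝓝 y, ∃ x ∉ K₀, f x ∈ V ∧ Function.Surjective (mfderiv (𝓡 (n + 2)) (𝓡 n) f x)
  form : ∃ κ : Form (n + 2) X 2, IsSmooth κ ∧ (∃ V ∈ 𝓝 y, ClosedOn κ (f ⁻¹' V ∩ K₀ᶜ)) ∧
    ∀ x ∉ K₀, f x = y → ∀ v : TangentSpace (𝓡 (n + 2)) x, v ≠ 0 →
      mfderiv (𝓡 (n + 2)) (𝓡 n) f x v = 0 → 0 < q κ J x v

/-- `ζ` is nonpositive on the null vectors over `y` up to exact forms and small errors -/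
def NonposN (J : End (n + 2) X) (τ : Form (n + 2) X 2) (K₀ : Set X) (s : Form (n + 2) X 2)
    (f : X → N) (ζ : Form (n + 2) X 2) (y : N) : Prop :=
  ∀ ε : ℝ, 0 < ε → ∃ ρ : Form (n + 2) X 2, ExactF ρ ∧ ∀ x ∉ K₀, f x = y →
    ∀ v : TangentSpace (𝓡 (n + 2)) x, q s J x v = 0 → q (ζ + ρ) J x v ≤ ε * q τ J x v

/-- the complex structure induced on the base by a regular point -/
theorem base_structN {J : End (n + 2) X}
    (hJ : IsAlmostComplex J) {K₀ : Set X} {s : Form (n + 2) X 2} {f : X → N} {w : Form n N 2}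
    (h : Sys J K₀ s f w) {y₀ : N} {x₀ : X} (hx : x₀ ∉ K₀) (hx₀ : f x₀ = y₀)
    (hreg : Function.Surjective (mfderiv (𝓡 (n + 2)) (𝓡 n) f x₀)) :
    ∃ I₀ : E n →ₗ[ℝ] E n, (∀ v, I₀ (I₀ v) = -v) ∧ ∀ u : E n, u ≠ 0 → 0 < w y₀ ![u, I₀ u] := by
  subst hx₀
  let Df : E (n + 2) →L[ℝ] E n := mfderiv (𝓡 (n + 2)) (𝓡 n) f x₀
  let Jx : E (n + 2) →L[ℝ] E (n + 2) := J x₀
  obtain ⟨I₀, h1, h2⟩ := quot_structure (Df : E (n + 2) →ₗ[ℝ] E n)
    (Jx : E (n + 2) →ₗ[ℝ] E (n + 2)) (hJ.sq x₀) hreg (fun v hv => h.ker hJ hx hv)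
  refine ⟨I₀, h1, fun u hu => ?_⟩
  obtain ⟨v, hv⟩ := hreg u
  have hv' : Df v = u := hv
  have h3 : I₀ u = Df (Jx v) := by
    rw [← hv']
    exact (h2 v).symm
  rw [h3, ← hv']
  refine h.tame x₀ hx v fun h4 => hu ?_
  rw [← hv']
  exact h4

variable [IsManifold (𝓡 (n + 2)) ∞ X] [IsManifold (𝓡 n) ∞ N]

/-- coordinates near the proper fibre over `y₀` -/
theorem local_regionN [CompactSpace X] [T2Space X] [T2Space N] {J : End (n + 2) X}
    (hJ : IsAlmostComplex J) {K₀ : Set X} {s : Form (n + 2) X 2} {f : X → N} {w : Form n N 2}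
    (h : Sys J K₀ s f w) {y₀ : N} (hprop : ProperY J K₀ s f y₀) {I₀ : E n →ₗ[ℝ] E n} (hI₀ : ∀ v, I₀ (I₀ v) = -v)
    (hI₀w : ∀ u : E n, u ≠ 0 → 0 < w y₀ ![u, I₀ u]) :
    ∃ (F : Fin n → X → ℝ) (J0' : E n →ₗ[ℝ] E n) (B₁ : Set N) (R₀ : ℝ),
      (∀ v, J0' (J0' v) = -v) ∧ IsOpen B₁ ∧ y₀ ∈ B₁ ∧ B₁ ⊆ (chartAt (E n) y₀).source ∧
      Region J F J0' (f ⁻¹' B₁ ∩ K₀ᶜ) (chartAt (E n) y₀ y₀) R₀ ∧
      (∀ x ∉ K₀, f x ∈ B₁ → Fe F x = chartAt (E n) y₀ (f x)) ∧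
      (∀ x ∉ K₀, f x ∈ B₁ → ∀ v, Vert F x v ↔ mfderiv (𝓡 (n + 2)) (𝓡 n) f x v = 0) ∧
      (∀ x ∉ K₀, f x ∈ B₁ → (Reg (d := n + 2) F x ↔
        Function.Surjective (mfderiv (𝓡 (n + 2)) (𝓡 n) f x))) ∧
      ∀ x ∉ K₀, f x ∈ B₁ → ∀ v : TangentSpace (𝓡 (n + 2)) x,
        (mfderiv (𝓡 (n + 2)) (𝓡 n) f x v = 0 ↔ q s J x v = 0) := by
  classical
  obtain ⟨V, hV, hVd, hVs⟩ := hprop
  have hK₀o : IsOpen K₀ᶜ := h.closed.isOpen_compl
  have hfat : ∀ x ∉ K₀, ContMDiffAt (𝓡 (n + 2)) (𝓡 n) ∞ f x := fun x hx =>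
    h.smooth.contMDiffAt (hK₀o.mem_nhds hx)
  set φ := chartAt (E n) y₀ with hφ
  have hsrc : y₀ ∈ φ.source := mem_chart_source (E n) y₀
  -- the cut off coordinates
  obtain ⟨β, -, hβV⟩ := (SmoothBumpFunction.nhds_basis_support (I := 𝓡 n) hV).mem_iff.1 hV
  obtain ⟨B₁, hB₁1, hB₁o, hB₁m⟩ : ∃ B₁ ⊆ {y | β y = 1}, IsOpen B₁ ∧ y₀ ∈ B₁ := by
    have h1 : ∀ᶠ y in 𝓝 y₀, β y = 1 := β.eventuallyEq_one
    exact mem_nhds_iff.1 h1
  have hB₁s : B₁ ⊆ φ.source := by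
    intro y hy
    have h1 : β y ≠ 0 := by
      rw [hB₁1 hy]
      exact one_ne_zero
    exact β.support_subset_source h1
  let θ : Fin n → N → ℝ := fun j y => β y • (φ y j)
  have hθ : ∀ j, ContMDiff (𝓡 n) 𝓘(ℝ, ℝ) ∞ (θ j) := by
    intro j
    refine β.contMDiff_smul (G := ℝ) ?_
    have h1 : ContMDiffOn (𝓡 n) (𝓡 n) ∞ φ φ.source := contMDiffOn_chart
    have h2 : ContMDiff 𝓘(ℝ, E n) 𝓘(ℝ, ℝ) ∞ (EuclideanSpace.proj (𝕜 := ℝ) j : E n → ℝ) :=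
      (EuclideanSpace.proj (𝕜 := ℝ) j : E n →L[ℝ] ℝ).contDiff.contMDiff
    exact h2.comp_contMDiffOn h1
  have hθ1 : ∀ j, ∀ y ∈ B₁, θ j y = φ y j := by
    intro j y hy
    show β y • (φ y j) = φ y j
    rw [hB₁1 hy, one_smul]
  have hθ0 : ∀ j, ∀ y ∉ V, θ j y = 0 := by
    intro j y hy
    show β y • (φ y j) = 0
    have h1 : β y = 0 := by
      by_contra h2
      exact hy (hβV h2)
    rw [h1, zero_smul]
  have hB₁V : B₁ ⊆ V := by
    intro y hy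
    by_contra h1
    have h2 : β y = 0 := by
      by_contra h3
      exact h1 (hβV h3)
    have h3 : β y = 1 := hB₁1 hy
    rw [h2] at h3
    exact zero_ne_one h3
  let F : Fin n → X → ℝ := fun j x => if x ∈ K₀ then 0 else θ j (f x)
  have hFx : ∀ j, ∀ x ∉ K₀, F j x = θ j (f x) := fun j x hx => if_neg hx
  have hF : ∀ j, SmoothFun (d := n + 2) (F j) := by
    intro j x
    by_cases hx : x ∈ K₀
    · have h1 : x ∉ closure (f ⁻¹' V ∩ K₀ᶜ) := fun h2 => Set.disjoint_left.1 hVd h2 hx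
      refine (contMDiffAt_const (c := (0 : ℝ))).congr_of_eventuallyEq ?_
      filter_upwards [isClosed_closure.isOpen_compl.mem_nhds h1] with x' hx'
      by_cases hx'' : x' ∈ K₀
      · exact if_pos hx''
      · rw [hFx j x' hx'']
        exact hθ0 j _ fun h2 => hx' (subset_closure ⟨h2, hx''⟩)
    · refine ((hθ j).contMDiffAt.comp x (hfat x hx)).congr_of_eventuallyEq ?_
      filter_upwards [hK₀o.mem_nhds hx] with x' hx'
      exact hFx j x' hx'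
  have hUo : IsOpen (f ⁻¹' B₁ ∩ K₀ᶜ) := by
    rw [inter_comm]
    exact h.smooth.continuousOn.isOpen_inter_preimage hK₀o hB₁o
  have hFe : ∀ x ∉ K₀, f x ∈ B₁ → Fe F x = φ (f x) := by
    intro x hxK hx
    ext j
    exact (hFx j x hxK).trans (hθ1 j _ hx)
  -- the differential
  let Dφ : (x : X) → E n →L[ℝ] E n := fun x => mfderiv (𝓡 n) (𝓡 n) φ (f x)
  let Df : (x : X) → E (n + 2) →L[ℝ] E n := fun x => mfderiv (𝓡 (n + 2)) (𝓡 n) f x
  have hCF : ∀ x ∉ K₀, f x ∈ B₁ → ∀ v, CF F x v = Dφ x (Df x v) := by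
    intro x hxK hx v
    have h1 : MDifferentiableAt (𝓡 (n + 2)) (𝓡 n) f x :=
      (hfat x hxK).mdifferentiableAt (by simp)
    have h2 : MDifferentiableAt (𝓡 n) (𝓡 n) φ (f x) :=
      ((contMDiffOn_chart (I := 𝓡 n) (n := ∞) (x := y₀)).contMDiffAt
        (φ.open_source.mem_nhds (hB₁s hx))).mdifferentiableAt (by simp)
    have h3 := h2.hasMFDerivAt.comp x h1.hasMFDerivAt
    have h4 : Fe F =ᶠ[𝓝 x] (φ ∘ f) := by
      filter_upwards [hUo.mem_nhds ⟨hx, hxK⟩] with y hy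
      exact hFe y hy.2 hy.1
    have h5 := (h3.congr_of_eventuallyEq h4).mfderiv
    have h6 : (mfderiv (𝓡 (n + 2)) 𝓘(ℝ, E n) (Fe F) x v : E n) = CF F x v := Fe_deriv hF x v
    exact h6.symm.trans (congrArg (fun L => L v) h5)
  have hAD : ∀ x, f x ∈ B₁ → ∀ u : E n, A y₀ (φ (f x)) (Dφ x u) = u := by
    intro x hx u
    exact A_kap y₀ (p := (⟨f x, u⟩ : TangentBundle (𝓡 n) N)) (hB₁s hx)
  have hDinj : ∀ x, f x ∈ B₁ → ∀ u : E n, Dφ x u = 0 → u = 0 := by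
    intro x hx u hu
    rw [← hAD x hx u, hu, map_zero]
  have hDsurj : ∀ x, f x ∈ B₁ → Function.Surjective (Dφ x) := by
    intro x hx
    have h1 : Function.Injective (Dφ x : E n →ₗ[ℝ] E n) := by
      intro a b hab
      have h2 : Dφ x (a - b) = 0 := by
        rw [map_sub]
        exact sub_eq_zero.2 hab
      exact sub_eq_zero.1 (hDinj x hx _ h2)
    exact LinearMap.injective_iff_surjective.1 h1
  have hCF0 : ∀ x, ∀ v, CF F x v = 0 ↔ Vert F x v := by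
    intro x v
    constructor
    · intro h1 j
      exact congrArg (fun z : E n => z j) h1
    · intro h1
      ext j
      exact h1 j
  have hvert : ∀ x ∉ K₀, f x ∈ B₁ → ∀ v, Vert F x v ↔
      mfderiv (𝓡 (n + 2)) (𝓡 n) f x v = 0 := by
    intro x hxK hx v
    constructor
    · intro h1
      exact hDinj x hx _ ((hCF x hxK hx v).symm.trans ((hCF0 x v).2 h1))
    · intro h1
      have h2 : Df x v = 0 := h1
      have h3 : Dφ x (Df x v) = 0 := by rw [h2, map_zero]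
      exact (hCF0 x v).1 ((hCF x hxK hx v).trans h3)
  have hregi : ∀ x ∉ K₀, f x ∈ B₁ → (Reg (d := n + 2) F x ↔
      Function.Surjective (mfderiv (𝓡 (n + 2)) (𝓡 n) f x)) := by
    intro x hxK hx
    constructor
    · intro h1
      intro (u : E n)
      obtain ⟨v, hv⟩ := h1 fun j => (Dφ x u) j
      refine ⟨v, ?_⟩
      have h2 : CF F x v = Dφ x u := by
        ext j
        exact hv j
      have h2' : Dφ x (Df x v) = Dφ x u := (hCF x hxK hx v).symm.trans h2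
      have h3 : Dφ x (Df x v - u) = 0 := by
        rw [map_sub]
        exact sub_eq_zero.2 h2'
      exact sub_eq_zero.1 (hDinj x hx _ h3)
    · intro h1 u
      obtain ⟨a, ha⟩ := hDsurj x hx (WithLp.toLp 2 u)
      obtain ⟨v, hv⟩ := h1 a
      refine ⟨v, fun j => ?_⟩
      have h2 : CF F x v = WithLp.toLp 2 u := by
        refine (hCF x hxK hx v).trans ?_
        have h3 : Df x v = a := hv
        rw [h3, ha]
      exact congrArg (fun z : E n => z j) h2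
  -- the form in coordinates
  let η : E n → (E n) [⋀^Fin 2]→L[ℝ] ℝ := pb φ.symm w
  have hη : ∀ x ∉ K₀, f x ∈ B₁ → ∀ u v : E (n + 2), η (φ (f x)) ![CF F x u, CF F x v] =
      w (f x) ![Df x u, Df x v] := by
    intro x hxK hx u v
    have h1 : η (φ (f x)) ![CF F x u, CF F x v] =
        w (φ.symm (φ (f x))) ![A y₀ (φ (f x)) (CF F x u), A y₀ (φ (f x)) (CF F x v)] := by
      show (w (φ.symm (φ (f x)))) (fun i => A y₀ (φ (f x))
        ((![CF F x u, CF F x v] : Fin 2 → E n) i)) = _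
      congr 1
      funext i
      fin_cases i <;> rfl
    rw [h1, hCF x hxK hx, hCF x hxK hx, hAD x hx, hAD x hx]
    exact form_tr w (φ.left_inv (hB₁s hx)) _ _
  have hηc : ContinuousAt η (φ y₀) := by
    have h1 := (h.wsmooth φ.target φ.symm φ.open_target
      (contMDiffOn_chart_symm (I := 𝓡 n) (n := ∞) (x := y₀))).continuousOn
    exact h1.continuousAt (φ.open_target.mem_nhds (φ.map_source hsrc))
  -- the structure on the base
  let D₀ : E n →L[ℝ] E n := mfderiv (𝓡 n) (𝓡 n) φ y₀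
  have hAD₀ : ∀ u : E n, A y₀ (φ y₀) (D₀ u) = u := fun u =>
    A_kap y₀ (p := (⟨y₀, u⟩ : TangentBundle (𝓡 n) N)) hsrc
  have hD₀i : Function.Injective (D₀ : E n →ₗ[ℝ] E n) := by
    intro a b hab
    have h1 : D₀ a = D₀ b := hab
    rw [← hAD₀ a, ← hAD₀ b, h1]
  let e₀ : E n ≃ₗ[ℝ] E n := LinearEquiv.ofInjectiveEndo (D₀ : E n →ₗ[ℝ] E n) hD₀i
  have he₀ : ∀ u, e₀ u = D₀ u := fun u => rfl
  have hAe : ∀ u, A y₀ (φ y₀) u = e₀.symm u := by
    intro u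
    rw [← e₀.apply_symm_apply u, he₀, hAD₀, ← he₀, e₀.apply_symm_apply]
  let J0' : E n →ₗ[ℝ] E n := (e₀ : E n →ₗ[ℝ] E n) ∘ₗ I₀ ∘ₗ (e₀.symm : E n →ₗ[ℝ] E n)
  have hJ0 : ∀ v, J0' v = e₀ (I₀ (e₀.symm v)) := fun v => rfl
  have hJ0' : ∀ v, J0' (J0' v) = -v := by
    intro v
    rw [hJ0, hJ0, e₀.symm_apply_apply, hI₀, map_neg, e₀.apply_symm_apply]
  have htame0 : ∀ u, u ≠ 0 → 0 < η (φ y₀) ![u, J0' u] := by
    intro u hu
    have h1 : η (φ y₀) ![u, J0' u] =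
        w (φ.symm (φ y₀)) ![A y₀ (φ y₀) u, A y₀ (φ y₀) (J0' u)] := by
      show (w (φ.symm (φ y₀))) (fun i => A y₀ (φ y₀)
        ((![u, J0' u] : Fin 2 → E n) i)) = _
      congr 1
      funext i
      fin_cases i <;> rfl
    rw [h1, hAe, hAe, hJ0, e₀.symm_apply_apply]
    have h2 := form_tr w (φ.left_inv hsrc) (e₀.symm u) (I₀ (e₀.symm u))
    refine lt_of_lt_of_eq (hI₀w _ fun h3 => hu ?_) h2.symm
    exact (LinearEquiv.map_eq_zero_iff e₀.symm).1 h3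
  have hev := open_tame hηc htame0
  have hBimg : φ '' B₁ ∈ 𝓝 (φ y₀) :=
    (φ.isOpen_image_of_subset_source hB₁o hB₁s).mem_nhds ⟨y₀, hB₁m, rfl⟩
  obtain ⟨R₀, hR₀, hsub⟩ := Metric.nhds_basis_closedBall.mem_iff.1 (Filter.inter_mem hev hBimg)
  have hset : {x | x ∈ f ⁻¹' B₁ ∩ K₀ᶜ ∧ Fe F x ∈ Metric.closedBall (φ y₀) R₀} =
      K₀ᶜ ∩ f ⁻¹' (φ.symm '' Metric.closedBall (φ y₀) R₀) := by
    ext x
    constructor
    · rintro ⟨⟨hx, hxK⟩, hxb⟩
      refine ⟨hxK, Fe F x, hxb, ?_⟩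
      rw [hFe x hxK hx, φ.left_inv (hB₁s hx)]
    · rintro ⟨hxK, z, hz, hzx⟩
      obtain ⟨y, hy, rfl⟩ := (hsub hz).2
      rw [φ.left_inv (hB₁s hy)] at hzx
      have hx : f x ∈ B₁ := by
        rw [← hzx]
        exact hy
      refine ⟨⟨hx, hxK⟩, ?_⟩
      rw [hFe x hxK hx, ← hzx]
      exact hz
  refine ⟨F, J0', B₁, R₀, hJ0', hB₁o, hB₁m, hB₁s, ⟨hF, hUo, hR₀, ?_, fun x hx hxb => ?_⟩,
    hFe, hvert, hregi, fun x hxK hx v => ⟨hVs x hxK (hB₁V hx) v, h.null x hxK v⟩⟩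
  · rw [hset]
    have h1 : IsCompact (φ.symm '' Metric.closedBall (φ y₀) R₀) := by
      refine (isCompact_closedBall _ _).image_of_continuousOn (φ.continuousOn_symm.mono ?_)
      intro z hz
      obtain ⟨y, hy, rfl⟩ := (hsub hz).2
      exact φ.map_source (hB₁s hy)
    have h1V : φ.symm '' Metric.closedBall (φ y₀) R₀ ⊆ V := by
      rintro _ ⟨z, hz, rfl⟩
      obtain ⟨y, hy, rfl⟩ := (hsub hz).2
      rw [φ.left_inv (hB₁s hy)]
      exact hB₁V hy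
    rw [← closure_subset_iff_isClosed]
    intro x hx
    have hsubV : K₀ᶜ ∩ f ⁻¹' (φ.symm '' Metric.closedBall (φ y₀) R₀) ⊆ f ⁻¹' V ∩ K₀ᶜ :=
      fun x' hx' => ⟨h1V hx'.2, hx'.1⟩
    have hxc : x ∈ closure (f ⁻¹' V ∩ K₀ᶜ) := closure_mono hsubV hx
    have hxK : x ∉ K₀ := fun h2 => Set.disjoint_left.1 hVd hxc h2
    refine ⟨hxK, ?_⟩
    by_contra h2
    have h3 : IsOpen (K₀ᶜ ∩ f ⁻¹' (φ.symm '' Metric.closedBall (φ y₀) R₀)ᶜ) :=
      h.smooth.continuousOn.isOpen_inter_preimage hK₀o h1.isClosed.isOpen_compl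
    obtain ⟨x', hx1, hx2⟩ := mem_closure_iff.1 hx _ h3 ⟨hxK, h2⟩
    exact hx1.2 hx2.2
  · have hx' : f x ∈ B₁ := hx.1
    have hxK : x ∉ K₀ := hx.2
    have hz : Fe F x ∈ Metric.closedBall (φ y₀) R₀ := Metric.ball_subset_closedBall hxb
    refine ⟨fun v hv => ?_, ⟨η (Fe F x), (hsub hz).1, fun v hv => ?_⟩⟩
    · exact (hvert x hxK hx' _).2 (h.ker hJ hxK ((hvert x hxK hx' v).1 hv))
    · rw [hFe x hxK hx']
      refine lt_of_lt_of_eq ?_ (hη x hxK hx' v (J x v)).symm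
      refine h.tame x hxK v fun h0 => hv ?_
      refine (hCF x hxK hx' v).trans ?_
      have h4 : Df x v = 0 := h0
      rw [h4, map_zero]

end Pool.Agent.L7h49.OG
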