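import Pool.Agent.L7h49.OF.Sys1

/-!
# Maps with a base locus: good and bad fibres
-/

set_option autoImplicit false

open Set Filter Topology MeasureTheory
open scoped Manifold ContDiff

noncomputable section

namespace Pool.Agent.L7h49.OG

open Pool.Agent.Y501.SY
open Pool.Agent.N13.TL
open Pool.Agent.L7h49.TS (qq qq_cont unit_compact tb_t2 HasP WS Cr exists_cr qq_add qq_smul qq_zero
  exactF_zero exactF_add exactF_smul exactF_mem int_cont ne_zero_of_unit Flat exists_min indec)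
open Pool.Agent.R772 (ExactF)

variable {n : ℕ} {X N : Type} [TopologicalSpace X] [ChartedSpace (E (n + 2)) X]
  [TopologicalSpace N] [ChartedSpace (E n) N]

/-- unit null vectors -/
def KN (J : End (n + 2) X) (τ s : Form (n + 2) X 2) : Set (TangentBundle (𝓡 (n + 2)) X) :=
  {p | qq τ J p = 1 ∧ qq s J p = 0}

variable {J : End (n + 2) X} {K₀ : Set X} {s : Form (n + 2) X 2} {f : X → N} {w : Form n N 2}
  {τ : Form (n + 2) X 2}

theorem KN_off (h : Sys J K₀ s f w) {p : TangentBundle (𝓡 (n + 2)) X} (hp : p ∈ KN J τ s) :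
    p.proj ∉ K₀ := by
  intro h1
  have h2 := h.pos p.proj h1 p.snd (ne_zero_of_unit hp.1)
  have h3 : q s J p.proj p.snd = 0 := hp.2
  rw [h3] at h2
  exact lt_irrefl _ h2

/-- goodness and unit vectors -/
theorem good_of_unitN (hτ : ∀ x, TamesAt τ J x) {η : Form (n + 2) X 2} {S : Set X}
    (h : ∀ p ∈ KN J τ s, p.proj ∈ S → 0 < qq η J p) {x : X} (hx : x ∈ S)
    (v : TangentSpace (𝓡 (n + 2)) x) (hv : v ≠ 0)
    (hvv : q s J x v = 0) : 0 < q η J x v := by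
  have pv : 0 < q τ J x v := hτ x v hv
  have sv := Real.sqrt_pos.2 pv
  have h1 := h ⟨x, (√(q τ J x v))⁻¹ • v⟩ ⟨by
    show q τ J x ((√(q τ J x v))⁻¹ • v) = 1
    rw [q_hom, inv_pow, Real.sq_sqrt pv.le]
    exact inv_mul_cancel₀ pv.ne', by
    show q s J x ((√(q τ J x v))⁻¹ • v) = 0
    rw [q_hom, hvv, mul_zero]⟩ hx
  have h2 : 0 < q η J x ((√(q τ J x v))⁻¹ • v) := h1
  rw [q_hom] at h2
  exact pos_of_mul_pos_right h2 (sq_nonneg _)

variable [IsManifold (𝓡 (n + 2)) ∞ X]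

theorem KN_compact [CompactSpace X] [T2Space X] (hJ : IsAlmostComplex J)
    (hτs : IsSmooth τ) (hτ : ∀ x, TamesAt τ J x) (hs : IsSmooth s) : IsCompact (KN J τ s) :=
  (unit_compact hJ hτs hτ).inter_right (isClosed_eq (qq_cont hs hJ) continuous_const)

theorem fprojN (h : Sys J K₀ s f w) :
    ContinuousOn (fun p : TangentBundle (𝓡 (n + 2)) X => f p.proj) (KN J τ s) := by
  have hpr : Continuous (Bundle.TotalSpace.proj : TangentBundle (𝓡 (n + 2)) X → X) :=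
    FiberBundle.continuous_proj (E (n + 2)) (TangentSpace (𝓡 (n + 2)))
  exact h.smooth.continuousOn.comp hpr.continuousOn fun p hp => KN_off h hp

/-- the unit null vectors over `y` -/
def KY (J : End (n + 2) X) (τ s : Form (n + 2) X 2) (f : X → N) (y : N) :
    Set (TangentBundle (𝓡 (n + 2)) X) :=
  KN J τ s ∩ {p | f p.proj = y}

theorem KY_compact [CompactSpace X] [T2Space X] [T2Space N] (hJ : IsAlmostComplex J)
    (hτs : IsSmooth τ) (hτ : ∀ x, TamesAt τ J x) (h : Sys J K₀ s f w) (y : N) :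
    IsCompact (KY J τ s f y) := by
  have hT2 := tb_t2 (d := n + 2) (X := X)
  have h1 := KN_compact hJ hτs hτ h.ssmooth
  have h2 := (fprojN (τ := τ) h).preimage_isClosed_of_isClosed h1.isClosed
    (isClosed_singleton (x := y))
  exact h1.of_isClosed_subset h2 inter_subset_left

/-- the good set is open -/
theorem good_nhdsN [CompactSpace X] [T2Space X] [T2Space N]
    (hJ : IsAlmostComplex J) (hτs : IsSmooth τ) (hτ : ∀ x, TamesAt τ J x) (h : Sys J K₀ s f w)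
    {ζ : Form (n + 2) X 2} (hζ : IsSmooth ζ) {y₀ : N} (hg : GoodN J K₀ s f ζ y₀) :
    ∀ᶠ y in 𝓝 y₀, GoodN J K₀ s f ζ y := by
  obtain ⟨ρ, hρ, h1⟩ := hg
  have hK := KN_compact hJ hτs hτ h.ssmooth
  have hc := qq_cont (hζ.add (exactF_smooth hρ)) hJ
  have hB : IsCompact (KN J τ s ∩ {p | qq (ζ + ρ) J p ≤ 0}) :=
    hK.inter_right (isClosed_le hc continuous_const)
  have hI := (hB.image_of_continuousOn ((fprojN (τ := τ) h).mono inter_subset_left)).isClosed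
  have hy₀ : y₀ ∉ (fun p : TangentBundle (𝓡 (n + 2)) X => f p.proj) ''
      (KN J τ s ∩ {p | qq (ζ + ρ) J p ≤ 0}) := by
    rintro ⟨p, ⟨hp1, hp2⟩, hp3⟩
    have h2 := h1 p.proj (KN_off h hp1) hp3 p.snd (ne_zero_of_unit hp1.1) hp1.2
    exact absurd hp2 (not_le.2 h2)
  filter_upwards [hI.isOpen_compl.mem_nhds hy₀] with y hy
  refine ⟨ρ, hρ, fun x hxK hx v hv hvv => ?_⟩
  refine good_of_unitN (S := {x}) hτ (fun p hp hpx => ?_) (mem_singleton x) v hv hvv
  by_contra hcon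
  push Not at hcon
  refine hy ⟨p, ⟨hp, hcon⟩, ?_⟩
  show f p.proj = y
  rw [hpx]
  exact hx

/-- a bad fibre and `HasP` -/
theorem bad_hasP (hτ : ∀ x, TamesAt τ J x) (h : Sys J K₀ s f w)
    {ζ : Form (n + 2) X 2} {y : N} :
    HasP J (∅ : Set (Form (n + 2) X 2)) ζ (KY J τ s f y) ↔ GoodN J K₀ s f ζ y := by
  constructor
  · rintro ⟨ρ, hρ, h1⟩
    refine ⟨ρ, ws_exact hρ, fun x hxK hx v hv hvv => ?_⟩
    exact good_of_unitN (S := {x | f x = y}) hτ (fun p hp hpx => h1 p ⟨hp, hpx⟩) hx v hv hvv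
  · rintro ⟨ρ, hρ, h1⟩
    exact ⟨ρ, exactF_mem hρ, fun p hp =>
      h1 p.proj (KN_off h hp.1) hp.2 p.snd (ne_zero_of_unit hp.1.1) hp.1.2⟩

/-- from the fibres to all null vectors -/
theorem hasP_allN [CompactSpace X] [T2Space X] [T2Space N] [IsManifold (𝓡 n) ∞ N]
    (hJ : IsAlmostComplex J) (hτs : IsSmooth τ) (hτ : ∀ x, TamesAt τ J x) (h : Sys J K₀ s f w)
    {ζ : Form (n + 2) X 2} (hζ : IsSmooth ζ) (hall : ∀ y, GoodN J K₀ s f ζ y) :
    ∃ ρ, ExactF ρ ∧ ∀ p ∈ KN J τ s, 0 < qq (ζ + ρ) J p := by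
  classical
  by_contra hcon
  let _ : MeasurableSpace (TangentBundle (𝓡 (n + 2)) X) := borel _
  have _ : BorelSpace (TangentBundle (𝓡 (n + 2)) X) := ⟨rfl⟩
  have hT2 := tb_t2 (d := n + 2) (X := X)
  have hno : ¬ HasP J (∅ : Set (Form (n + 2) X 2)) ζ (KN J τ s) := by
    rintro ⟨ρ, hρ, h1⟩
    exact hcon ⟨ρ, ws_exact hρ, h1⟩
  have hN : ∀ σ ∈ (∅ : Set (Form (n + 2) X 2)), IsSmooth σ :=
    fun σ hσ => absurd hσ (notMem_empty σ)
  have hKc := KN_compact hJ hτs hτ h.ssmooth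
  obtain ⟨D, hDK, hD, hDn, hmin⟩ := exists_min hJ hN hζ hKc hno
  obtain ⟨μ, hμ⟩ := exists_cr hJ hN hζ hD hDn
  have hne : D.Nonempty := by
    rw [nonempty_iff_ne_empty]
    rintro rfl
    exact hDn ⟨0, Submodule.zero_mem _, fun x hx => absurd hx (notMem_empty x)⟩
  obtain ⟨p₀, hp₀⟩ := hne
  have hpr : Continuous (Bundle.TotalSpace.proj : TangentBundle (𝓡 (n + 2)) X → X) :=
    FiberBundle.continuous_proj (E (n + 2)) (TangentSpace (𝓡 (n + 2)))
  -- the cut off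
  have hC : IsClosed (Bundle.TotalSpace.proj '' KN J τ s : Set X) := (hKc.image hpr).isClosed
  have hdis : Disjoint K₀ (Bundle.TotalSpace.proj '' KN J τ s : Set X) := by
    rw [Set.disjoint_left]
    rintro x hx ⟨p, hp, rfl⟩
    exact KN_off h hp hx
  obtain ⟨χ, hχ0, hχ1, -⟩ := exists_contMDiffMap_zero_one_nhds_of_isClosed (n := (⊤ : ℕ∞))
    (𝓡 (n + 2)) h.closed hC hdis
  have hχ0' : ∀ x ∈ K₀, ∀ᶠ x' in 𝓝 x, χ x' = 0 := fun x hx =>
    (hχ0.filter_mono (nhds_le_nhdsSet hx))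
  have hχ1' : ∀ x ∈ (Bundle.TotalSpace.proj '' KN J τ s : Set X), ∀ᶠ x' in 𝓝 x, χ x' = 1 :=
    fun x hx => (hχ1.filter_mono (nhds_le_nhdsSet hx))
  have hK₀o : IsOpen K₀ᶜ := h.closed.isOpen_compl
  have hfat : ∀ x ∉ K₀, ContMDiffAt (𝓡 (n + 2)) (𝓡 n) ∞ f x := fun x hx =>
    h.smooth.contMDiffAt (hK₀o.mem_nhds hx)
  have hcst : ∀ p ∈ D, f p.proj = f p₀.proj := by
    intro p hp
    by_contra hfp
    obtain ⟨U, hU, hU1, hU2⟩ : ∃ U : Set N, IsOpen U ∧ f p₀.proj ∈ U ∧ f p.proj ∉ U :=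
      ⟨{f p.proj}ᶜ, isOpen_compl_singleton, fun h1 => hfp h1.symm, fun h1 => h1 rfl⟩
    obtain ⟨β, -, hβ⟩ := (SmoothBumpFunction.nhds_basis_support (I := 𝓡 n)
      (hU.mem_nhds hU1)).mem_iff.1 (hU.mem_nhds hU1)
    have h1 : β (f p₀.proj) = 1 := β.eq_one
    have h2 : β (f p.proj) = 0 := by
      by_contra h3
      exact hU2 (hβ h3)
    let g : X → ℝ := fun x => χ x * β (f x)
    have hg : SmoothFun (d := n + 2) g := by
      intro x
      by_cases hx : x ∈ K₀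
      · refine (contMDiffAt_const (c := (0 : ℝ))).congr_of_eventuallyEq ?_
        filter_upwards [hχ0' x hx] with x' hx'
        show χ x' * β (f x') = 0
        rw [hx', zero_mul]
      · have h3 : ContMDiffAt (𝓡 (n + 2)) 𝓘(ℝ, ℝ) ∞ χ x := χ.contMDiff x
        have h4 : ContMDiffAt (𝓡 (n + 2)) 𝓘(ℝ, ℝ) ∞ (fun x => β (f x)) x :=
          β.contMDiff.contMDiffAt.comp x (hfat x hx)
        exact h3.mul h4
    have hgd : ∀ r ∈ KN J τ s, ∀ v : TangentSpace (𝓡 (n + 2)) r.proj,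
        mfderiv (𝓡 (n + 2)) (𝓡 n) f r.proj v = 0 → dd (d := n + 2) g r.proj v = 0 := by
      intro r hr v hv
      have hx := KN_off h hr
      have h3 : g =ᶠ[𝓝 r.proj] fun x => β (f x) := by
        filter_upwards [hχ1' r.proj ⟨r, hr, rfl⟩] with x' hx'
        show χ x' * β (f x') = β (f x')
        rw [hx', one_mul]
      have h4 : dd (d := n + 2) g r.proj = dd (fun x => β (f x)) r.proj := by
        unfold dd
        exact h3.mfderiv_eq
      rw [h4]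
      have h5 : MDifferentiableAt (𝓡 (n + 2)) (𝓡 n) f r.proj :=
        (hfat _ hx).mdifferentiableAt (by simp)
      have h6 : MDifferentiableAt (𝓡 n) 𝓘(ℝ, ℝ) β (f r.proj) :=
        (β.contMDiff (f r.proj)).mdifferentiableAt (by simp)
      have h7 := (h6.hasMFDerivAt.comp r.proj h5.hasMFDerivAt).mfderiv
      have h8 : dd (d := n + 2) (fun x => β (f x)) r.proj v =
          mfderiv (𝓡 n) 𝓘(ℝ, ℝ) β (f r.proj) (mfderiv (𝓡 (n + 2)) (𝓡 n) f r.proj v) :=
        congrArg (fun L => L v) h7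
      rw [h8, hv, map_zero]
      rfl
    have hflat : Flat J D g := by
      refine ⟨hg, fun r hr => ?_⟩
      have hx := KN_off h (hDK hr)
      have h3 := h.null r.proj hx r.snd (hDK hr).2
      exact ⟨hgd r (hDK hr) _ h3, hgd r (hDK hr) _ (h.ker hJ hx h3)⟩
    refine indec hJ hN (fun σ hσ => absurd hσ (notMem_empty σ)) hζ hD hmin hμ hflat hp hp₀ ?_
    have h3 : ∀ r ∈ KN J τ s, χ r.proj = 1 := fun r hr =>
      (hχ1' r.proj ⟨r, hr, rfl⟩).self_of_nhds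
    show χ p.proj * β (f p.proj) < χ p₀.proj * β (f p₀.proj)
    rw [h1, h2, h3 p (hDK hp), h3 p₀ (hDK hp₀)]
    norm_num
  obtain ⟨ρ, hρ, h1⟩ := hall (f p₀.proj)
  refine hDn ⟨ρ, exactF_mem hρ, fun p hp => ?_⟩
  exact h1 p.proj (KN_off h (hDK hp)) (hcst p hp) p.snd (ne_zero_of_unit (hDK hp).1) (hDK hp).2

/-- the forms `s + t η` -/
theorem tame_smallN [CompactSpace X] [T2Space X]
    (hJ : IsAlmostComplex J) (hτs : IsSmooth τ) (hτ : ∀ x, TamesAt τ J x)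
    (hs : IsSmooth s) (hnn : ∀ (x : X) (v : TangentSpace (𝓡 (n + 2)) x), 0 ≤ q s J x v)
    {η : Form (n + 2) X 2} (hη : IsSmooth η) (hpos : ∀ p ∈ KN J τ s, 0 < qq η J p) :
    ∃ t₀ : ℝ, 0 < t₀ ∧ ∀ t : ℝ, 0 < t → t ≤ t₀ → ∀ x, TamesAt (s + t • η) J x := by
  have h1 := unit_compact hJ hτs hτ
  have hσc := qq_cont hs hJ
  have hηc := qq_cont hη hJ
  obtain ⟨M, hM⟩ := h1.exists_bound_of_continuousOn hηc.continuousOn
  have hB : IsCompact ({p : TangentBundle (𝓡 (n + 2)) X | qq τ J p = 1} ∩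
      {p | qq η J p ≤ 0}) := h1.inter_right (isClosed_le hηc continuous_const)
  obtain ⟨c, hc, hc2⟩ : ∃ c : ℝ, 0 < c ∧ ∀ p : TangentBundle (𝓡 (n + 2)) X, qq τ J p = 1 →
      qq η J p ≤ 0 → c ≤ qq s J p := by
    rcases ({p : TangentBundle (𝓡 (n + 2)) X | qq τ J p = 1} ∩
      {p | qq η J p ≤ 0}).eq_empty_or_nonempty with he | hne
    · refine ⟨1, one_pos, fun p hp1 hp2 => ?_⟩
      have h2 : p ∈ {p : TangentBundle (𝓡 (n + 2)) X | qq τ J p = 1} ∩
        {p | qq η J p ≤ 0} := ⟨hp1, hp2⟩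
      rw [he] at h2
      exact absurd h2 (notMem_empty p)
    · obtain ⟨p₀, hp₀, hmin⟩ := hB.exists_isMinOn hne hσc.continuousOn
      refine ⟨qq s J p₀, ?_, fun p hp1 hp2 => hmin ⟨hp1, hp2⟩⟩
      refine lt_of_le_of_ne (hnn p₀.proj p₀.snd) fun h0 => ?_
      have h2 := hpos p₀ ⟨hp₀.1, h0.symm⟩
      exact absurd hp₀.2 (not_le.2 h2)
  have hM0 : 0 < |M| + 1 := by positivity
  refine ⟨c / (|M| + 1) / 2, by positivity, fun t ht ht' x v hv => ?_⟩
  have pv : 0 < q τ J x v := hτ x v hv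
  have sv := Real.sqrt_pos.2 pv
  set u := (√(q τ J x v))⁻¹ • v with hu
  set p : TangentBundle (𝓡 (n + 2)) X := ⟨x, u⟩ with hp
  have hpu : qq τ J p = 1 := by
    show q τ J x ((√(q τ J x v))⁻¹ • v) = 1
    rw [q_hom, inv_pow, Real.sq_sqrt pv.le]
    exact inv_mul_cancel₀ pv.ne'
  have hkey : 0 < qq (s + t • η) J p := by
    rw [qq_add, qq_smul]
    have h3 : 0 ≤ qq s J p := hnn x u
    by_cases h4 : qq η J p ≤ 0
    · have h5 := hc2 p hpu h4
      have h6 : |qq η J p| ≤ |M| := (hM p hpu).trans (le_abs_self M)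
      have h7 : -|M| ≤ qq η J p := (abs_le.1 h6).1
      have h8 : t * (|M| + 1) ≤ c / 2 := by
        calc t * (|M| + 1) ≤ c / (|M| + 1) / 2 * (|M| + 1) :=
              mul_le_mul_of_nonneg_right ht' hM0.le
          _ = c / 2 := by field_simp
      have h9 : t * (-|M|) ≤ t * qq η J p := mul_le_mul_of_nonneg_left h7 ht.le
      nlinarith
    · push Not at h4
      have := mul_pos ht h4
      linarith
  have h5 : 0 < q (s + t • η) J x u := hkey
  rw [hu, q_hom] at h5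
  exact pos_of_mul_pos_right h5 (sq_nonneg _)

end Pool.Agent.L7h49.OG
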