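import Pool.Agent.L7h49.OF.Sys2

/-!
# Maps with a base locus: near bad fibres all fibres are bad
-/

set_option autoImplicit false

open Set Filter Topology MeasureTheory
open scoped Manifold ContDiff

noncomputable section

namespace Pool.Agent.L7h49.OG

open Pool.Agent.Y501.SY
open Pool.Agent.N13.TL
open Pool.Agent.L7h49.TS (qq qq_cont unit_compact tb_t2 HasP WS Cr exists_cr qq_add qq_smul qq_zero
  exactF_zero exactF_add exactF_smul exactF_mem int_cont ne_zero_of_unit Flat exists_min indec)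
open Pool.Agent.R772 (ExactF)

variable {n : ℕ} {X N : Type} [TopologicalSpace X] [ChartedSpace (E (n + 2)) X]
  [TopologicalSpace N] [ChartedSpace (E n) N]
  {J : End (n + 2) X} {K₀ : Set X} {s : Form (n + 2) X 2} {f : X → N} {w : Form n N 2}
  {τ : Form (n + 2) X 2}

/-- the fibres in coordinates -/
theorem fib_keyN {y₀ : N} {B₁ : Set N} (hB₁s : B₁ ⊆ (chartAt (E n) y₀).source)
    {F : Fin n → X → ℝ} (hFe : ∀ x ∉ K₀, f x ∈ B₁ → Fe F x = chartAt (E n) y₀ (f x)) {y : N}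
    (hy : y ∈ B₁) (x : X) :
    (x ∈ f ⁻¹' B₁ ∩ K₀ᶜ ∧ Fe F x = chartAt (E n) y₀ y) ↔ (x ∉ K₀ ∧ f x = y) := by
  constructor
  · rintro ⟨⟨h1, h3⟩, h2⟩
    rw [hFe x h3 h1] at h2
    exact ⟨h3, (chartAt (E n) y₀).injOn (hB₁s h1) (hB₁s hy) h2⟩
  · rintro ⟨h1, rfl⟩
    exact ⟨⟨hy, h1⟩, hFe x h1 hy⟩

variable [IsManifold (𝓡 (n + 2)) ∞ X] [IsManifold (𝓡 n) ∞ N]

/-- near a bad irreducible proper fibre all fibres are bad -/
theorem bad_nhdsN [CompactSpace X] [T2Space X] [T2Space N] (T : Tools) (hLOC : S_LOC)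
    (hUNI : S_UNI) (hPT : S_PT)
    (hJ : IsAlmostComplex J) (hτs : IsSmooth τ) (hτ : ∀ x, TamesAt τ J x) (h : Sys J K₀ s f w)
    {ζ : Form (n + 2) X 2} (hζ : IsSmooth ζ) (hζc : IsClosedForm ζ) {y₀ : N}
    (hprop : ProperY J K₀ s f y₀) (hirr : IrrN (n := n) K₀ f y₀)
    (hg : ¬ GoodN J K₀ s f ζ y₀) :
    ∀ᶠ y in 𝓝 y₀, ¬ GoodN J K₀ s f ζ y := by
  let _ : MeasurableSpace (TangentBundle (𝓡 (n + 2)) X) := borel _
  have _ : BorelSpace (TangentBundle (𝓡 (n + 2)) X) := ⟨rfl⟩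
  by_cases hreg : ∃ x₀ ∉ K₀, f x₀ = y₀ ∧
    Function.Surjective (mfderiv (𝓡 (n + 2)) (𝓡 n) f x₀)
  · obtain ⟨x₀, hx₀K, hx₀, hs₀⟩ := hreg
    obtain ⟨I₀, hI₀, hI₀w⟩ := base_structN hJ h hx₀K hx₀ hs₀
    obtain ⟨F, J0', B₁, R₀, hJ0', hB₁o, hy₀, hB₁s, hR, hFe, hvert, hregi, hnull⟩ :=
      local_regionN hJ h hprop hI₀ hI₀w
    have key := fun {y : N} (hy : y ∈ B₁) (x : X) => fib_keyN (K₀ := K₀) hB₁s hFe hy x
    set φ := chartAt (E n) y₀ with hφ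
    have hgood : ∀ y ∈ B₁, GoodN J K₀ s f ζ y →
        GoodOn J F ζ {x | x ∈ f ⁻¹' B₁ ∩ K₀ᶜ ∧ Fe F x = φ y} := by
      rintro y hy ⟨ρ, hρ, h1⟩
      refine ⟨ρ, hρ, fun x hx v hv hvv => ?_⟩
      obtain ⟨hxK, hxy⟩ := (key hy x).1 hx
      exact h1 x hxK hxy v hv
        ((hnull x hxK hx.1.1 v).1 ((hvert x hxK hx.1.1 v).1 hvv))
    have hgood' : ∀ y ∈ B₁, GoodOn J F ζ {x | x ∈ f ⁻¹' B₁ ∩ K₀ᶜ ∧ Fe F x = φ y} →
        GoodN J K₀ s f ζ y := by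
      rintro y hy ⟨ρ, hρ, h1⟩
      refine ⟨ρ, hρ, fun x hxK hx v hv hvv => ?_⟩
      have hx' := (key hy x).2 ⟨hxK, hx⟩
      exact h1 x hx' v hv ((hvert x hxK hx'.1.1 v).2 ((hnull x hxK hx'.1.1 v).2 hvv))
    obtain ⟨R, hR0, hbad⟩ := near_bad T hLOC hUNI hJ0' hJ hτs hτ hR hζ hζc (by
      refine hirr.count.mono ?_
      rintro x ⟨hx, hxr⟩
      obtain ⟨hxK, hxy⟩ := (key hy₀ x).1 hx
      exact ⟨⟨hxK, hxy⟩, fun h1 => hxr ((hregi x hxK hx.1.1).2 h1)⟩) (by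
      have h1 : {x | (x ∈ f ⁻¹' B₁ ∩ K₀ᶜ ∧ Fe F x = φ y₀) ∧ Reg (d := n + 2) F x} =
          {x | (x ∉ K₀ ∧ f x = y₀) ∧
            Function.Surjective (mfderiv (𝓡 (n + 2)) (𝓡 n) f x)} := by
        ext x
        constructor
        · rintro ⟨hx, hxr⟩
          have hx1 := (key hy₀ x).1 hx
          exact ⟨hx1, (hregi x hx1.1 hx.1.1).1 hxr⟩
        · rintro ⟨hx, hxr⟩
          have hx' := (key hy₀ x).2 hx
          exact ⟨hx', (hregi x hx.1 hx'.1.1).2 hxr⟩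
      rw [h1]
      exact hirr.conn) (fun h1 => hg (hgood' y₀ hy₀ h1))
    have hφc : ContinuousAt φ y₀ := φ.continuousAt (hB₁s hy₀)
    filter_upwards [hB₁o.mem_nhds hy₀, hφc.eventually (Metric.ball_mem_nhds _ hR0)] with y hy hyR
    exact fun h1 => hbad _ hyR (hgood y hy h1)
  · exfalso
    have hK := KY_compact hJ hτs hτ h y₀
    have hno : ¬ HasP J (∅ : Set (Form (n + 2) X 2)) ζ (KY J τ s f y₀) := fun h1 =>
      hg ((bad_hasP hτ h).1 h1)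
    obtain ⟨μ, hμ⟩ := exists_cr hJ (fun σ hσ => absurd hσ (notMem_empty σ)) hζ hK hno
    have hμc : CC J (KY J τ s f y₀) μ := ⟨hμ.fin, hμ.car, fun ρ hρ => hμ.orth ρ (exactF_mem hρ)⟩
    have hcount : {x | x ∉ K₀ ∧ f x = y₀}.Countable := by
      refine hirr.count.mono fun x hx => ?_
      exact ⟨hx, fun h1 => hreg ⟨x, hx.1, hx.2, h1⟩⟩
    refine hμ.ne ?_
    rw [← Measure.measure_univ_eq_zero]
    have h1 : μ (⋃ x ∈ {x | x ∉ K₀ ∧ f x = y₀}, Bundle.TotalSpace.proj ⁻¹' {x}) = 0 :=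
      (measure_biUnion_null_iff hcount).2 fun x _ =>
        hPT (n + 2) X J τ _ μ hJ hτs hK (fun p hp => hp.1.1) hμc x
    refine measure_mono_null (t := (KY J τ s f y₀)ᶜ ∪
      ⋃ x ∈ {x | x ∉ K₀ ∧ f x = y₀}, Bundle.TotalSpace.proj ⁻¹' {x}) ?_
      (measure_union_null hμ.car h1)
    intro p _
    by_cases hp : p ∈ KY J τ s f y₀
    · exact Or.inr (mem_iUnion₂.2 ⟨p.proj, ⟨KN_off h hp.1, hp.2⟩, rfl⟩)
    · exact Or.inl hp

/-- near a proper fibre with a tame neighbourhood, on which `ζ` is nonpositive, all fibres are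
bad -/
theorem sign_nhdsN [CompactSpace X] [T2Space X] [T2Space N] (T : Tools)
    (hJ : IsAlmostComplex J) (hτs : IsSmooth τ) (hτ : ∀ x, TamesAt τ J x) (h : Sys J K₀ s f w)
    {ζ : Form (n + 2) X 2} (hζ : IsSmooth ζ) (hζc : IsClosedForm ζ) {y₀ : N}
    (hprop : ProperY J K₀ s f y₀)
    (htame : TameN J K₀ f w y₀) (hneg : NonposN J τ K₀ s f ζ y₀) :
    ∀ᶠ y in 𝓝 y₀, ¬ GoodN J K₀ s f ζ y := by
  obtain ⟨I₀, hI₀, hI₀w⟩ := htame.base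
  obtain ⟨κ, hκ, ⟨V, hV, hκc⟩, hκpos⟩ := htame.form
  obtain ⟨F, J0', B₁, R₀, hJ0', hB₁o, hy₀, hB₁s, hR, hFe, hvert, hregi, hnull⟩ :=
    local_regionN hJ h hprop hI₀ hI₀w
  have key := fun {y : N} (hy : y ∈ B₁) (x : X) => fib_keyN (K₀ := K₀) hB₁s hFe hy x
  set φ := chartAt (E n) y₀ with hφ
  have hK₀o : IsOpen K₀ᶜ := h.closed.isOpen_compl
  have hφc : ContinuousAt φ y₀ := φ.continuousAt (hB₁s hy₀)
  have hV' : IsOpen (interior V ∩ B₁) := isOpen_interior.inter hB₁o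
  have hyV : y₀ ∈ interior V ∩ B₁ := ⟨mem_interior_iff_mem_nhds.2 hV, hy₀⟩
  have himg : φ '' (interior V ∩ B₁) ∈ 𝓝 (φ y₀) :=
    (φ.isOpen_image_of_subset_source hV' (inter_subset_right.trans hB₁s)).mem_nhds
      ⟨y₀, hyV, rfl⟩
  obtain ⟨R₂, hR₂, hsub⟩ := Metric.mem_nhds_iff.1 himg
  have hin : ∀ x ∉ K₀, f x ∈ B₁ → Fe F x ∈ Metric.ball (φ y₀) R₂ → f x ∈ interior V := by
    intro x hxK hx hxb
    obtain ⟨y, hy, hyx⟩ := hsub hxb
    rw [hFe x hxK hx] at hyx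
    rw [← φ.injOn (hB₁s hy.2) (hB₁s hx) hyx]
    exact hy.1
  obtain ⟨R, hR0, hbad⟩ := near_sign T hJ0' hJ hτs hτ hR hζ hζc hκ (R₁ := min R₀ R₂)
    (lt_min hR.pos hR₂) (min_le_left _ _) (by
      intro c p hp hpU hpF
      have hoV : IsOpen (K₀ᶜ ∩ f ⁻¹' interior V) :=
        h.smooth.continuousOn.isOpen_inter_preimage hK₀o isOpen_interior
      have ho : IsOpen ((chartAt (E (n + 2)) c).target ∩
          (chartAt (E (n + 2)) c).symm ⁻¹' (K₀ᶜ ∩ f ⁻¹' interior V)) :=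
        (chartAt (E (n + 2)) c).continuousOn_symm.isOpen_inter_preimage
          (chartAt (E (n + 2)) c).open_target hoV
      refine hκc _ _ ho (contMDiffOn_chart_symm.mono inter_subset_left)
        (fun p' hp' => ⟨interior_subset (s := V) hp'.2.2, hp'.2.1⟩) p ⟨hp, hpU.2, ?_⟩
      exact hin _ hpU.2 hpU.1 (Metric.ball_subset_ball (min_le_right _ _) hpF)) (by
      intro δ hδ
      obtain ⟨x, hxK, hx, hxs⟩ := htame.reg (B₁ ∩ φ ⁻¹' Metric.ball (φ y₀) δ)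
        (Filter.inter_mem (hB₁o.mem_nhds hy₀) (hφc (Metric.ball_mem_nhds _ hδ)))
      refine ⟨x, ⟨hx.1, hxK⟩, ?_, (hregi x hxK hx.1).2 hxs⟩
      rw [hFe x hxK hx.1]
      exact hx.2) (by
      intro x hx v hv hvv
      obtain ⟨hxK, hxy⟩ := (key hy₀ x).1 hx
      exact hκpos x hxK hxy v hv ((hvert x hxK hx.1.1 v).1 hvv)) (by
      intro ε hε
      obtain ⟨ρ, hρ, h1⟩ := hneg ε hε
      refine ⟨ρ, hρ, fun x hx v hvv => ?_⟩
      obtain ⟨hxK, hxy⟩ := (key hy₀ x).1 hx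
      exact h1 x hxK hxy v ((hnull x hxK hx.1.1 v).1 ((hvert x hxK hx.1.1 v).1 hvv)))
  filter_upwards [hB₁o.mem_nhds hy₀, hφc.eventually (Metric.ball_mem_nhds _ hR0)] with y hy hyR
  rintro ⟨ρ, hρ, h1⟩
  refine hbad _ hyR ⟨ρ, hρ, fun x hx v hv hvv => ?_⟩
  obtain ⟨hxK, hxy⟩ := (key hy x).1 hx
  exact h1 x hxK hxy v hv ((hnull x hxK hx.1.1 v).1 ((hvert x hxK hx.1.1 v).1 hvv))

/-- all fibres are good -/
theorem all_goodN [CompactSpace X] [T2Space X] [T2Space N] [PreconnectedSpace N] (T : Tools)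
    (hLOC : S_LOC) (hUNI : S_UNI) (hPT : S_PT)
    (hJ : IsAlmostComplex J) (hτs : IsSmooth τ) (hτ : ∀ x, TamesAt τ J x) (h : Sys J K₀ s f w)
    {ζ : Form (n + 2) X 2} (hζ : IsSmooth ζ) (hζc : IsClosedForm ζ)
    (hirr : ∀ y, (ProperY J K₀ s f y ∧ IrrN (n := n) K₀ f y) ∨ GoodN J K₀ s f ζ y ∨
      (ProperY J K₀ s f y ∧ TameN J K₀ f w y ∧ NonposN J τ K₀ s f ζ y))
    {y₀ : N} (hg : GoodN J K₀ s f ζ y₀) (y : N) : GoodN J K₀ s f ζ y := by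
  have h1 : IsClopen {y | GoodN J K₀ s f ζ y} := by
    constructor
    · rw [← isOpen_compl_iff, isOpen_iff_mem_nhds]
      intro z hz
      rcases hirr z with h2 | h2 | h2
      · exact bad_nhdsN T hLOC hUNI hPT hJ hτs hτ h hζ hζc h2.1 h2.2 hz
      · exact absurd h2 hz
      · exact sign_nhdsN T hJ hτs hτ h hζ hζc h2.1 h2.2.1 h2.2.2
    · rw [isOpen_iff_mem_nhds]
      intro z hz
      exact good_nhdsN hJ hτs hτ h hζ hz
  have h2 := h1.eq_univ ⟨y₀, hg⟩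
  have h3 : y ∈ {y | GoodN J K₀ s f ζ y} := by
    rw [h2]
    exact mem_univ y
  exact h3

end Pool.Agent.L7h49.OG
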