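import Pool.Agent.L7h49.OF.Sys3
import Pool.Agent.L7h49.OF.Semi

/-!
# Semipositivity on the components of a fibre
-/

set_option autoImplicit false

open Set Filter Topology MeasureTheory
open scoped Manifold ContDiff

noncomputable section

namespace Pool.Agent.L7h49.OG

open Pool.Agent.Y501.SY
open Pool.Agent.N13.TL
open Pool.Agent.Y455.SY (A B AB BA A_surj Q_eq)
open Pool.Agent.L7h49.TS (qq qq_cont unit_compact tb_t2 HasP WS Cr exists_cr qq_add qq_smul qq_zero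
  exactF_zero exactF_add exactF_smul exactF_mem int_cont ne_zero_of_unit Flat exists_min indec
  A_kap kap full_support)
open Pool.Agent.R772 (ExactF)
open Pool.Agent.L7h32.OF (exists_bump smooth_mul qq_mul cc_ae)

variable {n : ℕ} {X N : Type} [TopologicalSpace X] [ChartedSpace (E (n + 2)) X]
  [TopologicalSpace N] [ChartedSpace (E n) N]

/-- functions which near `x` are the coordinates of `f` -/
theorem vert_of_near [IsManifold (𝓡 n) ∞ N] {f : X → N} {y₀ : N} {F : Fin n → X → ℝ} {x : X}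
    (hfx : MDifferentiableAt (𝓡 (n + 2)) (𝓡 n) f x) (hs : f x ∈ (chartAt (E n) y₀).source)
    (hF : ∀ j, F j =ᶠ[𝓝 x] fun x' => (chartAt (E n) y₀ (f x')) j) :
    (∀ v : TangentSpace (𝓡 (n + 2)) x, Vert F x v ↔ mfderiv (𝓡 (n + 2)) (𝓡 n) f x v = 0) ∧
      (Reg (d := n + 2) F x ↔ Function.Surjective (mfderiv (𝓡 (n + 2)) (𝓡 n) f x)) := by
  set φ := chartAt (E n) y₀ with hφ
  let Dφ : E n →L[ℝ] E n := mfderiv (𝓡 n) (𝓡 n) φ (f x)
  let Df : E (n + 2) →L[ℝ] E n := mfderiv (𝓡 (n + 2)) (𝓡 n) f x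
  have h2 : MDifferentiableAt (𝓡 n) (𝓡 n) φ (f x) :=
    ((contMDiffOn_chart (I := 𝓡 n) (n := ∞) (x := y₀)).contMDiffAt
      (φ.open_source.mem_nhds hs)).mdifferentiableAt (by simp)
  have h3 := h2.hasMFDerivAt.comp x hfx.hasMFDerivAt
  have hd : ∀ (v : E (n + 2)) (j : Fin n), dd (d := n + 2) (F j) x v = (Dφ (Df v)) j := by
    intro v j
    have h4 : HasMFDerivAt (𝓡 n) 𝓘(ℝ, ℝ) (EuclideanSpace.proj (𝕜 := ℝ) j : E n → ℝ) (φ (f x))
        (EuclideanSpace.proj (𝕜 := ℝ) j : E n →L[ℝ] ℝ) :=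
      (EuclideanSpace.proj (𝕜 := ℝ) j : E n →L[ℝ] ℝ).hasFDerivAt.hasMFDerivAt
    have h5 := ((h4.comp x h3).congr_of_eventuallyEq (hF j)).mfderiv
    exact congrArg (fun L => L v) h5
  have hAD : ∀ u : E n, A y₀ (φ (f x)) (Dφ u) = u := fun u =>
    A_kap y₀ (p := (⟨f x, u⟩ : TangentBundle (𝓡 n) N)) hs
  have hDi : ∀ u : E n, Dφ u = 0 → u = 0 := by
    intro u hu
    rw [← hAD u, hu, map_zero]
  have hDs : Function.Surjective Dφ := by
    have h1 : Function.Injective (Dφ : E n →ₗ[ℝ] E n) := by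
      intro a b hab
      have h2 : Dφ (a - b) = 0 := by
        rw [map_sub]
        exact sub_eq_zero.2 hab
      exact sub_eq_zero.1 (hDi _ h2)
    exact LinearMap.injective_iff_surjective.1 h1
  constructor
  · intro v
    constructor
    · intro h1
      refine hDi (Df v) ?_
      ext j
      exact (hd v j).symm.trans (h1 j)
    · intro h1 j
      have h4 : Df v = 0 := h1
      refine (hd v j).trans ?_
      rw [h4, map_zero]
      rfl
  · constructor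
    · intro h1
      intro (u : E n)
      obtain ⟨v, hv⟩ := h1 fun j => (Dφ u) j
      refine ⟨v, ?_⟩
      have h4 : Dφ (Df v - u) = 0 := by
        rw [map_sub]
        ext j
        show (Dφ (Df v)) j - (Dφ u) j = 0
        rw [← hd v j, hv j, sub_self]
      exact sub_eq_zero.1 (hDi _ h4)
    · intro h1 u
      obtain ⟨a, ha⟩ := hDs (WithLp.toLp 2 u)
      obtain ⟨v, hv⟩ := h1 a
      refine ⟨v, fun j => (hd v j).trans ?_⟩
      have h4 : Df v = a := hv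
      rw [h4, ha]

variable {J : End (n + 2) X} {K₀ : Set X} {s : Form (n + 2) X 2} {f : X → N} {w : Form n N 2}
  {τ : Form (n + 2) X 2}

variable [IsManifold (𝓡 (n + 2)) ∞ X] [IsManifold (𝓡 n) ∞ N]

/-- coordinates near a point off the base locus -/
theorem coord_near [CompactSpace X] [T2Space X] [T2Space N]
    (h : Sys J K₀ s f w) {y : N} {x₁ : X} (hx₁K : x₁ ∉ K₀) (hx₁ : f x₁ = y) :
    ∃ (F : Fin n → X → ℝ) (N₁ : Set X), IsOpen N₁ ∧ x₁ ∈ N₁ ∧ N₁ ⊆ K₀ᶜ ∧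
      (∀ j, SmoothFun (d := n + 2) (F j)) ∧
      (∀ x ∈ N₁, (∀ v : TangentSpace (𝓡 (n + 2)) x, Vert F x v ↔
        mfderiv (𝓡 (n + 2)) (𝓡 n) f x v = 0) ∧
        (Reg (d := n + 2) F x ↔ Function.Surjective (mfderiv (𝓡 (n + 2)) (𝓡 n) f x))) ∧
      ∀ x ∈ N₁, f x = y → ∀ j, F j x = (chartAt (E n) y y) j := by
  classical
  set φ := chartAt (E n) y with hφ
  have hsrc : y ∈ φ.source := mem_chart_source (E n) y
  have hK₀o : IsOpen K₀ᶜ := h.closed.isOpen_compl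
  have hfat : ∀ x ∉ K₀, ContMDiffAt (𝓡 (n + 2)) (𝓡 n) ∞ f x := fun x hx =>
    h.smooth.contMDiffAt (hK₀o.mem_nhds hx)
  let β : SmoothBumpFunction (𝓡 n) y := Classical.arbitrary _
  obtain ⟨B₁, hB₁1, hB₁o, hB₁m⟩ : ∃ B₁ ⊆ {z | β z = 1}, IsOpen B₁ ∧ y ∈ B₁ := by
    have h1 : ∀ᶠ z in 𝓝 y, β z = 1 := β.eventuallyEq_one
    exact mem_nhds_iff.1 h1
  have hB₁s : B₁ ⊆ φ.source := by
    intro z hz
    have h1 : β z ≠ 0 := by
      rw [hB₁1 hz]
      exact one_ne_zero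
    exact β.support_subset_source h1
  let θ : Fin n → N → ℝ := fun j z => β z • (φ z j)
  have hθ : ∀ j, ContMDiff (𝓡 n) 𝓘(ℝ, ℝ) ∞ (θ j) := by
    intro j
    refine β.contMDiff_smul (G := ℝ) ?_
    have h1 : ContMDiffOn (𝓡 n) (𝓡 n) ∞ φ φ.source := contMDiffOn_chart
    have h2 : ContMDiff 𝓘(ℝ, E n) 𝓘(ℝ, ℝ) ∞ (EuclideanSpace.proj (𝕜 := ℝ) j : E n → ℝ) :=
      (EuclideanSpace.proj (𝕜 := ℝ) j : E n →L[ℝ] ℝ).contDiff.contMDiff
    exact h2.comp_contMDiffOn h1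
  have hθ1 : ∀ j, ∀ z ∈ B₁, θ j z = φ z j := by
    intro j z hz
    show β z • (φ z j) = φ z j
    rw [hB₁1 hz, one_smul]
  obtain ⟨χ, -, hχK⟩ := (SmoothBumpFunction.nhds_basis_tsupport (I := 𝓡 (n + 2)) x₁).mem_iff.1
    (hK₀o.mem_nhds hx₁K)
  obtain ⟨W₁, hW₁1, hW₁o, hW₁m⟩ : ∃ W₁ ⊆ {z | χ z = 1}, IsOpen W₁ ∧ x₁ ∈ W₁ := by
    have h1 : ∀ᶠ z in 𝓝 x₁, χ z = 1 := χ.eventuallyEq_one
    exact mem_nhds_iff.1 h1
  let F : Fin n → X → ℝ := fun j x => χ x * θ j (f x)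
  have hF : ∀ j, SmoothFun (d := n + 2) (F j) := by
    intro j x
    by_cases hx : x ∈ K₀
    · have h1 : x ∉ tsupport χ := fun h2 => hχK h2 hx
      refine (contMDiffAt_const (c := (0 : ℝ))).congr_of_eventuallyEq ?_
      filter_upwards [(isClosed_tsupport χ).isOpen_compl.mem_nhds h1] with x' hx'
      show χ x' * θ j (f x') = 0
      rw [image_eq_zero_of_notMem_tsupport hx', zero_mul]
    · have h3 : ContMDiffAt (𝓡 (n + 2)) 𝓘(ℝ, ℝ) ∞ χ x := χ.contMDiff x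
      have h4 : ContMDiffAt (𝓡 (n + 2)) 𝓘(ℝ, ℝ) ∞ (fun x => θ j (f x)) x :=
        (hθ j).contMDiffAt.comp x (hfat x hx)
      exact h3.mul h4
  have hN₁o : IsOpen (W₁ ∩ (K₀ᶜ ∩ f ⁻¹' B₁)) :=
    hW₁o.inter (h.smooth.continuousOn.isOpen_inter_preimage hK₀o hB₁o)
  have hFx : ∀ x ∈ W₁ ∩ (K₀ᶜ ∩ f ⁻¹' B₁), ∀ j, F j x = (φ (f x)) j := by
    rintro x ⟨hx1, -, hx3⟩ j
    show χ x * θ j (f x) = _
    have h1 : χ x = 1 := hW₁1 hx1
    rw [h1, one_mul, hθ1 j _ hx3]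
  have hx₁N : x₁ ∈ W₁ ∩ (K₀ᶜ ∩ f ⁻¹' B₁) := ⟨hW₁m, hx₁K, by
    show f x₁ ∈ B₁
    rw [hx₁]
    exact hB₁m⟩
  have hvn : ∀ x ∈ W₁ ∩ (K₀ᶜ ∩ f ⁻¹' B₁),
      (∀ v : TangentSpace (𝓡 (n + 2)) x, Vert F x v ↔ mfderiv (𝓡 (n + 2)) (𝓡 n) f x v = 0) ∧
      (Reg (d := n + 2) F x ↔ Function.Surjective (mfderiv (𝓡 (n + 2)) (𝓡 n) f x)) := by
    intro x hx
    refine vert_of_near ((hfat x hx.2.1).mdifferentiableAt (by simp)) (hB₁s hx.2.2) fun j => ?_
    filter_upwards [hN₁o.mem_nhds hx] with x' hx'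
    exact hFx x' hx' j
  have hb : ∀ x ∈ W₁ ∩ (K₀ᶜ ∩ f ⁻¹' B₁), f x = y → ∀ j, F j x = (φ y) j := by
    intro x hx hxy j
    rw [hFx x hx j, hxy]
  exact ⟨F, _, hN₁o, hx₁N, fun x hx => hx.2.1, hF, hvn, hb⟩

/-- local data at the regular points -/
theorem loc_at [CompactSpace X] [T2Space X] [T2Space N]
    [MeasurableSpace (TangentBundle (𝓡 (n + 2)) X)] [BorelSpace (TangentBundle (𝓡 (n + 2)) X)]
    (hLOC : S_LOC) (hJ : IsAlmostComplex J) (hτs : IsSmooth τ) (hτ : ∀ x, TamesAt τ J x)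
    (h : Sys J K₀ s f w) {y : N} {D : Set (TangentBundle (𝓡 (n + 2)) X)} (hD : IsCompact D)
    (hDK : D ⊆ KY J τ s f y) {x₁ : X} (hx₁K : x₁ ∉ K₀) (hx₁ : f x₁ = y)
    (hs₁ : Function.Surjective (mfderiv (𝓡 (n + 2)) (𝓡 n) f x₁)) :
    ∃ (F : Fin n → X → ℝ) (b : Fin n → ℝ) (O : Set X) (κ : Form (n + 2) X 2)
      (I : Form (n + 2) X 2 → ℝ), LocD J τ F b D x₁ O κ I ∧
        ∀ z ∈ O, z ∉ K₀ → f z = y → ∀ j, F j z = b j := by
  obtain ⟨F, N₁, hN₁o, hx₁N, hNK, hF, hvn, hb⟩ := coord_near h hx₁K hx₁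
  obtain ⟨O, κ, I, hO, hL⟩ := hLOC n X J τ F (fun j => (chartAt (E n) y y) j) D x₁ N₁ hJ hτs hτ hF
    hD (fun p hp => (hDK hp).1.1) (hN₁o.mem_nhds hx₁N) (hb x₁ hx₁N hx₁) ((hvn x₁ hx₁N).2.2 hs₁)
    (fun x hx v hv => ((hvn x hx).1 (J x v)).2 (h.ker hJ (hNK hx) (((hvn x hx).1 v).1 hv)))
    (fun p hp hpN j => ⟨hb p.proj hpN (hDK hp).2 j,
      ((hvn p.proj hpN).1 p.snd).2 (h.null p.proj (hNK hpN) p.snd (hDK hp).1.2) j⟩)
  exact ⟨F, fun j => (chartAt (E n) y y) j, O, κ, I, hL, fun z hz _ hzy => hb z (hO hz) hzy⟩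

/-- `μ` charges all neighbourhoods of `x` -/
def Ch [MeasurableSpace (TangentBundle (𝓡 (n + 2)) X)]
    (μ : Measure (TangentBundle (𝓡 (n + 2)) X)) (x : X) : Prop :=
  ∀ U ∈ 𝓝 x, μ (Bundle.TotalSpace.proj ⁻¹' U) ≠ 0

/-- a bump function has positive integral if and only if its support is charged -/
theorem int_bump_pos [CompactSpace X] [T2Space X]
    [MeasurableSpace (TangentBundle (𝓡 (n + 2)) X)] [BorelSpace (TangentBundle (𝓡 (n + 2)) X)]
    {D : Set (TangentBundle (𝓡 (n + 2)) X)} (hD : IsCompact D)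
    {μ : Measure (TangentBundle (𝓡 (n + 2)) X)} (hμ : CC J D μ) {u : X → ℝ}
    (hu : SmoothFun (d := n + 2) u) (hu0 : ∀ x, 0 ≤ u x) :
    (∀ x, 0 < u x → Ch μ x → 0 < ∫ p, u p.proj ∂μ) ∧
      ∀ U : Set X, tsupport u ⊆ U → 0 < ∫ p, u p.proj ∂μ →
        μ (Bundle.TotalSpace.proj ⁻¹' U) ≠ 0 := by
  have := hμ.fin
  have hpr : Continuous (Bundle.TotalSpace.proj : TangentBundle (𝓡 (n + 2)) X → X) :=
    FiberBundle.continuous_proj (E (n + 2)) (TangentSpace (𝓡 (n + 2)))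
  have huc : Continuous (fun p : TangentBundle (𝓡 (n + 2)) X => u p.proj) :=
    hu.continuous.comp hpr
  have hint := int_cont hD (cc_ae hμ) huc
  constructor
  · intro x hx hch
    rw [integral_pos_iff_support_of_nonneg_ae (Eventually.of_forall fun p => hu0 _) hint]
    have h1 : u ⁻¹' Ioi 0 ∈ 𝓝 x := (isOpen_Ioi.preimage hu.continuous).mem_nhds hx
    refine pos_iff_ne_zero.2 fun h2 => hch _ h1 (measure_mono_null ?_ h2)
    intro p hp
    exact Function.mem_support.2 (ne_of_gt hp)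
  · intro U hU hpos h0
    refine hpos.ne' ?_
    refine integral_eq_zero_of_ae ?_
    have h1 : ∀ᵐ p ∂μ, p ∉ (Bundle.TotalSpace.proj ⁻¹' U : Set (TangentBundle (𝓡 (n + 2)) X)) :=
      measure_eq_zero_iff_ae_notMem.1 h0
    filter_upwards [h1] with p hp
    show u p.proj = 0
    exact image_eq_zero_of_notMem_tsupport fun h2 => hp (hU h2)

/-- charging propagates along the regular part of a fibre -/
theorem ch_local [CompactSpace X] [T2Space X]
    [MeasurableSpace (TangentBundle (𝓡 (n + 2)) X)] [BorelSpace (TangentBundle (𝓡 (n + 2)) X)]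
    (hτs : IsSmooth τ) {D : Set (TangentBundle (𝓡 (n + 2)) X)} (hD : IsCompact D)
    (hDq : ∀ p ∈ D, qq τ J p = 1) {μ : Measure (TangentBundle (𝓡 (n + 2)) X)} (hμ : CC J D μ)
    {F : Fin n → X → ℝ} {b : Fin n → ℝ} {x₁ : X} {O : Set X} {κ : Form (n + 2) X 2}
    {I : Form (n + 2) X 2 → ℝ} (hL : LocD J τ F b D x₁ O κ I) (hb₁ : ∀ j, F j x₁ = b j)
    (hch : Ch μ x₁) {z : X} (hz : z ∈ O) (hbz : ∀ j, F j z = b j) : Ch μ z := by
  have hsup : ∀ {u : X → ℝ} {W : Set X}, tsupport u ⊆ W →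
      SuppIn (fun x => u x • τ x : Form (n + 2) X 2) W := by
    intro u W hW
    refine ⟨tsupport u, isClosed_tsupport _, hW, ?_⟩
    intro z hz
    show u z • τ z = 0
    rw [image_eq_zero_of_notMem_tsupport hz, zero_smul]
  have hform : ∀ {u : X → ℝ}, SmoothFun (d := n + 2) u → tsupport u ⊆ O →
      ∫ p, u p.proj ∂μ = I (fun x => u x • τ x) * ∫ p, qq κ J p ∂μ := by
    intro u hu hut
    rw [← hL.formula μ hμ _ (smooth_mul hu hτs) (hsup hut)]
    apply integral_congr_ae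
    filter_upwards [cc_ae hμ] with p hp
    show u p.proj = u p.proj * qq τ J p
    rw [hDq p hp, mul_one]
  -- the integral of `κ` is positive
  have hκ : 0 < ∫ p, qq κ J p ∂μ := by
    obtain ⟨u, hu, hu0, hut, hux⟩ := exists_bump (d := n + 2) (hL.isOpen.mem_nhds hL.mem)
    have h1 := (int_bump_pos hD hμ hu hu0).1 x₁ hux hch
    rw [hform hu hut] at h1
    exact pos_of_mul_pos_right h1 (hL.ipos u hu hu0 hut ⟨x₁, hb₁, hux⟩).le
  intro U hU
  obtain ⟨u, hu, hu0, hut, huz⟩ := exists_bump (d := n + 2)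
    (Filter.inter_mem hU (hL.isOpen.mem_nhds hz))
  have h1 : 0 < ∫ p, u p.proj ∂μ := by
    rw [hform hu (hut.trans inter_subset_right)]
    exact mul_pos (hL.ipos u hu hu0 (hut.trans inter_subset_right) ⟨z, hbz, huz⟩) hκ
  exact (int_bump_pos hD hμ hu hu0).2 U (hut.trans inter_subset_left) h1

/-- the regular part of the fibre over `y` -/
def Zr (K₀ : Set X) (f : X → N) (y : N) : Set X :=
  {x | (x ∉ K₀ ∧ f x = y) ∧ Function.Surjective (mfderiv (𝓡 (n + 2)) (𝓡 n) f x)}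

/-- charging is constant on connected sets of regular points of the fibre -/
theorem ch_conn [CompactSpace X] [T2Space X] [T2Space N]
    [MeasurableSpace (TangentBundle (𝓡 (n + 2)) X)] [BorelSpace (TangentBundle (𝓡 (n + 2)) X)]
    (hLOC : S_LOC) (hJ : IsAlmostComplex J) (hτs : IsSmooth τ) (hτ : ∀ x, TamesAt τ J x)
    (h : Sys J K₀ s f w) {y : N} {D : Set (TangentBundle (𝓡 (n + 2)) X)} (hD : IsCompact D)
    (hDK : D ⊆ KY J τ s f y) {μ : Measure (TangentBundle (𝓡 (n + 2)) X)} (hμ : CC J D μ)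
    {S : Set X} (hS : IsPreconnected S) (hSZ : S ⊆ Zr (n := n) K₀ f y) {x x' : X} (hx : x ∈ S)
    (hx' : x' ∈ S) (hch : Ch μ x) : Ch μ x' := by
  have hDq : ∀ p ∈ D, qq τ J p = 1 := fun p hp => (hDK hp).1.1
  have key : ∀ z ∈ S, ∀ᶠ z' in 𝓝[S] z, (Ch μ z ↔ Ch μ z') := by
    intro z hz
    by_cases hc : Ch μ z
    · obtain ⟨⟨hzK, hzy⟩, hzs⟩ := hSZ hz
      obtain ⟨F, b, O, κ, I, hL, hb⟩ := loc_at hLOC hJ hτs hτ h hD hDK hzK hzy hzs
      filter_upwards [mem_nhdsWithin_of_mem_nhds (hL.isOpen.mem_nhds hL.mem),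
        self_mem_nhdsWithin] with z' hz'O hz'S
      obtain ⟨⟨hz'K, hz'y⟩, -⟩ := hSZ hz'S
      exact ⟨fun _ => ch_local hτs hD hDq hμ hL (hb z hL.mem hzK hzy) hc hz'O
        (hb z' hz'O hz'K hz'y), fun _ => hc⟩
    · have h1 := hc
      unfold Ch at h1
      push Not at h1
      obtain ⟨U, hU, hU0⟩ := h1
      filter_upwards [mem_nhdsWithin_of_mem_nhds (interior_mem_nhds.2 hU)] with z' hz'
      exact ⟨fun h2 => absurd h2 hc, fun h2 => absurd hU0 (h2 U (mem_interior_iff_mem_nhds.1 hz'))⟩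
  have h1 := hS.induction₂ (fun a b => Ch μ a ↔ Ch μ b) key
    (fun a b c _ _ _ hab hbc => hab.trans hbc) (fun a b _ _ hab => hab.symm) hx hx'
  exact h1.1 hch

/-- **semipositivity on the components of the fibre** -/
theorem semi_goodN [CompactSpace X] [T2Space X] [T2Space N]
    (hLOC : S_LOC) (hPT : S_PT) (hJ : IsAlmostComplex J) (hτs : IsSmooth τ)
    (hτ : ∀ x, TamesAt τ J x) (h : Sys J K₀ s f w) {ζ : Form (n + 2) X 2} (hζ : IsSmooth ζ)
    {y : N} (hcount : {x | (x ∉ K₀ ∧ f x = y) ∧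
      ¬ Function.Surjective (mfderiv (𝓡 (n + 2)) (𝓡 n) f x)}.Countable)
    {ρ : Form (n + 2) X 2} (hρ : ExactF ρ)
    (hnn : ∀ x ∉ K₀, f x = y → ∀ v : TangentSpace (𝓡 (n + 2)) x, q s J x v = 0 →
      0 ≤ q (ζ + ρ) J x v)
    (hcomp : ∀ x ∈ Zr (n := n) K₀ f y, ∃ x' ∈ connectedComponentIn (Zr (n := n) K₀ f y) x,
      (∀ v : TangentSpace (𝓡 (n + 2)) x', v ≠ 0 → 0 < q s J x' v) ∨
      ∃ v : TangentSpace (𝓡 (n + 2)) x', q s J x' v = 0 ∧ 0 < q (ζ + ρ) J x' v) :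
    GoodN J K₀ s f ζ y := by
  let _ : MeasurableSpace (TangentBundle (𝓡 (n + 2)) X) := borel _
  have _ : BorelSpace (TangentBundle (𝓡 (n + 2)) X) := ⟨rfl⟩
  have hT2 := tb_t2 (d := n + 2) (X := X)
  have hpr : Continuous (Bundle.TotalSpace.proj : TangentBundle (𝓡 (n + 2)) X → X) :=
    FiberBundle.continuous_proj (E (n + 2)) (TangentSpace (𝓡 (n + 2)))
  set η := ζ + ρ with hηd
  have hη : IsSmooth η := hζ.add (exactF_smooth hρ)
  have hηc := qq_cont hη hJ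
  by_contra hg
  have hno : ¬ HasP J (∅ : Set (Form (n + 2) X 2)) η (KY J τ s f y) := by
    rintro ⟨ρ', hρ', h1⟩
    refine hg ((bad_hasP hτ h).1 ⟨ρ + ρ', exactF_mem (exactF_add hρ (ws_exact hρ')),
      fun p hp => ?_⟩)
    have h2 := h1 p hp
    have h3 : qq (ζ + (ρ + ρ')) J p = qq (η + ρ') J p := by
      rw [hηd, qq_add, qq_add, qq_add, qq_add]
      ring
    rw [h3]
    exact h2
  have hN : ∀ σ ∈ (∅ : Set (Form (n + 2) X 2)), IsSmooth σ :=
    fun σ hσ => absurd hσ (notMem_empty σ)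
  obtain ⟨D, hDK, hD, hDn, hmin⟩ := exists_min hJ hN hη (KY_compact hJ hτs hτ h y) hno
  obtain ⟨μ, hμ⟩ := exists_cr hJ hN hη hD hDn
  have hfull := fun (p : TangentBundle (𝓡 (n + 2)) X) (hp : p ∈ D) =>
    full_support hJ hN hη hD hmin hμ hp
  have hμc : CC J D μ := ⟨hμ.fin, hμ.car, fun ρ hρ => hμ.orth ρ (exactF_mem hρ)⟩
  have := hμ.fin
  have hηn : ∀ p ∈ D, 0 ≤ qq η J p := fun p hp =>
    hnn p.proj (KN_off h (hDK hp).1) (hDK hp).2 p.snd (hDK hp).1.2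
  have hch : ∀ p ∈ D, Ch μ p.proj := by
    intro p hp U hU h0
    refine hfull p hp (Bundle.TotalSpace.proj ⁻¹' interior U) (isOpen_interior.preimage hpr)
      (mem_interior_iff_mem_nhds.2 hU) (measure_mono_null ?_ h0)
    exact preimage_mono interior_subset
  -- no regular point is charged
  have hreg : ∀ x ∈ Zr (n := n) K₀ f y, ¬ Ch μ x := by
    intro x hx hc
    obtain ⟨x', hx', hcase⟩ := hcomp x hx
    have hxs : x ∈ connectedComponentIn (Zr (n := n) K₀ f y) x := mem_connectedComponentIn hx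
    have hc' : Ch μ x' := ch_conn hLOC hJ hτs hτ h hD hDK hμc
      isPreconnected_connectedComponentIn (connectedComponentIn_subset _ _) hxs hx' hc
    obtain ⟨⟨hx'K, hx'y⟩, hx's⟩ := connectedComponentIn_subset _ _ hx'
    -- positivity of `η` on the vectors of `D` over `x'`
    have hpos : ∀ p ∈ D, p.proj = x' → 0 < qq η J p := by
      rcases hcase with hP | ⟨v₀, hv₀s, hv₀⟩
      · intro p hp hpx
        exfalso
        have h1 : p.snd ≠ 0 := ne_zero_of_unit (hDK hp).1.1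
        have h2 : q s J p.proj p.snd = 0 := (hDK hp).1.2
        subst hpx
        exact absurd h2 (hP p.snd h1).ne'
      · rintro ⟨z, v⟩ hp hpx
        have hzx : z = x' := hpx
        subst hzx
        have hvs : q s J z v = 0 := (hDK hp).1.2
        have hv0 : v ≠ 0 := ne_zero_of_unit (hDK hp).1.1
        have hv₀0 : v₀ ≠ 0 := by
          rintro rfl
          rw [q_zero] at hv₀
          exact lt_irrefl _ hv₀
        -- coordinates near `z`
        obtain ⟨F, N₁, -, hzN, -, -, hvn, -⟩ := coord_near h hx'K hx'y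
        obtain ⟨hFv, hFr⟩ := hvn z hzN
        obtain ⟨a, c, hac⟩ := vert_line hJ (hFr.2 hx's)
          (fun u hu => (hFv _).2 (h.ker hJ hx'K ((hFv _).1 hu))) hv₀0
          ((hFv _).2 (h.null z hx'K _ hv₀s)) ((hFv _).2 (h.null z hx'K _ hvs))
        show 0 < q η J z v
        rw [hac, q_line hJ]
        refine mul_pos ?_ hv₀
        by_contra h1
        push Not at h1
        have ha : a = 0 := by nlinarith [sq_nonneg a, sq_nonneg c]
        have hc : c = 0 := by nlinarith [sq_nonneg a, sq_nonneg c]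
        apply hv0
        rw [hac, ha, hc, zero_smul, zero_smul, add_zero]
    -- positivity near `x'`
    obtain ⟨c₀, hc₀, hc₀'⟩ : ∃ c₀ : ℝ, 0 < c₀ ∧ ∀ p ∈ D, p.proj = x' → c₀ < qq η J p := by
      rcases (D ∩ {p | p.proj = x'}).eq_empty_or_nonempty with he | hne
      · refine ⟨1, one_pos, fun p hp hpx => ?_⟩
        have h2 : p ∈ D ∩ {p | p.proj = x'} := ⟨hp, hpx⟩
        rw [he] at h2
        exact absurd h2 (notMem_empty p)
      · obtain ⟨p₀, hp₀, hmin⟩ := (hD.inter_right (isClosed_eq hpr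
          continuous_const)).exists_isMinOn hne hηc.continuousOn
        have h1 := hpos p₀ hp₀.1 hp₀.2
        exact ⟨qq η J p₀ / 2, by positivity, fun p hp hpx => by
          have h2 : qq η J p₀ ≤ qq η J p := hmin ⟨hp, hpx⟩
          linarith⟩
    have hB : IsCompact (D ∩ {p | qq η J p ≤ c₀}) :=
      hD.inter_right (isClosed_le hηc continuous_const)
    have hI := (hB.image hpr).isClosed
    have hx'I : x' ∉ Bundle.TotalSpace.proj '' (D ∩ {p | qq η J p ≤ c₀}) := by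
      rintro ⟨p, ⟨hp1, hp2⟩, hp3⟩
      exact absurd hp2 (not_le.2 (hc₀' p hp1 hp3))
    obtain ⟨u, hu, hu0, hut, hux⟩ := exists_bump (d := n + 2) (hI.isOpen_compl.mem_nhds hx'I)
    have hup := (int_bump_pos hD hμc hu hu0).1 x' hux hc'
    obtain ⟨C, hC⟩ := (isCompact_univ (X := X)).exists_bound_of_continuousOn
      hu.continuous.continuousOn
    have hC1 : ∀ x, u x ≤ |C| + 1 := fun x => by
      have h1 := (le_abs_self _).trans ((hC x (mem_univ x)).trans (le_abs_self _))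
      linarith
    have hCp : 0 < |C| + 1 := by positivity
    have hle : ∀ p ∈ D, c₀ / (|C| + 1) * u p.proj ≤ qq η J p := by
      intro p hp
      by_cases hpu : u p.proj = 0
      · rw [hpu, mul_zero]
        exact hηn p hp
      · have h1 : p.proj ∉ Bundle.TotalSpace.proj '' (D ∩ {p | qq η J p ≤ c₀}) :=
          hut (subset_tsupport _ hpu)
        have h2 : c₀ < qq η J p := by
          by_contra h3
          exact h1 ⟨p, ⟨hp, not_lt.1 h3⟩, rfl⟩
        calc c₀ / (|C| + 1) * u p.proj ≤ c₀ / (|C| + 1) * (|C| + 1) :=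
              mul_le_mul_of_nonneg_left (hC1 _) (by positivity)
          _ = c₀ := by field_simp
          _ ≤ qq η J p := h2.le
    have huc : Continuous (fun p : TangentBundle (𝓡 (n + 2)) X => u p.proj) :=
      hu.continuous.comp hpr
    have h1 : ∫ p, c₀ / (|C| + 1) * u p.proj ∂μ ≤ ∫ p, qq η J p ∂μ := by
      refine integral_mono_ae (int_cont hD hμ.ae (continuous_const.mul huc))
        (int_cont hD hμ.ae hηc) (hμ.ae.mono fun p hp => hle p hp)
    rw [integral_const_mul] at h1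
    have h2 : 0 < c₀ / (|C| + 1) * ∫ p, u p.proj ∂μ := mul_pos (by positivity) hup
    have h3 := hμ.le
    linarith
  -- so `μ` is carried by the critical points
  refine hμ.ne ?_
  rw [← Measure.measure_univ_eq_zero]
  have h1 : μ (⋃ x ∈ {x | (x ∉ K₀ ∧ f x = y) ∧
      ¬ Function.Surjective (mfderiv (𝓡 (n + 2)) (𝓡 n) f x)},
      Bundle.TotalSpace.proj ⁻¹' {x}) = 0 :=
    (measure_biUnion_null_iff hcount).2 fun x _ =>
      hPT (n + 2) X J τ _ μ hJ hτs hD (fun p hp => (hDK hp).1.1) hμc x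
  refine measure_mono_null (t := Dᶜ ∪ ⋃ x ∈ {x | (x ∉ K₀ ∧ f x = y) ∧
      ¬ Function.Surjective (mfderiv (𝓡 (n + 2)) (𝓡 n) f x)},
      Bundle.TotalSpace.proj ⁻¹' {x}) ?_ (measure_union_null hμ.car h1)
  intro p _
  by_cases hp : p ∈ D
  · refine Or.inr (mem_iUnion₂.2 ⟨p.proj, ⟨⟨KN_off h (hDK hp).1, (hDK hp).2⟩, fun hs => ?_⟩, rfl⟩)
    exact hreg p.proj ⟨⟨KN_off h (hDK hp).1, (hDK hp).2⟩, hs⟩ (hch p hp)
  · exact Or.inl hp

end Pool.Agent.L7h49.OG
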