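import Pool.Agent.L7h49.OF.Sys4
import Pool.Agent.L7h49.OF.Main

/-!
# Maps with a base locus: all parts put together
-/

set_option autoImplicit false

open Set Filter Topology MeasureTheory
open scoped Manifold ContDiff

noncomputable section

namespace Pool.Agent.L7h49.OG

open Pool.Agent.Y501.SY
open Pool.Agent.N13.TL
open Pool.Agent.L7h49.TS (qq qq_cont unit_compact tb_t2 HasP WS Cr exists_cr qq_add qq_smul qq_zero
  exactF_zero exactF_add exactF_smul exactF_mem int_cont ne_zero_of_unit)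
open Pool.Agent.R772 (ExactF)

variable {n : ℕ} {X N : Type} [TopologicalSpace X] [ChartedSpace (E (n + 2)) X]
  [TopologicalSpace N] [ChartedSpace (E n) N]

/-- `ζ` is bounded above on the null vectors over `y`, up to exact forms, by all forms which
tame `J` -/
def NonposTN (J : End (n + 2) X) (K₀ : Set X) (s : Form (n + 2) X 2) (f : X → N)
    (ζ : Form (n + 2) X 2) (y : N) : Prop :=
  ∀ τ : Form (n + 2) X 2, IsSmooth τ → (∀ x, TamesAt τ J x) →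
    ∃ ρ : Form (n + 2) X 2, ExactF ρ ∧ ∀ x ∉ K₀, f x = y →
      ∀ v : TangentSpace (𝓡 (n + 2)) x, q s J x v = 0 → q (ζ + ρ) J x v ≤ q τ J x v

theorem NonposTN.nonpos {J : End (n + 2) X} {K₀ : Set X} {s : Form (n + 2) X 2} {f : X → N}
    {ζ : Form (n + 2) X 2} {y : N}
    (h : NonposTN J K₀ s f ζ y) {τ : Form (n + 2) X 2} (hτs : IsSmooth τ)
    (hτ : ∀ x, TamesAt τ J x) : NonposN J τ K₀ s f ζ y := by
  intro ε hε
  obtain ⟨ρ, hρ, h1⟩ := h (ε • τ) (hτs.smul ε) fun x v hv => by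
    show 0 < q (ε • τ) J x v
    rw [q_smul]
    exact mul_pos hε (hτ x v hv)
  exact ⟨ρ, hρ, fun x hxK hx v hv => by
    have h2 := h1 x hxK hx v hv
    rwa [q_smul] at h2⟩

/-- a tame fibre near which every closed form is a multiple of one form up to exact forms -/
structure RankN (J : End (n + 2) X) (K₀ : Set X) (f : X → N) (w : Form n N 2) (y : N) :
    Prop where
  base : ∃ I₀ : E n →ₗ[ℝ] E n, (∀ v, I₀ (I₀ v) = -v) ∧ ∀ u : E n, u ≠ 0 → 0 < w y ![u, I₀ u]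
  reg : ∀ V ∈ 𝓝 y, ∃ x ∉ K₀, f x ∈ V ∧ Function.Surjective (mfderiv (𝓡 (n + 2)) (𝓡 n) f x)
  form : ∃ κ : Form (n + 2) X 2, IsSmooth κ ∧ (∃ V ∈ 𝓝 y, ClosedOn κ (f ⁻¹' V ∩ K₀ᶜ)) ∧
    (∀ x ∉ K₀, f x = y → ∀ v : TangentSpace (𝓡 (n + 2)) x, v ≠ 0 →
      mfderiv (𝓡 (n + 2)) (𝓡 n) f x v = 0 → 0 < q κ J x v) ∧
    ∀ ζ : Form (n + 2) X 2, IsSmooth ζ → IsClosedForm ζ → ∃ (t : ℝ) (ρ : Form (n + 2) X 2),
      ExactF ρ ∧ ∃ V ∈ 𝓝 y, ∀ x ∉ K₀, f x ∈ V → (ζ + ρ) x = t • κ x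

variable {J : End (n + 2) X} {K₀ : Set X} {s : Form (n + 2) X 2} {f : X → N} {w : Form n N 2}

theorem RankN.tame {y : N} (h : RankN J K₀ f w y) : TameN J K₀ f w y := by
  obtain ⟨κ, h1, h2, h3, -⟩ := h.form
  exact ⟨h.base, h.reg, κ, h1, h2, h3⟩

/-- closed forms have a sign on tame fibres of rank one -/
theorem RankN.sign (hS : Sys J K₀ s f w) {y : N}
    (h : RankN J K₀ f w y) {ζ : Form (n + 2) X 2} (hζ : IsSmooth ζ) (hζc : IsClosedForm ζ) :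
    GoodN J K₀ s f ζ y ∨ NonposTN J K₀ s f ζ y := by
  obtain ⟨κ, h1, h2, h3, h4⟩ := h.form
  obtain ⟨t, ρ, hρ, V, hV, h5⟩ := h4 ζ hζ hζc
  have h6 : ∀ x ∉ K₀, f x = y → ∀ v : TangentSpace (𝓡 (n + 2)) x,
      q (ζ + ρ) J x v = t * q κ J x v := by
    intro x hxK hx v
    have h7 := h5 x hxK (by rw [hx]; exact mem_of_mem_nhds hV)
    show (ζ + ρ) x ![v, J x v] = t * κ x ![v, J x v]
    rw [h7]
    rfl
  rcases lt_or_ge 0 t with ht | ht
  · refine Or.inl ⟨ρ, hρ, fun x hxK hx v hv hvv => ?_⟩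
    rw [h6 x hxK hx]
    exact mul_pos ht (h3 x hxK hx v hv (hS.null x hxK v hvv))
  · refine Or.inr fun τ _ hτ => ⟨ρ, hρ, fun x hxK hx v hvv => ?_⟩
    rw [h6 x hxK hx]
    have h7 : 0 ≤ q κ J x v := by
      by_cases hv : v = 0
      · rw [hv, q_zero]
      · exact (h3 x hxK hx v hv (hS.null x hxK v hvv)).le
    exact (mul_nonpos_of_nonpos_of_nonneg ht h7).trans (q_nonneg (hτ x) v)

variable {τ : Form (n + 2) X 2} [IsManifold (𝓡 (n + 2)) ∞ X]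

/-- a fibre on which `0` is good is good for all forms -/
theorem good_zeroN [CompactSpace X] [T2Space X] [T2Space N]
    (hJ : IsAlmostComplex J) (hτs : IsSmooth τ) (hτ : ∀ x, TamesAt τ J x) (h : Sys J K₀ s f w)
    {y : N} (hg : GoodN J K₀ s f 0 y) {ζ : Form (n + 2) X 2} (hζ : IsSmooth ζ) :
    GoodN J K₀ s f ζ y := by
  obtain ⟨ρ, hρ, h1⟩ := hg
  have hK := KY_compact hJ hτs hτ h y
  have hc := qq_cont (exactF_smooth hρ) hJ
  have hcζ := qq_cont hζ hJ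
  have h0 : (0 : Form (n + 2) X 2) + ρ = ρ := zero_add ρ
  have hp : ∀ p ∈ KY J τ s f y, 0 < qq ρ J p := by
    intro p hp
    have h2 := h1 p.proj (KN_off h hp.1) hp.2 p.snd (ne_zero_of_unit hp.1.1) hp.1.2
    rw [h0] at h2
    exact h2
  obtain ⟨M, hM⟩ := hK.exists_bound_of_continuousOn hcζ.continuousOn
  obtain ⟨c, hc0, hc1⟩ : ∃ c : ℝ, 0 < c ∧ ∀ p ∈ KY J τ s f y, c ≤ qq ρ J p := by
    rcases (KY J τ s f y).eq_empty_or_nonempty with he | hne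
    · refine ⟨1, one_pos, fun p hp => ?_⟩
      rw [he] at hp
      exact absurd hp (notMem_empty p)
    · obtain ⟨p₀, hp₀, hmin⟩ := hK.exists_isMinOn hne hc.continuousOn
      exact ⟨qq ρ J p₀, hp p₀ hp₀, fun p hp => hmin hp⟩
  refine ⟨((|M| + 1) / c) • ρ, exactF_smul _ hρ, fun x hxK hx v hv hvv => ?_⟩
  refine good_of_unitN (S := {x | f x = y}) hτ (fun p hp' hpx => ?_) hx v hv hvv
  have h2 : p ∈ KY J τ s f y := ⟨hp', hpx⟩
  have h3 := hM p h2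
  have h4 := hc1 p h2
  have h5 : -|M| ≤ qq ζ J p := (abs_le.1 ((h3 : |qq ζ J p| ≤ M).trans (le_abs_self M))).1
  rw [qq_add, qq_smul]
  have h6 : |M| + 1 ≤ (|M| + 1) / c * qq ρ J p := by
    calc |M| + 1 = (|M| + 1) / c * c := by field_simp
      _ ≤ (|M| + 1) / c * qq ρ J p := mul_le_mul_of_nonneg_left h4 (by positivity)
  linarith

/-- a set whose closure meets the base locus contains points where `s` is positive -/
theorem meets_pos [CompactSpace X] [T2Space X]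
    (hJ : IsAlmostComplex J) (hτs : IsSmooth τ) (hτ : ∀ x, TamesAt τ J x) (h : Sys J K₀ s f w)
    {C : Set X} (hC : (closure C ∩ K₀).Nonempty) :
    ∃ x' ∈ C, ∀ v : TangentSpace (𝓡 (n + 2)) x', v ≠ 0 → 0 < q s J x' v := by
  have hpr : Continuous (Bundle.TotalSpace.proj : TangentBundle (𝓡 (n + 2)) X → X) :=
    FiberBundle.continuous_proj (E (n + 2)) (TangentSpace (𝓡 (n + 2)))
  have hc : IsClosed (Bundle.TotalSpace.proj '' KN J τ s : Set X) :=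
    ((KN_compact hJ hτs hτ h.ssmooth).image hpr).isClosed
  obtain ⟨x, hx, hxK⟩ := hC
  have h1 : x ∉ (Bundle.TotalSpace.proj '' KN J τ s : Set X) := by
    rintro ⟨p, hp, rfl⟩
    exact KN_off h hp hxK
  obtain ⟨x', hx'1, hx'2⟩ := mem_closure_iff.1 hx _ hc.isOpen_compl h1
  refine ⟨x', hx'2, fun v hv => lt_of_le_of_ne (h.nonneg x' v) fun h0 => ?_⟩
  have h2 := good_of_unitN (τ := τ) (s := s) (η := (0 : Form (n + 2) X 2)) (S := {x'}) hτ
    (fun p hp hpx => absurd ⟨p, hp, hpx⟩ hx'1) (mem_singleton x') v hv h0.symm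
  have h3 : q (0 : Form (n + 2) X 2) J x' v = 0 := rfl
  rw [h3] at h2
  exact lt_irrefl _ h2

variable [IsManifold (𝓡 n) ∞ N]

/-- fibres all components of which meet the base locus -/
theorem base_goodN [CompactSpace X] [T2Space X] [T2Space N]
    (hJ : IsAlmostComplex J) (hτs : IsSmooth τ) (hτ : ∀ x, TamesAt τ J x) (h : Sys J K₀ s f w)
    {y : N} (hcount : {x | (x ∉ K₀ ∧ f x = y) ∧
      ¬ Function.Surjective (mfderiv (𝓡 (n + 2)) (𝓡 n) f x)}.Countable)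
    (hcomp : ∀ x ∈ Zr (n := n) K₀ f y,
      (closure (connectedComponentIn (Zr (n := n) K₀ f y) x) ∩ K₀).Nonempty) :
    GoodN J K₀ s f 0 y := by
  refine semi_goodN h_LOC h_PT hJ hτs hτ h (exactF_smooth exactF_zero) hcount exactF_zero
    (fun x _ _ v _ => ?_) (fun x hx => ?_)
  · have h1 : (0 : Form (n + 2) X 2) + 0 = 0 := add_zero 0
    rw [h1]
    exact le_of_eq rfl
  · obtain ⟨x', h1, h2⟩ := meets_pos hJ hτs hτ h (hcomp x hx)
    exact ⟨x', h1, Or.inl h2⟩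

/-- all fibres are good -/
theorem finalN [CompactSpace X] [T2Space X] [T2Space N] [PreconnectedSpace N]
    (hJ : IsAlmostComplex J) (hτs : IsSmooth τ) (hτ : ∀ x, TamesAt τ J x) (h : Sys J K₀ s f w)
    {ζ : Form (n + 2) X 2} (hζ : IsSmooth ζ) (hζc : IsClosedForm ζ)
    (hirr : ∀ y, (ProperY J K₀ s f y ∧ IrrN (n := n) K₀ f y) ∨ GoodN J K₀ s f ζ y ∨
      (ProperY J K₀ s f y ∧ TameN J K₀ f w y ∧ NonposTN J K₀ s f ζ y))
    {y₀ : N} (hg : GoodN J K₀ s f ζ y₀) (y : N) : GoodN J K₀ s f ζ y := by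
  refine all_goodN tools h_LOC h_UNI h_PT hJ hτs hτ h hζ hζc (fun y => ?_) hg y
  rcases hirr y with h1 | h1 | ⟨h1, h2, h3⟩
  · exact Or.inl h1
  · exact Or.inr (Or.inl h1)
  · exact Or.inr (Or.inr ⟨h1, h2, h3.nonpos hτs hτ⟩)

/-- from good fibres to taming forms -/
theorem tamedN [CompactSpace X] [T2Space X] [T2Space N]
    (hJ : IsAlmostComplex J) (hτs : IsSmooth τ) (hτ : ∀ x, TamesAt τ J x) (h : Sys J K₀ s f w)
    {ζ : Form (n + 2) X 2} (hζ : IsSmooth ζ) (hall : ∀ y, GoodN J K₀ s f ζ y) :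
    ∃ ρ, ExactF ρ ∧ ∃ t₀ : ℝ, 0 < t₀ ∧ ∀ t : ℝ, 0 < t → t ≤ t₀ →
      ∀ x, TamesAt (s + t • (ζ + ρ)) J x := by
  obtain ⟨ρ, hρ, h2⟩ := hasP_allN hJ hτs hτ h hζ hall
  exact ⟨ρ, hρ, tame_smallN hJ hτs hτ h.ssmooth h.nonneg (hζ.add (exactF_smooth hρ)) h2⟩

/-- the forms `s + t (ζ + ρ)` are smooth and closed -/
theorem comb_closedN {X : Type} [TopologicalSpace X] [ChartedSpace (E (n + 2)) X]
    [IsManifold (𝓡 (n + 2)) ∞ X] {s ζ ρ : Form (n + 2) X 2} (hs : IsSmooth s)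
    (hsc : IsClosedForm s) (hζ : IsSmooth ζ)
    (hζc : IsClosedForm ζ) (hρ : ExactF ρ) (t : ℝ) :
    IsSmooth (s + t • (ζ + ρ)) ∧ IsClosedForm (s + t • (ζ + ρ)) := by
  have h3 := exactF_smooth hρ
  refine ⟨hs.add ((hζ.add h3).smul t), ?_⟩
  have h4 := IsD.add hsc (IsD.smul (IsD.add hζc (exactF_closed hρ) hζ h3) t) hs
    ((hζ.add h3).smul t)
  have h5 : (0 : Form (n + 2) X 3) + t • (0 + 0) = 0 := by
    rw [add_zero, smul_zero, add_zero]
  rw [h5] at h4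
  exact h4

end Pool.Agent.L7h49.OG
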